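import Pool.Agent.Lib.MP_865fc0_ag.Defs

/-!
# Basic facts on the function field of `P^1 x P^1` and its standard charts
-/

open MvPolynomial

namespace Pool.Agent.Lib.LP

/-- The coordinate ring of the chart `s` of `P^1 x P^1`, as a `ℂ`-subspace of `K`. -/
noncomputable def R (s : Chart) : Submodule ℂ K := Subalgebra.toSubmodule (Ralg s)

theorem x_ne_zero : x ≠ 0 := by
  unfold x
  rw [Ne, FaithfulSMul.algebraMap_eq_zero_iff]
  exact X_ne_zero 0

theorem u_ne_zero : u ≠ 0 := by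
  unfold u
  rw [Ne, FaithfulSMul.algebraMap_eq_zero_iff]
  exact X_ne_zero 1

theorem wx_ne_zero (s : Chart) : wx s ≠ 0 := by
  unfold wx; split_ifs
  · exact x_ne_zero
  · exact one_ne_zero

theorem wu_ne_zero (s : Chart) : wu s ≠ 0 := by
  unfold wu; split_ifs
  · exact u_ne_zero
  · exact one_ne_zero

theorem w_ne_zero (s : Chart) : w s ≠ 0 := mul_ne_zero (wx_ne_zero s) (wu_ne_zero s)

/-- Laurent monomials. -/
noncomputable def mon (p : ℤ × ℤ) : K := x ^ p.1 * u ^ p.2

theorem mon_ne_zero (p : ℤ × ℤ) : mon p ≠ 0 :=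
  mul_ne_zero (zpow_ne_zero _ x_ne_zero) (zpow_ne_zero _ u_ne_zero)

theorem mon_add (p q : ℤ × ℤ) : mon (p + q) = mon p * mon q := by
  unfold mon
  rw [Prod.fst_add, Prod.snd_add, zpow_add₀ x_ne_zero, zpow_add₀ u_ne_zero]
  ring

theorem mon_zero : mon 0 = 1 := by simp [mon]

theorem mon_nat (i j : ℕ) :
    mon ((i : ℤ), (j : ℤ)) = algebraMap (MvPolynomial (Fin 2) ℂ) K
      (monomial (Finsupp.single 0 i + Finsupp.single 1 j) 1) := by
  have : (monomial (Finsupp.single (0 : Fin 2) i + Finsupp.single 1 j) (1 : ℂ))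
      = X 0 ^ i * X 1 ^ j := by
    rw [X_pow_eq_monomial, X_pow_eq_monomial, monomial_mul, one_mul]
  rw [this, map_mul, map_pow, map_pow]
  simp [mon, x, u]

theorem linearIndependent_mon : LinearIndependent ℂ mon := by
  rw [linearIndependent_iff']
  intro s g hg p hp
  -- shift by a large monomial
  obtain ⟨N, hN⟩ : ∃ N : ℕ, ∀ q ∈ s, 0 ≤ q.1 + N ∧ 0 ≤ q.2 + N := by
    refine ⟨∑ q ∈ s, (q.1.natAbs + q.2.natAbs), fun q hq => ?_⟩
    have h1 : q.1.natAbs + q.2.natAbs ≤ ∑ q ∈ s, (q.1.natAbs + q.2.natAbs) :=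
      Finset.single_le_sum (f := fun q : ℤ × ℤ => q.1.natAbs + q.2.natAbs)
        (fun _ _ => Nat.zero_le _) hq
    omega
  let e : ℤ × ℤ → (Fin 2 →₀ ℕ) := fun q =>
    Finsupp.single 0 (q.1 + N).toNat + Finsupp.single 1 (q.2 + N).toNat
  have he : ∀ q ∈ s, mon q * mon ((N : ℤ), (N : ℤ)) =
      algebraMap (MvPolynomial (Fin 2) ℂ) K (monomial (e q) 1) := by
    intro q hq
    rw [← mon_add, ← mon_nat]
    congr 1
    ext
    · simp [Int.toNat_of_nonneg (hN q hq).1]
    · simp [Int.toNat_of_nonneg (hN q hq).2]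
  have hsum : algebraMap (MvPolynomial (Fin 2) ℂ) K (∑ q ∈ s, monomial (e q) (g q)) = 0 := by
    have h2 : (∑ q ∈ s, g q • mon q) * mon ((N : ℤ), (N : ℤ)) = 0 := by rw [hg, zero_mul]
    rw [Finset.sum_mul] at h2
    rw [map_sum, ← h2]
    refine Finset.sum_congr rfl fun q hq => ?_
    rw [smul_mul_assoc, he q hq]
    have : (monomial (e q) (g q) : MvPolynomial (Fin 2) ℂ) = g q • monomial (e q) 1 := by
      rw [smul_monomial, smul_eq_mul, mul_one]
    rw [this, ← IsScalarTower.toAlgHom_apply ℂ (MvPolynomial (Fin 2) ℂ) K, map_smul]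
    rfl
  rw [FaithfulSMul.algebraMap_eq_zero_iff] at hsum
  have hc := congrArg (coeff (e p)) hsum
  rw [coeff_sum, coeff_zero] at hc
  rw [Finset.sum_eq_single p] at hc
  · simpa using hc
  · intro q hq hqp
    rw [coeff_monomial, if_neg]
    intro heq
    apply hqp
    have h0 := DFunLike.congr_fun heq 0
    have h1 := DFunLike.congr_fun heq 1
    simp [e] at h0 h1
    have := hN q hq; have := hN p hp
    ext <;> omega
  · intro h; exact absurd hp h

end Pool.Agent.Lib.LP
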