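import Pool.Agent.Lib.MP_865fc0_ag.Lattice

/-!
# Bounding the sections of a lattice
-/

open scoped Pointwise

namespace Pool.Agent.Lib.LP

section fg

variable {A : Type*} [CommRing A] [Algebra ℂ A]
variable {M : Type*} [AddCommGroup M] [Module ℂ M] [Module A M] [IsScalarTower ℂ A M]

theorem smul_eq_map₂ (I : Submodule ℂ A) (N : Submodule ℂ M) :
    I • N = Submodule.map₂ (Algebra.lsmul ℂ ℂ M : A →ₐ[ℂ] Module.End ℂ M).toLinearMap I N := by
  apply le_antisymm
  · rw [Submodule.smul_le]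
    intro r hr n hn
    exact Submodule.apply_mem_map₂ _ hr hn
  · rw [Submodule.map₂_le]
    intro r hr n hn
    exact Submodule.smul_mem_smul hr hn

theorem fg_smul {I : Submodule ℂ A} {N : Submodule ℂ M} (hI : I.FG) (hN : N.FG) :
    (I • N).FG := by
  rw [smul_eq_map₂]; exact hI.map₂ _ hN

theorem fg_line (a : A) : (line a).FG := Submodule.fg_span_singleton a

end fg

theorem Box_finite (n : ℤ) : (Box n).Finite := by
  apply Set.Finite.subset (Set.Finite.prod (Set.finite_Icc 0 n) (Set.finite_Icc 0 n))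
  intro p hp
  exact ⟨⟨hp.1.1, hp.1.2⟩, ⟨hp.2.1, hp.2.2⟩⟩

theorem fg_W (n : ℤ) : (W n).FG :=
  Submodule.fg_span ((Box_finite n).image _)

theorem exists_poly_mem_W (p : MvPolynomial (Fin 2) ℂ) :
    ∃ N : ℕ, algebraMap (MvPolynomial (Fin 2) ℂ) K p ∈ W N := by
  induction p using MvPolynomial.induction_on with
  | C a =>
    refine ⟨0, ?_⟩
    have h := (W (0 : ℕ)).smul_mem a (one_mem_W 0)
    convert h using 1
    rw [← MvPolynomial.algebraMap_eq, ← IsScalarTower.algebraMap_apply ℂ _ K,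
      Algebra.algebraMap_eq_smul_one]
  | add p q hp hq =>
    obtain ⟨N, hN⟩ := hp
    obtain ⟨M, hM⟩ := hq
    refine ⟨max N M, ?_⟩
    rw [map_add]
    exact Submodule.add_mem _ (W_mono (by simp) hN) (W_mono (by simp) hM)
  | mul_X p i hp =>
    obtain ⟨N, hN⟩ := hp
    refine ⟨N + 1, ?_⟩
    rw [map_mul]
    push_cast
    rw [← Nat.cast_one, ← W_mul_W]
    refine Submodule.mul_mem_mul hN ?_
    fin_cases i
    · have := w_mem_W (true, false)
      simpa [w, wx, wu, x] using this
    · have := w_mem_W (false, true)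
      simpa [w, wx, wu, u] using this

theorem exists_denom (S : Finset K) : ∃ d : K, d ≠ 0 ∧ ∃ N : ℕ, ∀ z ∈ S, d * z ∈ W N := by
  obtain ⟨b, hb⟩ := IsLocalization.exist_integer_multiples_of_finset
    (nonZeroDivisors (MvPolynomial (Fin 2) ℂ)) S
  have h : ∀ z ∈ S, ∃ N : ℕ, algebraMap (MvPolynomial (Fin 2) ℂ) K b * z ∈ W N := by
    intro z hz
    obtain ⟨p, hp⟩ := hb z hz
    obtain ⟨N, hN⟩ := exists_poly_mem_W p
    refine ⟨N, ?_⟩
    rw [hp] at hN
    rwa [Algebra.smul_def] at hN
  choose! N hN using h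
  refine ⟨algebraMap (MvPolynomial (Fin 2) ℂ) K b, ?_, ∑ z ∈ S, N z, fun z hz => ?_⟩
  · rw [Ne, FaithfulSMul.algebraMap_eq_zero_iff]
    exact nonZeroDivisors.coe_ne_zero b
  · refine W_mono ?_ (hN z hz)
    exact_mod_cast Finset.single_le_sum (f := N) (fun _ _ => Nat.zero_le _) hz

section

variable {V : Type*} [AddCommGroup V] [Module ℂ V] [Module K V] [IsScalarTower ℂ K V]
variable {F G : Chart → Submodule ℂ V}

/-- The sections of a lattice are bounded by those of a free one. -/
theorem IsLat.exists_bound' [Module.Finite K V] (hF : ∀ s, ∃ T : Submodule ℂ V, T.FG ∧ F s ≤ R s • T) :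
    ∃ (d : ℕ) (b : Module.Basis (Fin d) K V) (c : K) (N : ℕ), c ≠ 0 ∧
      ∀ n : ℕ, ∀ v ∈ Sec F n n, ∀ i, c * b.repr v i ∈ W (n + N) := by
  choose T hTfg hT using hF
  let b := Module.finBasis K V
  obtain ⟨t, ht⟩ : (⨆ s, T s).FG := Submodule.fg_iSup _ hTfg
  classical
  obtain ⟨c, hc, N, hN⟩ := exists_denom
    ((t ×ˢ (Finset.univ : Finset (Fin (Module.finrank K V)))).image fun p => b.repr p.1 p.2)
  refine ⟨_, b, c, N, hc, fun n v hv i => ?_⟩
  rw [← iInf_w_pow_R, Submodule.mem_iInf]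
  intro s
  -- coordinates of elements of `T`
  have hcoord : ∀ y ∈ (⨆ s, T s), ∀ i, c * b.repr y i ∈ W N := by
    intro y hy i
    rw [← ht] at hy
    induction hy using Submodule.span_induction with
    | mem y hy =>
      apply hN
      rw [Finset.mem_image]
      exact ⟨(y, i), by simpa using hy, rfl⟩
    | zero => simp
    | add y z _ _ hy hz =>
      rw [map_add, Finsupp.add_apply, mul_add]; exact Submodule.add_mem _ hy hz
    | smul a y _ hy =>
      have : b.repr (a • y) i = a • b.repr y i := by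
        rw [← algebraMap_smul K a y, map_smul, Finsupp.smul_apply, algebraMap_smul]
      rw [this, mul_smul_comm]; exact Submodule.smul_mem _ _ hy
  have hcoord2 : ∀ y ∈ R s • T s, c * b.repr y i ∈ line (w s ^ N) * R s := by
    intro y hy
    refine Submodule.smul_induction_on hy ?_ ?_
    · intro r hr y hy
      rw [map_smul, Finsupp.smul_apply, smul_eq_mul]
      have h1 : c * b.repr y i ∈ W N := hcoord y ((le_iSup T s) hy) i
      have h2 : c * (r * b.repr y i) = r * (c * b.repr y i) := by ring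
      rw [h2]
      have := Submodule.mul_mem_mul hr h1
      rw [R_mul_W] at this
      exact this
    · intro y z hy hz
      rw [map_add, Finsupp.add_apply, mul_add]; exact Submodule.add_mem _ hy hz
  have h3 := hcoord2 _ (hT s ((mem_Sec_diag.1 hv) s))
  rw [map_smul, Finsupp.smul_apply, smul_eq_mul] at h3
  have h4 := Submodule.mul_mem_mul (mem_line_self (w s ^ n)) h3
  rw [← mul_assoc, line_mul_line, ← pow_add] at h4
  have h5 : w s ^ n * (c * ((w s ^ n)⁻¹ * b.repr v i)) = c * b.repr v i := by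
    have := pow_ne_zero n (w_ne_zero s)
    field_simp
  rw [h5] at h4
  have h6 : w s ^ ((n : ℤ) + N) = w s ^ (n + N) := by
    rw [← Nat.cast_add, zpow_natCast]
  rw [h6]
  exact h4

theorem IsLat.exists_bound [Module.Finite K V] (hF : IsLat F) :
    ∃ G0 : Submodule ℂ V, G0.FG ∧ ∀ n : ℕ, Sec F n n ≤ W n • G0 := by
  obtain ⟨d, b, c, N, hc, h⟩ := IsLat.exists_bound' (F := F)
    (fun s => by obtain ⟨T, hT, h⟩ := hF.fg s; exact ⟨T, hT, h.le⟩)
  refine ⟨W N • Submodule.span ℂ (Set.range fun i => c⁻¹ • b i), ?_, ?_⟩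
  · exact fg_smul (fg_W N) (Submodule.fg_span (Set.finite_range _))
  · intro n v hv
    rw [smul_smul_sub, W_mul_W]
    have hv2 : v = ∑ i, (c * b.repr v i) • (c⁻¹ • b i) := by
      conv_lhs => rw [← b.sum_repr v]
      refine Finset.sum_congr rfl fun i _ => ?_
      rw [smul_smul]
      congr 1
      field_simp
    rw [hv2]
    refine Submodule.sum_mem _ fun i _ => ?_
    exact Submodule.smul_mem_smul (h n v hv i) (Submodule.subset_span ⟨i, rfl⟩)

theorem IsLat.fg_Sec [Module.Finite K V] (hF : IsLat F) (n : ℕ) : (Sec F n n).FG := by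
  obtain ⟨G0, hG0, h⟩ := hF.exists_bound
  have h1 : (W n • G0).FG := fg_smul (fg_W n) hG0
  exact Submodule.FG.of_le h1 (h n)

end

end Pool.Agent.Lib.LP
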