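import Pool.Agent.Lib.MP_865fc0_ag.Hilb

/-!
# Euler characteristics of lattices
-/

open scoped Pointwise
open Filter

namespace Pool.Agent.Lib.LP

theorem IsBil.add {p q : ℤ → ℤ → ℤ} (hp : IsBil p) (hq : IsBil q) :
    IsBil (fun a b => p a b + q a b) := by
  obtain ⟨A, α, β, γ, h⟩ := hp
  obtain ⟨A', α', β', γ', h'⟩ := hq
  exact ⟨A + A', α + α', β + β', γ + γ', fun a b => by beta_reduce; rw [h, h']; ring⟩

theorem IsBil.neg {p : ℤ → ℤ → ℤ} (hp : IsBil p) : IsBil (fun a b => - p a b) := by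
  obtain ⟨A, α, β, γ, h⟩ := hp
  exact ⟨-A, -α, -β, -γ, fun a b => by beta_reduce; rw [h]; ring⟩

theorem IsBil.sub {p q : ℤ → ℤ → ℤ} (hp : IsBil p) (hq : IsBil q) :
    IsBil (fun a b => p a b - q a b) := by
  have := hp.add hq.neg
  simpa [sub_eq_add_neg] using this

theorem IsBil.shift {p : ℤ → ℤ → ℤ} (hp : IsBil p) (c d : ℤ) :
    IsBil (fun a b => p (a + c) (b + d)) := by
  obtain ⟨A, α, β, γ, h⟩ := hp
  exact ⟨A, α + A * d, β + A * c, γ + α * c + β * d + A * c * d, fun a b => by beta_reduce; rw [h]; ring⟩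

/-- A bilinear polynomial function vanishing far out on all diagonals is zero. -/
theorem IsBil.eq_zero {p : ℤ → ℤ → ℤ} (hp : IsBil p)
    (h : ∀ a b : ℤ, ∀ᶠ n : ℕ in atTop, p (n + a) (n + b) = 0) : ∀ a b, p a b = 0 := by
  obtain ⟨A, α, β, γ, hp⟩ := hp
  have key : ∀ a b : ℤ, A = 0 ∧ A * (a + b) + α + β = 0 ∧ A * a * b + α * a + β * b + γ = 0 := by
    intro a b
    obtain ⟨N, hN⟩ := eventually_atTop.1 (h a b)
    have h0 := hN N le_rfl
    have h1 := hN (N + 1) (by omega)
    have h2 := hN (N + 2) (by omega)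
    rw [hp] at h0 h1 h2
    push_cast at h0 h1 h2
    have hA : A = 0 := by
      have : 2 * A = 0 := by linear_combination h2 - 2 * h1 + h0
      omega
    subst hA
    have hB : α + β = 0 := by linear_combination h1 - h0
    refine ⟨rfl, by linear_combination hB, by linear_combination h0 - N * hB⟩
  intro a b
  rw [hp]
  exact (key a b).2.2

section

variable {V : Type*} [AddCommGroup V] [Module ℂ V] [Module K V] [IsScalarTower ℂ K V]
variable {V' : Type*} [AddCommGroup V'] [Module ℂ V'] [Module K V'] [IsScalarTower ℂ K V']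
variable {F G : Chart → Submodule ℂ V}

open Classical in
/-- The Euler characteristic `χ(F(a,b))`. -/
noncomputable def chi (F : Chart → Submodule ℂ V) : ℤ → ℤ → ℤ :=
  if h : ∃ p, IsBil p ∧ HasP F p then h.choose else 0

theorem IsLat.chi_bil [Module.Finite K V] (hF : IsLat F) : IsBil (chi F) := by
  unfold chi
  rw [dif_pos hF.exists_P]
  exact hF.exists_P.choose_spec.1

theorem IsLat.chi_spec [Module.Finite K V] (hF : IsLat F) : HasP F (chi F) := by
  unfold chi
  rw [dif_pos hF.exists_P]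
  exact hF.exists_P.choose_spec.2

theorem IsLat.chi_unique [Module.Finite K V] (hF : IsLat F) {p : ℤ → ℤ → ℤ} (hp : IsBil p)
    (h : HasP F p) (a b : ℤ) : chi F a b = p a b := by
  have := (hF.chi_bil.sub hp).eq_zero (fun a b => by
    filter_upwards [hF.chi_spec a b, h a b] with n h1 h2
    rw [← h1, ← h2, sub_self]) a b
  linarith

theorem IsLat.chi_tw [Module.Finite K V] (hF : IsLat F) (c d a b : ℤ) :
    chi (LP.tw c d F) a b = chi F (a + c) (b + d) := by
  refine (hF.tw c d).chi_unique (hF.chi_bil.shift c d) ?_ a b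
  intro a b
  filter_upwards [hF.chi_spec (a + c) (b + d)] with n hn
  unfold h0 at hn ⊢
  rw [Sec_tw, add_assoc, add_assoc]
  exact hn

theorem tw_sup (a b : ℤ) : tw a b (F ⊔ G) = tw a b F ⊔ tw a b G := by
  funext s
  unfold tw
  rw [Pi.sup_apply, Submodule.smul_sup]
  rfl

theorem tw_inf (a b : ℤ) : tw a b (F ⊓ G) = tw a b F ⊓ tw a b G := by
  funext s
  ext v
  rw [Pi.inf_apply, Submodule.mem_inf, mem_tw, mem_tw, mem_tw, Pi.inf_apply, Submodule.mem_inf]

theorem tw_mapL (φ : V →ₗ[K] V') (a b : ℤ) : tw a b (mapL φ F) = mapL φ (tw a b F) := by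
  funext s
  unfold tw mapL
  rw [map_smul_sub]

theorem tw_inf_ker (φ : V →ₗ[K] V') (a b : ℤ) :
    tw a b (fun s => F s ⊓ LinearMap.ker (φ.restrictScalars ℂ)) =
      fun s => tw a b F s ⊓ LinearMap.ker (φ.restrictScalars ℂ) := by
  funext s
  ext v
  rw [Submodule.mem_inf, mem_tw, mem_tw, Submodule.mem_inf]
  constructor
  · rintro ⟨h1, h2⟩
    refine ⟨h1, ?_⟩
    rw [LinearMap.mem_ker, LinearMap.restrictScalars_apply] at h2 ⊢
    rw [map_smul] at h2
    exact (smul_eq_zero.1 h2).resolve_left (inv_ne_zero (wab_ne_zero _ _ _))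
  · rintro ⟨h1, h2⟩
    refine ⟨h1, ?_⟩
    rw [LinearMap.mem_ker, LinearMap.restrictScalars_apply] at h2 ⊢
    rw [map_smul, h2, smul_zero]

theorem IsLat.chi_sup [Module.Finite K V] (hF : IsLat F) (hG : IsLat G) (a b : ℤ) :
    chi (F ⊔ G) a b + chi (F ⊓ G) a b = chi F a b + chi G a b := by
  have h1 := (((hF.sup hG).chi_bil.add (hF.inf hG).chi_bil).sub
    (hF.chi_bil.add hG.chi_bil)).eq_zero (fun a b => by
      filter_upwards [(hF.sup hG).chi_spec a b, (hF.inf hG).chi_spec a b, hF.chi_spec a b,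
        hG.chi_spec a b, (hF.tw a b).hf_sup (hG.tw a b)] with n h1 h2 h3 h4 h5
      rw [← h1, ← h2, ← h3, ← h4, ← hf_tw, ← hf_tw, ← hf_tw, ← hf_tw, tw_sup, tw_inf]
      have : ((hf (LP.tw a b F ⊔ LP.tw a b G) n + hf (LP.tw a b F ⊓ LP.tw a b G) n : ℕ) : ℤ) =
        ((hf (LP.tw a b F) n + hf (LP.tw a b G) n : ℕ) : ℤ) := by rw [h5]
      push_cast at this
      rw [this, sub_self]) a b
  linarith

theorem IsLat.chi_map [Module.Finite K V] [Module.Finite K V'] (hF : IsLat F) (φ : V →ₗ[K] V')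
    (a b : ℤ) :
    chi (mapL φ F) a b + chi (fun s => F s ⊓ LinearMap.ker (φ.restrictScalars ℂ)) a b =
      chi F a b := by
  have h1 := (((hF.map φ).chi_bil.add (hF.inf_ker φ).chi_bil).sub
    hF.chi_bil).eq_zero (fun a b => by
      filter_upwards [(hF.map φ).chi_spec a b, (hF.inf_ker φ).chi_spec a b, hF.chi_spec a b,
        (hF.tw a b).hf_map φ] with n h1 h2 h3 h5
      rw [← h1, ← h2, ← h3, ← hf_tw, ← hf_tw, ← hf_tw, tw_mapL, tw_inf_ker]
      have : ((hf (mapL φ (LP.tw a b F)) n +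
        hf (fun s => LP.tw a b F s ⊓ LinearMap.ker (φ.restrictScalars ℂ)) n : ℕ) : ℤ) =
        ((hf (LP.tw a b F) n : ℕ) : ℤ) := by rw [h5]
      push_cast at this
      rw [this, sub_self]) a b
  linarith

theorem IsLat.chi_map_of_injective [Module.Finite K V] [Module.Finite K V'] (hF : IsLat F)
    (φ : V →ₗ[K] V') (hφ : Function.Injective φ) (a b : ℤ) :
    chi (mapL φ F) a b = chi F a b := by
  have h1 := ((hF.map φ).chi_bil.sub hF.chi_bil).eq_zero (fun a b => by
      filter_upwards [(hF.map φ).chi_spec a b, hF.chi_spec a b,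
        (hF.tw a b).hf_map_of_injective φ hφ] with n h1 h3 h5
      rw [← h1, ← h3, ← hf_tw, ← hf_tw, tw_mapL, h5, sub_self]) a b
  linarith

theorem IsLat.chi_bot [Module.Finite K V] (a b : ℤ) :
    chi (⊥ : Chart → Submodule ℂ V) a b = 0 := by
  refine (IsLat.bot (V := V)).chi_unique (p := fun _ _ => 0)
    ⟨0, 0, 0, 0, fun a b => by ring⟩ ?_ a b
  intro a b
  filter_upwards with n
  unfold h0
  have h2 : Sec (⊥ : Chart → Submodule ℂ V) ((n : ℤ) + a) (n + b) = ⊥ := by
    rw [eq_bot_iff]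
    intro v hv
    rw [mem_Sec] at hv
    have h3 := hv (false, false)
    rw [Pi.bot_apply, Submodule.mem_bot] at h3
    rw [Submodule.mem_bot]
    exact (smul_eq_zero.1 h3).resolve_left (inv_ne_zero (wab_ne_zero _ _ _))
  rw [h2, finrank_bot]; rfl

/-- The leading coefficient of the Hilbert polynomial. -/
noncomputable def lead (F : Chart → Submodule ℂ V) : ℤ :=
  chi F 1 1 - chi F 1 0 - chi F 0 1 + chi F 0 0

/-- The coefficient of `a` in the Hilbert polynomial. -/
noncomputable def ca (F : Chart → Submodule ℂ V) : ℤ := chi F 1 0 - chi F 0 0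

/-- The coefficient of `b` in the Hilbert polynomial. -/
noncomputable def cb (F : Chart → Submodule ℂ V) : ℤ := chi F 0 1 - chi F 0 0

theorem IsLat.chi_eq [Module.Finite K V] (hF : IsLat F) (a b : ℤ) :
    chi F a b = lead F * a * b + ca F * a + cb F * b + chi F 0 0 := by
  obtain ⟨A, α, β, γ, h⟩ := hF.chi_bil
  unfold lead ca cb
  rw [h, h, h, h, h]; ring

end

end Pool.Agent.Lib.LP
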