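import Pool.Agent.Lib.MP_865fc0_ag.Noeth

/-!
# Closure properties of lattices
-/

open scoped Pointwise

namespace Pool.Agent.Lib.LP

instance (s : Chart) : IsNoetherianRing (Ralg s) := by
  have : Algebra.FiniteType ℂ (Ralg s) :=
    Algebra.FiniteType.adjoin_of_finite (Set.toFinite _)
  exact Algebra.FiniteType.isNoetherianRing ℂ (Ralg s)

section

variable {V : Type*} [AddCommGroup V] [Module ℂ V] [Module K V] [IsScalarTower ℂ K V]
variable {V' : Type*} [AddCommGroup V'] [Module ℂ V'] [Module K V'] [IsScalarTower ℂ K V']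
variable {F G : Chart → Submodule ℂ V}

theorem smul_R_span (s : Chart) (t : Set V) :
    (R s • Submodule.span ℂ t : Submodule ℂ V) =
      (Submodule.span (Ralg s) t).restrictScalars ℂ := by
  apply le_antisymm
  · rw [Submodule.smul_le]
    intro r hr v hv
    have h1 : v ∈ Submodule.span (Ralg s) t :=
      (Submodule.span_le.2 (Submodule.subset_span (R := Ralg s)) :
        Submodule.span ℂ t ≤ (Submodule.span (Ralg s) t).restrictScalars ℂ) hv
    exact (Submodule.span (Ralg s) t).smul_mem (⟨r, hr⟩ : Ralg s) h1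
  · intro v hv
    rw [Submodule.restrictScalars_mem] at hv
    induction hv using Submodule.span_induction with
    | mem v hv =>
      rw [← one_smul K v]
      exact Submodule.smul_mem_smul (one_mem_R s) (Submodule.subset_span hv)
    | zero => exact Submodule.zero_mem _
    | add a b _ _ ha hb => exact Submodule.add_mem _ ha hb
    | smul a b _ hb =>
      have h2 : (a : K) • b ∈ R s • (R s • Submodule.span ℂ t) :=
        Submodule.smul_mem_smul a.2 hb
      rw [smul_smul_sub, R_mul_R] at h2
      exact h2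

/-- Noetherianity: stable subspaces of finitely generated ones are finitely generated. -/
theorem exists_fg_of_le (s : Chart) {N : Submodule ℂ V} (hN : R s • N ≤ N)
    {T : Submodule ℂ V} (hT : T.FG) (hle : N ≤ R s • T) :
    ∃ T' : Submodule ℂ V, T'.FG ∧ N = R s • T' := by
  obtain ⟨t, rfl⟩ := hT
  let N' : Submodule (Ralg s) V :=
    { carrier := N
      add_mem' := N.add_mem
      zero_mem' := N.zero_mem
      smul_mem' := fun r v hv => hN (Submodule.smul_mem_smul r.2 hv) }
  have h1 : N' ≤ Submodule.span (Ralg s) (t : Set V) := by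
    intro v hv
    have := hle hv
    rw [smul_R_span] at this
    exact this
  have h2 : N'.FG :=
    @Submodule.FG.of_le (Ralg s) V _ _ _ _ _ _ (Submodule.fg_span t.finite_toSet) h1
  obtain ⟨g, hg⟩ := h2
  refine ⟨Submodule.span ℂ (g : Set V), Submodule.fg_span g.finite_toSet, ?_⟩
  rw [smul_R_span, hg]
  rfl

theorem map_smul_sub {A : Type*} [CommRing A] [Algebra ℂ A]
    {M M' : Type*} [AddCommGroup M] [Module ℂ M] [Module A M] [IsScalarTower ℂ A M]
    [AddCommGroup M'] [Module ℂ M'] [Module A M'] [IsScalarTower ℂ A M']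
    (φ : M →ₗ[A] M') (I : Submodule ℂ A) (N : Submodule ℂ M) :
    (I • N).map (φ.restrictScalars ℂ) = I • N.map (φ.restrictScalars ℂ) := by
  apply le_antisymm
  · rw [Submodule.map_le_iff_le_comap, Submodule.smul_le]
    intro r hr n hn
    rw [Submodule.mem_comap, LinearMap.restrictScalars_apply, map_smul]
    exact Submodule.smul_mem_smul hr (Submodule.mem_map_of_mem hn)
  · rw [Submodule.smul_le]
    rintro r hr _ ⟨n, hn, rfl⟩
    refine ⟨r • n, Submodule.smul_mem_smul hr hn, ?_⟩
    rw [LinearMap.restrictScalars_apply, LinearMap.restrictScalars_apply, map_smul]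

/-- The image of a lattice. -/
noncomputable def mapL (φ : V →ₗ[K] V') (F : Chart → Submodule ℂ V) : Chart → Submodule ℂ V' :=
  fun s => (F s).map (φ.restrictScalars ℂ)

theorem mem_mapL {φ : V →ₗ[K] V'} {s : Chart} {v : V'} :
    v ∈ mapL φ F s ↔ ∃ m ∈ F s, φ m = v := Iff.rfl

theorem IsLat.map (hF : IsLat F) (φ : V →ₗ[K] V') : IsLat (mapL φ F) where
  fg := by
    intro s
    obtain ⟨T, hT, h⟩ := hF.fg s
    refine ⟨T.map (φ.restrictScalars ℂ), hT.map _, ?_⟩
    unfold mapL
    rw [h, map_smul_sub]
  glue := by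
    rintro s t _ ⟨m, hm, rfl⟩
    obtain ⟨n, hn⟩ := hF.glue s t m hm
    refine ⟨n, (w s / w t) ^ n • m, hn, ?_⟩
    rw [LinearMap.restrictScalars_apply, LinearMap.restrictScalars_apply, map_smul]

/-- Restriction of a lattice to a `K`-subspace (kernel of a map). -/
theorem IsLat.inf_ker (hF : IsLat F) (φ : V →ₗ[K] V') :
    IsLat (fun s => F s ⊓ LinearMap.ker (φ.restrictScalars ℂ)) where
  fg := by
    intro s
    obtain ⟨T, hT, h⟩ := hF.fg s
    refine exists_fg_of_le s ?_ hT (inf_le_left.trans h.le)
    rw [Submodule.smul_le]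
    rintro r hr v ⟨hv1, hv2⟩
    refine ⟨hF.smul_mem hr hv1, ?_⟩
    simp only [SetLike.mem_coe, LinearMap.mem_ker, LinearMap.restrictScalars_apply] at hv2 ⊢
    rw [map_smul, hv2, smul_zero]
  glue := by
    rintro s t v ⟨hv1, hv2⟩
    obtain ⟨n, hn⟩ := hF.glue s t v hv1
    refine ⟨n, hn, ?_⟩
    simp only [SetLike.mem_coe, LinearMap.mem_ker, LinearMap.restrictScalars_apply] at hv2 ⊢
    rw [map_smul, hv2, smul_zero]

theorem IsLat.sup (hF : IsLat F) (hG : IsLat G) : IsLat (F ⊔ G) where
  fg := by
    intro s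
    obtain ⟨T, hT, h⟩ := hF.fg s
    obtain ⟨T', hT', h'⟩ := hG.fg s
    exact ⟨T ⊔ T', hT.sup hT', by rw [Pi.sup_apply, h, h', Submodule.smul_sup]⟩
  glue := by
    intro s t v hv
    rw [Pi.sup_apply, Submodule.mem_sup] at hv
    obtain ⟨a, ha, b, hb, rfl⟩ := hv
    obtain ⟨n, hn⟩ := hF.glue s t a ha
    obtain ⟨m, hm⟩ := hG.glue s t b hb
    refine ⟨max n m, ?_⟩
    rw [smul_add, Pi.sup_apply]
    exact Submodule.add_mem_sup (hF.glue_mono (le_max_left _ _) hn)
      (hG.glue_mono (le_max_right _ _) hm)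

theorem IsLat.inf (hF : IsLat F) (hG : IsLat G) : IsLat (F ⊓ G) where
  fg := by
    intro s
    obtain ⟨T, hT, h⟩ := hF.fg s
    refine exists_fg_of_le s ?_ hT (inf_le_left.trans h.le)
    rw [Submodule.smul_le]
    rintro r hr v ⟨hv1, hv2⟩
    exact ⟨hF.smul_mem hr hv1, hG.smul_mem hr hv2⟩
  glue := by
    rintro s t v ⟨hv1, hv2⟩
    obtain ⟨n, hn⟩ := hF.glue s t v hv1
    obtain ⟨m, hm⟩ := hG.glue s t v hv2
    exact ⟨max n m, hF.glue_mono (le_max_left _ _) hn, hG.glue_mono (le_max_right _ _) hm⟩

theorem IsLat.bot : IsLat (⊥ : Chart → Submodule ℂ V) where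
  fg := fun s => ⟨⊥, Submodule.fg_bot, by rw [Submodule.smul_bot]; rfl⟩
  glue := by
    intro s t v hv
    refine ⟨0, ?_⟩
    rw [Pi.bot_apply, Submodule.mem_bot] at hv ⊢
    rw [hv, smul_zero]

/-- Products of a lattice in an algebra with a lattice in a module. -/
theorem IsLat.smul {C : Type*} [CommRing C] [Algebra ℂ C] [Algebra K C] [IsScalarTower ℂ K C]
    [Module C V] [IsScalarTower ℂ C V] [IsScalarTower K C V]
    {D : Chart → Submodule ℂ C} (hD : IsLat D) (hF : IsLat F) : IsLat (fun s => D s • F s) where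
  fg := by
    intro s
    obtain ⟨T, hT, h⟩ := hD.fg s
    obtain ⟨T', hT', h'⟩ := hF.fg s
    refine ⟨T • T', fg_smul hT hT', ?_⟩
    have h2 : D s • F s = D s • T' := by
      apply le_antisymm
      · rw [Submodule.smul_le]
        intro a ha v hv
        rw [h'] at hv
        refine Submodule.smul_induction_on hv ?_ ?_
        · intro r hr v hv
          rw [smul_comm]
          have : r • a ∈ D s := hD.smul_mem hr ha
          rw [← smul_assoc]
          exact Submodule.smul_mem_smul this hv
        · intro v w hv hw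
          rw [smul_add]; exact Submodule.add_mem _ hv hw
      · refine Submodule.smul_mono le_rfl ?_
        rw [h']
        intro v hv
        rw [← one_smul K v]
        exact Submodule.smul_mem_smul (one_mem_R s) hv
    rw [h2, h]
    exact Submodule.smul_assoc (R s) T T'
  glue := by
    intro s t v hv
    refine Submodule.smul_induction_on hv ?_ ?_
    · intro a ha v hv
      obtain ⟨n, hn⟩ := hD.glue s t a ha
      obtain ⟨m, hm⟩ := hF.glue s t v hv
      refine ⟨n + m, ?_⟩
      have : (w s / w t) ^ (n + m) • a • v = ((w s / w t) ^ n • a) • ((w s / w t) ^ m • v) := by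
        rw [pow_add, mul_smul, smul_assoc, smul_comm a]
      rw [this]
      exact Submodule.smul_mem_smul hn hm
    · rintro a b ⟨n, hn⟩ ⟨m, hm⟩
      refine ⟨max n m, ?_⟩
      rw [smul_add]
      have hmono : ∀ {n m : ℕ} {v : V}, n ≤ m → (w s / w t) ^ n • v ∈ D t • F t →
          (w s / w t) ^ m • v ∈ D t • F t := by
        intro n m v hnm h
        obtain ⟨k, rfl⟩ := Nat.exists_eq_add_of_le hnm
        rw [pow_add, mul_comm, mul_smul]
        refine Submodule.smul_induction_on h ?_ ?_
        · intro a ha v hv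
          rw [smul_comm]
          exact Submodule.smul_mem_smul ha (hF.smul_mem (w_div_pow_mem s t k) hv)
        · intro v w hv hw
          rw [smul_add]; exact Submodule.add_mem _ hv hw
      exact Submodule.add_mem _ (hmono (le_max_left _ _) hn) (hmono (le_max_right _ _) hm)

end

end Pool.Agent.Lib.LP
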