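import Pool.Agent.Lib.MP_865fc0_ag.SurfRing

/-!
# The Hilbert polynomial of the structure sheaf
-/

set_option linter.unusedSectionVars false

open scoped Pointwise

namespace Pool.Agent.Lib.LP

theorem sum_axbx : ∑ χ : Lam, (ax χ : ℤ) = 12 ∧ ∑ χ : Lam, (bx χ : ℤ) = 12 ∧
    ∑ χ : Lam, (ax χ : ℤ) * (bx χ : ℤ) = 18 := by decide +kernel

section

variable {L : Type} [Field L] [Algebra ℂ L] [Algebra K L] [IsScalarTower ℂ K L]

theorem SurfData.finite (D : SurfData L) : Module.Finite K L := Module.Finite.of_basis D.basis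

/-- The component of index `χ`. -/
noncomputable def SurfData.comp (D : SurfData L) (J : Lam → Chart → Submodule ℂ K) (χ : Lam) :
    Chart → Submodule ℂ L :=
  mapL (LinearMap.toSpanSingleton K L (D.z χ)) (J χ)

theorem SurfData.z_ne_zero (D : SurfData L) (χ : Lam) : D.z χ ≠ 0 := D.li.ne_zero χ

theorem SurfData.chi_comp (D : SurfData L) {J : Lam → Chart → Submodule ℂ K} {χ : Lam}
    (hJ : IsLat (J χ)) (a b : ℤ) : chi (D.comp J χ) a b = chi (J χ) a b := by
  have := D.finite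
  apply hJ.chi_map_of_injective
  intro k k' h
  have h1 : k • D.z χ = k' • D.z χ := h
  have h2 : (k - k') • D.z χ = 0 := by rw [sub_smul, h1, sub_self]
  exact sub_eq_zero.1 ((smul_eq_zero.1 h2).resolve_right (D.z_ne_zero χ))

theorem SurfData.repr_of_mem_sup (D : SurfData L) (J : Lam → Chart → Submodule ℂ K)
    (T : Finset Lam) (s : Chart) {v : L} (hv : v ∈ T.sup (D.comp J) s) {χ : Lam} (hχ : χ ∉ T) :
    D.basis.repr v χ = 0 := by
  rw [sup_apply'] at hv
  have key : T.sup (fun ψ => D.comp J ψ s) ≤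
      LinearMap.ker ((D.basis.coord χ).restrictScalars ℂ) := by
    apply Finset.sup_le
    intro ψ hψ y hy
    obtain ⟨m, hm, rfl⟩ := hy
    change D.basis.repr (m • D.z ψ) χ = 0
    rw [← D.basis_apply ψ, map_smul, D.basis.repr_self, Finsupp.smul_apply,
      Finsupp.single_apply, if_neg, smul_zero]
    rintro rfl
    exact hχ hψ
  exact key hv

theorem SurfData.chi_sup (D : SurfData L) (J : Lam → Chart → Submodule ℂ K)
    (hJ : ∀ χ, IsLat (J χ)) (a b : ℤ) (T : Finset Lam) :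
    chi (T.sup (D.comp J)) a b = ∑ χ ∈ T, chi (J χ) a b := by
  classical
  have := D.finite
  have hc : ∀ χ, IsLat (D.comp J χ) := fun χ => (hJ χ).map _
  induction T using Finset.induction_on with
  | empty =>
    rw [Finset.sup_empty, Finset.sum_empty]
    exact IsLat.chi_bot a b
  | insert i T hi ih =>
    rw [Finset.sup_insert, Finset.sum_insert hi, ← ih, ← D.chi_comp (hJ i)]
    have h1 := (hc i).chi_sup (isLat_finset_sup T (D.comp J) fun χ _ => hc χ) a b
    have h2 : D.comp J i ⊓ T.sup (D.comp J) = ⊥ := by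
      rw [eq_bot_iff]
      rintro s v ⟨hv1, hv2⟩
      have h3 := D.repr_of_mem_sup J T s hv2 hi
      obtain ⟨m, hm, rfl⟩ := hv1
      have h4 : D.basis.repr (m • D.z i) i = 0 := h3
      rw [← D.basis_apply i, map_smul, D.basis.repr_self, Finsupp.smul_apply,
        Finsupp.single_eq_same, smul_eq_mul, mul_one] at h4
      change (LinearMap.toSpanSingleton K L (D.z i)) m = 0
      rw [h4, map_zero]
    rw [h2, IsLat.chi_bot, add_zero] at h1
    exact h1

theorem SurfData.chi_sumL (D : SurfData L) (J : Lam → Chart → Submodule ℂ K)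
    (hJ : ∀ χ, IsLat (J χ)) (a b : ℤ) :
    chi (D.sumL J) a b = ∑ χ, chi (J χ) a b :=
  D.chi_sup J hJ a b Finset.univ

end

theorem surfChi (L : Type) [Field L] [Algebra ℂ L] [Algebra K L] [IsScalarTower ℂ K L] :
    SurfChi L := by
  rintro hI ⟨D⟩ a b
  rw [strSheaf_eq hI D, D.chi_sumL _ fun χ => isLat_R.tw _ _]
  have h1 : ∀ χ : Lam, chi (tw (-(ax χ : ℤ)) (-(bx χ : ℤ)) R) a b =
      (a + 1) * (b + 1) - (b + 1) * (ax χ : ℤ) - (a + 1) * (bx χ : ℤ) +
        (ax χ : ℤ) * (bx χ : ℤ) := by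
    intro χ
    rw [isLat_R.chi_tw, chi_R]
    ring
  obtain ⟨h2, h3, h4⟩ := sum_axbx
  have h5 : Fintype.card Lam = 8 := by decide
  have h6 : ∑ χ : Lam, ((a + 1) * (b + 1) - (b + 1) * (ax χ : ℤ) - (a + 1) * (bx χ : ℤ) +
      (ax χ : ℤ) * (bx χ : ℤ)) = (∑ χ : Lam, (a + 1) * (b + 1)) -
      (b + 1) * (∑ χ : Lam, (ax χ : ℤ)) - (a + 1) * (∑ χ : Lam, (bx χ : ℤ)) +
      ∑ χ : Lam, (ax χ : ℤ) * (bx χ : ℤ) := by
    rw [Finset.sum_add_distrib, Finset.sum_sub_distrib, Finset.sum_sub_distrib, Finset.mul_sum,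
      Finset.mul_sum]
  have h7 : ∑ χ : Lam, (a + 1) * (b + 1) = 8 * ((a + 1) * (b + 1)) := by
    rw [Finset.sum_const, Finset.card_univ, h5, nsmul_eq_mul]
    rfl
  rw [Finset.sum_congr rfl fun χ _ => h1 χ, h6, h7, h2, h3, h4]
  ring

end Pool.Agent.Lib.LP
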