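import Pool.Agent.Lib.MP_865fc0_ag.SurfOmega

/-!
# The reduced ramification divisors
-/

set_option linter.unusedSectionVars false

open scoped Pointwise

namespace Pool.Agent.Lib.LP

/-- The product of the equations of the lines other than `β` which are ramified in `χ`. -/
noncomputable def oS (s : Chart) (β : Br) (χ : Lam) : K :=
  ∏ β' : Br with inert β' χ = 1 ∧ β' ≠ β, tS s β'

/-- The generator of the reduced ramification divisor of `β` in the eigenspace of `χ`. -/
noncomputable def gS (s : Chart) (β : Br) (χ : Lam) : K := if inert β χ = 1 then 1 else tS s β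

theorem gS_ne_zero (s : Chart) (β : Br) (χ : Lam) : gS s β χ ≠ 0 := by
  unfold gS
  split_ifs
  · exact one_ne_zero
  · exact tS_ne_zero s β

theorem gS_mem (s : Chart) (β : Br) (χ : Lam) : gS s β χ ∈ Ralg s := by
  unfold gS
  split_ifs
  · exact (Ralg s).one_mem
  · exact tS_mem s β

theorem pS_eq_oS (s : Chart) (β : Br) (χ : Lam) :
    pS s χ = (if inert β χ = 1 then tS s β else 1) * oS s β χ := by
  classical
  unfold pS oS
  have h : (Finset.univ.filter (fun β' : Br => inert β' χ = 1 ∧ β' ≠ β)) =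
      (Finset.univ.filter (fun β' : Br => inert β' χ = 1)).erase β := by
    ext β'
    simp only [Finset.mem_filter, Finset.mem_univ, true_and, Finset.mem_erase, and_comm]
  rw [h]
  by_cases hβ : inert β χ = 1
  · rw [if_pos hβ, Finset.mul_prod_erase]
    simp [hβ]
  · rw [if_neg hβ, one_mul, Finset.erase_eq_of_notMem]
    simp [hβ]

theorem gS_mul_self (s : Chart) (β : Br) (χ : Lam) :
    gS s β χ * gS s β χ * pS s χ = tS s β * (gS s β χ * oS s β χ) := by
  rw [pS_eq_oS s β χ]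
  unfold gS
  split_ifs <;> ring

theorem gS_span (s : Chart) (β : Br) :
    ∃ c : Lam → K, (∀ χ, c χ ∈ Ralg s) ∧ ∑ χ, c χ * (gS s β χ * oS s β χ) = 1 := by
  classical
  let t : Br → Ralg s := fun β => ⟨tS s β, tS_mem s β⟩
  let N : Lam → Ralg s := fun χ => ⟨gS s β χ, gS_mem s β χ⟩ *
    ∏ β' : Br with inert β' χ = 1 ∧ β' ≠ β, t β'
  have hN : ∀ χ, ((N χ : Ralg s) : K) = gS s β χ * oS s β χ := by
    intro χ
    change gS s β χ * ((∏ β' : Br with inert β' χ = 1 ∧ β' ≠ β, t β' : Ralg s) : K) = _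
    unfold oS
    have := map_prod (Ralg s).val t (Finset.univ.filter
      (fun β' : Br => inert β' χ = 1 ∧ β' ≠ β))
    congr 1
  have htop : Ideal.span (Set.range N) = ⊤ := by
    by_contra hne
    obtain ⟨p, hp, hle⟩ := Ideal.exists_le_maximal _ hne
    have hpp : p.IsPrime := hp.isPrime
    have hNp : ∀ χ, N χ ∈ p := fun χ => hle (Ideal.subset_span ⟨χ, rfl⟩)
    have huniq : ∀ β β' : Br, β.1 = β'.1 → t β ∈ p → t β' ∈ p → β = β' := by
      intro β β' hb h2 h3
      by_contra hne'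
      have h4 := pq_ne (s := s) hb hne'
      have h5 : algebraMap ℂ (Ralg s) (pc s β' * qc s β - pc s β * qc s β') =
          algebraMap ℂ (Ralg s) (pc s β') * t β - algebraMap ℂ (Ralg s) (pc s β) * t β' := by
        apply Subtype.ext
        change algebraMap ℂ K (pc s β' * qc s β - pc s β * qc s β') =
          algebraMap ℂ K (pc s β') * tS s β - algebraMap ℂ K (pc s β) * tS s β'
        rw [tS_eq s β, tS_eq s β', hb, map_sub, map_mul, map_mul]
        ring
      have h6 : algebraMap ℂ (Ralg s) (pc s β' * qc s β - pc s β * qc s β') ∈ p := by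
        rw [h5]
        exact p.sub_mem (p.mul_mem_left _ h2) (p.mul_mem_left _ h3)
      have h7 : IsUnit (algebraMap ℂ (Ralg s) (pc s β' * qc s β - pc s β * qc s β')) :=
        (isUnit_iff_ne_zero.2 h4).map _
      exact hpp.ne_top (Ideal.eq_top_of_isUnit_mem _ h6 h7)
    have ht : t β ∈ p := by
      have h1 := hNp 0
      have h2 : N 0 = t β := by
        have h3 : (Finset.univ.filter (fun β' : Br => inert β' (0 : Lam) = 1 ∧ β' ≠ β)) = ∅ := by
          simp [inert_zeroE]
        have h4 : (⟨gS s β 0, gS_mem s β 0⟩ : Ralg s) = t β := by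
          apply Subtype.ext
          change gS s β 0 = tS s β
          unfold gS
          rw [inert_zeroE, if_neg (by decide)]
        change (⟨gS s β 0, gS_mem s β 0⟩ : Ralg s) * ∏ β' : Br with
          inert β' (0 : Lam) = 1 ∧ β' ≠ β, t β' = t β
        rw [h3, h4, Finset.prod_empty, mul_one]
      rwa [h2] at h1
    have h1 : ∀ χ, inert β χ = 1 → ∃ β', inert β' χ = 1 ∧ β'.1 ≠ β.1 ∧ t β' ∈ p := by
      intro χ hχ
      have h2 := hNp χ
      have h4 : (⟨gS s β χ, gS_mem s β χ⟩ : Ralg s) = 1 := by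
        apply Subtype.ext
        change gS s β χ = 1
        unfold gS
        rw [if_pos hχ]
      have h5 : N χ = ∏ β' : Br with inert β' χ = 1 ∧ β' ≠ β, t β' := by
        change (⟨gS s β χ, gS_mem s β χ⟩ : Ralg s) * ∏ β' : Br with
          inert β' χ = 1 ∧ β' ≠ β, t β' = _
        rw [h4, one_mul]
      rw [h5, Ideal.IsPrime.prod_mem_iff] at h2
      obtain ⟨β', hβ', h3⟩ := h2
      obtain ⟨-, h6, h7⟩ := Finset.mem_filter.1 hβ'
      exact ⟨β', h6, fun h8 => h7 (huniq β' β h8 h3 ht), h3⟩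
    obtain ⟨χ0, hχ0⟩ := exists_char_one β
    obtain ⟨β0, -, hβ0, hβ0p⟩ := h1 χ0 hχ0
    obtain ⟨χ, hχ1, hχ2⟩ := exists_char β β0 hβ0
    obtain ⟨β', hβ'1, hβ'2, hβ'3⟩ := h1 χ hχ1
    have h8 : β' = β0 := huniq β' β0 (bool_aux hβ'2 hβ0) hβ'3 hβ0p
    rw [h8, hχ2] at hβ'1
    exact absurd hβ'1 (by decide)
  have h1 : (1 : Ralg s) ∈ Ideal.span (Set.range N) := by rw [htop]; trivial
  rw [Ideal.mem_span_range_iff_exists_fun] at h1
  obtain ⟨c, hc⟩ := h1
  refine ⟨fun χ => c χ, fun χ => (c χ).2, ?_⟩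
  have h2 : (Ralg s).val (∑ i, c i * N i) = 1 := congrArg (Ralg s).val hc
  rw [map_sum] at h2
  rw [← h2]
  apply Finset.sum_congr rfl
  intro χ _
  rw [← hN χ]
  rfl

/-- The isotypic component of the ideal sheaf of the reduced ramification divisor. -/
noncomputable def JD (β : Br) (χ : Lam) : Chart → Submodule ℂ K :=
  if inert β χ = 1 then tw (-(ax χ : ℤ)) (-(bx χ : ℤ)) R
    else sm (tB β) (tw (-(ax χ : ℤ) - (if β.1 then 0 else 1))
      (-(bx χ : ℤ) - (if β.1 then 1 else 0)) R)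

theorem isLat_JD (β : Br) (χ : Lam) : IsLat (JD β χ) := by
  unfold JD
  by_cases h : inert β χ = 1
  · rw [if_pos h]
    exact isLat_R.tw _ _
  · rw [if_neg h]
    exact (isLat_R.tw _ _).sm _

/-- The product of the equations of the lines ramified in both characters. -/
noncomputable def bS (s : Chart) (χ ψ : Lam) : K :=
  ∏ β : Br with inert β χ = 1 ∧ inert β ψ = 1, tS s β

theorem bS_mem (s : Chart) (χ ψ : Lam) : bS s χ ψ ∈ Ralg s :=
  (Ralg s).prod_mem fun β _ => tS_mem s β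

theorem bS_eq (s : Chart) (β : Br) (χ ψ : Lam) (h1 : inert β χ = 1) (h2 : inert β ψ = 1) :
    ∃ r ∈ Ralg s, bS s χ ψ = tS s β * r := by
  classical
  refine ⟨∏ β' ∈ (Finset.univ.filter (fun β : Br => inert β χ = 1 ∧ inert β ψ = 1)).erase β,
    tS s β', (Ralg s).prod_mem fun β _ => tS_mem s β, ?_⟩
  unfold bS
  rw [Finset.mul_prod_erase]
  simp [h1, h2]

theorem inert_cases : ∀ (β : Br) (χ : Lam), inert β χ = 1 ∨ inert β χ = 0 := by decide +kernel

theorem gS_mul_gS (s : Chart) (β : Br) (χ ψ : Lam) :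
    ∃ r ∈ Ralg s, gS s β χ * gS s β ψ * bS s χ ψ = tS s β * r := by
  by_cases h1 : inert β χ = 1
  · by_cases h2 : inert β ψ = 1
    · obtain ⟨r, hr, h⟩ := bS_eq s β χ ψ h1 h2
      refine ⟨r, hr, ?_⟩
      unfold gS
      rw [if_pos h1, if_pos h2, h]
      ring
    · refine ⟨gS s β χ * bS s χ ψ, (Ralg s).mul_mem (gS_mem s β χ) (bS_mem s χ ψ), ?_⟩
      have h3 : gS s β ψ = tS s β := by unfold gS; rw [if_neg h2]
      rw [h3]
      ring
  · refine ⟨gS s β ψ * bS s χ ψ, (Ralg s).mul_mem (gS_mem s β ψ) (bS_mem s χ ψ), ?_⟩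
    have h3 : gS s β χ = tS s β := by unfold gS; rw [if_neg h1]
    rw [h3]
    ring

theorem gS_mul_bS (s : Chart) (β : Br) (χ ψ : Lam) :
    ∃ r ∈ Ralg s, gS s β χ * bS s χ ψ = r * gS s β (χ + ψ) := by
  rcases inert_cases β (χ + ψ) with h | h
  · refine ⟨gS s β χ * bS s χ ψ, (Ralg s).mul_mem (gS_mem s β χ) (bS_mem s χ ψ), ?_⟩
    have h3 : gS s β (χ + ψ) = 1 := by unfold gS; rw [if_pos h]
    rw [h3, mul_one]
  · have h3 : gS s β (χ + ψ) = tS s β := by unfold gS; rw [if_neg (by rw [h]; decide)]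
    rw [h3]
    by_cases h1 : inert β χ = 1
    · have h2 : inert β ψ = 1 := by
        rw [inert_add, h1] at h
        rcases inert_cases β ψ with h4 | h4
        · exact h4
        · rw [h4] at h; exact absurd h (by decide)
      obtain ⟨r, hr, h⟩ := bS_eq s β χ ψ h1 h2
      refine ⟨r, hr, ?_⟩
      unfold gS
      rw [if_pos h1, h]
      ring
    · have h4 : gS s β χ = tS s β := by unfold gS; rw [if_neg h1]
      refine ⟨bS s χ ψ, bS_mem s χ ψ, ?_⟩
      rw [h4, mul_comm]

section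

variable {L : Type} [Field L] [Algebra ℂ L] [Algebra K L] [IsScalarTower ℂ K L]

theorem SurfData.sum_zs (D : SurfData L) (s : Chart) (v : L) :
    v = ∑ χ, algebraMap K L (D.basis.repr v χ * (wx s ^ ax χ * wu s ^ bx χ)) * D.zs s χ := by
  conv_lhs => rw [← D.repr_sum v]
  apply Finset.sum_congr rfl
  intro χ _
  unfold SurfData.zs
  rw [← mul_assoc, ← map_mul, Algebra.smul_def, mul_assoc, mul_inv_cancel₀ (W_ne_zero s χ),
    mul_one]

theorem SurfData.repr_sum_zs (D : SurfData L) (s : Chart) (f : Lam → K) (χ : Lam) :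
    D.basis.repr (∑ ψ, algebraMap K L (f ψ) * D.zs s ψ) χ * (wx s ^ ax χ * wu s ^ bx χ) = f χ := by
  have h4 : ∑ χ, algebraMap K L (f χ) * D.zs s χ =
      ∑ χ, (f χ * (wx s ^ ax χ * wu s ^ bx χ)⁻¹) • D.z χ := by
    apply Finset.sum_congr rfl
    intro χ _
    unfold SurfData.zs
    rw [← mul_assoc, ← map_mul, Algebra.smul_def]
  rw [h4, D.repr_eq, mul_assoc, inv_mul_cancel₀ (W_ne_zero s χ), mul_one]

/-- The ideal sheaf of the reduced ramification divisor over the line `β`. -/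
noncomputable def SurfData.dL (D : SurfData L) (β : Br) : Chart → Submodule ℂ L :=
  D.sumL (JD β)

theorem tB_ne_zero (β : Br) : tB β ≠ 0 := by
  have h := tS_ne_zero (false, false) β
  unfold tS at h
  intro h1
  rw [h1, zero_div] at h
  exact h rfl

theorem isLat_dL (D : SurfData L) (β : Br) : IsLat (D.dL β) :=
  D.isLat_sumL _ (isLat_JD β)

theorem mem_dL_iff (D : SurfData L) (β : Br) (s : Chart) (v : L) :
    v ∈ D.dL β s ↔
      ∀ χ, D.basis.repr v χ * (wx s ^ ax χ * wu s ^ bx χ) * (gS s β χ)⁻¹ ∈ Ralg s := by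
  unfold SurfData.dL
  rw [D.mem_sumL]
  apply forall_congr'
  intro χ
  unfold JD
  have hx := wx_ne_zero s
  have hu := wu_ne_zero s
  have ht := tB_ne_zero β
  by_cases h : inert β χ = 1
  · rw [if_pos h, mem_tw]
    have h1 : (wx s ^ (-(ax χ : ℤ)) * wu s ^ (-(bx χ : ℤ)))⁻¹ = wx s ^ ax χ * wu s ^ bx χ := by
      rw [mul_inv, zpow_neg, zpow_neg, inv_inv, inv_inv, zpow_natCast, zpow_natCast]
    have h2 : gS s β χ = 1 := by unfold gS; rw [if_pos h]
    rw [h1, h2, inv_one, mul_one, smul_eq_mul, mul_comm]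
    exact Iff.rfl
  · rw [if_neg h, mem_sm ht, mem_tw]
    have h2 : gS s β χ = tS s β := by unfold gS; rw [if_neg h]
    have h3 : (wx s ^ (-(ax χ : ℤ) - (if β.1 then 0 else 1)) *
        wu s ^ (-(bx χ : ℤ) - (if β.1 then 1 else 0)))⁻¹ • (tB β)⁻¹ • D.basis.repr v χ =
        D.basis.repr v χ * (wx s ^ ax χ * wu s ^ bx χ) * (gS s β χ)⁻¹ := by
      rw [h2, smul_eq_mul, smul_eq_mul]
      unfold tS
      cases hb : β.1 with
      | false =>
        simp only [Bool.false_eq_true, if_false, sub_zero]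
        rw [zpow_sub₀ hx, zpow_neg, zpow_neg, zpow_natCast, zpow_natCast, zpow_one]
        field_simp
      | true =>
        simp only [if_true, sub_zero]
        rw [zpow_sub₀ hu, zpow_neg, zpow_neg, zpow_natCast, zpow_natCast, zpow_one]
        field_simp
    rw [h3]
    exact Iff.rfl

theorem mem_dL (D : SurfData L) (β : Br) (s : Chart) (v : L) :
    v ∈ D.dL β s ↔ ∃ r : Lam → K, (∀ χ, r χ ∈ Ralg s) ∧
      v = ∑ χ, algebraMap K L (r χ * gS s β χ) * D.zs s χ := by
  rw [mem_dL_iff]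
  constructor
  · intro h
    refine ⟨_, h, ?_⟩
    conv_lhs => rw [D.sum_zs s v]
    apply Finset.sum_congr rfl
    intro χ _
    rw [mul_assoc _ (gS s β χ)⁻¹, inv_mul_cancel₀ (gS_ne_zero s β χ), mul_one]
  · rintro ⟨r, hr, rfl⟩ χ
    rw [D.repr_sum_zs s (fun χ => r χ * gS s β χ), mul_assoc, mul_inv_cancel₀ (gS_ne_zero s β χ),
      mul_one]
    exact hr χ

theorem single_mem_dL (D : SurfData L) (β : Br) (s : Chart) {r : K} (hr : r ∈ Ralg s) (χ : Lam) :
    algebraMap K L (r * gS s β χ) * D.zs s χ ∈ D.dL β s := by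
  classical
  rw [mem_dL]
  refine ⟨fun ψ => if ψ = χ then r else 0, fun ψ => ?_, ?_⟩
  · simp only
    split_ifs
    · exact hr
    · exact (Ralg s).zero_mem
  · rw [Finset.sum_eq_single χ]
    · simp
    · intro ψ _ h
      simp [h]
    · intro h
      exact absurd (Finset.mem_univ _) h

theorem zs_mul' (D : SurfData L) (s : Chart) (χ ψ : Lam) :
    D.zs s χ * D.zs s ψ = algebraMap K L (bS s χ ψ) * D.zs s (χ + ψ) := zs_mul D s χ ψ

theorem zs_zero (D : SurfData L) (s : Chart) : D.zs s 0 = 1 := by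
  unfold SurfData.zs
  rw [D.z_zero]
  have h1 : ax 0 = 0 := by decide
  have h2 : bx 0 = 0 := by decide
  simp [h1, h2]

/-- `dL β` is stable under multiplication by functions. -/
theorem dL_mul_mem (hI : SurfIntegral L) (D : SurfData L) (β : Br) (s : Chart) {m a : L}
    (hm : m ∈ D.dL β s) (ha : a ∈ Oalg L s) : m * a ∈ D.dL β s := by
  rw [mem_dL] at hm
  obtain ⟨r, hr, rfl⟩ := hm
  have h1 := (mem_strSheaf hI D s a).1 ha
  rw [D.sum_zs s a, Finset.sum_mul_sum]
  apply Submodule.sum_mem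
  intro χ _
  apply Submodule.sum_mem
  intro ψ _
  obtain ⟨q, hq, hq1⟩ := gS_mul_bS s β χ ψ
  set g := D.basis.repr a ψ * (wx s ^ ax ψ * wu s ^ bx ψ) with hg
  have h2 : algebraMap K L (r χ * gS s β χ) * D.zs s χ * (algebraMap K L g * D.zs s ψ) =
      algebraMap K L (r χ * g * q * gS s β (χ + ψ)) * D.zs s (χ + ψ) := by
    have h3 : algebraMap K L (r χ * gS s β χ) * D.zs s χ * (algebraMap K L g * D.zs s ψ) =
      algebraMap K L (r χ * gS s β χ) * algebraMap K L g * (D.zs s χ * D.zs s ψ) := by ring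
    rw [h3, zs_mul', ← mul_assoc, ← map_mul, ← map_mul]
    congr 2
    linear_combination (r χ * g) * hq1
  rw [h2]
  exact single_mem_dL D β s ((Ralg s).mul_mem ((Ralg s).mul_mem (hr χ) (h1 ψ)) hq) _

theorem dL_le (D : SurfData L) (β : Br) : D.dL β ≤ strSheaf L := by
  intro s v hv
  rw [mem_dL] at hv
  obtain ⟨r, hr, rfl⟩ := hv
  change _ ∈ Oalg L s
  apply Subalgebra.sum_mem
  intro χ _
  exact (Oalg L s).mul_mem (algebraMap_mem_OalgI ((Ralg s).mul_mem (hr χ) (gS_mem s β χ)))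
    (zs_memI D s χ)

theorem dL_mul_strSheaf (hI : SurfIntegral L) (D : SurfData L) (β : Br) :
    D.dL β * strSheaf L = D.dL β := by
  funext s
  apply le_antisymm
  · change D.dL β s * strSheaf L s ≤ D.dL β s
    rw [Submodule.mul_le]
    exact fun m hm a ha => dL_mul_mem hI D β s hm ha
  · intro m hm
    change m ∈ D.dL β s * strSheaf L s
    rw [← mul_one m]
    exact Submodule.mul_mem_mul hm (Oalg L s).one_mem

theorem tS_mem_dL_mul (D : SurfData L) (β : Br) (s : Chart) :
    algebraMap K L (tS s β) ∈ D.dL β s * D.dL β s := by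
  obtain ⟨c, hc, hc1⟩ := gS_span s β
  have h4 : ∀ χ, (algebraMap K L (c χ * gS s β χ) * D.zs s χ) *
      (algebraMap K L (1 * gS s β χ) * D.zs s χ) =
      algebraMap K L (c χ * (gS s β χ * oS s β χ)) * algebraMap K L (tS s β) := by
    intro χ
    have h5 : bS s χ χ = pS s χ := by
      unfold bS pS
      simp only [and_self]
    rw [mul_mul_mul_comm, zs_mul', lam_add_self, zs_zero, mul_one, h5, one_mul, ← map_mul,
      ← map_mul, ← map_mul]
    congr 1
    linear_combination (c χ) * gS_mul_self s β χ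
  have h3 : algebraMap K L (tS s β) = ∑ χ, (algebraMap K L (c χ * gS s β χ) * D.zs s χ) *
      (algebraMap K L (1 * gS s β χ) * D.zs s χ) := by
    rw [Finset.sum_congr rfl fun χ _ => h4 χ, ← Finset.sum_mul, ← map_sum, hc1, map_one, one_mul]
  rw [h3]
  apply Submodule.sum_mem
  intro χ _
  exact Submodule.mul_mem_mul (single_mem_dL D β s (hc χ) χ)
    (single_mem_dL D β s (Ralg s).one_mem χ)

theorem dL_mul_dL_apply (hI : SurfIntegral L) (D : SurfData L) (β : Br) (s : Chart) (v : L) :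
    v ∈ D.dL β s * D.dL β s ↔ ∃ n ∈ Oalg L s, algebraMap K L (tS s β) * n = v := by
  constructor
  · intro hv
    refine Submodule.mul_induction_on hv ?_ ?_
    · intro m hm n hn
      rw [mem_dL] at hm hn
      obtain ⟨r, hr, rfl⟩ := hm
      obtain ⟨r', hr', rfl⟩ := hn
      choose q hq hq1 using fun p : Lam × Lam => gS_mul_gS s β p.1 p.2
      refine ⟨∑ χ, ∑ ψ, algebraMap K L (r χ * r' ψ * q (χ, ψ)) * D.zs s (χ + ψ), ?_, ?_⟩
      · apply Subalgebra.sum_mem
        intro χ _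
        apply Subalgebra.sum_mem
        intro ψ _
        exact (Oalg L s).mul_mem (algebraMap_mem_OalgI ((Ralg s).mul_mem
          ((Ralg s).mul_mem (hr χ) (hr' ψ)) (hq (χ, ψ)))) (zs_memI D s _)
      · rw [Finset.sum_mul_sum, Finset.mul_sum]
        apply Finset.sum_congr rfl
        intro χ _
        rw [Finset.mul_sum]
        apply Finset.sum_congr rfl
        intro ψ _
        rw [mul_mul_mul_comm, zs_mul', ← mul_assoc, ← mul_assoc, ← map_mul, ← map_mul, ← map_mul]
        congr 2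
        linear_combination (-(r χ * r' ψ)) * hq1 (χ, ψ)
    · rintro _ _ ⟨n, hn, rfl⟩ ⟨m, hm, rfl⟩
      exact ⟨n + m, (Oalg L s).add_mem hn hm, mul_add _ _ _⟩
  · rintro ⟨n, hn, rfl⟩
    have h1 : algebraMap K L (tS s β) * n ∈ D.dL β s * D.dL β s * strSheaf L s :=
      Submodule.mul_mem_mul (tS_mem_dL_mul D β s) hn
    have h2 : D.dL β s * strSheaf L s = D.dL β s := congrFun (dL_mul_strSheaf hI D β) s
    rwa [mul_assoc, h2] at h1

theorem dL_mul_dL (hI : SurfIntegral L) (D : SurfData L) (β : Br) :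
    D.dL β * D.dL β = ln (algebraMap K L (tB β)) *
      tw (-(if β.1 then 0 else 1)) (-(if β.1 then 1 else 0)) (strSheaf L) := by
  funext s
  ext v
  have h1 : v ∈ (ln (algebraMap K L (tB β)) •
    tw (-(if β.1 then 0 else 1)) (-(if β.1 then 1 else 0)) (strSheaf L)) s ↔ _ := mem_ln_smul
  have h2 : (ln (algebraMap K L (tB β)) *
    tw (-(if β.1 then 0 else 1)) (-(if β.1 then 1 else 0)) (strSheaf L)) =
    (ln (algebraMap K L (tB β)) •
      tw (-(if β.1 then 0 else 1)) (-(if β.1 then 1 else 0)) (strSheaf L)) := rfl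
  rw [h2, h1]
  change v ∈ D.dL β s * D.dL β s ↔ _
  rw [dL_mul_dL_apply hI]
  have hx := wx_ne_zero s
  have hu := wu_ne_zero s
  have hw : wx s ^ (-(if β.1 then 0 else 1) : ℤ) * wu s ^ (-(if β.1 then 1 else 0) : ℤ) =
      (if β.1 then wu s else wx s)⁻¹ := by
    cases hb : β.1 with
    | false => simp
    | true => simp
  have hw0 : (if β.1 then wu s else wx s) ≠ 0 := by
    split_ifs
    · exact hu
    · exact hx
  constructor
  · rintro ⟨n, hn, rfl⟩
    refine ⟨algebraMap K L (if β.1 then wu s else wx s)⁻¹ * n, ?_, ?_⟩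
    · rw [mem_tw, hw, inv_inv, Algebra.smul_def, ← mul_assoc, ← map_mul, mul_inv_cancel₀ hw0,
        map_one, one_mul]
      exact hn
    · rw [smul_eq_mul, ← mul_assoc, ← map_mul]
      rfl
  · rintro ⟨n, hn, rfl⟩
    rw [mem_tw, hw, inv_inv] at hn
    refine ⟨_, hn, ?_⟩
    rw [Algebra.smul_def, ← mul_assoc, ← map_mul, smul_eq_mul]
    congr 2
    unfold tS
    exact div_mul_cancel₀ _ hw0

end

theorem surfD (L : Type) [Field L] [Algebra ℂ L] [Algebra K L] [IsScalarTower ℂ K L] :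
    SurfD L := by
  rintro hI ⟨D⟩
  constructor
  · intro β hβ
    refine ⟨D.dL β, isLat_dL D β, dL_mul_strSheaf hI D β, dL_le D β, ?_⟩
    rw [dL_mul_dL hI D β, hβ]
    rfl
  · intro β hβ
    refine ⟨D.dL β, isLat_dL D β, dL_mul_strSheaf hI D β, dL_le D β, ?_⟩
    rw [dL_mul_dL hI D β, hβ]
    rfl

end Pool.Agent.Lib.LP
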