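import Pool.Agent.Lib.MP_865fc0_ag.SurfData

/-!
# Existence of the `(ℤ/2)^3`-cover
-/

open Polynomial

namespace Pool.Agent.Lib.LP

theorem inert_addE (β : Br) (χ ψ : Lam) : inert β (χ + ψ) = inert β χ + inert β ψ := by
  obtain ⟨b, i, c⟩ := β
  obtain ⟨χ1, χ2, χ3⟩ := χ
  obtain ⟨ψ1, ψ2, ψ3⟩ := ψ
  cases b <;> fin_cases i <;> simp [inert] <;> ring

theorem inert_zeroE (β : Br) : inert β 0 = 0 := by
  obtain ⟨b, i, c⟩ := β
  cases b <;> fin_cases i <;> simp [inert]

theorem lam_ne_zero {χ : Lam} (h : χ ≠ 0) : ∃ i : Fin 3, inert (false, i, true) χ = 1 := by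
  revert χ
  decide

section sq

variable {Ω : Type} [Field Ω] [Algebra K Ω]

/-- The product of the square roots. -/
noncomputable def zz (s : Br → Ω) (χ : Lam) : Ω := ∏ β : Br with inert β χ = 1, s β

omit [Algebra K Ω] in
theorem zz_zero (s : Br → Ω) : zz s 0 = 1 := by
  unfold zz
  simp [inert_zeroE]

theorem zz_mul (s : Br → Ω) (hs : ∀ β, s β * s β = algebraMap K Ω (tB β)) (χ ψ : Lam) :
    zz s χ * zz s ψ = algebraMap K Ω (mB χ ψ) * zz s (χ + ψ) := by
  unfold zz mB
  rw [map_prod, Finset.prod_filter, Finset.prod_filter, Finset.prod_filter, Finset.prod_filter,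
    ← Finset.prod_mul_distrib, ← Finset.prod_mul_distrib]
  apply Finset.prod_congr rfl
  intro β _
  rw [inert_addE, ← hs]
  generalize inert β χ = a
  generalize inert β ψ = b
  have h2 : ∀ a : ZMod 2, a = 0 ∨ a = 1 := by decide
  rcases h2 a with rfl | rfl <;> rcases h2 b with rfl | rfl
  · simp
  · simp
  · simp
  · have : (1 + 1 : ZMod 2) ≠ 1 := by decide
    simp [this]

end sq

/-- The polynomial of which `zz s χ ^ 2` is the image. -/
noncomputable def pB (β : Br) : MvPolynomial (Fin 2) ℂ :=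
  (if β.1 then MvPolynomial.X 1 else MvPolynomial.X 0) - MvPolynomial.C (rt β)

theorem algebraMap_pB (β : Br) : algebraMap (MvPolynomial (Fin 2) ℂ) K (pB β) = tB β := by
  unfold pB tB u x
  rw [map_sub]
  congr 1
  · split_ifs <;> rfl

theorem rt_injectiveE {i j : Fin 3} {c d : Bool} (h : rt (false, i, c) = rt (false, j, d)) :
    i = j ∧ c = d := by
  unfold rt at h
  have key : ∀ i j : Fin 3, ∀ c d : Bool,
      (if c then -((i : ℕ) + 1 : ℤ) else ((i : ℕ) + 1 : ℤ)) =
        (if d then -((j : ℕ) + 1 : ℤ) else ((j : ℕ) + 1 : ℤ)) → i = j ∧ c = d := by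
    decide
  apply key
  have h' : (((if c then -((i : ℕ) + 1 : ℤ) else ((i : ℕ) + 1 : ℤ)) : ℤ) : ℂ) =
      (((if d then -((j : ℕ) + 1 : ℤ) else ((j : ℕ) + 1 : ℤ)) : ℤ) : ℂ) := by
    push_cast
    convert h using 1
  exact_mod_cast h'

theorem not_sq {χ : Lam} (h : χ ≠ 0) (k : K) : k * k ≠ ∏ β : Br with inert β χ = 1, tB β := by
  intro hk
  -- `k` is a polynomial
  obtain ⟨q, hq⟩ : ∃ q : MvPolynomial (Fin 2) ℂ, algebraMap _ K q = k := by
    rw [← IsIntegrallyClosed.isIntegral_iff (R := MvPolynomial (Fin 2) ℂ)]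
    apply IsIntegral.of_pow (n := 2) (by norm_num)
    rw [pow_two, hk]
    have : (∏ β : Br with inert β χ = 1, tB β) =
        algebraMap (MvPolynomial (Fin 2) ℂ) K (∏ β : Br with inert β χ = 1, pB β) := by
      rw [map_prod]
      exact Finset.prod_congr rfl fun β _ => (algebraMap_pB β).symm
    rw [this]
    exact isIntegral_algebraMap
  have hq2 : q * q = ∏ β : Br with inert β χ = 1, pB β := by
    apply IsFractionRing.injective (MvPolynomial (Fin 2) ℂ) K
    rw [map_mul, hq, hk, map_prod]
    exact Finset.prod_congr rfl fun β _ => (algebraMap_pB β).symm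
  -- specialize `u = 7`
  obtain ⟨i, hi⟩ := lam_ne_zero h
  let φ : MvPolynomial (Fin 2) ℂ →ₐ[ℂ] ℂ[X] := MvPolynomial.aeval ![X, C 7]
  have hφ0 : ∀ β : Br, β.1 = false → φ (pB β) = X - C (rt β) := by
    intro β hβ
    unfold pB
    rw [hβ]
    simp [φ]
  have hφ1 : ∀ β : Br, β.1 = true → φ (pB β) = C (7 - rt β) := by
    intro β hβ
    unfold pB
    rw [hβ]
    simp [φ]
  have h7 : ∀ β : Br, 7 - rt β ≠ 0 := by
    intro β h
    have key : ∀ β : Br, (7 : ℤ) - (if β.2.2 then -((β.2.1 : ℕ) + 1 : ℤ)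
      else ((β.2.1 : ℕ) + 1 : ℤ)) ≠ 0 := by decide
    apply key β
    unfold rt at h
    have h' : (((7 : ℤ) - (if β.2.2 then -((β.2.1 : ℕ) + 1 : ℤ)
      else ((β.2.1 : ℕ) + 1 : ℤ)) : ℤ) : ℂ) = 0 := by
      push_cast
      convert h using 1
    exact_mod_cast h'
  have h1 := congrArg φ hq2
  rw [map_mul, map_prod] at h1
  have hmem : (false, i, true) ∈ Finset.univ.filter (fun β : Br => inert β χ = 1) := by
    simpa using hi
  rw [← Finset.mul_prod_erase _ _ hmem, hφ0 _ rfl] at h1
  set r := rt (false, i, true) with hr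
  have hev : eval r (∏ β ∈ (Finset.univ.filter (fun β : Br => inert β χ = 1)).erase
      (false, i, true), φ (pB β)) ≠ 0 := by
    rw [eval_prod, Finset.prod_ne_zero_iff]
    intro β hβ
    rw [Finset.mem_erase] at hβ
    cases hb : β.1 with
    | false =>
      rw [hφ0 β hb, eval_sub, eval_X, eval_C]
      intro h
      apply hβ.1
      have h2 : rt (false, i, true) = rt (false, β.2.1, β.2.2) := by
        have : rt (false, β.2.1, β.2.2) = rt β := rfl
        rw [this]
        exact sub_eq_zero.1 h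
      have h3 := rt_injectiveE h2
      obtain ⟨b, j, c⟩ := β
      simp only at hb h3
      rw [hb, ← h3.1, ← h3.2]
    | true =>
      rw [hφ1 β hb, eval_C]
      exact h7 β
  have h2 : eval r (φ q) = 0 := by
    have := congrArg (eval r) h1
    rw [eval_mul, eval_mul, eval_sub, eval_X, eval_C, sub_self, zero_mul] at this
    exact mul_self_eq_zero.1 this
  obtain ⟨g, hg⟩ := dvd_iff_isRoot.2 h2
  rw [hg] at h1
  have h3 : (X - C r) * g * g = ∏ β ∈ (Finset.univ.filter (fun β : Br => inert β χ = 1)).erase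
      (false, i, true), φ (pB β) := by
    apply mul_left_cancel₀ (X_sub_C_ne_zero r)
    rw [← h1]
    ring
  apply hev
  rw [← h3, eval_mul, eval_mul, eval_sub, eval_X, eval_C, sub_self, zero_mul, zero_mul]

section ext

variable {Ω : Type} [Field Ω] [Algebra K Ω] [IsAlgClosed Ω] [Algebra.IsAlgebraic K Ω]

/-- Linear independence from enough commuting involutions. -/
theorem li_of_signs {F V ι : Type*} [Field F] [CharZero F] [AddCommGroup V] [Module F V]
    (v : ι → V) (hv : ∀ i, v i ≠ 0)
    (h : ∀ i j, i ≠ j → ∃ T : V →ₗ[F] V, (∀ k, T (v k) = v k ∨ T (v k) = - v k) ∧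
      T (v i) = v i ∧ T (v j) = - v j) : LinearIndependent F v := by
  classical
  have main : ∀ n : ℕ, ∀ s : Finset ι, s.card = n → ∀ g : ι → F, ∑ i ∈ s, g i • v i = 0 →
      ∀ i ∈ s, g i = 0 := by
    intro n
    induction n using Nat.strong_induction_on with
    | _ n ih =>
      intro s hs g hg i hi
      by_cases hj : ∃ j ∈ s, i ≠ j
      · obtain ⟨j, hjs, hij⟩ := hj
        obtain ⟨T, h1, h2, h3⟩ := h i j hij
        have h4 : ∑ k ∈ s, g k • (v k + T (v k)) = 0 := by
          simp only [smul_add]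
          rw [Finset.sum_add_distrib, hg, zero_add]
          have := congrArg T hg
          rw [map_sum, map_zero] at this
          rw [← this]
          exact Finset.sum_congr rfl fun k _ => (map_smul T _ _).symm
        have h5 : ∑ k ∈ s.filter (fun k => T (v k) = v k), (g k * 2) • v k = 0 := by
          rw [← h4, Finset.sum_filter]
          apply Finset.sum_congr rfl
          intro k _
          split_ifs with hk
          · rw [hk, ← two_smul F (v k), smul_smul]
          · rw [(h1 k).resolve_left hk, add_neg_cancel, smul_zero]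
        have h6 : (s.filter (fun k => T (v k) = v k)).card < n := by
          rw [← hs]
          apply Finset.card_lt_card
          rw [Finset.filter_ssubset]
          refine ⟨j, hjs, ?_⟩
          rw [h3]
          intro h7
          have h8 : (2 : F) • v j = 0 := by
            rw [two_smul]
            nth_rw 1 [← h7]
            rw [neg_add_cancel]
          rcases smul_eq_zero.1 h8 with h9 | h9
          · exact two_ne_zero h9
          · exact hv j h9
        have h7 := ih _ h6 _ rfl (fun k => g k * 2) h5 i (Finset.mem_filter.2 ⟨hi, h2⟩)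
        exact (mul_eq_zero.1 h7).resolve_right two_ne_zero
      · push Not at hj
        have h8 : s = {i} := by
          ext k
          rw [Finset.mem_singleton]
          exact ⟨fun hk => (hj k hk).symm, fun hk => hk ▸ hi⟩
        rw [h8, Finset.sum_singleton] at hg
        exact (smul_eq_zero.1 hg).resolve_right (hv i)
  rw [linearIndependent_iff']
  intro s g hg i hi
  exact main _ s rfl g hg i hi

theorem exists_sign (z : Ω) {a : K} (hz : z * z = algebraMap K Ω a) (hz' : ∀ k : K, k * k ≠ a) :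
    ∃ σ : Ω ≃ₐ[K] Ω, σ z = - z := by
  have hnot : z ∉ (⊥ : Subalgebra K Ω) := by
    rintro ⟨k, hk⟩
    apply hz' k
    apply (algebraMap K Ω).injective
    rw [map_mul, ← hz, ← hk]
    rfl
  have hsep : IsSeparable K z := Algebra.IsSeparable.isSeparable K z
  rw [notMem_iff_exists_ne_and_isConjRoot hsep (IsAlgClosed.splits _)] at hnot
  obtain ⟨y, hy, hc⟩ := hnot
  have : Normal K Ω := by
    have : IsAlgClosure K Ω := ⟨inferInstance, inferInstance⟩
    exact IsAlgClosure.normal K Ω
  obtain ⟨σ, hσ⟩ := hc.exists_algEquiv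
  have h1 : σ (y * y) = σ (z * z) := by
    rw [map_mul, hσ, hz, AlgEquiv.commutes]
  have h2 : y * y = z * z := σ.injective h1
  have h3 : y = - z := (mul_self_eq_mul_self_iff.1 h2).resolve_left (Ne.symm hy)
  rw [h3, map_neg] at hσ
  refine ⟨σ, ?_⟩
  exact neg_eq_iff_eq_neg.1 hσ

theorem lam_add_selfE : ∀ χ : Lam, χ + χ = 0 := by decide

theorem lam_add_ne : ∀ χ ψ : Lam, χ ≠ ψ → χ + ψ ≠ 0 := by decide

theorem zz_li (s : Br → Ω) (hs : ∀ β, s β * s β = algebraMap K Ω (tB β)) :
    LinearIndependent K (zz s) := by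
  have hne : ∀ χ, zz s χ ≠ 0 := by
    intro χ h
    have h1 := zz_mul s hs χ χ
    have h0 : χ + χ = 0 := lam_add_selfE χ
    rw [h, zero_mul, h0, zz_zero, mul_one] at h1
    have h2 : mB χ χ = 0 := by
      apply (algebraMap K Ω).injective
      rw [← h1, map_zero]
    unfold mB at h2
    rw [Finset.prod_eq_zero_iff] at h2
    obtain ⟨β, -, h3⟩ := h2
    rw [← algebraMap_pB, FaithfulSMul.algebraMap_eq_zero_iff] at h3
    have h4 := congrArg (MvPolynomial.eval (fun _ => rt β + 1)) h3
    unfold pB at h4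
    rw [map_sub] at h4
    split_ifs at h4 <;> simp at h4
  apply li_of_signs _ hne
  intro χ ψ hχψ
  have hsum : χ + ψ ≠ 0 := lam_add_ne χ ψ hχψ
  have hself : χ + ψ + (χ + ψ) = 0 := lam_add_selfE _
  have hsq : zz s (χ + ψ) * zz s (χ + ψ) =
      algebraMap K Ω (∏ β : Br with inert β (χ + ψ) = 1, tB β) := by
    rw [zz_mul s hs, hself, zz_zero, mul_one]
    congr 1
    unfold mB
    simp
  obtain ⟨σ, hσ⟩ := exists_sign (zz s (χ + ψ)) hsq (fun k => not_sq hsum k)
  have hsgn : ∀ θ, σ (zz s θ) = zz s θ ∨ σ (zz s θ) = - zz s θ := by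
    intro θ
    have h1 : θ + θ = 0 := lam_add_selfE θ
    have h2 : σ (zz s θ) * σ (zz s θ) = zz s θ * zz s θ := by
      rw [← map_mul, zz_mul s hs, h1, zz_zero, mul_one, AlgEquiv.commutes]
    exact mul_self_eq_mul_self_iff.1 h2
  have hprod : σ (zz s χ) * σ (zz s ψ) = - (zz s χ * zz s ψ) := by
    rw [← map_mul, zz_mul s hs, map_mul, AlgEquiv.commutes, hσ, mul_neg]
  have h0 : zz s χ * zz s ψ ≠ 0 := mul_ne_zero (hne χ) (hne ψ)
  have h00 : zz s χ * zz s ψ ≠ - (zz s χ * zz s ψ) := by
    intro h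
    have h2 : (2 : Ω) * (zz s χ * zz s ψ) = 0 := by
      rw [two_mul]
      nth_rw 2 [h]
      rw [add_neg_cancel]
    have : CharZero Ω := charZero_of_injective_algebraMap (algebraMap K Ω).injective
    rcases mul_eq_zero.1 h2 with h3 | h3
    · exact two_ne_zero h3
    · exact h0 h3
  rcases hsgn χ with h1 | h1 <;> rcases hsgn ψ with h2 | h2
  · exact absurd (by rw [← hprod, h1, h2]) h00
  · exact ⟨σ.toLinearMap, hsgn, h1, h2⟩
  · refine ⟨-σ.toLinearMap, fun θ => ?_, ?_, ?_⟩
    · rcases hsgn θ with h3 | h3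
      · right
        change - σ (zz s θ) = _
        rw [h3]
      · left
        change - σ (zz s θ) = _
        rw [h3, neg_neg]
    · change - σ (zz s χ) = _
      rw [h1, neg_neg]
    · change - σ (zz s ψ) = _
      rw [h2]
  · exact absurd (by rw [← hprod, h1, h2, neg_mul_neg]) h00

end ext

theorem surfExists : SurfExists := by
  classical
  let Ω := AlgebraicClosure K
  have hex : ∀ β : Br, ∃ s : Ω, s * s = algebraMap K Ω (tB β) := by
    intro β
    obtain ⟨s, hs⟩ := IsAlgClosed.exists_eq_mul_self (algebraMap K Ω (tB β))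
    exact ⟨s, hs.symm⟩
  choose s hs using hex
  let S : Subalgebra K Ω := (Submodule.span K (Set.range (zz s))).toSubalgebra
    (Submodule.subset_span ⟨0, zz_zero s⟩) (by
      intro a b ha hb
      induction ha, hb using Submodule.span_induction₂ with
      | mem_mem a b ha hb =>
        obtain ⟨χ, rfl⟩ := ha
        obtain ⟨ψ, rfl⟩ := hb
        rw [zz_mul s hs, ← Algebra.smul_def]
        exact Submodule.smul_mem _ _ (Submodule.subset_span ⟨_, rfl⟩)
      | zero_left y hy => rw [zero_mul]; exact Submodule.zero_mem _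
      | zero_right x hx => rw [mul_zero]; exact Submodule.zero_mem _
      | add_left x y z hx hy hz h1 h2 => rw [add_mul]; exact Submodule.add_mem _ h1 h2
      | add_right x y z hx hy hz h1 h2 => rw [mul_add]; exact Submodule.add_mem _ h1 h2
      | smul_left r x y hx hy h => rw [smul_mul_assoc]; exact Submodule.smul_mem _ _ h
      | smul_right r x y hx hy h => rw [mul_smul_comm]; exact Submodule.smul_mem _ _ h)
  let L : IntermediateField K Ω := subalgebraEquivIntermediateField S
  have hmem : ∀ y : Ω, y ∈ L ↔ y ∈ Submodule.span K (Set.range (zz s)) := fun y => Iff.rfl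
  let zL : Lam → L := fun χ => ⟨zz s χ, (hmem _).2 (Submodule.subset_span ⟨χ, rfl⟩)⟩
  let _ : Algebra ℂ L := ((algebraMap K L).comp (algebraMap ℂ K)).toAlgebra
  have hst : IsScalarTower ℂ K L := IsScalarTower.of_algebraMap_eq' rfl
  refine ⟨L, inferInstance, inferInstance, inferInstance, hst, ⟨⟨zL, ?_, ?_, ?_, ?_⟩⟩⟩
  · apply Subtype.ext
    exact zz_zero s
  · intro χ ψ
    apply Subtype.ext
    exact zz_mul s hs χ ψ
  · have h1 := zz_li s hs
    have h2 : (L.val.toLinearMap ∘ zL) = zz s := rfl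
    rw [← h2] at h1
    exact LinearIndependent.of_comp _ h1
  · rintro ⟨y, hy⟩ -
    have hy' := (hmem y).1 hy
    have h3 : Submodule.map L.val.toLinearMap (Submodule.span K (Set.range zL)) =
        Submodule.span K (Set.range (zz s)) := by
      rw [Submodule.map_span, ← Set.range_comp]
      rfl
    rw [← h3] at hy'
    obtain ⟨w, hw, hwy⟩ := hy'
    have : w = ⟨y, hy⟩ := Subtype.ext hwy
    rw [← this]
    exact hw

end Pool.Agent.Lib.LP
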