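import Pool.Agent.Lib.MP_865fc0_ag.Defs

/-!
# The data of the `(ℤ/2)^3`-cover of `P^1 × P^1`

`L` has a `K`-basis `z χ`, `χ ∈ Lam = (ℤ/2)^3`, with `z χ * z ψ = (∏ tB β) * z (χ + ψ)`, the product
being over the twelve branch lines `β : Br` with `inert β χ = 1 = inert β ψ`; in particular
`z χ ^ 2` is the product of the `tB β` with `inert β χ = 1`.
-/

namespace Pool.Agent.Lib.LP

/-- The group `(ℤ/2)^3` of characters. -/
abbrev Lam : Type := ZMod 2 × ZMod 2 × ZMod 2

/-- The twelve branch lines: `(false, i, ±)` is the line `x = ±(i+1)` and `(true, j, ±)` is the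
line `u = ±(j+1)`. -/
abbrev Br : Type := Bool × Fin 3 × Bool

/-- The inertia of a branch line, a linear form on `Lam`. -/
def inert (β : Br) (χ : Lam) : ZMod 2 :=
  match β.1, β.2.1 with
  | false, 0 => χ.1
  | false, 1 => χ.2.1
  | false, 2 => χ.2.2
  | true, 0 => χ.1 + χ.2.1
  | true, 1 => χ.2.1 + χ.2.2
  | true, 2 => χ.1 + χ.2.1 + χ.2.2

/-- The root corresponding to a branch line. -/
noncomputable def rt (β : Br) : ℂ := if β.2.2 then -((β.2.1 : ℕ) + 1 : ℂ) else ((β.2.1 : ℕ) + 1 : ℂ)

/-- The equation of a branch line: `x - c` or `u - c`, with `c = rt β`. -/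
noncomputable def tB (β : Br) : K := (if β.1 then u else x) - algebraMap ℂ K (rt β)

/-- The equation of a branch line in the chart `s`, an element of `Ralg s`. -/
noncomputable def tS (s : Chart) (β : Br) : K := tB β / (if β.1 then wu s else wx s)

/-- `z χ` has bidegree `(ax χ, bx χ)`. -/
def ax (χ : Lam) : ℕ := (Finset.univ.filter fun i : Fin 3 => inert (false, i, false) χ = 1).card

/-- `z χ` has bidegree `(ax χ, bx χ)`. -/
def bx (χ : Lam) : ℕ := (Finset.univ.filter fun i : Fin 3 => inert (true, i, false) χ = 1).card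

/-- The product of the equations of the lines ramified in both `χ` and `ψ`. -/
noncomputable def mB (χ ψ : Lam) : K := ∏ β : Br with inert β χ = 1 ∧ inert β ψ = 1, tB β

/-- A `(ℤ/2)^3`-cover of `P^1 × P^1` with the given branch data. -/
structure SurfData (L : Type*) [Field L] [Algebra K L] where
  z : Lam → L
  z_zero : z 0 = 1
  z_mul : ∀ χ ψ, z χ * z ψ = algebraMap K L (mB χ ψ) * z (χ + ψ)
  li : LinearIndependent K z
  span : ⊤ ≤ Submodule.span K (Set.range z)

/-- Spec of module `SurfExists`. -/
def SurfExists : Prop :=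
  ∃ (L : Type) (_ : Field L) (_ : Algebra ℂ L) (_ : Algebra K L) (_ : IsScalarTower ℂ K L),
    Nonempty (SurfData L)

section

variable (L : Type*) [Field L] [Algebra ℂ L] [Algebra K L] [IsScalarTower ℂ K L]

/-- The element `z χ` normalized in the chart `s`, an element of `Oalg L s`. -/
noncomputable def SurfData.zs {L : Type*} [Field L] [Algebra K L] (D : SurfData L) (s : Chart)
    (χ : Lam) : L := algebraMap K L (wx s ^ ax χ * wu s ^ bx χ)⁻¹ * D.z χ

/-- Spec of module `SurfIntegral`: `Oalg L s` is the direct sum of the `Ralg s * zs s χ`. -/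
def SurfIntegral : Prop :=
  ∀ (D : SurfData L) (s : Chart) (f : Lam → K),
    (∑ χ, algebraMap K L (f χ) * D.zs s χ) ∈ Oalg L s ↔ ∀ χ, f χ ∈ Ralg s

/-- Spec of module `SurfRegular` (may assume `SurfIntegral L`). -/
def SurfRegular : Prop := SurfIntegral L → Nonempty (SurfData L) → IsNonsingular L

/-- Spec of module `SurfH1` (may assume `SurfIntegral L`). -/
def SurfH1 : Prop := SurfIntegral L → Nonempty (SurfData L) → H1Vanishes L

end

end Pool.Agent.Lib.LP
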