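import Pool.Agent.Lib.MP_865fc0_ag.Mono
import Pool.Agent.Lib.MP_865fc0_ag.SurfData

/-!
# Vanishing of the first cohomology of the structure sheaf
-/

open scoped Pointwise

namespace Pool.Agent.Lib.LP

/-- The combinatorial part of the computation. -/
theorem cocycle_base {X Y : Bool → Prop} {c : Chart → Chart → ℂ}
    (h0 : ∀ s t r, c s t + c t r = c s r)
    (hz : ∀ s t : Chart, ¬ ((s.1 = t.1 → X s.1) ∧ (s.2 = t.2 → Y s.2)) → c s t = 0)
    (hXY : Y false → Y true → X false ∨ X true) (hYX : X false → X true → Y false ∨ Y true) :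
    ∃ s0 : Chart, ∀ s : Chart, ¬ (X s.1 ∧ Y s.2) → c s s0 = 0 := by
  have hrow : ∀ a y y', ¬ X a → c (a, y) (a, y') = 0 := by
    intro a y y' h
    apply hz
    intro h'
    exact h (h'.1 rfl)
  have hcol : ∀ b x x', ¬ Y b → c (x, b) (x', b) = 0 := by
    intro b x x' h
    apply hz
    intro h'
    exact h (h'.2 rfl)
  by_cases hX : ∃ a, ¬ X a
  · obtain ⟨a, ha⟩ := hX
    by_cases hY : ∃ b, ¬ Y b
    · obtain ⟨b, hb⟩ := hY
      refine ⟨(a, b), ?_⟩
      rintro ⟨s1, s2⟩ hs
      by_cases h1 : X s1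
      · have h2 : ¬ Y s2 := fun h => hs ⟨h1, h⟩
        rw [← h0 _ (a, s2) _, hcol _ _ _ h2, hrow _ _ _ ha, add_zero]
      · rw [← h0 _ (s1, b) _, hrow _ _ _ h1, hcol _ _ _ hb, add_zero]
    · push Not at hY
      refine ⟨(a, false), ?_⟩
      rintro ⟨s1, s2⟩ hs
      have h1 : ¬ X s1 := fun h => hs ⟨h, hY _⟩
      have h2 : s1 = a := by
        have h3 := hXY (hY _) (hY _)
        cases s1 <;> cases a <;> tauto
      subst h2
      exact hrow _ _ _ h1
  · push Not at hX
    by_cases hY : ∃ b, ¬ Y b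
    · obtain ⟨b, hb⟩ := hY
      refine ⟨(false, b), ?_⟩
      rintro ⟨s1, s2⟩ hs
      have h1 : ¬ Y s2 := fun h => hs ⟨hX _, h⟩
      have h2 : s2 = b := by
        have h3 := hYX (hX _) (hX _)
        cases s2 <;> cases b <;> tauto
      subst h2
      exact hcol _ _ _ h1
    · push Not at hY
      exact ⟨(false, false), fun s hs => absurd ⟨hX _, hY _⟩ hs⟩

theorem tB_mem (β : Br) : tB β ∈ MonS {k | (0 ≤ k.1 ∧ k.1 ≤ (if β.1 = false then 1 else 0)) ∧
    (0 ≤ k.2 ∧ k.2 ≤ (if β.1 = true then 1 else 0))} := by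
  unfold tB
  apply Submodule.sub_mem
  · cases h : β.1 with
    | false =>
      have : x = mon (1, 0) := by simp [mon]
      simp only [Bool.false_eq_true, if_false]
      rw [this]
      exact mon_mem_MonS (by simp)
    | true =>
      have : u = mon (0, 1) := by simp [mon]
      simp only [if_true]
      rw [this]
      exact mon_mem_MonS (by simp)
  · rw [Algebra.algebraMap_eq_smul_one, ← mon_zero]
    apply Submodule.smul_mem
    apply mon_mem_MonS
    refine ⟨⟨le_refl _, ?_⟩, le_refl _, ?_⟩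
    · show (0 : ℤ) ≤ _
      split_ifs <;> norm_num
    · show (0 : ℤ) ≤ _
      split_ifs <;> norm_num

theorem prod_tB_mem (T : Finset Br) : ∏ β ∈ T, tB β ∈
    MonS {k | (0 ≤ k.1 ∧ k.1 ≤ (T.filter (fun β => β.1 = false)).card) ∧
      (0 ≤ k.2 ∧ k.2 ≤ (T.filter (fun β => β.1 = true)).card)} := by
  classical
  induction T using Finset.induction_on with
  | empty =>
    rw [Finset.prod_empty, ← mon_zero]
    exact mon_mem_MonS (by simp)
  | insert β T hβ ih =>
    rw [Finset.prod_insert hβ]
    have h := Submodule.mul_mem_mul (tB_mem β) ih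
    rw [MonS_mul] at h
    apply MonS_mono _ h
    rintro _ ⟨p, hp, q, hq, rfl⟩
    simp only [Set.mem_ofPred_eq] at hp hq ⊢
    rw [Finset.filter_insert, Finset.filter_insert]
    cases hb : β.1 with
    | false =>
      simp only [hb, if_true, Bool.false_eq_true, if_false, Prod.fst_add, Prod.snd_add] at hp ⊢
      rw [Finset.card_insert_of_notMem (by simp [hβ])]
      push_cast
      omega
    | true =>
      simp only [hb, if_true, if_false, Prod.fst_add, Prod.snd_add, Bool.true_eq_false] at hp ⊢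
      rw [Finset.card_insert_of_notMem (by simp [hβ])]
      push_cast
      omega

theorem card_xH : ∀ χ ψ : Lam, ((Finset.univ.filter (fun β : Br => inert β χ = 1 ∧
    inert β ψ = 1)).filter (fun β => β.1 = false)).card + ax (χ + ψ) = ax χ + ax ψ := by
  decide

theorem card_uH : ∀ χ ψ : Lam, ((Finset.univ.filter (fun β : Br => inert β χ = 1 ∧
    inert β ψ = 1)).filter (fun β => β.1 = true)).card + bx (χ + ψ) = bx χ + bx ψ := by
  decide

theorem ax_zero_iff : ∀ χ : Lam, ax χ = 0 ↔ χ = 0 := by decide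

theorem bx_zero_iff : ∀ χ : Lam, bx χ = 0 ↔ χ = 0 := by decide

section

variable {L : Type*} [Field L] [Algebra ℂ L] [Algebra K L] [IsScalarTower ℂ K L]

/-- The elements `x ^ i * u ^ j * z χ`. -/
noncomputable def SurfData.bv (D : SurfData L) (e : (ℤ × ℤ) × Lam) : L := mon e.1 • D.z e.2

theorem SurfData.li_bv (D : SurfData L) : LinearIndependent ℂ D.bv :=
  linearIndependent_smul linearIndependent_mon D.li

/-- The condition on the exponent of `x`. -/
def XX (e : (ℤ × ℤ) × Lam) (b : Bool) : Prop :=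
  if b then e.1.1 ≤ -(ax e.2 : ℤ) else 0 ≤ e.1.1

/-- The condition on the exponent of `u`. -/
def YY (e : (ℤ × ℤ) × Lam) (b : Bool) : Prop :=
  if b then e.1.2 ≤ -(bx e.2 : ℤ) else 0 ≤ e.1.2

/-- The exponents occurring in the chart `s`. -/
def Al (s : Chart) : Set ((ℤ × ℤ) × Lam) := {e | XX e s.1 ∧ YY e s.2}

/-- The exponents occurring in the intersection of the charts `s` and `t`. -/
def Al2 (s t : Chart) : Set ((ℤ × ℤ) × Lam) :=
  {e | (s.1 = t.1 → XX e s.1) ∧ (s.2 = t.2 → YY e s.2)}

theorem mul_mem_Al2 (D : SurfData L) {s t : Chart} {e e' : (ℤ × ℤ) × Lam} (he : e ∈ Al s)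
    (he' : e' ∈ Al t) : D.bv e * D.bv e' ∈ Submodule.span ℂ (D.bv '' Al2 s t) := by
  obtain ⟨p, χ⟩ := e
  obtain ⟨q, ψ⟩ := e'
  have h1 : D.bv (p, χ) * D.bv (q, ψ) = (mon (p + q) * mB χ ψ) • D.z (χ + ψ) := by
    unfold SurfData.bv
    rw [smul_mul_smul_comm, D.z_mul, ← Algebra.smul_def, smul_smul, mon_add]
  rw [h1]
  have h2 : mB χ ψ ∈ _ := prod_tB_mem _
  have hx := card_xH χ ψ
  have hu := card_uH χ ψ
  set nx := ((Finset.univ.filter (fun β : Br => inert β χ = 1 ∧
    inert β ψ = 1)).filter (fun β => β.1 = false)).card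
  set nu := ((Finset.univ.filter (fun β : Br => inert β χ = 1 ∧
    inert β ψ = 1)).filter (fun β => β.1 = true)).card
  unfold MonS at h2
  generalize mB χ ψ = m at h2
  induction h2 using Submodule.span_induction with
  | mem y hy =>
    obtain ⟨k, hk, rfl⟩ := hy
    apply Submodule.subset_span
    refine ⟨(p + q + k, χ + ψ), ?_, ?_⟩
    · obtain ⟨h3, h4⟩ := he
      obtain ⟨h5, h6⟩ := he'
      simp only [Set.mem_ofPred_eq] at hk
      constructor
      · intro h7
        change s.1 = t.1 at h7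
        rw [← h7] at h5
        unfold XX at *
        simp only [Prod.fst_add] at *
        split_ifs at * <;> omega
      · intro h7
        change s.2 = t.2 at h7
        rw [← h7] at h6
        unfold YY at *
        simp only [Prod.snd_add] at *
        split_ifs at * <;> omega
    · unfold SurfData.bv
      rw [mon_add (p + q)]
  | zero => rw [mul_zero, zero_smul]; exact Submodule.zero_mem _
  | add a b _ _ ha hb => rw [mul_add, add_smul]; exact Submodule.add_mem _ ha hb
  | smul r a _ ha =>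
    rw [mul_smul_comm, smul_assoc]
    exact Submodule.smul_mem _ _ ha

theorem mon_mem_Ralg {s : Chart} {p : ℤ × ℤ} (hp : p ∈ Quad s 0) : mon p ∈ Ralg s := by
  have h : mon p ∈ R s := by
    rw [R_eq]
    exact mon_mem_MonS hp
  exact h

theorem wab_eq_monH (s : Chart) (a b : ℕ) :
    wx s ^ a * wu s ^ b = mon ((if s.1 then (a : ℤ) else 0), (if s.2 then (b : ℤ) else 0)) := by
  unfold wx wu mon
  split_ifs <;> simp

theorem Oalg_le (hI : SurfIntegral L) (D : SurfData L) (s : Chart) {v : L} (hv : v ∈ Oalg L s) :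
    v ∈ Submodule.span ℂ (D.bv '' Al s) := by
  have h1 : v ∈ Submodule.span K (Set.range D.z) := D.span Submodule.mem_top
  rw [Submodule.mem_span_range_iff_exists_fun] at h1
  obtain ⟨f, hf⟩ := h1
  have h2 : ∑ χ, algebraMap K L (f χ * (wx s ^ ax χ * wu s ^ bx χ)) * D.zs s χ = v := by
    rw [← hf]
    apply Finset.sum_congr rfl
    intro χ _
    unfold SurfData.zs
    rw [← mul_assoc, ← map_mul, Algebra.smul_def, mul_assoc, mul_inv_cancel₀, mul_one]
    exact mul_ne_zero (pow_ne_zero _ (wx_ne_zero s)) (pow_ne_zero _ (wu_ne_zero s))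
  rw [← h2, hI D s] at hv
  rw [← hf]
  apply Submodule.sum_mem
  intro χ _
  have h3 : f χ * (wx s ^ ax χ * wu s ^ bx χ) ∈ R s := hv χ
  rw [R_eq] at h3
  have h4 : f χ • D.z χ = ((f χ * (wx s ^ ax χ * wu s ^ bx χ)) *
      (wx s ^ ax χ * wu s ^ bx χ)⁻¹) • D.z χ := by
    rw [mul_assoc, mul_inv_cancel₀, mul_one]
    exact mul_ne_zero (pow_ne_zero _ (wx_ne_zero s)) (pow_ne_zero _ (wu_ne_zero s))
  rw [h4]
  generalize f χ * (wx s ^ ax χ * wu s ^ bx χ) = m at h3
  unfold MonS at h3
  induction h3 using Submodule.span_induction with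
  | mem y hy =>
    obtain ⟨k, hk, rfl⟩ := hy
    apply Submodule.subset_span
    refine ⟨(k - ((if s.1 then (ax χ : ℤ) else 0), (if s.2 then (bx χ : ℤ) else 0)), χ), ?_, ?_⟩
    · simp only [Quad, Set.mem_ofPred_eq] at hk
      unfold Al XX YY
      simp only [Set.mem_ofPred_eq, Prod.fst_sub, Prod.snd_sub]
      split_ifs at * <;> omega
    · unfold SurfData.bv
      congr 1
      rw [wab_eq_monH, eq_mul_inv_iff_mul_eq₀ (mon_ne_zero _), ← mon_add, sub_add_cancel]
  | zero => rw [zero_mul, zero_smul]; exact Submodule.zero_mem _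
  | add a b _ _ ha hb => rw [add_mul, add_smul]; exact Submodule.add_mem _ ha hb
  | smul r a _ ha =>
    rw [smul_mul_assoc, smul_assoc]
    exact Submodule.smul_mem _ _ ha

theorem bv_mem_Oalg (hI : SurfIntegral L) (D : SurfData L) (s : Chart) {e : (ℤ × ℤ) × Lam}
    (he : e ∈ Al s) : D.bv e ∈ Oalg L s := by
  classical
  obtain ⟨p, χ⟩ := e
  have h1 : D.bv (p, χ) = ∑ ψ, algebraMap K L (if ψ = χ then
      mon p * (wx s ^ ax χ * wu s ^ bx χ) else 0) * D.zs s ψ := by
    rw [Finset.sum_eq_single χ]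
    · rw [if_pos rfl]
      unfold SurfData.zs SurfData.bv
      rw [← mul_assoc, ← map_mul, Algebra.smul_def, mul_assoc, mul_inv_cancel₀, mul_one]
      exact mul_ne_zero (pow_ne_zero _ (wx_ne_zero s)) (pow_ne_zero _ (wu_ne_zero s))
    · intro ψ _ hψ
      rw [if_neg hψ, map_zero, zero_mul]
    · intro h
      exact absurd (Finset.mem_univ _) h
  rw [h1, hI D s]
  intro ψ
  split_ifs with h
  · rw [wab_eq_monH, ← mon_add]
    apply mon_mem_Ralg
    obtain ⟨h3, h4⟩ := he
    unfold XX at h3
    unfold YY at h4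
    simp only at h3 h4
    simp only [Quad, Set.mem_ofPred_eq, Prod.fst_add, Prod.snd_add]
    split_ifs at * <;> omega
  · exact (Ralg s).zero_mem

theorem sup_le_span (hI : SurfIntegral L) (D : SurfData L) (s t : Chart) {v : L}
    (hv : v ∈ Oalg L s ⊔ Oalg L t) : v ∈ Submodule.span ℂ (D.bv '' Al2 s t) := by
  have h1 : v ∈ Subalgebra.toSubmodule (Oalg L s ⊔ Oalg L t) := hv
  rw [← Subalgebra.mul_toSubmodule] at h1
  clear hv
  induction h1 using Submodule.mul_induction_on' with
  | mem_mul_mem m hm n hn =>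
    have hm' := Oalg_le hI D s hm
    have hn' := Oalg_le hI D t hn
    have h2 := Submodule.mul_mem_mul hm' hn'
    rw [Submodule.span_mul_span] at h2
    refine Submodule.span_le.2 ?_ h2
    rintro _ ⟨_, ⟨e, he, rfl⟩, _, ⟨e', he', rfl⟩, rfl⟩
    exact mul_mem_Al2 D he he'
  | add x _ y _ hx hy => exact Submodule.add_mem _ hx hy

end

theorem surfH1 (L : Type*) [Field L] [Algebra ℂ L] [Algebra K L] [IsScalarTower ℂ K L] :
    SurfH1 L := by
  classical
  rintro hI ⟨D⟩ c hc hcoc
  have hinj : Function.Injective (Finsupp.linearCombination ℂ D.bv) := D.li_bv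
  have h1 : ∀ s t, ∃ l ∈ Finsupp.supported ℂ ℂ (Al2 s t),
      Finsupp.linearCombination ℂ D.bv l = c s t := by
    intro s t
    have := sup_le_span hI D s t (hc s t)
    rw [Finsupp.mem_span_image_iff_linearCombination] at this
    exact this
  choose C hC hCc using h1
  have hadd : ∀ s t r, C s t + C t r = C s r := by
    intro s t r
    apply hinj
    rw [map_add, hCc, hCc, hCc, hcoc]
  have hbase : ∀ e, ∃ s0 : Chart, ∀ s : Chart, e ∉ Al s → C s s0 e = 0 := by
    intro e
    apply cocycle_base (X := XX e) (Y := YY e) (c := fun s t => C s t e)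
    · intro s t r
      rw [← hadd s t r]
      rfl
    · intro s t hst
      by_contra h
      exact hst ((Finsupp.mem_supported _ _).1 (hC s t) (Finsupp.mem_support_iff.2 h))
    · intro h2 h3
      unfold YY at h2 h3
      simp only [Bool.false_eq_true, if_false, if_true] at h2 h3
      have h4 : bx e.2 = 0 := by omega
      rw [bx_zero_iff, ← ax_zero_iff] at h4
      unfold XX
      simp only [Bool.false_eq_true, if_false, if_true]
      omega
    · intro h2 h3
      unfold XX at h2 h3
      simp only [Bool.false_eq_true, if_false, if_true] at h2 h3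
      have h4 : ax e.2 = 0 := by omega
      rw [ax_zero_iff, ← bx_zero_iff] at h4
      unfold YY
      simp only [Bool.false_eq_true, if_false, if_true]
      omega
  choose s0 hs0 using hbase
  let G : Chart → ((ℤ × ℤ) × Lam →₀ ℂ) := fun s => ∑ t, (C s t).filter (fun e => s0 e = t)
  have hG : ∀ s e, G s e = C s (s0 e) e := by
    intro s e
    change (∑ t, (C s t).filter (fun e => s0 e = t)) e = _
    rw [Finsupp.finsetSum_apply, Finset.sum_eq_single (s0 e)]
    · exact Finsupp.filter_apply_pos (fun e' => s0 e' = s0 e) _ rfl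
    · intro t _ ht
      exact Finsupp.filter_apply_neg (fun e' => s0 e' = t) _ (Ne.symm ht)
    · intro h
      exact absurd (Finset.mem_univ _) h
  refine ⟨fun s => Finsupp.linearCombination ℂ D.bv (G s), ?_, ?_⟩
  · intro s
    have h2 : G s ∈ Finsupp.supported ℂ ℂ (Al s) := by
      rw [Finsupp.mem_supported]
      intro e he
      by_contra h
      rw [Finset.mem_coe, Finsupp.mem_support_iff, hG] at he
      exact he (hs0 e s h)
    have h3 : Finsupp.linearCombination ℂ D.bv (G s) ∈ Submodule.span ℂ (D.bv '' Al s) := by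
      rw [Finsupp.mem_span_image_iff_linearCombination]
      exact ⟨G s, h2, rfl⟩
    have h4 : Submodule.span ℂ (D.bv '' Al s) ≤ Subalgebra.toSubmodule (Oalg L s) := by
      rw [Submodule.span_le]
      rintro _ ⟨e, he, rfl⟩
      exact bv_mem_Oalg hI D s he
    exact h4 h3
  · intro s t
    rw [← hCc, ← map_sub]
    congr 1
    ext e
    rw [Finsupp.sub_apply, hG, hG, ← hadd s t (s0 e), Finsupp.add_apply]
    ring

end Pool.Agent.Lib.LP
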