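import Pool.Agent.Lib.MP_865fc0_ag.Poly
import Pool.Agent.Lib.MP_865fc0_ag.SurfData

/-!
# The coordinate rings of the charts of the surface
-/

open MvPolynomial

namespace Pool.Agent.Lib.LP

/-! ### Lines are pairwise coprime -/

theorem irreducible_lin {i : Fin 2} {a b : ℂ} (ha : a ≠ 0) :
    Irreducible (C a * X i + C b : MvPolynomial (Fin 2) ℂ) := by
  have hc : coeff (Finsupp.single i 1) (C a * X i + C b : MvPolynomial (Fin 2) ℂ) = a := by
    rw [coeff_add, coeff_C_mul, coeff_X, if_pos rfl, mul_one, coeff_C, if_neg, add_zero]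
    exact (Finsupp.single_ne_zero.2 one_ne_zero).symm
  apply irreducible_of_totalDegree_eq_one
  · apply le_antisymm
    · refine (totalDegree_add _ _).trans (max_le ?_ ?_)
      · refine (totalDegree_mul _ _).trans ?_
        simp
      · simp
    · have h := le_totalDegree (p := (C a * X i + C b : MvPolynomial (Fin 2) ℂ))
        (s := Finsupp.single i 1) (by rw [mem_support_iff, hc]; exact ha)
      simpa using h
  · intro y hy
    have h1 := hy (Finsupp.single i 1)
    rw [hc] at h1
    rw [isUnit_iff_ne_zero]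
    rintro rfl
    exact ha (zero_dvd_iff.1 h1)

/-- Whether the coordinate on which `tS s β` depends is inverted in the chart `s`. -/
def flip (s : Chart) (β : Br) : Bool := if β.1 then s.2 else s.1

/-- The coordinate on which `tS s β` depends. -/
def co (β : Br) : Fin 2 := if β.1 then 1 else 0

/-- The polynomial whose image is `tS s β`. -/
noncomputable def tP (s : Chart) (β : Br) : MvPolynomial (Fin 2) ℂ :=
  if flip s β then C (-rt β) * X (co β) + C 1 else C 1 * X (co β) + C (-rt β)

theorem rt_ne_zeroI (β : Br) : rt β ≠ 0 := by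
  have key : ∀ β : Br, (if β.2.2 then -((β.2.1 : ℕ) + 1 : ℤ)
      else ((β.2.1 : ℕ) + 1 : ℤ)) ≠ 0 := by decide
  intro h
  apply key β
  unfold rt at h
  have h' : (((if β.2.2 then -((β.2.1 : ℕ) + 1 : ℤ)
      else ((β.2.1 : ℕ) + 1 : ℤ)) : ℤ) : ℂ) = 0 := by
    push_cast
    convert h using 1
  exact_mod_cast h'

theorem rt_inj' {β β' : Br} (h1 : β.1 = β'.1) (h2 : rt β = rt β') : β = β' := by
  have key : ∀ β β' : Br, β.1 = β'.1 → (if β.2.2 then -((β.2.1 : ℕ) + 1 : ℤ)
      else ((β.2.1 : ℕ) + 1 : ℤ)) = (if β'.2.2 then -((β'.2.1 : ℕ) + 1 : ℤ)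
      else ((β'.2.1 : ℕ) + 1 : ℤ)) → β = β' := by decide
  apply key β β' h1
  unfold rt at h2
  have h' : (((if β.2.2 then -((β.2.1 : ℕ) + 1 : ℤ) else ((β.2.1 : ℕ) + 1 : ℤ)) : ℤ) : ℂ) =
      (((if β'.2.2 then -((β'.2.1 : ℕ) + 1 : ℤ) else ((β'.2.1 : ℕ) + 1 : ℤ)) : ℤ) : ℂ) := by
    push_cast
    convert h2 using 1
  exact_mod_cast h'

theorem irreducible_tP (s : Chart) (β : Br) : Irreducible (tP s β) := by
  unfold tP
  split_ifs
  · exact irreducible_lin (neg_ne_zero.2 (rt_ne_zeroI β))
  · exact irreducible_lin one_ne_zero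

theorem not_dvd_tP (s : Chart) {β β' : Br} (h : β ≠ β') : ¬ tP s β ∣ tP s β' := by
  rintro ⟨q, hq⟩
  let v : Fin 2 → ℂ := fun i => if i = co β then (if flip s β then (rt β)⁻¹ else rt β) else 0
  have h0 : eval v (tP s β) = 0 := by
    unfold tP
    split_ifs with hf
    · simp only [map_add, map_mul, eval_C, eval_X, v, if_true, hf]
      rw [neg_mul, mul_inv_cancel₀ (rt_ne_zeroI β)]
      ring
    · simp only [map_add, map_mul, eval_C, eval_X, v, if_true, hf]
      simp
  have h1 : eval v (tP s β') = 0 := by rw [hq, map_mul, h0, zero_mul]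
  by_cases hb : β.1 = β'.1
  · have hco : co β' = co β := by unfold co; rw [hb]
    have hfl : flip s β' = flip s β := by unfold flip; rw [hb]
    unfold tP at h1
    rw [hco, hfl] at h1
    have hne : rt β ≠ rt β' := fun h' => h (rt_inj' hb h')
    split_ifs at h1 with hf
    · simp only [map_add, map_mul, eval_C, eval_X, v, if_true, hf] at h1
      apply hne
      have := rt_ne_zeroI β
      field_simp at h1
      linear_combination h1
    · simp only [map_add, map_mul, eval_C, eval_X, v, if_true, hf] at h1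
      simp only [Bool.false_eq_true, if_false] at h1
      apply hne
      linear_combination h1
  · have hco : co β' ≠ co β := by
      unfold co
      cases hb1 : β.1 <;> cases hb2 : β'.1 <;> simp_all
    unfold tP at h1
    split_ifs at h1 with hf
    · simp only [map_add, map_mul, eval_C, eval_X, v, if_neg hco] at h1
      simp at h1
    · simp only [map_add, map_mul, eval_C, eval_X, v, if_neg hco] at h1
      simp at h1
      exact rt_ne_zeroI _ h1

theorem squarefree_prod_tP (s : Chart) (T : Finset Br) : Squarefree (∏ β ∈ T, tP s β) := by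
  apply Finset.squarefree_prod_of_pairwise_isCoprime
  · intro β _ β' _ h
    exact (irreducible_tP s β).isRelPrime_iff_not_dvd.2 (not_dvd_tP s h)
  · intro β _
    exact (irreducible_tP s β).squarefree

theorem polyHom_tP (s : Chart) (β : Br) : polyHom s (tP s β) = tS s β := by
  have hC : ∀ c : ℂ, polyHom s (C c) = algebraMap ℂ K c := fun c => aeval_C _ _
  have hX : ∀ i, polyHom s (X i) = ![c0 s, c1 s] i := fun i => aeval_X _ _
  have hx := x_ne_zero
  have hu := u_ne_zero
  unfold tP tS tB
  cases hb : β.1 with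
  | false =>
    cases hs : s.1 with
    | false =>
      have h1 : flip s β = false := by unfold flip; rw [hb]; exact hs
      have h2 : co β = 0 := by unfold co; rw [hb]; rfl
      rw [h1, h2]
      simp only [Bool.false_eq_true, if_false, map_add, map_mul, hC, hX, map_neg, map_one,
        Matrix.cons_val_zero, c0, hs, wx]
      ring
    | true =>
      have h1 : flip s β = true := by unfold flip; rw [hb]; exact hs
      have h2 : co β = 0 := by unfold co; rw [hb]; rfl
      rw [h1, h2]
      simp only [Bool.false_eq_true, if_false, if_true, map_add, map_mul, hC, hX, map_neg, map_one,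
        Matrix.cons_val_zero, c0, hs, wx]
      field_simp
      ring
  | true =>
    cases hs : s.2 with
    | false =>
      have h1 : flip s β = false := by unfold flip; rw [hb]; exact hs
      have h2 : co β = 1 := by unfold co; rw [hb]; rfl
      rw [h1, h2]
      simp only [Bool.false_eq_true, if_false, if_true, map_add, map_mul, hC, hX, map_neg, map_one,
        Matrix.cons_val_one, Matrix.cons_val_fin_one, c1, hs, wu]
      ring
    | true =>
      have h1 : flip s β = true := by unfold flip; rw [hb]; exact hs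
      have h2 : co β = 1 := by unfold co; rw [hb]; rfl
      rw [h1, h2]
      simp only [if_true, map_add, map_mul, hC, hX, map_neg, map_one,
        Matrix.cons_val_one, Matrix.cons_val_fin_one, c1, hs, wu]
      field_simp
      ring

theorem tS_memI (s : Chart) (β : Br) : tS s β ∈ Ralg s := by
  rw [← polyHom_tP, ← coe_polyEquiv]
  exact (polyEquiv s (tP s β)).2

/-- The key divisibility statement. -/
theorem mem_of_sq_mul_mem (s : Chart) (T : Finset Br) {k : K}
    (h : k * k * ∏ β ∈ T, tS s β ∈ Ralg s) : k ∈ Ralg s := by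
  obtain ⟨a, b, hab, hk⟩ := IsFractionRing.exists_reduced_fraction (A := Ralg s) (K := K) k
  have hb0 : ((b : Ralg s) : K) ≠ 0 := by
    intro h0
    have : (b : Ralg s) = 0 := Subtype.ext h0
    exact nonZeroDivisors.coe_ne_zero b this
  have hk' : k * ((b : Ralg s) : K) = (a : K) := by
    rw [← hk]
    exact IsLocalization.mk'_spec K a b
  let P : Ralg s := ∏ β ∈ T, polyEquiv s (tP s β)
  have hP : (P : K) = ∏ β ∈ T, tS s β := by
    change ((∏ β ∈ T, polyEquiv s (tP s β) : Ralg s) : K) = _
    rw [← map_prod, coe_polyEquiv, map_prod]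
    exact Finset.prod_congr rfl fun β _ => polyHom_tP s β
  have h1 : a * a * P = ⟨_, h⟩ * ((b : Ralg s) * (b : Ralg s)) := by
    apply Subtype.ext
    change (a : K) * (a : K) * (P : K) = (k * k * ∏ β ∈ T, tS s β) * (((b : Ralg s) : K) *
      ((b : Ralg s) : K))
    rw [← hk', hP]
    ring
  have h2 : (b : Ralg s) * (b : Ralg s) ∣ P := by
    have h3 : IsRelPrime ((b : Ralg s) * (b : Ralg s)) (a * a) :=
      (hab.symm.mul_left hab.symm).mul_right (hab.symm.mul_left hab.symm)
    exact h3.dvd_of_dvd_mul_left (Dvd.intro_left _ h1.symm)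
  have h4 : (polyEquiv s).symm b * (polyEquiv s).symm b ∣ ∏ β ∈ T, tP s β := by
    have h5 := map_dvd (polyEquiv s).symm h2
    rw [map_mul] at h5
    have h6 : (polyEquiv s).symm P = ∏ β ∈ T, tP s β := by
      change (polyEquiv s).symm (∏ β ∈ T, polyEquiv s (tP s β)) = _
      rw [← map_prod, AlgEquiv.symm_apply_apply]
    rwa [h6] at h5
  have h7 : IsUnit ((polyEquiv s).symm (b : Ralg s)) := squarefree_prod_tP s T _ h4
  have h8 : IsUnit (b : Ralg s) := by
    have := h7.map (polyEquiv s)
    rwa [AlgEquiv.apply_symm_apply] at this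
  obtain ⟨b', hb'⟩ := h8.exists_right_inv
  have h9 : k = ((a * b' : Ralg s) : K) := by
    have h10 : ((b : Ralg s) : K) * (b' : K) = 1 := congrArg Subtype.val hb'
    change k = (a : K) * (b' : K)
    rw [← hk', mul_assoc, h10, mul_one]
  rw [h9]
  exact (a * b').2

theorem card_x2I : ∀ χ : Lam, ((Finset.univ.filter (fun β : Br => inert β χ = 1)).filter
    (fun β => β.1 = false)).card = 2 * ax χ := by
  decide

theorem card_u2I : ∀ χ : Lam, ((Finset.univ.filter (fun β : Br => inert β χ = 1)).filter
    (fun β => ¬ β.1 = false)).card = 2 * bx χ := by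
  decide

theorem prod_tSI (s : Chart) (χ : Lam) : ∏ β : Br with inert β χ = 1, tS s β =
    (∏ β : Br with inert β χ = 1, tB β) * ((wx s ^ ax χ * wu s ^ bx χ)⁻¹ *
      (wx s ^ ax χ * wu s ^ bx χ)⁻¹) := by
  unfold tS
  rw [Finset.prod_div_distrib, div_eq_mul_inv]
  congr 1
  rw [← mul_inv]
  congr 1
  rw [← Finset.prod_filter_mul_prod_filter_not _ (fun β : Br => β.1 = false)]
  have h1 : ∏ β ∈ (Finset.univ.filter (fun β : Br => inert β χ = 1)).filter
      (fun β => β.1 = false), (if β.1 = true then wu s else wx s) = wx s ^ (2 * ax χ) := by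
    rw [← card_x2I χ]
    apply Finset.prod_eq_pow_card
    intro β hβ
    rw [Finset.mem_filter] at hβ
    rw [hβ.2]
    rfl
  have h2 : ∏ β ∈ (Finset.univ.filter (fun β : Br => inert β χ = 1)).filter
      (fun β => ¬ β.1 = false), (if β.1 = true then wu s else wx s) = wu s ^ (2 * bx χ) := by
    rw [← card_u2I χ]
    apply Finset.prod_eq_pow_card
    intro β hβ
    rw [Finset.mem_filter] at hβ
    rw [if_pos (by simpa using hβ.2)]
  rw [h1, h2]
  ring

section

variable {L : Type*} [Field L] [Algebra ℂ L] [Algebra K L] [IsScalarTower ℂ K L]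

omit [Algebra ℂ L] [IsScalarTower ℂ K L] in
theorem zs_sqI (D : SurfData L) (s : Chart) (χ : Lam) : D.zs s χ * D.zs s χ =
    algebraMap K L (∏ β : Br with inert β χ = 1, tS s β) := by
  have h0 : χ + χ = 0 := by
    revert χ
    decide
  unfold SurfData.zs
  rw [mul_mul_mul_comm, D.z_mul, h0, D.z_zero, mul_one, ← map_mul, ← map_mul, prod_tSI]
  congr 1
  unfold mB
  simp only [and_self]
  ring

/-- The pairing of `(ℤ/2)^3` with itself, with values in `{1, -1}`. -/
def sgI (ε χ : Lam) : ℤ := if ε.1 * χ.1 + ε.2.1 * χ.2.1 + ε.2.2 * χ.2.2 = 0 then 1 else -1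

theorem sg_addI : ∀ ε χ ψ : Lam, sgI ε (χ + ψ) = sgI ε χ * sgI ε ψ := by decide

theorem sg_zeroI : ∀ ε : Lam, sgI ε 0 = 1 := by decide

theorem sg_sumI : ∀ χ ψ : Lam, ∑ ε : Lam, sgI ε ψ * sgI ε χ = if χ = ψ then 8 else 0 := by decide

/-- The basis `z`. -/
noncomputable def SurfData.basis (D : SurfData L) : Module.Basis Lam K L := .mk D.li D.span

omit [Algebra ℂ L] [IsScalarTower ℂ K L] in
theorem SurfData.basis_apply (D : SurfData L) (χ : Lam) : D.basis χ = D.z χ := by
  simp [SurfData.basis]

/-- The action of the dual group. -/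
noncomputable def SurfData.act (D : SurfData L) (ε : Lam) : L →ₗ[K] L :=
  D.basis.constr K (fun χ => (sgI ε χ : K) • D.z χ)

omit [Algebra ℂ L] [IsScalarTower ℂ K L] in
theorem SurfData.act_z (D : SurfData L) (ε χ : Lam) : D.act ε (D.z χ) = (sgI ε χ : K) • D.z χ := by
  unfold SurfData.act
  rw [← D.basis_apply χ, Module.Basis.constr_basis]
  simp [D.basis_apply]

theorem SurfData.act_mul (D : SurfData L) (ε : Lam) (a b : L) :
    D.act ε (a * b) = D.act ε a * D.act ε b := by
  have ha : a ∈ Submodule.span K (Set.range D.z) := D.span Submodule.mem_top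
  have hb : b ∈ Submodule.span K (Set.range D.z) := D.span Submodule.mem_top
  induction ha, hb using Submodule.span_induction₂ with
  | mem_mem a b ha hb =>
    obtain ⟨χ, rfl⟩ := ha
    obtain ⟨ψ, rfl⟩ := hb
    rw [D.z_mul, ← Algebra.smul_def, map_smul, D.act_z, D.act_z, D.act_z, sg_addI,
      smul_mul_smul_comm, D.z_mul, ← Algebra.smul_def, smul_smul, smul_smul]
    congr 1
    push_cast
    ring
  | zero_left y hy => simp
  | zero_right x hx => simp
  | add_left x y z hx hy hz h1 h2 => rw [add_mul, map_add, map_add, add_mul, h1, h2]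
  | add_right x y z hx hy hz h1 h2 => rw [mul_add, map_add, map_add, mul_add, h1, h2]
  | smul_left r x y hx hy h => rw [smul_mul_assoc, map_smul, map_smul, smul_mul_assoc, h]
  | smul_right r x y hx hy h => rw [mul_smul_comm, map_smul, map_smul, mul_smul_comm, h]

/-- The action of the dual group by algebra automorphisms. -/
noncomputable def SurfData.actHom (D : SurfData L) (ε : Lam) : L →ₐ[K] L :=
  AlgHom.ofLinearMap (D.act ε) (by
    have := D.act_z ε 0
    rw [D.z_zero, sg_zeroI] at this
    simpa using this) (D.act_mul ε)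

theorem mem_Oalg_iffI (s : Chart) (y : L) : y ∈ Oalg L s ↔ IsIntegral (Ralg s) y := Iff.rfl

theorem algebraMap_mem_OalgI {s : Chart} {k : K} (hk : k ∈ Ralg s) :
    algebraMap K L k ∈ Oalg L s := by
  rw [mem_Oalg_iffI]
  have h : algebraMap (Ralg s) L ⟨k, hk⟩ = algebraMap K L k := rfl
  rw [← h]
  exact isIntegral_algebraMap

theorem zs_memI (D : SurfData L) (s : Chart) (χ : Lam) : D.zs s χ ∈ Oalg L s := by
  rw [mem_Oalg_iffI]
  apply IsIntegral.of_pow (n := 2) (by norm_num)
  rw [pow_two, zs_sqI]
  exact algebraMap_mem_OalgI ((Ralg s).prod_mem fun β _ => tS_memI s β)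

end

theorem surfIntegral (L : Type*) [Field L] [Algebra ℂ L] [Algebra K L] [IsScalarTower ℂ K L] :
    SurfIntegral L := by
  intro D s f
  constructor
  · intro h ψ
    set y := ∑ χ, algebraMap K L (f χ) * D.zs s χ with hy
    -- the projection to the component of `ψ`
    have h1 : ∑ ε : Lam, algebraMap K L (sgI ε ψ : K) * D.actHom ε y ∈ Oalg L s := by
      apply Subalgebra.sum_mem
      intro ε _
      apply Subalgebra.mul_mem
      · apply algebraMap_mem_OalgI
        have : ((sgI ε ψ : ℤ) : K) = algebraMap ℂ K ((sgI ε ψ : ℤ) : ℂ) := by simp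
        rw [this]
        exact (Ralg s).algebraMap_mem _
      · rw [mem_Oalg_iffI] at h ⊢
        exact h.map (D.actHom ε)
    have h2 : ∑ ε : Lam, algebraMap K L (sgI ε ψ : K) * D.actHom ε y =
        algebraMap K L (8 * f ψ) * D.zs s ψ := by
      have h3 : ∀ ε χ, D.actHom ε (algebraMap K L (f χ) * D.zs s χ) =
          algebraMap K L (sgI ε χ : K) * (algebraMap K L (f χ) * D.zs s χ) := by
        intro ε χ
        unfold SurfData.zs
        rw [map_mul, map_mul, AlgHom.commutes, AlgHom.commutes]
        change _ * (_ * D.act ε (D.z χ)) = _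
        rw [D.act_z, Algebra.smul_def]
        ring
      have h4 : ∀ ε, algebraMap K L (sgI ε ψ : K) * D.actHom ε y =
          ∑ χ, algebraMap K L ((sgI ε ψ * sgI ε χ : ℤ) : K) *
            (algebraMap K L (f χ) * D.zs s χ) := by
        intro ε
        rw [hy, map_sum, Finset.mul_sum]
        apply Finset.sum_congr rfl
        intro χ _
        rw [h3, ← mul_assoc, ← map_mul]
        push_cast
        rfl
      rw [Finset.sum_congr rfl fun ε _ => h4 ε, Finset.sum_comm, Finset.sum_eq_single ψ]
      · rw [← Finset.sum_mul, ← map_sum, ← Int.cast_sum, sg_sumI, if_pos rfl, ← mul_assoc,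
          ← map_mul]
        norm_num
      · intro χ _ hχ
        rw [← Finset.sum_mul, ← map_sum, ← Int.cast_sum, sg_sumI, if_neg hχ]
        simp
      · intro h
        exact absurd (Finset.mem_univ _) h
    rw [h2] at h1
    have h5 := (Oalg L s).mul_mem h1 h1
    rw [mul_mul_mul_comm, zs_sqI, ← map_mul, ← map_mul, mem_Oalg_iffI] at h5
    have h6 : 8 * f ψ * (8 * f ψ) * ∏ β : Br with inert β ψ = 1, tS s β ∈ Ralg s := by
      apply mem_Ralg_of_isIntegral
      rwa [isIntegral_algebraMap_iff (algebraMap K L).injective] at h5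
    have h7 := mem_of_sq_mul_mem s _ h6
    have h8 : f ψ = (8⁻¹ : ℂ) • (8 * f ψ) := by
      rw [Algebra.smul_def, map_inv₀, map_ofNat, inv_mul_cancel_left₀]
      norm_num
    rw [h8]
    exact (Ralg s).smul_mem h7 _
  · intro h
    apply Subalgebra.sum_mem
    intro χ _
    exact (Oalg L s).mul_mem (algebraMap_mem_OalgI (h χ)) (zs_memI D s χ)

end Pool.Agent.Lib.LP
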