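import Pool.Agent.Lib.MP_865fc0_ag.SurfData
import Pool.Agent.Lib.MP_865fc0_ag.Basic
import Pool.Agent.Lib.MP_865fc0_ag.Closure

/-!
# The `(ℤ/2)^3`-cover of `P^1 × P^1` is nonsingular
-/

namespace Pool.Agent.Lib.LP

/-! ### Combinatorics of the inertia -/

theorem inert_add (β : Br) (χ ψ : Lam) : inert β (χ + ψ) = inert β χ + inert β ψ := by
  revert β χ ψ; decide

theorem lam_add_self (χ : Lam) : χ + χ = 0 := by
  revert χ; decide

theorem exists_char (β β' : Br) (h : β'.1 ≠ β.1) : ∃ χ : Lam, inert β χ = 1 ∧ inert β' χ = 0 := by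
  revert β β'; decide

theorem exists_char_one (β : Br) : ∃ χ : Lam, inert β χ = 1 := by
  revert β; decide

theorem bool_aux {a b c : Bool} (h : a ≠ c) (h' : b ≠ c) : a = b := by
  revert a b c; decide

/-! ### The local generators of a maximal ideal -/

section abstractPart

variable {A : Type*} [CommRing A] [Algebra ℂ A]

variable (X : Bool → A) (Z : Lam → A) (t : Br → A)

/-- the product of the `t β`, `β` ramified in both `χ` and `ψ` -/
noncomputable def PP (χ ψ : Lam) : A := ∏ β : Br with inert β χ = 1 ∧ inert β ψ = 1, t β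

variable {X Z t}

omit [Algebra ℂ A] in
theorem PP_notMem {m : Ideal A} [m.IsPrime] {χ ψ : Lam}
    (h : ∀ β, inert β χ = 1 → inert β ψ = 1 → t β ∉ m) : PP t χ ψ ∉ m := by
  intro hm
  rw [PP, Ideal.IsPrime.prod_mem_iff] at hm
  obtain ⟨β, hβ, hβm⟩ := hm
  rw [Finset.mem_filter] at hβ
  exact h β hβ.2.1 hβ.2.2 hβm

theorem exists_tau
    (hmul : ∀ χ ψ, Z χ * Z ψ = PP t χ ψ * Z (χ + ψ))
    (hlin : ∀ β, ∃ p q : ℂ, p ≠ 0 ∧ t β = algebraMap ℂ A p * X β.1 + algebraMap ℂ A q)
    (hco : ∀ β β', β.1 = β'.1 → β ≠ β' → ∃ p q : A, p * t β + q * t β' = 1)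
    (hZ0 : Z 0 = 1)
    (m : Ideal A) [m.IsMaximal] (k : Bool) (c : ℂ) (hc : X k - algebraMap ℂ A c ∈ m) :
    ∃ τ ∈ m, ∀ J : Ideal (Localization.AtPrime m),
      algebraMap A (Localization.AtPrime m) τ ∈ J →
      algebraMap A (Localization.AtPrime m) (X k - algebraMap ℂ A c) ∈ J ∧
      ∀ ψ β, β.1 = k → t β ∈ m → inert β ψ = 1 →
        algebraMap A (Localization.AtPrime m) (Z ψ) ∈ J := by
  have huniq : ∀ β β' : Br, β.1 = β'.1 → t β ∈ m → t β' ∈ m → β = β' := by
    intro β β' h1 h2 h3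
    by_contra hne
    obtain ⟨p, q, hpq⟩ := hco β β' h1 hne
    apply (inferInstance : m.IsMaximal).ne_top
    rw [Ideal.eq_top_iff_one, ← hpq]
    exact m.add_mem (m.mul_mem_left _ h2) (m.mul_mem_left _ h3)
  have hunit : ∀ y : A, y ∉ m → IsUnit (algebraMap A (Localization.AtPrime m) y) := fun y hy =>
    IsLocalization.map_units (Localization.AtPrime m) (⟨y, hy⟩ : m.primeCompl)
  by_cases hV : ∃ β : Br, β.1 = k ∧ t β ∈ m
  · obtain ⟨β₀, hk, hβ₀⟩ := hV
    -- the character
    obtain ⟨χ, hχ1, hχ2⟩ : ∃ χ : Lam, inert β₀ χ = 1 ∧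
        ∀ β : Br, β.1 ≠ k → t β ∈ m → inert β χ = 0 := by
      by_cases hV' : ∃ β : Br, β.1 ≠ k ∧ t β ∈ m
      · obtain ⟨β₁, hk1, hβ₁⟩ := hV'
        obtain ⟨χ, h1, h2⟩ := exists_char β₀ β₁ (by rw [hk]; exact hk1)
        refine ⟨χ, h1, fun β hβk hβ => ?_⟩
        have : β = β₁ := huniq β β₁ (bool_aux hβk hk1) hβ hβ₁
        rw [this]; exact h2
      · obtain ⟨χ, h1⟩ := exists_char_one β₀
        exact ⟨χ, h1, fun β hβk hβ => absurd ⟨β, hβk, hβ⟩ hV'⟩
    have hsq : Z χ * Z χ = PP t χ χ := by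
      rw [hmul, lam_add_self, hZ0, mul_one]
    have hfac : PP t χ χ = t β₀ * ∏ β ∈ (Finset.univ.filter
        fun β : Br => inert β χ = 1 ∧ inert β χ = 1).erase β₀, t β := by
      rw [PP, Finset.mul_prod_erase]
      simp [hχ1]
    have hrest : ∏ β ∈ (Finset.univ.filter
        fun β : Br => inert β χ = 1 ∧ inert β χ = 1).erase β₀, t β ∉ m := by
      rw [Ideal.IsPrime.prod_mem_iff]
      rintro ⟨β, hβ, hβm⟩
      rw [Finset.mem_erase, Finset.mem_filter] at hβ
      by_cases hβk : β.1 = k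
      · exact hβ.1 (huniq β β₀ (by rw [hβk, hk]) hβm hβ₀)
      · have := hχ2 β hβk hβm
        rw [this] at hβ
        exact absurd hβ.2.2.1 (by decide)
    have hZm : Z χ ∈ m := by
      have h1 : Z χ * Z χ ∈ m := by
        rw [hsq, hfac]; exact m.mul_mem_right _ hβ₀
      rcases (inferInstance : m.IsPrime).mem_or_mem h1 with h | h <;> exact h
    refine ⟨Z χ, hZm, fun J hJ => ⟨?_, ?_⟩⟩
    · -- the coordinate
      have h1 : algebraMap A (Localization.AtPrime m) (t β₀) ∈ J := by
        have h2 : algebraMap A (Localization.AtPrime m) (PP t χ χ) ∈ J := by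
          rw [← hsq, map_mul]; exact J.mul_mem_left _ hJ
        rw [hfac, map_mul] at h2
        exact (Ideal.mul_unit_mem_iff_mem J (hunit _ hrest)).mp h2
      obtain ⟨p, q, hp, hpq⟩ := hlin β₀
      rw [hk] at hpq
      have h3 : p * c + q = 0 := by
        by_contra hne
        apply (inferInstance : m.IsMaximal).ne_top
        have h4 : algebraMap ℂ A (p * c + q) ∈ m := by
          have : algebraMap ℂ A (p * c + q) =
              t β₀ - algebraMap ℂ A p * (X k - algebraMap ℂ A c) := by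
            rw [hpq, map_add, map_mul]; ring
          rw [this]
          exact m.sub_mem hβ₀ (m.mul_mem_left _ hc)
        exact Ideal.eq_top_of_isUnit_mem _ h4 ((IsUnit.mk0 _ hne).map _)
      have h5 : X k - algebraMap ℂ A c = algebraMap ℂ A p⁻¹ * t β₀ := by
        have hpp : algebraMap ℂ A p⁻¹ * algebraMap ℂ A p = 1 := by
          rw [← map_mul, inv_mul_cancel₀ hp, map_one]
        have hq : q = - (p * c) := by linear_combination h3
        rw [hpq, mul_add, ← mul_assoc, hpp, one_mul, ← map_mul, hq]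
        rw [sub_eq_add_neg, ← map_neg]
        congr 2
        field_simp
      rw [h5, map_mul]
      exact J.mul_mem_left _ h1
    · intro ψ β hβk hβ hβψ
      have hββ : β = β₀ := huniq β β₀ (by rw [hβk, hk]) hβ hβ₀
      subst hββ
      have h1 : Z χ * Z (ψ + χ) = PP t χ (ψ + χ) * Z ψ := by
        rw [hmul]
        congr 2
        rw [add_comm ψ χ, ← add_assoc, lam_add_self, zero_add]
      have h2 : PP t χ (ψ + χ) ∉ m := by
        apply PP_notMem
        intro β' hβ'1 hβ'2 hβ'm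
        by_cases hβ'k : β'.1 = k
        · have : β' = β := huniq β' β (by rw [hβ'k, hk]) hβ'm hβ₀
          subst this
          rw [inert_add, hβψ, hχ1] at hβ'2
          exact absurd hβ'2 (by decide)
        · rw [hχ2 β' hβ'k hβ'm] at hβ'1
          exact absurd hβ'1 (by decide)
      have h3 : algebraMap A (Localization.AtPrime m) (PP t χ (ψ + χ) * Z ψ) ∈ J := by
        rw [← h1, map_mul]; exact J.mul_mem_right _ hJ
      rw [map_mul] at h3
      exact (Ideal.unit_mul_mem_iff_mem J (hunit _ h2)).mp h3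
  · refine ⟨X k - algebraMap ℂ A c, hc, fun J hJ => ⟨hJ, fun ψ β hβk hβ _ => ?_⟩⟩
    exact absurd ⟨β, hβk, hβ⟩ hV

theorem exists_generators
    (hmul : ∀ χ ψ, Z χ * Z ψ = PP t χ ψ * Z (χ + ψ))
    (hlin : ∀ β, ∃ p q : ℂ, p ≠ 0 ∧ t β = algebraMap ℂ A p * X β.1 + algebraMap ℂ A q)
    (hco : ∀ β β', β.1 = β'.1 → β ≠ β' → ∃ p q : A, p * t β + q * t β' = 1)
    (hgen : Algebra.adjoin ℂ (Set.range X ∪ Set.range Z) = ⊤)
    (hZ0 : Z 0 = 1)
    (m : Ideal A) [m.IsMaximal] (hres : ∀ y : A, ∃ c : ℂ, y - algebraMap ℂ A c ∈ m) :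
    ∃ τ₁ τ₂ : Localization.AtPrime m,
      IsLocalRing.maximalIdeal (Localization.AtPrime m) = Ideal.span {τ₁, τ₂} := by
  have hconst : ∀ c : ℂ, algebraMap ℂ A c ∈ m → c = 0 := by
    intro c hc
    by_contra hne
    exact (inferInstance : m.IsMaximal).ne_top
      (Ideal.eq_top_of_isUnit_mem _ hc ((IsUnit.mk0 _ hne).map _))
  have hunit : ∀ y : A, y ∉ m → IsUnit (algebraMap A (Localization.AtPrime m) y) := fun y hy =>
    IsLocalization.map_units (Localization.AtPrime m) (⟨y, hy⟩ : m.primeCompl)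
  obtain ⟨c0, hc0⟩ := hres (X false)
  obtain ⟨c1, hc1⟩ := hres (X true)
  obtain ⟨τ0, hτ0m, hτ0⟩ := exists_tau hmul hlin hco hZ0 m false c0 hc0
  obtain ⟨τ1, hτ1m, hτ1⟩ := exists_tau hmul hlin hco hZ0 m true c1 hc1
  refine ⟨algebraMap A _ τ0, algebraMap A _ τ1, ?_⟩
  set J : Ideal (Localization.AtPrime m) :=
    Ideal.span {algebraMap A (Localization.AtPrime m) τ0, algebraMap A _ τ1} with hJ
  obtain ⟨hX0, hZ0'⟩ := hτ0 J (Ideal.subset_span (by simp))
  obtain ⟨hX1, hZ1'⟩ := hτ1 J (Ideal.subset_span (by simp))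
  have hJm : J ≤ IsLocalRing.maximalIdeal (Localization.AtPrime m) := by
    rw [hJ, Ideal.span_le]
    rintro _ (rfl | rfl)
    · exact (IsLocalization.AtPrime.to_map_mem_maximal_iff _ m _).mpr hτ0m
    · exact (IsLocalization.AtPrime.to_map_mem_maximal_iff _ m _).mpr hτ1m
  have hJmem : ∀ y : A, algebraMap A (Localization.AtPrime m) y ∈ J → y ∈ m := fun y hy =>
    (IsLocalization.AtPrime.to_map_mem_maximal_iff _ m _).mp (hJm hy)
  let B : Subalgebra ℂ A :=
    { carrier := {y | ∃ c : ℂ, algebraMap A (Localization.AtPrime m) (y - algebraMap ℂ A c) ∈ J}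
      mul_mem' := by
        rintro y y' ⟨c, hc⟩ ⟨c', hc'⟩
        refine ⟨c * c', ?_⟩
        have : y * y' - algebraMap ℂ A (c * c') =
            y * (y' - algebraMap ℂ A c') + algebraMap ℂ A c' * (y - algebraMap ℂ A c) := by
          rw [map_mul]; ring
        rw [this, map_add, map_mul, map_mul]
        exact J.add_mem (J.mul_mem_left _ hc') (J.mul_mem_left _ hc)
      add_mem' := by
        rintro y y' ⟨c, hc⟩ ⟨c', hc'⟩
        refine ⟨c + c', ?_⟩
        have : y + y' - algebraMap ℂ A (c + c') =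
            (y - algebraMap ℂ A c) + (y' - algebraMap ℂ A c') := by
          rw [map_add]; ring
        rw [this, map_add]
        exact J.add_mem hc hc'
      algebraMap_mem' := fun c => ⟨c, by simp⟩ }
  have hBX : ∀ k, X k ∈ B := by
    rintro (_ | _)
    · exact ⟨c0, hX0⟩
    · exact ⟨c1, hX1⟩
  have hBt : ∀ β, t β ∈ B := by
    intro β
    obtain ⟨p, q, -, h⟩ := hlin β
    rw [h]
    exact B.add_mem (B.mul_mem (B.algebraMap_mem _) (hBX _)) (B.algebraMap_mem _)
  have hBZ : ∀ ψ, Z ψ ∈ B := by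
    intro ψ
    by_cases hV : ∃ β : Br, t β ∈ m ∧ inert β ψ = 1
    · obtain ⟨β, hβ, hβψ⟩ := hV
      refine ⟨0, ?_⟩
      rw [map_zero, sub_zero]
      cases hk : β.1
      · exact hZ0' ψ β hk hβ hβψ
      · exact hZ1' ψ β hk hβ hβψ
    · obtain ⟨c, hc⟩ := hres (Z ψ)
      refine ⟨c, ?_⟩
      have hsq : Z ψ * Z ψ = PP t ψ ψ := by
        rw [hmul, lam_add_self, hZ0, mul_one]
      have hP : PP t ψ ψ ∉ m := PP_notMem fun β h1 _ h3 => hV ⟨β, h3, h1⟩
      have hc0' : c ≠ 0 := by
        rintro rfl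
        rw [map_zero, sub_zero] at hc
        apply hP
        rw [← hsq]
        exact m.mul_mem_left _ hc
      obtain ⟨d, hd⟩ : PP t ψ ψ ∈ B := B.prod_mem fun β _ => hBt β
      have hdm := hJmem _ hd
      have hdc : d = c * c := by
        have h1 : PP t ψ ψ - algebraMap ℂ A (c * c) ∈ m := by
          have : PP t ψ ψ - algebraMap ℂ A (c * c) =
              (Z ψ - algebraMap ℂ A c) * (Z ψ + algebraMap ℂ A c) := by
            rw [← hsq, map_mul]; ring
          rw [this]; exact m.mul_mem_right _ hc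
        have h2 : algebraMap ℂ A (d - c * c) ∈ m := by
          have : algebraMap ℂ A (d - c * c) = (PP t ψ ψ - algebraMap ℂ A (c * c)) -
              (PP t ψ ψ - algebraMap ℂ A d) := by
            rw [map_sub]; ring
          rw [this]; exact m.sub_mem h1 hdm
        exact sub_eq_zero.mp (hconst _ h2)
      have h3 : algebraMap A (Localization.AtPrime m)
          ((Z ψ - algebraMap ℂ A c) * (Z ψ + algebraMap ℂ A c)) ∈ J := by
        have : (Z ψ - algebraMap ℂ A c) * (Z ψ + algebraMap ℂ A c) =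
            PP t ψ ψ - algebraMap ℂ A d := by
          rw [← hsq, hdc, map_mul]; ring
        rw [this]; exact hd
      rw [map_mul] at h3
      refine (Ideal.mul_unit_mem_iff_mem J (hunit _ fun h4 => hc0' ?_)).mp h3
      have h5 : algebraMap ℂ A (2 * c) ∈ m := by
        have : algebraMap ℂ A (2 * c) = (Z ψ + algebraMap ℂ A c) - (Z ψ - algebraMap ℂ A c) := by
          rw [map_mul, map_ofNat]; ring
        rw [this]; exact m.sub_mem h4 hc
      simpa using hconst _ h5
  have hB : B = ⊤ := by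
    rw [eq_top_iff, ← hgen, Algebra.adjoin_le_iff]
    rintro _ (⟨k, rfl⟩ | ⟨ψ, rfl⟩)
    · exact hBX k
    · exact hBZ ψ
  refine le_antisymm ?_ hJm
  rw [← Localization.AtPrime.map_eq_maximalIdeal, Ideal.map_le_iff_le_comap]
  intro y hy
  obtain ⟨c, hc⟩ : y ∈ B := by rw [hB]; trivial
  have h1 := hJmem _ hc
  have h2 : c = 0 := by
    apply hconst
    have : algebraMap ℂ A c = y - (y - algebraMap ℂ A c) := by ring
    rw [this]; exact m.sub_mem hy h1
  rw [h2, map_zero, sub_zero] at hc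
  exact hc

end abstractPart

/-! ### Regularity from two generators and a chain of primes -/

theorem regular_of_generators {A : Type*} [CommRing A] [IsDomain A] [IsNoetherianRing A]
    (m : Ideal A) [m.IsMaximal] (P : Ideal A) [P.IsPrime] (hP : P ≠ ⊥) (hPm : P < m)
    (h : ∃ τ₁ τ₂ : Localization.AtPrime m,
      IsLocalRing.maximalIdeal (Localization.AtPrime m) = Ideal.span {τ₁, τ₂}) :
    IsRegularLocalRing (Localization.AtPrime m) := by
  have hN : IsNoetherianRing (Localization.AtPrime m) :=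
    IsLocalization.isNoetherianRing m.primeCompl _ inferInstance
  apply IsRegularLocalRing.of_spanFinrank_maximalIdeal_le
  obtain ⟨τ₁, τ₂, hτ⟩ := h
  rw [IsLocalization.AtPrime.ringKrullDim_eq_height m]
  have h2 : (2 : ℕ∞) ≤ m.height := by
    have h0 : (⊥ : Ideal A) < P := bot_lt_iff_ne_bot.mpr hP
    have h1 := Ideal.height_add_one_le_of_lt_of_isPrime h0
    have h2 := Ideal.height_add_one_le_of_lt_of_isPrime hPm
    rw [Ideal.height_bot, zero_add] at h1
    calc (2 : ℕ∞) = 1 + 1 := by norm_num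
      _ ≤ P.height + 1 := by gcongr
      _ ≤ _ := h2
  have h3 : (IsLocalRing.maximalIdeal (Localization.AtPrime m)).spanFinrank ≤ 2 := by
    rw [hτ]
    refine (Submodule.spanFinrank_span_le_ncard_of_finite (Set.toFinite _)).trans ?_
    exact (Set.ncard_insert_le _ _).trans (by rw [Set.ncard_singleton])
  calc (((IsLocalRing.maximalIdeal (Localization.AtPrime m)).spanFinrank : ℕ) : WithBot ℕ∞)
      ≤ ((2 : ℕ) : WithBot ℕ∞) := by exact_mod_cast h3
    _ = (((2 : ℕ∞)) : WithBot ℕ∞) := rfl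
    _ ≤ _ := WithBot.coe_le_coe.mpr h2

/-! ### The coordinate rings of the charts -/

/-- the coordinates of the chart -/
noncomputable def gc (s : Chart) (k : Bool) : K :=
  if k then (if s.2 then u⁻¹ else u) else (if s.1 then x⁻¹ else x)

theorem gc_mem (s : Chart) (k : Bool) : gc s k ∈ Ralg s := by
  apply Algebra.subset_adjoin
  cases k <;> simp [gc]

/-- the sign of the exponents in the chart -/
def sg (b : Bool) : ℤ := if b then -1 else 1

theorem gc_eq (s : Chart) (k : Bool) :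
    gc s k = if k then u ^ sg s.2 else x ^ sg s.1 := by
  unfold gc sg
  cases k <;> rcases s with ⟨_ | _, _ | _⟩ <;> simp

theorem algInd (s : Chart) :
    AlgebraicIndependent ℂ (fun i : Fin 2 => gc s (i = 1)) := by
  rw [algebraicIndependent_iff]
  intro p hp
  have hmono : ∀ d : Fin 2 →₀ ℕ, ∏ i : Fin 2, (gc s (i = 1)) ^ d i =
      mon (sg s.1 * d 0, sg s.2 * d 1) := by
    intro d
    rw [Fin.prod_univ_two, gc_eq, gc_eq]
    simp only [mon]
    simp only [Fin.isValue, zero_ne_one, decide_false, Bool.false_eq_true, ↓reduceIte, decide_true]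
    rw [zpow_mul, zpow_mul, zpow_natCast, zpow_natCast]
  rw [MvPolynomial.aeval_def, MvPolynomial.eval₂_eq'] at hp
  have hinj : Function.Injective
      (fun d : Fin 2 →₀ ℕ => ((sg s.1 * d 0, sg s.2 * d 1) : ℤ × ℤ)) := by
    intro d d' h
    have h1 : sg s.1 * d 0 = sg s.1 * d' 0 := congrArg Prod.fst h
    have h2 : sg s.2 * d 1 = sg s.2 * d' 1 := congrArg Prod.snd h
    have hs : ∀ b, sg b ≠ 0 := by intro b; cases b <;> simp [sg]
    have h1' := mul_left_cancel₀ (hs _) h1
    have h2' := mul_left_cancel₀ (hs _) h2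
    ext i
    fin_cases i
    · simpa using h1'
    · simpa using h2'
  have hli := linearIndependent_mon.comp _ hinj
  rw [linearIndependent_iff'] at hli
  have := hli p.support (fun d => p.coeff d) (by
    rw [← hp]
    refine Finset.sum_congr rfl fun d _ => ?_
    rw [Algebra.smul_def, Function.comp, hmono])
  ext d
  rw [MvPolynomial.coeff_zero]
  by_cases hd : d ∈ p.support
  · exact this d hd
  · exact MvPolynomial.notMem_support_iff.mp hd

theorem range_gc (s : Chart) : Algebra.adjoin ℂ (Set.range fun i : Fin 2 => gc s (i = 1)) =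
    Ralg s := by
  unfold Ralg
  congr 1
  ext y
  simp only [Set.mem_range, Set.mem_insert_iff, Set.mem_singleton_iff]
  rw [Fin.exists_fin_two]
  have h0 : gc s (decide ((0 : Fin 2) = 1)) = if s.1 then x⁻¹ else x := rfl
  have h1 : gc s (decide ((1 : Fin 2) = 1)) = if s.2 then u⁻¹ else u := rfl
  rw [h0, h1]
  exact or_congr eq_comm eq_comm

/-- the chart is an affine plane -/
noncomputable def eqv (s : Chart) : MvPolynomial (Fin 2) ℂ ≃ₐ[ℂ] Ralg s :=
  (algInd s).aevalEquiv.trans (Subalgebra.equivOfEq _ _ (range_gc s))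

theorem eqv_X (s : Chart) (i : Fin 2) :
    eqv s (MvPolynomial.X i) = ⟨gc s (i = 1), gc_mem s _⟩ := by
  apply Subtype.ext
  simp [eqv]

instance (s : Chart) : IsIntegrallyClosed (Ralg s) :=
  IsIntegrallyClosed.of_equiv (eqv s).toRingEquiv


/-! ### The coordinate rings of the surface -/

section surface

variable {L : Type*} [Field L] [Algebra ℂ L] [Algebra K L] [IsScalarTower ℂ K L]

theorem map_mem_Oalg {s : Chart} {r : K} (hr : r ∈ Ralg s) : algebraMap K L r ∈ Oalg L s := by
  have : algebraMap K L r = algebraMap (Ralg s) L ⟨r, hr⟩ := rfl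
  rw [this]
  exact (integralClosure (Ralg s) L).algebraMap_mem _

/-- the inclusion of the coordinate ring of the chart -/
noncomputable def incl (L : Type*) [Field L] [Algebra ℂ L] [Algebra K L] [IsScalarTower ℂ K L]
    (s : Chart) : Ralg s →ₐ[ℂ] Oalg L s where
  toFun r := ⟨algebraMap K L r, map_mem_Oalg r.2⟩
  map_one' := by ext; simp
  map_mul' a b := by ext; simp
  map_zero' := by ext; simp
  map_add' a b := by ext; simp
  commutes' c := by
    ext
    change algebraMap K L (algebraMap ℂ K c) = algebraMap ℂ L c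
    rw [← IsScalarTower.algebraMap_apply]

theorem incl_coe (s : Chart) (r : Ralg s) : ((incl L s r : Oalg L s) : L) = algebraMap K L r := rfl

theorem incl_injective (s : Chart) : Function.Injective (incl L s) := by
  intro a b h
  have := congrArg (fun y : Oalg L s => (y : L)) h
  exact Subtype.ext ((algebraMap K L).injective this)

theorem exists_prime_below (s : Chart) (m : Ideal (Oalg L s)) [m.IsMaximal]
    (hres : ∀ y : Oalg L s, ∃ c : ℂ, y - algebraMap ℂ _ c ∈ m) :
    ∃ P : Ideal (Oalg L s), P.IsPrime ∧ P ≠ ⊥ ∧ P < m := by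
  let _ : Algebra (Ralg s) (Oalg L s) := (incl L s).toRingHom.toAlgebra
  have : IsScalarTower (Ralg s) (Oalg L s) L := IsScalarTower.of_algebraMap_eq fun r => rfl
  have : FaithfulSMul (Ralg s) (Oalg L s) :=
    (faithfulSMul_iff_algebraMap_injective _ _).mpr (incl_injective s)
  have : Algebra.IsIntegral (Ralg s) (Oalg L s) := by
    constructor
    intro y
    have h1 : IsIntegral (Ralg s) ((y : Oalg L s) : L) := y.2
    exact (isIntegral_algHom_iff (IsScalarTower.toAlgHom (Ralg s) (Oalg L s) L)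
      Subtype.coe_injective).mp h1
  obtain ⟨a, ha⟩ := hres (incl L s ⟨gc s false, gc_mem s _⟩)
  obtain ⟨b, hb⟩ := hres (incl L s ⟨gc s true, gc_mem s _⟩)
  -- the evaluation in the second variable
  let φ : Ralg s →ₐ[ℂ] Polynomial ℂ :=
    (MvPolynomial.aeval (fun i : Fin 2 => if i = 1 then Polynomial.X else Polynomial.C a)).comp
      (eqv s).symm.toAlgHom
  have hφ : ∀ k, φ ⟨gc s k, gc_mem s k⟩ = if k then Polynomial.X else Polynomial.C a := by
    intro k
    have : (⟨gc s k, gc_mem s k⟩ : Ralg s) = eqv s (MvPolynomial.X (if k then 1 else 0)) := by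
      rw [eqv_X]; cases k <;> rfl
    rw [this]
    change MvPolynomial.aeval (fun i : Fin 2 => if i = 1 then Polynomial.X else Polynomial.C a)
      ((eqv s).symm (eqv s (MvPolynomial.X (if k then 1 else 0)))) = _
    rw [AlgEquiv.symm_apply_apply, MvPolynomial.aeval_X]
    cases k <;> simp
  let p : Ideal (Ralg s) := RingHom.ker φ
  have hp : p.IsPrime := RingHom.ker_isPrime φ
  have hkey : ∀ r : Ralg s, incl L s r - algebraMap ℂ _ ((φ r).eval b) ∈ m := by
    have h1 : (Ideal.Quotient.mkₐ ℂ m).comp ((incl L s).comp (eqv s).toAlgHom) =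
        (Ideal.Quotient.mkₐ ℂ m).comp ((Algebra.ofId ℂ (Oalg L s)).comp
          ((Polynomial.aeval b).comp (φ.comp (eqv s).toAlgHom))) := by
      apply MvPolynomial.algHom_ext
      intro i
      change Ideal.Quotient.mk m (incl L s (eqv s (MvPolynomial.X i))) =
        Ideal.Quotient.mk m (algebraMap ℂ _ (Polynomial.aeval b (φ (eqv s (MvPolynomial.X i)))))
      rw [eqv_X, hφ, Ideal.Quotient.eq]
      fin_cases i
      · simpa using! ha
      · simpa using! hb
    intro r
    have h2 : Ideal.Quotient.mk m (incl L s (eqv s ((eqv s).symm r))) =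
        Ideal.Quotient.mk m (algebraMap ℂ _
          (Polynomial.aeval b (φ (eqv s ((eqv s).symm r))))) :=
      DFunLike.congr_fun h1 ((eqv s).symm r)
    rw [AlgEquiv.apply_symm_apply, Ideal.Quotient.eq, Polynomial.coe_aeval_eq_eval] at h2
    exact h2
  have hlt : p < m.under (Ralg s) := by
    refine lt_of_le_of_ne ?_ ?_
    · intro r hr
      have h1 : φ r = 0 := hr
      have h2 := hkey r
      rw [h1, Polynomial.eval_zero, map_zero, sub_zero] at h2
      exact h2
    · intro heq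
      have h1 : (⟨gc s true, gc_mem s true⟩ - algebraMap ℂ (Ralg s) b : Ralg s) ∈ p := by
        rw [heq]
        change incl L s _ ∈ m
        rw [map_sub, AlgHom.commutes]
        exact hb
      have h2 : φ (⟨gc s true, gc_mem s true⟩ - algebraMap ℂ (Ralg s) b) = 0 := h1
      rw [map_sub, hφ, AlgHom.commutes] at h2
      exact Polynomial.X_sub_C_ne_zero b h2
  have hpbot : p ≠ ⊥ := by
    intro heq
    have h1 : (⟨gc s false, gc_mem s false⟩ - algebraMap ℂ (Ralg s) a : Ralg s) ∈ p := by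
      change φ _ = 0
      rw [map_sub, hφ, AlgHom.commutes]
      simp
    rw [heq, Ideal.mem_bot] at h1
    have h2 := congrArg (eqv s).symm h1
    have h3 : (⟨gc s false, gc_mem s false⟩ : Ralg s) = eqv s (MvPolynomial.X 0) := by
      rw [eqv_X]; rfl
    rw [map_sub, h3, AlgEquiv.symm_apply_apply, AlgEquiv.commutes, map_zero] at h2
    have h4 := congrArg (MvPolynomial.eval (fun _ => a + 1)) h2
    simp at h4
  have : m.LiesOver (m.under (Ralg s)) := inferInstance
  obtain ⟨P, hPm, hPprime, hPp⟩ := Ideal.exists_ideal_lt_liesOver_of_lt (p := p)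
    (q := m.under (Ralg s)) m hlt
  refine ⟨P, hPprime, ?_, hPm⟩
  rintro rfl
  apply hpbot
  rw [hPp.over]
  exact Ideal.under_bot (Ralg s) (Oalg L s)

end surface


/-! ### The main theorem -/

section main

variable {L : Type*} [Field L] [Algebra ℂ L] [Algebra K L] [IsScalarTower ℂ K L]

/-- is the line `β` written in an inverted coordinate? -/
def invd (s : Chart) (β : Br) : Bool := if β.1 then s.2 else s.1

/-- linear coefficient of `tS s β` -/
noncomputable def pc (s : Chart) (β : Br) : ℂ := if invd s β then -rt β else 1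

/-- constant coefficient of `tS s β` -/
noncomputable def qc (s : Chart) (β : Br) : ℂ := if invd s β then 1 else -rt β

theorem rt_ne_zero (β : Br) : rt β ≠ 0 := by
  have h : ((β.2.1 : ℕ) + 1 : ℂ) ≠ 0 := by
    exact_mod_cast Nat.succ_ne_zero (β.2.1 : ℕ)
  unfold rt
  split_ifs
  · exact neg_ne_zero.mpr h
  · exact h

theorem rt_injective {β β' : Br} (h : β.1 = β'.1) (h' : rt β = rt β') : β = β' := by
  obtain ⟨a, i, b⟩ := β
  obtain ⟨a', i', b'⟩ := β'
  simp only at h
  subst h
  have key : ∀ z z' : ℤ, (z : ℂ) = (z' : ℂ) → z = z' := fun z z' => by exact_mod_cast id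
  have h2 : (if b then -((i : ℕ) + 1 : ℤ) else ((i : ℕ) + 1 : ℤ)) =
      (if b' then -((i' : ℕ) + 1 : ℤ) else ((i' : ℕ) + 1 : ℤ)) := by
    apply key
    simp only [rt] at h'
    cases b <;> cases b' <;> simpa using h'
  have hi := i.2
  have hi' := i'.2
  cases b <;> cases b' <;> simp only [Bool.false_eq_true, ↓reduceIte] at h2
  · have : i = i' := Fin.ext (by omega)
    rw [this]
  · omega
  · omega
  · have : i = i' := Fin.ext (by omega)
    rw [this]

theorem pc_ne_zero (s : Chart) (β : Br) : pc s β ≠ 0 := by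
  unfold pc
  split_ifs
  · exact neg_ne_zero.mpr (rt_ne_zero β)
  · exact one_ne_zero

theorem pq_ne {s : Chart} {β β' : Br} (h : β.1 = β'.1) (hne : β ≠ β') :
    pc s β' * qc s β - pc s β * qc s β' ≠ 0 := by
  have h1 : invd s β = invd s β' := by unfold invd; rw [h]
  have h2 : rt β ≠ rt β' := fun h2 => hne (rt_injective h h2)
  unfold pc qc
  rw [h1]
  split_ifs
  · intro h3; apply h2; linear_combination h3
  · intro h3; apply h2; linear_combination -h3

theorem tS_eq (s : Chart) (β : Br) :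
    tS s β = algebraMap ℂ K (pc s β) * gc s β.1 + algebraMap ℂ K (qc s β) := by
  obtain ⟨a, i, b⟩ := β
  obtain ⟨s1, s2⟩ := s
  have hx := x_ne_zero
  have hu := u_ne_zero
  unfold tS tB pc qc invd gc wx wu
  cases a <;> cases s1 <;> cases s2 <;>
    simp only [Bool.false_eq_true, ↓reduceIte, map_one, map_neg] <;> field_simp <;> ring

theorem tS_mem (s : Chart) (β : Br) : tS s β ∈ Ralg s := by
  rw [tS_eq]
  exact (Ralg s).add_mem ((Ralg s).mul_mem ((Ralg s).algebraMap_mem _) (gc_mem s _))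
    ((Ralg s).algebraMap_mem _)

theorem card_x (χ ψ : Lam) : ax χ + ax ψ = ax (χ + ψ) +
    ((Finset.univ.filter fun β : Br => inert β χ = 1 ∧ inert β ψ = 1).filter
      fun β => ¬ β.1 = true).card := by
  revert χ ψ; decide +kernel

theorem card_u (χ ψ : Lam) : bx χ + bx ψ = bx (χ + ψ) +
    ((Finset.univ.filter fun β : Br => inert β χ = 1 ∧ inert β ψ = 1).filter
      fun β => β.1 = true).card := by
  revert χ ψ; decide +kernel

theorem prod_tS (s : Chart) (χ ψ : Lam) :
    mB χ ψ * (wx s ^ ax (χ + ψ) * wu s ^ bx (χ + ψ)) =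
      (∏ β : Br with inert β χ = 1 ∧ inert β ψ = 1, tS s β) *
        ((wx s ^ ax χ * wu s ^ bx χ) * (wx s ^ ax ψ * wu s ^ bx ψ)) := by
  have h1 : (∏ β : Br with inert β χ = 1 ∧ inert β ψ = 1, tS s β) *
      (∏ β : Br with inert β χ = 1 ∧ inert β ψ = 1, (if β.1 then wu s else wx s)) = mB χ ψ := by
    rw [← Finset.prod_mul_distrib, mB]
    refine Finset.prod_congr rfl fun β _ => ?_
    unfold tS
    have : (if β.1 then wu s else wx s) ≠ 0 := by
      split_ifs
      · exact wu_ne_zero s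
      · exact wx_ne_zero s
    exact div_mul_cancel₀ _ this
  rw [Finset.prod_ite, Finset.prod_const, Finset.prod_const] at h1
  have h2 : (wx s ^ ax χ * wu s ^ bx χ) * (wx s ^ ax ψ * wu s ^ bx ψ) =
      wx s ^ (ax χ + ax ψ) * wu s ^ (bx χ + bx ψ) := by rw [pow_add, pow_add]; ring
  rw [h2, card_x, card_u, pow_add, pow_add, ← h1]
  ring

omit [Algebra ℂ L] [IsScalarTower ℂ K L] in
theorem zs_mul (D : SurfData L) (s : Chart) (χ ψ : Lam) :
    D.zs s χ * D.zs s ψ =
      algebraMap K L (∏ β : Br with inert β χ = 1 ∧ inert β ψ = 1, tS s β) * D.zs s (χ + ψ) := by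
  have hw : ∀ χ, wx s ^ ax χ * wu s ^ bx χ ≠ 0 := fun χ =>
    mul_ne_zero (pow_ne_zero _ (wx_ne_zero s)) (pow_ne_zero _ (wu_ne_zero s))
  have h := prod_tS s χ ψ
  have h' : (wx s ^ ax χ * wu s ^ bx χ)⁻¹ * (wx s ^ ax ψ * wu s ^ bx ψ)⁻¹ * mB χ ψ =
      (∏ β : Br with inert β χ = 1 ∧ inert β ψ = 1, tS s β) *
        (wx s ^ ax (χ + ψ) * wu s ^ bx (χ + ψ))⁻¹ := by
    have h1 := hw χ
    have h2 := hw ψ
    have h3 := hw (χ + ψ)
    rw [← mul_inv, inv_mul_eq_div, div_eq_iff (mul_ne_zero h1 h2)]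
    rw [mul_assoc, mul_comm (_)⁻¹ _, ← mul_assoc, ← h, mul_assoc, mul_inv_cancel₀ h3, mul_one]
  unfold SurfData.zs
  calc _ = (algebraMap K L (wx s ^ ax χ * wu s ^ bx χ)⁻¹ *
        algebraMap K L (wx s ^ ax ψ * wu s ^ bx ψ)⁻¹) * (D.z χ * D.z ψ) := by ring
    _ = algebraMap K L ((wx s ^ ax χ * wu s ^ bx χ)⁻¹ *
        (wx s ^ ax ψ * wu s ^ bx ψ)⁻¹ * mB χ ψ) * D.z (χ + ψ) := by
      rw [D.z_mul, map_mul (algebraMap K L) _ (mB χ ψ), map_mul (algebraMap K L) _ _]; ring
    _ = _ := by rw [h', map_mul]; ring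

theorem surfRegular (L : Type*) [Field L] [Algebra ℂ L] [Algebra K L] [IsScalarTower ℂ K L] :
    SurfRegular L := by
  rintro hint ⟨D⟩ s m hm
  have hw : ∀ χ, wx s ^ ax χ * wu s ^ bx χ ≠ 0 := fun χ =>
    mul_ne_zero (pow_ne_zero _ (wx_ne_zero s)) (pow_ne_zero _ (wu_ne_zero s))
  have hzs : ∀ χ, D.zs s χ ∈ Oalg L s := by
    intro χ
    have h := (hint D s (fun ψ => if ψ = χ then 1 else 0)).mpr (by
      intro ψ
      split_ifs
      · exact (Ralg s).one_mem
      · exact (Ralg s).zero_mem)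
    simpa using h
  let X : Bool → Oalg L s := fun k => incl L s ⟨gc s k, gc_mem s k⟩
  let Z : Lam → Oalg L s := fun χ => ⟨D.zs s χ, hzs χ⟩
  let t : Br → Oalg L s := fun β => incl L s ⟨tS s β, tS_mem s β⟩
  have hmul : ∀ χ ψ, Z χ * Z ψ = PP t χ ψ * Z (χ + ψ) := by
    intro χ ψ
    apply Subtype.ext
    have h1 : ((PP t χ ψ : Oalg L s) : L) =
        algebraMap K L (∏ β : Br with inert β χ = 1 ∧ inert β ψ = 1, tS s β) := by
      unfold PP
      rw [map_prod]
      exact map_prod (Oalg L s).val _ _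
    change D.zs s χ * D.zs s ψ = ((PP t χ ψ : Oalg L s) : L) * D.zs s (χ + ψ)
    rw [h1, zs_mul]
  have hlin' : ∀ β, t β = algebraMap ℂ _ (pc s β) * X β.1 + algebraMap ℂ _ (qc s β) := by
    intro β
    have : (⟨tS s β, tS_mem s β⟩ : Ralg s) = algebraMap ℂ _ (pc s β) * ⟨gc s β.1, gc_mem s _⟩ +
        algebraMap ℂ _ (qc s β) := Subtype.ext (tS_eq s β)
    change incl L s _ = _
    rw [this, map_add, map_mul, AlgHom.commutes, AlgHom.commutes]
  have hlin : ∀ β, ∃ p q : ℂ, p ≠ 0 ∧ t β = algebraMap ℂ _ p * X β.1 + algebraMap ℂ _ q :=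
    fun β => ⟨pc s β, qc s β, pc_ne_zero s β, hlin' β⟩
  have hco : ∀ β β' : Br, β.1 = β'.1 → β ≠ β' → ∃ p q : Oalg L s, p * t β + q * t β' = 1 := by
    intro β β' h hne
    have hd := pq_ne (s := s) h hne
    refine ⟨algebraMap ℂ _ ((pc s β' * qc s β - pc s β * qc s β')⁻¹ * pc s β'),
      algebraMap ℂ _ (-((pc s β' * qc s β - pc s β * qc s β')⁻¹ * pc s β)), ?_⟩
    rw [hlin' β, hlin' β', h]
    have h1 : (pc s β' * qc s β - pc s β * qc s β')⁻¹ *
        (pc s β' * qc s β - pc s β * qc s β') = 1 := inv_mul_cancel₀ hd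
    have h2 := congrArg (algebraMap ℂ (Oalg L s)) h1
    simp only [map_mul, map_sub, map_one, map_neg] at h2 ⊢
    linear_combination h2
  have hZ0 : Z 0 = 1 := by
    apply Subtype.ext
    change D.zs s 0 = 1
    unfold SurfData.zs
    rw [D.z_zero]
    have h1 : ax 0 = 0 := by decide
    have h2 : bx 0 = 0 := by decide
    simp [h1, h2]
  have hRmem : ∀ r : Ralg s, incl L s r ∈ Algebra.adjoin ℂ (Set.range X) := by
    intro r
    obtain ⟨p, rfl⟩ := (eqv s).surjective r
    induction p using MvPolynomial.induction_on with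
    | C a =>
      have : (MvPolynomial.C a : MvPolynomial (Fin 2) ℂ) = algebraMap ℂ _ a := rfl
      rw [this, AlgEquiv.commutes, AlgHom.commutes]
      exact Subalgebra.algebraMap_mem _ _
    | add p q hp hq => rw [map_add, map_add]; exact Subalgebra.add_mem _ hp hq
    | mul_X p i hp =>
      rw [map_mul, map_mul, eqv_X]
      exact Subalgebra.mul_mem _ hp (Algebra.subset_adjoin ⟨_, rfl⟩)
  have hgen : Algebra.adjoin ℂ (Set.range X ∪ Set.range Z) = ⊤ := by
    rw [eq_top_iff]
    rintro y -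
    have hy : (y : L) ∈ Submodule.span K (Set.range D.z) := D.span trivial
    rw [Submodule.mem_span_range_iff_exists_fun] at hy
    obtain ⟨c, hc⟩ := hy
    have h1 : (y : L) = ∑ χ, algebraMap K L (c χ * (wx s ^ ax χ * wu s ^ bx χ)) * D.zs s χ := by
      rw [← hc]
      refine Finset.sum_congr rfl fun χ _ => ?_
      unfold SurfData.zs
      rw [← mul_assoc, ← map_mul, mul_assoc, mul_inv_cancel₀ (hw χ), mul_one, Algebra.smul_def]
    have h2 : ∀ χ, c χ * (wx s ^ ax χ * wu s ^ bx χ) ∈ Ralg s :=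
      (hint D s (fun χ => c χ * (wx s ^ ax χ * wu s ^ bx χ))).mp (by rw [← h1]; exact y.2)
    have h3 : y = ∑ χ, incl L s ⟨_, h2 χ⟩ * Z χ := by
      apply Subtype.ext
      rw [h1]
      exact (map_sum (Oalg L s).val (fun χ => incl L s ⟨_, h2 χ⟩ * Z χ) Finset.univ).symm
    rw [h3]
    refine Subalgebra.sum_mem _ fun χ _ => Subalgebra.mul_mem _ ?_ ?_
    · exact Algebra.adjoin_mono Set.subset_union_left (hRmem _)
    · exact Algebra.subset_adjoin (Or.inr ⟨χ, rfl⟩)
  have hft : Algebra.FiniteType ℂ (Oalg L s) :=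
    ⟨Subalgebra.fg_def.mpr ⟨_, Set.toFinite _, hgen⟩⟩
  have hnoeth : IsNoetherianRing (Oalg L s) := Algebra.FiniteType.isNoetherianRing ℂ _
  have hres : ∀ y : Oalg L s, ∃ c : ℂ, y - algebraMap ℂ _ c ∈ m := by
    intro y
    let _ := Ideal.Quotient.field m
    have h1 : Algebra.FiniteType ℂ (Oalg L s ⧸ m) :=
      Algebra.FiniteType.of_surjective (Ideal.Quotient.mkₐ ℂ m) Ideal.Quotient.mk_surjective
    have h2 : Module.Finite ℂ (Oalg L s ⧸ m) := finite_of_finite_type_of_isJacobsonRing ℂ _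
    obtain ⟨c, hc⟩ := (IsAlgClosed.algebraMap_bijective_of_isIntegral (k := ℂ)
      (K := Oalg L s ⧸ m)).2 (Ideal.Quotient.mk m y)
    refine ⟨c, ?_⟩
    rw [← Ideal.Quotient.eq, ← hc]
    rfl
  obtain ⟨P, hP1, hP2, hP3⟩ := exists_prime_below s m hres
  exact regular_of_generators m P hP2 hP3 (exists_generators hmul hlin hco hgen hZ0 m hres)

end main


end Pool.Agent.Lib.LP
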