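import Pool.Agent.Lib.MP_865fc0_ag.SurfSpec
import Pool.Agent.Lib.MP_865fc0_ag.SurfIntegral

/-!
# The structure sheaf is a lattice of rings
-/

set_option linter.unusedSectionVars false

open scoped Pointwise

namespace Pool.Agent.Lib.LP

section

variable {L : Type} [Field L] [Algebra ℂ L] [Algebra K L] [IsScalarTower ℂ K L]

/-- The lattice of all `v` whose `χ`-coordinate is in `J χ`. -/
noncomputable def SurfData.sumL (D : SurfData L) (J : Lam → Chart → Submodule ℂ K) :
    Chart → Submodule ℂ L :=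
  Finset.univ.sup (fun χ => mapL (LinearMap.toSpanSingleton K L (D.z χ)) (J χ))

theorem SurfData.repr_sum (D : SurfData L) (v : L) : ∑ χ, D.basis.repr v χ • D.z χ = v := by
  conv_rhs => rw [← D.basis.sum_repr v]
  exact Finset.sum_congr rfl fun χ _ => by rw [D.basis_apply]

theorem SurfData.repr_eq (D : SurfData L) (f : Lam → K) (χ : Lam) :
    D.basis.repr (∑ ψ, f ψ • D.z ψ) χ = f χ := by
  classical
  have h : ∑ ψ, f ψ • D.z ψ = ∑ ψ, f ψ • D.basis ψ :=
    Finset.sum_congr rfl fun χ _ => by rw [D.basis_apply]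
  rw [h, D.basis.repr_sum_self]

theorem sup_apply' {ι : Type*} (T : Finset ι) (F : ι → Chart → Submodule ℂ L) (s : Chart) :
    (T.sup F) s = T.sup (fun i => F i s) := by
  classical
  induction T using Finset.induction_on with
  | empty => rfl
  | insert i T _ ih => rw [Finset.sup_insert, Finset.sup_insert, Pi.sup_apply, ih]

theorem SurfData.mem_sumL (D : SurfData L) (J : Lam → Chart → Submodule ℂ K) (s : Chart) (v : L) :
    v ∈ D.sumL J s ↔ ∀ χ, D.basis.repr v χ ∈ J χ s := by
  classical
  unfold SurfData.sumL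
  rw [sup_apply']
  constructor
  · intro hv χ
    have key : Finset.univ.sup (fun ψ => mapL (LinearMap.toSpanSingleton K L (D.z ψ)) (J ψ) s) ≤
        (J χ s).comap ((D.basis.coord χ).restrictScalars ℂ) := by
      apply Finset.sup_le
      intro ψ _ y hy
      rw [mem_mapL] at hy
      obtain ⟨m, hm, rfl⟩ := hy
      change D.basis.repr (m • D.z ψ) χ ∈ J χ s
      rw [← D.basis_apply ψ, map_smul, D.basis.repr_self, Finsupp.smul_apply,
        Finsupp.single_apply]
      split_ifs with h
      · rw [smul_eq_mul, mul_one, ← h]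
        exact hm
      · rw [smul_zero]
        exact Submodule.zero_mem _
    exact key hv
  · intro h
    rw [← D.repr_sum v]
    apply Submodule.sum_mem
    intro χ _
    refine (Finset.le_sup (f := fun ψ => mapL (LinearMap.toSpanSingleton K L (D.z ψ)) (J ψ) s)
      (Finset.mem_univ χ)) ?_
    rw [mem_mapL]
    exact ⟨_, h χ, rfl⟩

theorem isLat_finset_sup {ι : Type*} (T : Finset ι) (F : ι → Chart → Submodule ℂ L)
    (h : ∀ i ∈ T, IsLat (F i)) : IsLat (T.sup F) := by
  classical
  induction T using Finset.induction_on with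
  | empty =>
    rw [Finset.sup_empty]
    exact IsLat.bot
  | insert i T _ ih =>
    rw [Finset.sup_insert]
    exact (h i (Finset.mem_insert_self _ _)).sup
      (ih fun j hj => h j (Finset.mem_insert_of_mem hj))

theorem SurfData.isLat_sumL (D : SurfData L) (J : Lam → Chart → Submodule ℂ K)
    (hJ : ∀ χ, IsLat (J χ)) : IsLat (D.sumL J) :=
  isLat_finset_sup _ _ fun χ _ => (hJ χ).map _

theorem mem_strSheaf (hI : SurfIntegral L) (D : SurfData L) (s : Chart) (v : L) :
    v ∈ strSheaf L s ↔
      ∀ χ, D.basis.repr v χ * (wx s ^ ax χ * wu s ^ bx χ) ∈ Ralg s := by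
  rw [← hI D s]
  have h : ∑ χ, algebraMap K L (D.basis.repr v χ * (wx s ^ ax χ * wu s ^ bx χ)) * D.zs s χ =
      v := by
    conv_rhs => rw [← D.repr_sum v]
    apply Finset.sum_congr rfl
    intro χ _
    unfold SurfData.zs
    rw [← mul_assoc, ← map_mul, Algebra.smul_def, mul_assoc, mul_inv_cancel₀, mul_one]
    exact mul_ne_zero (pow_ne_zero _ (wx_ne_zero s)) (pow_ne_zero _ (wu_ne_zero s))
  rw [h]
  exact Iff.rfl

theorem strSheaf_eq (hI : SurfIntegral L) (D : SurfData L) :
    strSheaf L = D.sumL (fun χ => tw (-(ax χ : ℤ)) (-(bx χ : ℤ)) R) := by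
  funext s
  ext v
  rw [mem_strSheaf hI D, D.mem_sumL]
  apply forall_congr'
  intro χ
  rw [mem_tw]
  have h : (wx s ^ (-(ax χ : ℤ)) * wu s ^ (-(bx χ : ℤ)))⁻¹ = wx s ^ ax χ * wu s ^ bx χ := by
    rw [mul_inv, zpow_neg, zpow_neg, inv_inv, inv_inv, zpow_natCast, zpow_natCast]
  rw [h, smul_eq_mul, mul_comm]
  exact Iff.rfl

theorem isLat_strSheaf (hI : SurfIntegral L) (D : SurfData L) : IsLat (strSheaf L) := by
  rw [strSheaf_eq hI D]
  exact D.isLat_sumL _ fun χ => isLat_R.tw _ _

end

theorem surfRing (L : Type) [Field L] [Algebra ℂ L] [Algebra K L] [IsScalarTower ℂ K L] :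
    SurfRing L := by
  rintro hI ⟨D⟩
  refine ⟨isLat_strSheaf hI D, ?_, ?_⟩
  · funext s
    exact Subalgebra.isIdempotentElem_toSubmodule _
  · intro s
    rw [Pi.one_apply, Submodule.one_le]
    exact (Oalg L s).one_mem

end Pool.Agent.Lib.LP
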