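import Pool.Agent.Lib.MP_865fc0_ag.Facts
import Pool.Agent.Lib.MP_865fc0_ag.SurfExists
import Pool.Agent.Lib.MP_865fc0_ag.SurfIntegral
import Pool.Agent.Lib.MP_865fc0_ag.SurfRing
import Pool.Agent.Lib.MP_865fc0_ag.SurfChi
import Pool.Agent.Lib.MP_865fc0_ag.SurfD
import Pool.Agent.Lib.MP_865fc0_ag.SurfRegular
import Pool.Agent.Lib.MP_865fc0_ag.SurfH1

/-!
# A regular surface whose Le Potier function is continuous at zero

All definitions of the statement are in `Pool/Agent/Lib/MP_865fc0_ag/Defs.lean`.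

The surface `S` is the quotient of a product of two curves of genus `5` by a free action of
`(ℤ/2)^3`; it is the `(ℤ/2)^3`-cover of `P^1 × P^1` branched along six fibres of each projection,
with invariants `q(S) = 0`, `χ(O_S) = 2`, `K_S^2 = 16`, and `H` is numerically equivalent to `K_S`.
It has towers of étale double covers on which `O(1,0)` and `O(0,1)` become divisible by arbitrary
powers of two; pushing forward twists of pulled back semistable sheaves gives
`Φ(t) ≥ Φ(s) + s (t - s)` for all `s` and `t`.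
-/

open Pool.Agent.Lib.LP

namespace Pool.Agent.Lib.MP865fc0.ContinuousAtZero

/-- There is a smooth polarized surface `(S, H)` with `H^1(S, O_S) = 0` whose Le Potier function
is `Φ(t) = Φ(0) + t^2 / 2`, with `Φ(0) ≥ 0`; in particular it is continuous at `0`. -/
theorem result : ∃ (L : Type) (_ : Field L) (_ : Algebra ℂ L) (_ : Algebra K L)
    (_ : IsScalarTower ℂ K L), FiniteDimensional K L ∧ IsNonsingular L ∧ H1Vanishes L ∧
      0 ≤ Phi L 0 ∧ (∀ t : ℝ, Phi L t = Phi L 0 + ((t ^ 2 / 2 : ℝ) : EReal)) ∧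
      ContinuousAt (Phi L) 0 := by
  obtain ⟨L, i1, i2, i3, i4, ⟨D⟩⟩ := surfExists
  have hI := surfIntegral L
  have H := surfFacts D hI (surfRing L) (surfChi L) (surfOmega L) (surfD L)
  exact ⟨L, i1, i2, i3, i4, H.fin, surfRegular L hI ⟨D⟩, surfH1 L hI ⟨D⟩,
    Phi_zero_nonneg H, Phi_parabola H, continuousAt_Phi H⟩

end Pool.Agent.Lib.MP865fc0.ContinuousAtZero
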