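import Mathlib

/-!
# The Le Potier function of a polarized surface which is finite over `P^1 × P^1`

Let `K = ℂ(x,u)` be the function field of `P = P^1 × P^1` and let `L / K` be a finite field
extension.  The normalization `π : S → P` of `P` in `L` is an integral normal projective surface
over `ℂ`, finite over `P`, with function field `L`.  It is polarized by `H = π^* O(1,1)`, which is
ample because `π` is finite.

* `P` is covered by the four standard affine charts; `S` is covered by their preimages `U_s`, and
  the coordinate ring of `U_s` is the integral closure `Oalg L s` in `L` of the coordinate ring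
  `Ralg s` of the chart.
* A torsion-free coherent sheaf `F` on `S` is a coherent subsheaf of a constant sheaf `V`, where
  `V` is a finite-dimensional vector space over `L`; it is given by its modules of sections
  `F s ⊆ V` over the four charts (`IsSheaf`).
* `χ(F(a,b))`, where `F(a,b) = F ⊗ π^* O(a,b)`, is the Hilbert polynomial of `F`, the unique
  polynomial of the form `A a b + α a + β b + γ` whose value is `h^0(F(a,b))` for
  large twists (`eulerChar`).
* degree, slope, semistability and second Chern character are obtained from the Euler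
  characteristics by the theorem of Riemann-Roch (`deg`, `slope`, `IsSemistable`, `ch2`).
* `Phi L` is the Le Potier function of `(S, H)`, with values in the extended real line.
-/

open scoped Pointwise
open Filter

namespace Pool.Agent.Lib.LP

/-! ### The base `P^1 × P^1` -/

/-- The field `K = ℂ(x,u)` of rational functions on `P^1 × P^1`. -/
abbrev K : Type := FractionRing (MvPolynomial (Fin 2) ℂ)

/-- The coordinate `x` on the first factor. -/
noncomputable def x : K := algebraMap (MvPolynomial (Fin 2) ℂ) K (MvPolynomial.X 0)

/-- The coordinate `u` on the second factor. -/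
noncomputable def u : K := algebraMap (MvPolynomial (Fin 2) ℂ) K (MvPolynomial.X 1)

/-- The four standard affine charts of `P^1 × P^1`; in the chart `s` the coordinates are
`x` (or `1/x` if `s.1 = true`) and `u` (or `1/u` if `s.2 = true`). -/
abbrev Chart : Type := Bool × Bool

/-- The generator of `O(1,0)` in the chart `s`, as a rational function (`1` or `x`). -/
noncomputable def wx (s : Chart) : K := if s.1 then x else 1

/-- The generator of `O(0,1)` in the chart `s`, as a rational function (`1` or `u`). -/
noncomputable def wu (s : Chart) : K := if s.2 then u else 1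

/-- The generator of `O(1,1)` in the chart `s`: one of `1`, `x`, `u`, `x u`. The chart `s` is the
set of points of `P^1 × P^1` where the section `w s` of `O(1,1)` does not vanish. -/
noncomputable def w (s : Chart) : K := wx s * wu s

/-- The coordinate ring of the chart `s` of `P^1 × P^1`. -/
noncomputable def Ralg (s : Chart) : Subalgebra ℂ K :=
  Algebra.adjoin ℂ {(if s.1 then x⁻¹ else x), (if s.2 then u⁻¹ else u)}

/-! ### The surface -/

section surface

variable (L : Type*) [Field L] [Algebra ℂ L] [Algebra K L] [IsScalarTower ℂ K L]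

/-- The coordinate ring of the affine open subset `U_s` of `S`: the integral closure in `L` of
the coordinate ring of the chart `s` of `P^1 × P^1`. -/
noncomputable def Oalg (s : Chart) : Subalgebra ℂ L :=
  (integralClosure (Ralg s) L).restrictScalars ℂ

/-- The surface `S` is nonsingular: its local rings at all closed points are regular. -/
def IsNonsingular : Prop :=
  ∀ (s : Chart) (m : Ideal (Oalg L s)) [m.IsMaximal], IsRegularLocalRing (Localization.AtPrime m)

/-- `H^1(S, O_S) = 0`, in terms of Čech cocycles for the affine covering `(U_s)`; the ring of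
functions on `U_s ∩ U_t` is generated by those on `U_s` and those on `U_t`. -/
def H1Vanishes : Prop :=
  ∀ c : Chart → Chart → L, (∀ s t, c s t ∈ Oalg L s ⊔ Oalg L t) →
    (∀ s t r, c s t + c t r = c s r) →
    ∃ g : Chart → L, (∀ s, g s ∈ Oalg L s) ∧ ∀ s t, c s t = g s - g t

/-- The structure sheaf of `S`, as a subsheaf of the constant sheaf `L`. -/
noncomputable def strSheaf (s : Chart) : Submodule ℂ L := Subalgebra.toSubmodule (Oalg L s)

/-- The canonical sheaf `ω_S`, as a subsheaf of the constant sheaf `L`: since
`π_* ω_S = Hom(π_* O_S, ω_P)`, `ω_P = O(-2,-2)`, its sections over `U_s` are the `v ∈ L` such that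
`Tr_{L/K}(a v)` is a section of `O(-2,-2)` over the chart `s` for all `a ∈ O_S(U_s)`. -/
noncomputable def canonicalSheaf (s : Chart) : Submodule ℂ L where
  carrier := {v | ∀ a ∈ Oalg L s, wx s ^ 2 * wu s ^ 2 * Algebra.trace K L (a * v) ∈ Ralg s}
  add_mem' := by
    intro v v' hv hv' a ha
    rw [mul_add, map_add, mul_add]
    exact (Ralg s).add_mem (hv a ha) (hv' a ha)
  zero_mem' := by
    intro a _
    rw [mul_zero, map_zero, mul_zero]
    exact (Ralg s).zero_mem
  smul_mem' := by
    intro c v hv a ha
    have h : Algebra.trace K L (a * c • v) = c • Algebra.trace K L (a * v) := by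
      rw [mul_smul_comm, ← algebraMap_smul K c, map_smul, algebraMap_smul]
    rw [h, mul_smul_comm]
    exact (Ralg s).smul_mem (hv a ha) c

end surface

/-! ### Sheaves, sections and Euler characteristics -/

section sheaves

variable {V : Type*} [AddCommGroup V] [Module ℂ V] [Module K V]

/-- The global sections of the twist `F(a,b) = F ⊗ π^* O(a,b)`, for a sheaf `F` given by its
sections over the four charts. -/
noncomputable def sections [IsScalarTower ℂ K V] (F : Chart → Submodule ℂ V) (a b : ℤ) :
    Submodule ℂ V where
  carrier := {v | ∀ s, (wx s ^ a * wu s ^ b)⁻¹ • v ∈ F s}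
  add_mem' := by
    intro v v' hv hv' s
    rw [smul_add]
    exact (F s).add_mem (hv s) (hv' s)
  zero_mem' := by
    intro s
    rw [smul_zero]
    exact (F s).zero_mem
  smul_mem' := by
    intro c v hv s
    rw [smul_comm]
    exact (F s).smul_mem c (hv s)

/-- `p` is the Hilbert polynomial of `F`: it is of the form `A a b + α a + β b + γ`, and
`h^0(F(n + a, n + b)) = p (n + a) (n + b)` for all large `n`. -/
def IsHilbertPolynomial [IsScalarTower ℂ K V] (F : Chart → Submodule ℂ V) (p : ℤ → ℤ → ℤ) : Prop :=
  (∃ A α β γ : ℤ, ∀ a b, p a b = A * a * b + α * a + β * b + γ) ∧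
  ∀ a b : ℤ, ∀ᶠ n : ℕ in atTop,
    (Module.finrank ℂ (sections F (n + a) (n + b)) : ℤ) = p (n + a) (n + b)

open Classical in
/-- The Euler characteristic `χ(F(a,b))`: the value at `(a,b)` of the Hilbert polynomial of `F`. -/
noncomputable def eulerChar [IsScalarTower ℂ K V] (F : Chart → Submodule ℂ V) : ℤ → ℤ → ℤ :=
  if h : ∃ p, IsHilbertPolynomial F p then h.choose else 0

/-- The coefficient of `n` in the polynomial `χ(F(n,n))` of degree at most two in `n`. -/
noncomputable def linCoeff [IsScalarTower ℂ K V] (F : Chart → Submodule ℂ V) : ℚ :=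
  (eulerChar F 1 1 - eulerChar F (-1) (-1)) / 2

variable (L : Type*) [Field L] [Algebra ℂ L] [Algebra K L] [IsScalarTower ℂ K L]
variable [Module L V] [IsScalarTower ℂ L V] [IsScalarTower K L V]

/-- `F` is a coherent sheaf on `S`, contained in the constant sheaf `V`: over each `U_s` it is a
finitely generated `O_S(U_s)`-submodule `F s` of the `L`-vector space `V`, and these modules agree
on the intersections of the charts (the open subset `U_s ∩ U_t` of `U_t` is the set where
`w s / w t` does not vanish). -/
structure IsSheaf (F : Chart → Submodule ℂ V) : Prop where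
  fg : ∀ s, ∃ T : Finset V, (F s : Set V) = Submodule.span (Oalg L s) (T : Set V)
  glue : ∀ s t, ∀ v ∈ F s, ∃ n : ℕ, (w s / w t) ^ n • v ∈ F t

/-- The rank of `F`: the dimension of the `L`-vector space spanned by `F`. -/
noncomputable def rk (F : Chart → Submodule ℂ V) : ℕ :=
  Module.finrank L (Submodule.span L (⋃ s, (F s : Set V)))

/-- The degree `H · ch_1(F)`. By Riemann-Roch `χ(F(n,n))` is equal to
`rk(F) (H^2) n^2 / 2 + (H · ch_1(F) - rk(F) (H · K_S) / 2) n + χ(F)`. -/
noncomputable def deg [IsScalarTower ℂ K V] (F : Chart → Submodule ℂ V) : ℚ :=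
  linCoeff F - rk L F * linCoeff (strSheaf L)

/-- `H^2 = 2 [L : K]`, since `H = π^* O(1,1)` and `O(1,1)^2 = 2`. -/
noncomputable def Hsq : ℚ := 2 * Module.finrank K L

/-- The slope `μ_H(F) = H · ch_1(F) / (H^2 rk(F))`. -/
noncomputable def slope [IsScalarTower ℂ K V] (F : Chart → Submodule ℂ V) : ℚ :=
  deg L F / (Hsq L * rk L F)

/-- The tensor product `F ⊗ ω_S`: the subsheaf of `V` generated by the products of sections of
`ω_S` and of `F`. -/
noncomputable def twistCanonical (F : Chart → Submodule ℂ V) (s : Chart) : Submodule ℂ V :=
  canonicalSheaf L s • F s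

/-- The degree of the second Chern character of `F`. By Riemann-Roch
`χ(F) = ch_2(F) - (K_S · ch_1(F)) / 2 + rk(F) χ(O_S)` and
`χ(F ⊗ ω_S) = ch_2(F) + (K_S · ch_1(F)) / 2 + rk(F) χ(O_S)`. -/
noncomputable def ch2 [IsScalarTower ℂ K V] (F : Chart → Submodule ℂ V) : ℚ :=
  (eulerChar F 0 0 + eulerChar (twistCanonical L F) 0 0) / 2 -
    rk L F * eulerChar (strSheaf L) 0 0

/-- Slope semistability of a torsion-free sheaf: `μ_H(E) ≤ μ_H(F / E)` for all subsheaves `E`
with `0 < rk E < rk F` (for nonzero `E` of full rank, `F / E` is a torsion sheaf or zero, and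
its slope is `+∞`). The common factor `1 / H^2` is left out on both sides. -/
def IsSemistable [IsScalarTower ℂ K V] (F : Chart → Submodule ℂ V) : Prop :=
  ∀ E : Chart → Submodule ℂ V, IsSheaf L E → E ≤ F → 0 < rk L E → rk L E < rk L F →
    deg L E / rk L E ≤ (deg L F - deg L E) / (rk L F - rk L E)

end sheaves

/-! ### The Le Potier function -/

section LePotier

variable (L : Type*) [Field L] [Algebra ℂ L] [Algebra K L] [IsScalarTower ℂ K L]

/-- The Le Potier function `Φ_{S,H}`, with values in the extended real line:
`Φ(t) = lim_{ε → 0+} sup {ch_2(F) / (H^2 rk(F))}`, the supremum being over all semistable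
torsion-free coherent sheaves `F` of rank `r > 0` (subsheaves of rank `r` of the constant sheaf
`L^r`) with `|μ_H(F) - t| < ε`. -/
noncomputable def Phi (t : ℝ) : EReal :=
  ⨅ ε : {ε : ℝ // 0 < ε}, sSup {c : EReal | ∃ (r : ℕ) (F : Chart → Submodule ℂ (Fin r → L)),
    0 < r ∧ IsSheaf L F ∧ rk L F = r ∧ IsSemistable L F ∧ |(slope L F : ℝ) - t| < ε ∧
    c = ((ch2 L F / (Hsq L * r) : ℚ) : ℝ)}

end LePotier

end Pool.Agent.Lib.LP
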