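import Pool.Agent.Lib.MP_865fc0_ag.Semi

/-!
# Two-torsion line bundles do not change Euler characteristics
-/

open scoped Pointwise
open Filter

namespace Pool.Agent.Lib.LP

section gen

variable {V : Type*} [AddCommGroup V] [Module ℂ V] [Module K V] [IsScalarTower ℂ K V]
variable {F : Chart → Submodule ℂ V}

/-- Global generation of large twists. -/
theorem IsLat.exists_globally_generated (hF : IsLat F) :
    ∃ c : ℕ, ∀ s, LP.tw c c F s = R s • Sec F c c := by
  have h1 : ∀ s, ∃ n : ℕ, ∀ m : ℕ, n ≤ m → LP.tw m m F s = R s • Sec F m m := by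
    intro s
    obtain ⟨T, ⟨t, ht⟩, hT⟩ := hF.fg s
    have hTF : T ≤ F s := by
      rw [hT]
      intro v hv
      rw [← one_smul K v]
      exact Submodule.smul_mem_smul (one_mem_R s) hv
    have h2 : ∀ v ∈ T, ∃ n : ℕ, ∀ m, n ≤ m → w s ^ m • v ∈ Sec F m m :=
      fun v hv => hF.exists_global (hTF hv)
    choose! N hN using h2
    refine ⟨∑ v ∈ t, N v, fun m hm => ?_⟩
    have h3 : ∀ v ∈ T, w s ^ m • v ∈ Sec F m m := by
      intro v hv
      rw [← ht] at hv
      induction hv using Submodule.span_induction with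
      | mem v hv =>
        refine hN v (by rw [← ht]; exact Submodule.subset_span hv) _ (le_trans ?_ hm)
        exact Finset.single_le_sum (f := N) (fun _ _ => Nat.zero_le _) hv
      | zero => rw [smul_zero]; exact Submodule.zero_mem _
      | add a b _ _ ha hb => rw [smul_add]; exact Submodule.add_mem _ ha hb
      | smul c a _ ha => rw [smul_comm]; exact Submodule.smul_mem _ _ ha
    apply le_antisymm
    · unfold LP.tw
      rw [hT, w_zpow, zpow_natCast, smul_smul_sub, mul_comm, ← smul_smul_sub]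
      apply Submodule.smul_mono le_rfl
      intro v hv
      obtain ⟨n, hn, rfl⟩ := mem_line_smul.1 hv
      exact h3 n hn
    · have h4 : Sec F m m ≤ LP.tw m m F s := iInf_le _ s
      refine (Submodule.smul_mono le_rfl h4).trans ?_
      rw [(hF.tw m m).smul_eq]
  choose N hN using h1
  exact ⟨∑ s, N s, fun s => hN s _
    (Finset.single_le_sum (f := N) (fun _ _ => Nat.zero_le _) (Finset.mem_univ s))⟩

end gen

section

variable {C : Type*} [CommRing C] [Algebra ℂ C] [Algebra K C]
variable {V : Type*} [AddCommGroup V] [Module ℂ V] [Module K V] [IsScalarTower ℂ K V]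
variable [Module C V] [IsScalarTower ℂ C V] [IsScalarTower K C V]

/-- The elements of `M` which are sent into `N` by the multiplication by `h`. -/
noncomputable def kerF (h : C) (M N : Chart → Submodule ℂ V) : Chart → Submodule ℂ V :=
  fun s => M s ⊓ (N s).comap ((mulE V h).restrictScalars ℂ)

theorem mem_kerF {h : C} {M N : Chart → Submodule ℂ V} {s : Chart} {v : V} :
    v ∈ kerF h M N s ↔ v ∈ M s ∧ h • v ∈ N s := Iff.rfl

theorem le_kerF {h : C} {M N Y : Chart → Submodule ℂ V} :
    Y ≤ kerF h M N ↔ Y ≤ M ∧ ln h • Y ≤ N := by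
  constructor
  · intro hY
    refine ⟨fun s v hv => (hY s hv).1, fun s v hv => ?_⟩
    obtain ⟨n, hn, rfl⟩ := mem_ln_smul.1 hv
    exact (hY s hn).2
  · rintro ⟨h1, h2⟩ s v hv
    exact ⟨h1 s hv, h2 s (mem_ln_smul.2 ⟨v, hv, rfl⟩)⟩

theorem IsLat.kerF {h : C} {M N : Chart → Submodule ℂ V} (hM : IsLat M) (hN : IsLat N) :
    IsLat (kerF h M N) where
  fg := by
    intro s
    obtain ⟨T, hT, h'⟩ := hM.fg s
    refine exists_fg_of_le s ?_ hT (inf_le_left.trans h'.le)
    rw [Submodule.smul_le]
    rintro r hr v ⟨hv1, hv2⟩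
    refine ⟨hM.smul_mem hr hv1, ?_⟩
    have : h • r • v = r • h • v := smul_comm _ _ _
    show h • r • v ∈ N s
    rw [this]
    exact hN.smul_mem hr hv2
  glue := by
    rintro s t v ⟨hv1, hv2⟩
    obtain ⟨n, hn⟩ := hM.glue s t v hv1
    obtain ⟨m, hm⟩ := hN.glue s t _ hv2
    refine ⟨max n m, hM.glue_mono (le_max_left _ _) hn, ?_⟩
    show h • (w s / w t) ^ max n m • v ∈ N t
    rw [smul_comm]
    exact hN.glue_mono (le_max_right _ _) hm

variable [IsScalarTower ℂ K C]
variable {O I J X : Chart → Submodule ℂ C} {M M' : Chart → Submodule ℂ V}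

theorem ln_smul_kerF {h : C} {M N : Chart → Submodule ℂ V} :
    ln h • kerF h M N = N ⊓ ln h • M := by
  funext s
  ext v
  rw [mem_ln_smul, Pi.inf_apply, Submodule.mem_inf, mem_ln_smul]
  constructor
  · rintro ⟨n, ⟨h1, h2⟩, rfl⟩
    exact ⟨h2, n, h1, rfl⟩
  · rintro ⟨h1, n, hn, rfl⟩
    exact ⟨n, ⟨hn, h1⟩, rfl⟩

theorem chi_kerF [Module.Finite K V] {h : C} {M N : Chart → Submodule ℂ V} (hM : IsLat M)
    (hN : IsLat N) (a b : ℤ) :
    chi (N ⊔ ln h • M) a b - chi N a b = chi M a b - chi (kerF h M N) a b := by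
  have h1 := hN.chi_sup (hM.ln_smul h) a b
  have hK : IsLat (kerF h M N) := hM.kerF hN
  have h2 := hM.chi_map (mulE V h) a b
  have h3 := hK.chi_map (mulE V h) a b
  rw [← ln_smul_eq] at h2 h3
  rw [ln_smul_kerF] at h3
  have h4 : (fun s => kerF h M N s ⊓ LinearMap.ker ((mulE V h).restrictScalars ℂ)) =
      (fun s => M s ⊓ LinearMap.ker ((mulE V h).restrictScalars ℂ)) := by
    funext s
    ext v
    rw [Submodule.mem_inf, Submodule.mem_inf, mem_kerF]
    constructor
    · rintro ⟨⟨h1, _⟩, h2⟩
      exact ⟨h1, h2⟩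
    · rintro ⟨h1, h2⟩
      refine ⟨⟨h1, ?_⟩, h2⟩
      rw [LinearMap.mem_ker, LinearMap.restrictScalars_apply, mulE_apply] at h2
      rw [h2]
      exact (N s).zero_mem
  rw [h4] at h3
  linarith

omit [Algebra K C] [IsScalarTower ℂ K C] in
theorem sup_pow_le (X Y : Chart → Submodule ℂ C) (n : ℕ) :
    (X ⊔ Y) ^ (n + 1) ≤ X ^ (n + 1) ⊔ Y * (X ⊔ Y) ^ n := by
  induction n with
  | zero => simp
  | succ n ih =>
    calc (X ⊔ Y) ^ (n + 1 + 1) = (X ⊔ Y) * (X ⊔ Y) ^ (n + 1) := pow_succ' _ _
      _ = X * (X ⊔ Y) ^ (n + 1) ⊔ Y * (X ⊔ Y) ^ (n + 1) := by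
          rw [← add_eq_sup, ← add_eq_sup, add_mul]
      _ ≤ X * (X ^ (n + 1) ⊔ Y * (X ⊔ Y) ^ n) ⊔ Y * (X ⊔ Y) ^ (n + 1) :=
          sup_le_sup_right (mul_le_mul_right ih X) _
      _ ≤ X ^ (n + 1 + 1) ⊔ Y * (X ⊔ Y) ^ (n + 1) := by
          apply sup_le _ le_sup_right
          rw [← add_eq_sup, mul_add, ← pow_succ', add_eq_sup]
          apply sup_le_sup_left
          rw [mul_left_comm]
          apply mul_le_mul_right
          rw [pow_succ']
          apply mul_le_mul_left
          exact le_sup_left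

omit [Algebra K C] [IsScalarTower ℂ K C] [Module K V] [IsScalarTower ℂ K V]
  [IsScalarTower K C V] in
/-- The key estimate on annihilation by powers. -/
theorem pow_smul_le {A B : Chart → Submodule ℂ V} {h : C} {n : ℕ} (hA : O • A = A)
    (hXJ : X ≤ J) (hh : ln h * O ≤ J) (h1 : X ^ n • A ≤ J ^ n • B) (h2 : ln h • A ≤ J • B) :
    (X ⊔ ln h * O) ^ (n + 1) • A ≤ J ^ (n + 1) • B := by
  have hle : X ⊔ ln h * O ≤ J := sup_le hXJ hh
  have hpow : (X ⊔ ln h * O) ^ n ≤ J ^ n := pow_le_pow_left' hle n
  refine (SmonoL (sup_pow_le _ _ _) A).trans ?_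
  rw [supS]
  apply sup_le
  · rw [pow_succ', pow_succ', mulS, mulS]
    exact (SmonoR X h1).trans (SmonoL hXJ _)
  · have e : (ln h * O * (X ⊔ ln h * O) ^ n) • A = (X ⊔ ln h * O) ^ n • ln h • A := by
      rw [mul_comm, mulS, mulS, hA]
    rw [e, pow_succ, mulS]
    exact (SmonoR _ h2).trans (SmonoL hpow _)

theorem bil_zero {δ : ℤ → ℤ → ℤ} (hδ : IsBil δ) (c : ℤ)
    (h : ∀ a b, δ (a + c) (b + c) + δ a b = 0) (a b : ℤ) : δ a b = 0 := by
  obtain ⟨A, α, β, γ, hp⟩ := hδ
  simp only [hp] at h
  have h00 := h 0 0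
  have h10 := h 1 0
  have h01 := h 0 1
  have h11 := h 1 1
  have hA : A = 0 := by
    have : 2 * A = 0 := by linear_combination h11 - h10 - h01 + h00
    omega
  subst hA
  have hα : α = 0 := by
    have : 2 * α = 0 := by linear_combination h10 - h00
    omega
  have hβ : β = 0 := by
    have : 2 * β = 0 := by linear_combination h01 - h00
    omega
  subst hα hβ
  have hγ : γ = 0 := by
    have : 2 * γ = 0 := by linear_combination h00
    omega
  rw [hp, hγ]; ring

theorem chi_I_smul_J [Module.Finite K V] {c : ℤ} (hI : IsLat I)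
    {N : Chart → Submodule ℂ V} (hN : IsLat N) (a b : ℤ) :
    chi (tw c c I • N) a b = chi (I • N) (a + c) (b + c) := by
  rw [tw_fsmul, (hI.fsmul hN).chi_tw]

/-- The inductive step of the dévissage. -/
theorem dlem_aux [Module.Finite K V] {c : ℤ} {e : C} (hO : IsRingLat O) (hI : IsLat I)
    (hIO : I * O = I) (he : IsUnit e) (hII : I * I = ln e * O) (t : Finset C) :
    ∀ X : Chart → Submodule ℂ C, X ≤ tw c c I →
    tw c c I ≤ X ⊔ O * (fun _ => Submodule.span ℂ (t : Set C)) →
    (∀ h ∈ t, ln h * O ≤ tw c c I) →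
    ∀ M M' : Chart → Submodule ℂ V, IsLat M → IsLat M' → O • M = M → O • M' = M' → M' ≤ M →
    (∃ n, X ^ n • M ≤ (tw c c I) ^ n • M') →
    ∀ a b, chi (I • M) a b - chi M a b = chi (I • M') a b - chi M' a b := by
  classical
  set J := tw c c I with hJ
  -- the inverse of `I` and `J`
  obtain ⟨e', he'⟩ := he.exists_right_inv
  have hII' : I * (ln e' * I) = O := by
    rw [mul_left_comm, hII, ← mul_assoc, ← ln_mul, mul_comm e' e, he', ln_one, one_mul]
  have hII'' : (ln e' * I) * I = O := by rw [mul_comm]; exact hII'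
  have hJlat : IsLat J := hI.tw c c
  have hJO : J * O = J := by rw [hJ, tw_mul, hIO]
  have hJJ' : J * (tw (-c) (-c) (ln e' * I)) = O := by
    rw [mul_comm, tw_mul, mul_comm, hJ, tw_mul, hII', tw_tw, neg_add_cancel, tw_zero]
  have hJpow : ∀ n, ∃ B, J ^ n * B = O := by
    intro n
    refine ⟨(tw (-c) (-c) (ln e' * I)) ^ n * O, ?_⟩
    rw [← mul_assoc, ← mul_pow, hJJ', ← pow_succ]
    induction n with
    | zero => rw [zero_add, pow_one]
    | succ n ih => rw [pow_succ, ih, hO.mul]
  have hIIln : ∀ N : Chart → Submodule ℂ V, O • N = N → I • I • N = ln e • N := by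
    intro N hN
    rw [← mulS, hII, mulS, hN]
  have hstab : ∀ {A : Chart → Submodule ℂ C} {N : Chart → Submodule ℂ V}, A * O = A →
      O • A • N = A • N := by
    intro A N hA
    rw [← mulS, mul_comm, hA]
  induction t using Finset.induction_on with
  | empty =>
    intro X hXJ hJX _ M M' hM hM' hOM hOM' hle ⟨n, hn⟩ a b
    have h0 : O * (fun _ => Submodule.span ℂ (((∅ : Finset C)) : Set C)) = ⊥ := by
      funext s
      show O s * Submodule.span ℂ _ = ⊥
      rw [Finset.coe_empty, Submodule.span_empty, Submodule.mul_bot]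
    rw [h0, sup_bot_eq] at hJX
    have hXJ' : X = J := le_antisymm hXJ hJX
    rw [hXJ'] at hn
    obtain ⟨B, hB⟩ := hJpow n
    have h1 := SmonoR B hn
    rw [← mulS, ← mulS, mul_comm, hB, hOM, hOM'] at h1
    rw [le_antisymm h1 hle]
  | insert h t _ ih =>
    intro X hXJ hJX ht M M' hM hM' hOM hOM' hle ⟨n, hn⟩
    have hhO : ln h * O ≤ J := ht h (Finset.mem_insert_self h t)
    have hlnJ : ∀ N : Chart → Submodule ℂ V, O • N = N → ln h • N ≤ J • N := by
      intro N hN
      conv_lhs => rw [← hN, ← mulS]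
      exact SmonoL hhO N
    have IH := ih (X ⊔ ln h * O) (sup_le hXJ hhO) (by
      refine hJX.trans ?_
      rw [sup_assoc]
      apply sup_le_sup_left
      intro s
      show O s * Submodule.span ℂ ((insert h t : Finset C) : Set C) ≤
        line h * O s ⊔ O s * Submodule.span ℂ (t : Set C)
      rw [Finset.coe_insert, Submodule.span_insert, Submodule.mul_sup, mul_comm (O s)]
      exact le_rfl)
      (fun h' hh' => ht h' (Finset.mem_insert_of_mem hh'))
    -- the pairs
    set Ke := kerF h M (J • M') with hKe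
    set Co := J • M' ⊔ ln h • M with hCo
    have hKlat : IsLat Ke := hM.kerF (hJlat.fsmul hM')
    have hColat : IsLat Co := (hJlat.fsmul hM').sup (hM.ln_smul h)
    have hOKe : O • Ke = Ke := by
      apply hO.smul_eq_of_le
      rw [hKe, le_kerF]
      constructor
      · conv_rhs => rw [← hOM]
        exact SmonoR O (le_kerF.1 le_rfl).1
      · rw [← mulS, mul_comm, mulS]
        have := SmonoR O (le_kerF.1 (le_refl (kerF h M (J • M')))).2
        rwa [hstab hJO] at this
    have hOCo : O • Co = Co := by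
      rw [hCo, Ssup, hstab hJO, ← mulS, mul_comm O (ln h), mulS, hOM]
    have hM'K : M' ≤ Ke := by
      rw [hKe, le_kerF]
      exact ⟨hle, hlnJ M' hOM'⟩
    have hKM : Ke ≤ M := (le_kerF.1 le_rfl).1
    have hlnK : ln h • Ke ≤ J • M' := (le_kerF.1 le_rfl).2
    have hCoJ : Co ≤ J • M := by
      apply sup_le (SmonoR J hle)
      exact hlnJ M hOM
    have IH1 := IH Ke M' hKlat hM' hOKe hOM' hM'K
      ⟨n + 1, pow_smul_le hOKe hXJ hhO ((SmonoR _ hKM).trans hn) hlnK⟩
    have IH2 := IH (J • M) Co (hJlat.fsmul hM) hColat (hstab hJO) hOCo hCoJ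
      ⟨n + 1, pow_smul_le (hstab hJO) hXJ hhO (by
        have h1 := SmonoR J hn
        rw [← mulS, ← mulS, mul_comm, mul_comm J, mulS, mulS] at h1
        refine h1.trans (SmonoR _ le_sup_left)) (by
        rw [← mulS, mul_comm, mulS]
        exact SmonoR J le_sup_right)⟩
    -- the kernel and cokernel for `I • M`
    have hKI : kerF h (I • M) (J • I • M') = I • Ke := by
      apply le_antisymm
      · have hY := le_kerF.1 (le_refl (kerF h (I • M) (J • I • M')))
        set Y := kerF h (I • M) (J • I • M') with hYdef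
        have hOY : O • Y = Y := by
          apply hO.smul_eq_of_le
          rw [hYdef, le_kerF]
          constructor
          · have := SmonoR O hY.1
            rwa [hstab hIO] at this
          · rw [← mulS, mul_comm, mulS]
            have := SmonoR O hY.2
            rwa [hstab hJO] at this
        rw [← hOY, ← hII', mulS]
        apply SmonoR
        rw [hKe, le_kerF]
        constructor
        · have := SmonoR (ln e' * I) hY.1
          rwa [← mulS (ln e' * I) I M, hII'', hOM] at this
        · have := SmonoR (ln e' * I) hY.2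
          rw [← mulS, mul_comm, mulS]
          refine this.trans ?_
          rw [← mulS J I M', mul_comm J I, ← mulS (ln e' * I), ← mul_assoc, hII'', mul_comm,
            hJO]
      · rw [le_kerF]
        constructor
        · exact SmonoR I hKM
        · have := SmonoR I hlnK
          rwa [← mulS, ← mulS, mul_comm, mul_comm I J, mulS, mulS] at this
    have E1 := chi_kerF (h := h) hM (hJlat.fsmul hM')
    have E2 := chi_kerF (h := h) (hI.fsmul hM) (hJlat.fsmul (hI.fsmul hM'))
    have e3 : J • I • M' ⊔ ln h • I • M = I • Co := by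
      rw [hCo, Ssup, ← mulS, ← mulS, ← mulS, ← mulS, mul_comm J I, mul_comm (ln h) I]
    rw [e3, hKI] at E2
    rw [← hCo, ← hKe] at E1
    have hδ : IsBil (fun a b => (chi (I • M) a b - chi M a b) - (chi (I • M') a b - chi M' a b)) :=
      ((hI.fsmul hM).chi_bil.sub hM.chi_bil).sub ((hI.fsmul hM').chi_bil.sub hM'.chi_bil)
    have hfin := bil_zero hδ c (by
      intro a b
      have e1 := E1 a b
      have e2 := E2 a b
      have I1 := IH1 a b
      have I2 := IH2 a b
      have c1 := chi_I_smul_J (c := c) hI hM a b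
      have c2 := chi_I_smul_J (c := c) hI hM' a b
      have c3 := chi_I_smul_J (c := c) hI (hI.fsmul hM) a b
      have c4 := chi_I_smul_J (c := c) hI (hI.fsmul hM') a b
      rw [← hJ] at c1 c2 c3 c4
      rw [hIIln M hOM, hM.chi_ln he] at c3
      rw [hIIln M' hOM', hM'.chi_ln he] at c4
      have c5 : I • J • M = J • I • M := by rw [← mulS, ← mulS, mul_comm]
      rw [c5] at I2
      linarith)
    intro a b
    have := hfin a b
    linarith

/-- A line bundle whose square is trivial does not change the Euler characteristic. -/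
theorem dlem [Module.Finite K V] [Module.Finite K C] {e : C} (hO : IsRingLat O) (hI : IsLat I)
    (hIO : I * O = I) (he : IsUnit e) (hII : I * I = ln e * O) {M : Chart → Submodule ℂ V}
    (hM : IsLat M) (hOM : O • M = M) (a b : ℤ) : chi (I • M) a b = chi M a b := by
  obtain ⟨c, hc⟩ := hI.exists_globally_generated
  obtain ⟨t, ht⟩ := hI.fg_Sec c
  have hJlat : IsLat (tw (c : ℤ) c I) := hI.tw c c
  have hJO : tw (c : ℤ) c I * O = tw (c : ℤ) c I := by rw [tw_mul, hIO]
  have hmain := dlem_aux (c := c) hO hI hIO he hII t (V := V) ⊥ bot_le (by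
      intro s
      rw [Pi.sup_apply, Pi.bot_apply, bot_sup_eq]
      show tw (c : ℤ) c I s ≤ O s * Submodule.span ℂ (t : Set C)
      rw [ht, hc s, Submodule.smul_le]
      intro r hr v hv
      have h1 : r • v = (r • (1 : C)) * v := by rw [smul_mul_assoc, one_mul]
      rw [h1]
      refine Submodule.mul_mem_mul ?_ hv
      exact hO.lat.smul_mem hr (Submodule.one_le.1 (hO.one s)))
    (by
      intro h hh
      rw [← hJO]
      apply mul_le_mul_left
      intro s
      show line h ≤ tw (c : ℤ) c I s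
      rw [line_le_iff]
      have h1 : h ∈ Sec I (c : ℤ) c := by
        rw [← ht]
        exact Submodule.subset_span hh
      exact (iInf_le (fun s => tw (c : ℤ) c I s) s) h1)
    M ⊥ hM IsLat.bot hOM (by
      funext s
      exact Submodule.smul_bot _) bot_le
    ⟨1, by
      rw [pow_one, pow_one]
      intro s
      show (⊥ : Submodule ℂ C) • M s ≤ _
      rw [Submodule.bot_smul]
      exact bot_le⟩ a b
  have h0 : I • (⊥ : Chart → Submodule ℂ V) = ⊥ := by
    funext s
    exact Submodule.smul_bot _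
  rw [h0] at hmain
  linarith

end

end Pool.Agent.Lib.LP
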