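import Pool.Agent.Lib.MP_865fc0_ag.Stab

/-!
# The double cover `C[y]/(y^2 - e)` and pullbacks of lattices
-/

open scoped Pointwise
open Filter

namespace Pool.Agent.Lib.LP

/-- The algebra `C[y]/(y^2 - e)`. -/
abbrev QA (C : Type) [CommRing C] (e : C) : Type := QuadraticAlgebra C e 0

/-- The module `V ⊕ y V`. -/
def Dbl {C : Type} (V : Type) (_e : C) : Type := V × V

namespace Dbl

variable {C : Type} {V : Type} {e : C}

/-- The element `v + y w`. -/
def mk (e : C) (v w : V) : Dbl V e := (v, w)

@[simp] theorem mk_fst (v w : V) : (mk e v w).1 = v := rfl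
@[simp] theorem mk_snd (v w : V) : (mk e v w).2 = w := rfl

theorem ext' {p q : Dbl V e} (h1 : p.1 = q.1) (h2 : p.2 = q.2) : p = q := Prod.ext h1 h2

variable [AddCommGroup V]

instance : AddCommGroup (Dbl V e) := inferInstanceAs (AddCommGroup (V × V))

instance {S : Type*} [Semiring S] [Module S V] : Module S (Dbl V e) :=
  inferInstanceAs (Module S (V × V))

instance {S T : Type*} [Semiring S] [Semiring T] [SMul S T] [Module S V] [Module T V]
    [IsScalarTower S T V] : IsScalarTower S T (Dbl V e) :=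
  inferInstanceAs (IsScalarTower S T (V × V))

instance {S : Type*} [Semiring S] [Module S V] [Module.Finite S V] : Module.Finite S (Dbl V e) :=
  inferInstanceAs (Module.Finite S (V × V))

@[simp] theorem add_fst (p q : Dbl V e) : (p + q).1 = p.1 + q.1 := rfl
@[simp] theorem add_snd (p q : Dbl V e) : (p + q).2 = p.2 + q.2 := rfl
@[simp] theorem zero_fst : (0 : Dbl V e).1 = 0 := rfl
@[simp] theorem zero_snd : (0 : Dbl V e).2 = 0 := rfl

variable [CommRing C] [Module C V]

instance : SMul (QA C e) (Dbl V e) :=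
  ⟨fun z p => (z.re • p.1 + (e * z.im) • p.2, z.im • p.1 + z.re • p.2)⟩

theorem smul_def' (z : QA C e) (p : Dbl V e) :
    z • p = (z.re • p.1 + (e * z.im) • p.2, z.im • p.1 + z.re • p.2) := rfl

@[simp] theorem smul_fst (z : QA C e) (p : Dbl V e) :
    (z • p).1 = z.re • p.1 + (e * z.im) • p.2 := rfl

@[simp] theorem smul_snd (z : QA C e) (p : Dbl V e) :
    (z • p).2 = z.im • p.1 + z.re • p.2 := rfl

instance : Module (QA C e) (Dbl V e) where
  one_smul p := by
    refine ext' ?_ ?_
    · rw [smul_fst]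
      show (1 : C) • p.1 + (e * 0) • p.2 = p.1
      rw [mul_zero, zero_smul, one_smul, add_zero]
    · rw [smul_snd]
      show (0 : C) • p.1 + (1 : C) • p.2 = p.2
      rw [zero_smul, one_smul, zero_add]
  mul_smul a b p := by
    refine ext' ?_ ?_
    · simp only [smul_fst, smul_snd, QuadraticAlgebra.re_mul, QuadraticAlgebra.im_mul,
        smul_add, smul_smul, add_smul, mul_add, zero_mul]
      rw [show a.re * (e * b.im) = e * (a.re * b.im) by ring,
        show e * a.im * b.im = e * a.im * b.im by ring]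
      rw [show e * (a.im * b.re) = e * a.im * b.re by ring]
      simp only [mul_zero, zero_smul, add_zero]
      abel
    · simp only [smul_fst, smul_snd, QuadraticAlgebra.re_mul, QuadraticAlgebra.im_mul,
        smul_add, smul_smul, add_smul, zero_mul]
      rw [show a.im * (e * b.im) = e * a.im * b.im by ring]
      simp only [zero_smul, add_zero]
      abel
  smul_zero a := by
    refine ext' ?_ ?_
    · rw [smul_fst]; simp
    · rw [smul_snd]; simp
  smul_add a p q := by
    refine ext' ?_ ?_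
    · simp only [smul_fst, add_fst, add_snd, smul_add]; abel
    · simp only [smul_snd, add_fst, add_snd, smul_add]; abel
  add_smul a b p := by
    refine ext' ?_ ?_
    · simp only [smul_fst, add_fst, QuadraticAlgebra.re_add, QuadraticAlgebra.im_add, add_smul,
        mul_add]
      abel
    · simp only [smul_snd, add_snd, QuadraticAlgebra.re_add, QuadraticAlgebra.im_add, add_smul]
      abel
  zero_smul p := by
    refine ext' ?_ ?_
    · rw [smul_fst]; simp
    · rw [smul_snd]; simp

theorem smul_def (S : Type*) [Semiring S] [Module S V] (c : S) (p : Dbl V e) :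
    c • p = (Dbl.mk e (c • p.1) (c • p.2)) := rfl

instance {S : Type*} [CommRing S] [Algebra S C] [Module S V] [IsScalarTower S C V] :
    IsScalarTower S (QA C e) (Dbl V e) where
  smul_assoc s z p := by
    refine ext' ?_ ?_
    · rw [smul_def S s, smul_fst]
      show (s • z.re) • p.1 + (e * (s • z.im)) • p.2 = s • (z.re • p.1 + (e * z.im) • p.2)
      rw [smul_add, mul_smul_comm, smul_assoc, smul_assoc]
    · rw [smul_def S s, smul_snd]
      show (s • z.im) • p.1 + (s • z.re) • p.2 = s • (z.im • p.1 + z.re • p.2)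
      rw [smul_add, smul_assoc, smul_assoc]

end Dbl

section iota

variable {C : Type} [CommRing C] [Algebra ℂ C] (e : C)

/-- Extension of families along `C → C[y]/(y^2 - e)`. -/
noncomputable def iota (A : Chart → Submodule ℂ C) : Chart → Submodule ℂ (QA C e) :=
  fun s => (A s).map (IsScalarTower.toAlgHom ℂ C (QA C e)).toLinearMap

theorem iota_mul (A B : Chart → Submodule ℂ C) : iota e (A * B) = iota e A * iota e B := by
  funext s
  exact Submodule.map_mul (A s) (B s) (IsScalarTower.toAlgHom ℂ C (QA C e))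

theorem iota_one : iota e (1 : Chart → Submodule ℂ C) = 1 := by
  funext s
  exact Submodule.map_one (IsScalarTower.toAlgHom ℂ C (QA C e))

theorem iota_sup (A B : Chart → Submodule ℂ C) : iota e (A ⊔ B) = iota e A ⊔ iota e B := by
  funext s
  exact Submodule.map_sup (A s) (B s) (IsScalarTower.toAlgHom ℂ C (QA C e)).toLinearMap

theorem iota_mono {A B : Chart → Submodule ℂ C} (h : A ≤ B) : iota e A ≤ iota e B :=
  fun s => Submodule.map_mono (h s)

theorem iota_ln (a : C) : iota e (ln a) = ln (algebraMap C (QA C e) a) := by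
  funext s
  show (Submodule.span ℂ {a}).map _ = Submodule.span ℂ {algebraMap C (QA C e) a}
  rw [Submodule.map_span, Set.image_singleton]
  rfl

/-- The action of an extended family is the action of the family. -/
theorem iota_smul {W : Type} [AddCommGroup W] [Module ℂ W] [Module C W] [IsScalarTower ℂ C W]
    [Module (QA C e) W] [IsScalarTower ℂ (QA C e) W] [IsScalarTower C (QA C e) W]
    (A : Chart → Submodule ℂ C) (E : Chart → Submodule ℂ W) : iota e A • E = A • E := by
  funext s
  show (A s).map (IsScalarTower.toAlgHom ℂ C (QA C e)).toLinearMap • E s = A s • E s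
  apply le_antisymm
  · rw [Submodule.smul_le]
    rintro _ ⟨a, ha, rfl⟩ v hv
    have : (IsScalarTower.toAlgHom ℂ C (QA C e)).toLinearMap a • v = a • v := by
      show algebraMap C (QA C e) a • v = a • v
      rw [algebraMap_smul]
    rw [this]
    exact Submodule.smul_mem_smul ha hv
  · rw [Submodule.smul_le]
    intro a ha v hv
    rw [← algebraMap_smul (QA C e) a v]
    exact Submodule.smul_mem_smul (Submodule.mem_map_of_mem ha) hv

/-- The element `y`. -/
def yy : QA C e := ⟨0, 1⟩

omit [Algebra ℂ C] in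
theorem yy_mul_yy : yy e * yy e = algebraMap C (QA C e) e := by
  ext
  · simp [yy, QuadraticAlgebra.algebraMap_eq]
  · simp [yy, QuadraticAlgebra.algebraMap_eq]

theorem isUnit_yy (he : IsUnit e) : IsUnit (yy e) := by
  obtain ⟨e', he'⟩ := he.exists_right_inv
  refine IsUnit.of_mul_eq_one (yy e * algebraMap C (QA C e) e') ?_
  rw [← mul_assoc, yy_mul_yy, ← map_mul, he', map_one]

variable [Algebra K C] [IsScalarTower ℂ K C]

theorem IsLat.iota {A : Chart → Submodule ℂ C} (hA : IsLat A) : IsLat (iota e A) := by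
  have : LP.iota e A = mapL (IsScalarTower.toAlgHom K C (QA C e)).toLinearMap A := rfl
  rw [this]
  exact hA.map _

end iota

section cover

variable {C : Type} {V : Type} [AddCommGroup V] [Module ℂ V] [Module K V] [IsScalarTower ℂ K V]

/-- The inclusion of the first summand. -/
noncomputable def inlD (V : Type) [AddCommGroup V] [Module K V] (e : C) : V →ₗ[K] Dbl V e :=
  LinearMap.inl K V V

/-- The projection to the first summand. -/
noncomputable def fstD (V : Type) [AddCommGroup V] [Module K V] (e : C) : Dbl V e →ₗ[K] V :=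
  LinearMap.fst K V V

/-- The projection to the second summand. -/
noncomputable def sndD (V : Type) [AddCommGroup V] [Module K V] (e : C) : Dbl V e →ₗ[K] V :=
  LinearMap.snd K V V

/-- The conjugation `(v, w) ↦ (v, -w)`. -/
noncomputable def tauD (V : Type) [AddCommGroup V] [Module K V] (e : C) :
    Dbl V e →ₗ[K] Dbl V e :=
  LinearMap.prodMap LinearMap.id (-LinearMap.id)

variable {e : C}

@[simp] theorem tauD_fst (p : Dbl V e) : (tauD V e p).1 = p.1 := rfl

@[simp] theorem tauD_snd (p : Dbl V e) : (tauD V e p).2 = -p.2 := rfl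

theorem tauD_tauD (p : Dbl V e) : tauD V e (tauD V e p) = p := by
  refine Dbl.ext' rfl ?_
  show - - p.2 = p.2
  rw [neg_neg]

/-- The family `M` in the first summand. -/
noncomputable def jm (e : C) (M : Chart → Submodule ℂ V) : Chart → Submodule ℂ (Dbl V e) :=
  mapL (inlD V e) M

theorem mem_jm {M : Chart → Submodule ℂ V} {s : Chart} {p : Dbl V e} :
    p ∈ jm e M s ↔ p.1 ∈ M s ∧ p.2 = 0 := by
  constructor
  · rintro ⟨v, hv, rfl⟩
    exact ⟨hv, rfl⟩
  · rintro ⟨h1, h2⟩
    exact ⟨p.1, h1, Dbl.ext' rfl h2.symm⟩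

/-- The even part of a family in `V ⊕ y V`. -/
noncomputable def plus (N : Chart → Submodule ℂ (Dbl V e)) : Chart → Submodule ℂ V :=
  mapL (fstD V e) (fun s => N s ⊓ LinearMap.ker ((sndD V e).restrictScalars ℂ))

theorem mem_plus {N : Chart → Submodule ℂ (Dbl V e)} {s : Chart} {v : V} :
    v ∈ plus N s ↔ (Dbl.mk e v 0) ∈ N s := by
  constructor
  · rintro ⟨p, ⟨hp1, hp2⟩, rfl⟩
    have : p = (Dbl.mk e p.1 0) := Dbl.ext' rfl hp2
    rw [this] at hp1
    exact hp1
  · intro h
    exact ⟨(Dbl.mk e v 0), ⟨h, rfl⟩, rfl⟩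

end cover

section cover2

variable {C : Type} [CommRing C] [Algebra ℂ C] [Algebra K C] [IsScalarTower ℂ K C]
variable {V : Type} [AddCommGroup V] [Module ℂ V] [Module K V] [IsScalarTower ℂ K V]
variable [Module C V] [IsScalarTower ℂ C V] [IsScalarTower K C V] {e : C}

/-- The lattice of rings `O ⊕ y D`. -/
noncomputable def covO (e : C) (O D : Chart → Submodule ℂ C) : Chart → Submodule ℂ (QA C e) :=
  iota e O ⊔ ln (yy e) * iota e D

variable {O D : Chart → Submodule ℂ C} {M : Chart → Submodule ℂ V}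

omit [Algebra K C] [IsScalarTower ℂ K C] in
theorem cov_I_mul_O (hDO : D * O = D) :
    (ln (yy e) * iota e D) * iota e O = ln (yy e) * iota e D := by
  rw [mul_assoc, ← iota_mul, hDO]

omit [Algebra K C] [IsScalarTower ℂ K C] in
theorem cov_I_mul_I {e' : C} (he : e * e' = 1) (hDD : D * D = ln e' * O) :
    (ln (yy e) * iota e D) * (ln (yy e) * iota e D) = iota e O := by
  rw [mul_mul_mul_comm, ← iota_mul, ← ln_mul, yy_mul_yy, hDD, iota_mul, iota_ln, ← mul_assoc,
    ← ln_mul, ← map_mul, he, map_one, ln_one, one_mul]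

theorem isRingLat_iota (hO : IsRingLat O) : IsRingLat (iota e O) where
  lat := hO.lat.iota e
  mul := by rw [← iota_mul, hO.mul]
  one := by rw [← iota_one]; exact iota_mono e hO.one

theorem isLat_cov_I (hD : IsLat D) : IsLat (ln (yy e) * iota e D) := (hD.iota e).ln_smul _

theorem isRingLat_covO {e' : C} (hO : IsRingLat O) (hD : IsLat D) (hDO : D * O = D)
    (he : e * e' = 1) (hDD : D * D = ln e' * O) : IsRingLat (covO e O D) where
  lat := (hO.lat.iota e).sup (isLat_cov_I hD)
  mul := by
    unfold covO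
    have h1 := cov_I_mul_O (e := e) hDO
    have h2 := cov_I_mul_I he hDD
    set I := ln (yy e) * iota e D with hI
    rw [← add_eq_sup, add_mul, mul_add, mul_add, h2, mul_comm (iota e O) I, h1, ← iota_mul, hO.mul]
    rw [add_eq_sup, add_eq_sup, add_eq_sup, sup_comm I, sup_idem]
  one := (isRingLat_iota hO).one.trans le_sup_left

theorem iota_smul_jm (A : Chart → Submodule ℂ C) (M : Chart → Submodule ℂ V) :
    iota e A • jm e M = jm e (A • M) := by
  rw [iota_smul]
  funext s
  show A s • (M s).map ((inlD V e).restrictScalars ℂ) =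
    (A s • M s).map ((inlD V e).restrictScalars ℂ)
  apply le_antisymm
  · rw [Submodule.smul_le]
    rintro a ha _ ⟨v, hv, rfl⟩
    refine ⟨a • v, Submodule.smul_mem_smul ha hv, ?_⟩
    refine Dbl.ext' rfl ?_
    show (0 : V) = a • (0 : V)
    rw [smul_zero]
  · rw [Submodule.map_le_iff_le_comap, Submodule.smul_le]
    intro a ha v hv
    have : (inlD V e) (a • v) = a • (inlD V e) v := by
      refine Dbl.ext' rfl ?_
      show (0 : V) = a • (0 : V)
      rw [smul_zero]
    show (inlD V e) (a • v) ∈ (A s • (M s).map ((inlD V e).restrictScalars ℂ) : Submodule ℂ (Dbl V e))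
    rw [this]
    exact Submodule.smul_mem_smul ha (Submodule.mem_map_of_mem hv)

theorem mem_ln_yy_smul_jm {P : Chart → Submodule ℂ V} {s : Chart} {p : Dbl V e} :
    p ∈ (ln (yy e) • jm e P) s ↔ p.1 = 0 ∧ p.2 ∈ P s := by
  rw [mem_ln_smul]
  constructor
  · rintro ⟨q, hq, rfl⟩
    obtain ⟨h1, h2⟩ := mem_jm.1 hq
    refine ⟨?_, ?_⟩
    · rw [Dbl.smul_fst, h2, smul_zero, add_zero]
      show (0 : C) • q.1 = 0
      rw [zero_smul]
    · rw [Dbl.smul_snd, h2, smul_zero, add_zero]
      show (1 : C) • q.1 ∈ P s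
      rwa [one_smul]
  · rintro ⟨h1, h2⟩
    refine ⟨(Dbl.mk e p.2 0), mem_jm.2 ⟨h2, rfl⟩, ?_⟩
    refine Dbl.ext' ?_ ?_
    · rw [Dbl.smul_fst]
      show (0 : C) • p.2 + (e * 1) • (0 : V) = p.1
      rw [zero_smul, smul_zero, add_zero, h1]
    · rw [Dbl.smul_snd]
      show (1 : C) • p.2 + (0 : C) • (0 : V) = p.2
      rw [one_smul, smul_zero, add_zero]

theorem covO_smul_jm (hOM : O • M = M) :
    covO e O D • jm e M = jm e M ⊔ ln (yy e) • jm e (D • M) := by
  unfold covO
  rw [supS, mulS, iota_smul_jm, iota_smul_jm, hOM]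

theorem mem_covO_smul_jm (hOM : O • M = M) {s : Chart} {p : Dbl V e} :
    p ∈ (covO e O D • jm e M) s ↔ p.1 ∈ M s ∧ p.2 ∈ (D • M) s := by
  rw [covO_smul_jm hOM, Pi.sup_apply, Submodule.mem_sup]
  constructor
  · rintro ⟨q, hq, r, hr, rfl⟩
    obtain ⟨h1, h2⟩ := mem_jm.1 hq
    obtain ⟨h3, h4⟩ := mem_ln_yy_smul_jm.1 hr
    refine ⟨?_, ?_⟩
    · rw [Dbl.add_fst, h3, add_zero]; exact h1
    · rw [Dbl.add_snd, h2, zero_add]; exact h4
  · rintro ⟨h1, h2⟩
    refine ⟨(Dbl.mk e p.1 0), mem_jm.2 ⟨h1, rfl⟩, (Dbl.mk e 0 p.2),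
      mem_ln_yy_smul_jm.2 ⟨rfl, h2⟩, ?_⟩
    refine Dbl.ext' ?_ ?_
    · rw [Dbl.add_fst]
      show p.1 + 0 = p.1
      rw [add_zero]
    · rw [Dbl.add_snd]
      show 0 + p.2 = p.2
      rw [zero_add]

theorem inlD_injective : Function.Injective (inlD V e) := by
  intro a b h
  exact congrArg Prod.fst h

theorem IsLat.jm (hM : IsLat M) : IsLat (jm e M) := hM.map _

theorem IsLat.covO_smul_jm (hO : IsRingLat O) (hD : IsLat D) (hM : IsLat M) :
    IsLat (covO e O D • LP.jm e M) :=
  IsLat.fsmul ((hO.lat.iota e).sup (isLat_cov_I hD)) hM.jm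

/-- The Euler characteristic of a pullback to the double cover. -/
theorem chi_covO_smul_jm [Module.Finite K V] [Module.Finite K C] {e' : C} (hO : IsRingLat O)
    (hD : IsLat D) (hDO : D * O = D) (he : e * e' = 1) (hDD : D * D = ln e' * O)
    (hM : IsLat M) (hOM : O • M = M) (a b : ℤ) :
    chi (covO e O D • jm e M) a b = 2 * chi M a b := by
  have hDM : IsLat (D • M) := hD.fsmul hM
  have h1 := (hM.jm (e := e)).chi_sup ((hDM.jm (e := e)).ln_smul (yy e)) a b
  have hinf : jm e M ⊓ ln (yy e) • jm e (D • M) = ⊥ := by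
    rw [eq_bot_iff]
    intro s p hp
    obtain ⟨h1, h2⟩ := hp
    obtain ⟨_, h3⟩ := mem_jm.1 h1
    obtain ⟨h4, _⟩ := mem_ln_yy_smul_jm.1 h2
    show p ∈ (⊥ : Submodule ℂ (Dbl V e))
    rw [Submodule.mem_bot]
    exact Dbl.ext' h4 h3
  have heu : IsUnit e := IsUnit.of_mul_eq_one e' he
  have heu' : IsUnit e' := IsUnit.of_mul_eq_one e (by rw [mul_comm]; exact he)
  rw [hinf, IsLat.chi_bot, add_zero, ← LP.covO_smul_jm (D := D) hOM,
    (hDM.jm (e := e)).chi_ln (isUnit_yy e heu)] at h1
  have h2 : chi (jm e M) a b = chi M a b := hM.chi_map_of_injective _ inlD_injective a b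
  have h3 : chi (jm e (D • M)) a b = chi (D • M) a b :=
    hDM.chi_map_of_injective _ inlD_injective a b
  rw [h2, h3, dlem hO hD hDO heu' hDD hM hOM] at h1
  linarith

/-- Stability of the even part. -/
theorem plus_props (hO : IsRingLat O) {e' : C} (he : e * e' = 1) (hDD : D * D = ln e' * O)
    {N : Chart → Submodule ℂ (Dbl V e)} (hN : IsLat N) (hON : covO e O D • N = N)
    (hτ : mapL (tauD V e) N = N) :
    IsLat (plus N) ∧ O • plus N = plus N ∧ N = covO e O D • jm e (plus N) := by
  have hlat : IsLat (plus N) := (hN.inf_ker (sndD V e)).map (fstD V e)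
  have hiN : O • N ≤ N := by
    rw [← iota_smul e]
    conv_rhs => rw [← hON]
    exact SmonoL le_sup_left N
  have hyN : ln (yy e) • D • N ≤ N := by
    rw [← iota_smul e, ← mulS]
    conv_rhs => rw [← hON]
    exact SmonoL le_sup_right N
  -- splitting of sections
  have hsplit : ∀ s, ∀ p ∈ N s, (Dbl.mk e p.1 0) ∈ N s ∧ (Dbl.mk e 0 p.2) ∈ N s := by
    intro s p hp
    have h1 : tauD V e p ∈ N s := by
      have h0 : tauD V e p ∈ mapL (tauD V e) N s := ⟨p, hp, rfl⟩
      rwa [hτ] at h0
    have h2 : (1 / 2 : ℂ) • (p + tauD V e p) ∈ N s := (N s).smul_mem _ ((N s).add_mem hp h1)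
    have h3 : (1 / 2 : ℂ) • (p + tauD V e p) = (Dbl.mk e p.1 0) := by
      refine Dbl.ext' ?_ ?_
      · show (1 / 2 : ℂ) • (p.1 + p.1) = p.1
        rw [← two_smul ℂ p.1, smul_smul]; norm_num
      · show (1 / 2 : ℂ) • (p.2 + -p.2) = 0
        rw [add_neg_cancel, smul_zero]
    rw [h3] at h2
    refine ⟨h2, ?_⟩
    have h4 := (N s).sub_mem hp h2
    have h5 : p - (Dbl.mk e p.1 0) = (Dbl.mk e 0 p.2) := by
      refine Dbl.ext' ?_ ?_
      · show p.1 - p.1 = 0
        rw [sub_self]
      · show p.2 - 0 = p.2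
        rw [sub_zero]
    rwa [h5] at h4
  have hOp : O • plus N = plus N := by
    apply hO.smul_eq_of_le
    intro s
    show O s • plus N s ≤ plus N s
    rw [Submodule.smul_le]
    intro a ha v hv
    rw [mem_plus] at hv ⊢
    have h1 : a • (Dbl.mk e v 0) ∈ N s := hiN s (Submodule.smul_mem_smul ha hv)
    have h2 : a • (Dbl.mk e v 0) = (Dbl.mk e (a • v) 0) := by
      refine Dbl.ext' rfl ?_
      show a • (0 : V) = 0
      rw [smul_zero]
    rwa [h2] at h1
  refine ⟨hlat, hOp, le_antisymm ?_ ?_⟩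
  · intro s p hp
    rw [mem_covO_smul_jm hOp, mem_plus]
    obtain ⟨h1, h2⟩ := hsplit s p hp
    refine ⟨h1, ?_⟩
    -- the odd part
    let Nm : Chart → Submodule ℂ V := fun s =>
      { carrier := {v | (Dbl.mk e 0 v) ∈ N s}
        add_mem' := by
          intro v v' hv hv'
          have := (N s).add_mem hv hv'
          have e1 : (Dbl.mk e 0 v) + (Dbl.mk e 0 v') = (Dbl.mk e 0 (v + v')) := by
            refine Dbl.ext' ?_ rfl
            show (0 : V) + 0 = 0
            rw [add_zero]
          rwa [e1] at this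
        zero_mem' := (N s).zero_mem
        smul_mem' := by
          intro c v hv
          have := (N s).smul_mem c hv
          have e1 : c • (Dbl.mk e 0 v) = (Dbl.mk e 0 (c • v)) := by
            refine Dbl.ext' ?_ rfl
            show c • (0 : V) = 0
            rw [smul_zero]
          rwa [e1] at this }
    have h3 : ln e • D • Nm ≤ plus N := by
      rw [← mulS]
      intro s'
      show (line e * D s') • Nm s' ≤ plus N s'
      rw [← smul_smul_sub]
      intro v hv
      obtain ⟨v', hv', rfl⟩ := mem_line_smul.1 hv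
      refine Submodule.smul_induction_on hv' ?_ ?_
      · intro d hd r hr
        rw [mem_plus]
        have h4 : yy e • d • (Dbl.mk e 0 r) ∈ N s' :=
          hyN s' (mem_ln_smul.2 ⟨_, Submodule.smul_mem_smul hd hr, rfl⟩)
        have h5 : yy e • d • (Dbl.mk e 0 r) = (Dbl.mk e (e • d • r) 0) := by
          refine Dbl.ext' ?_ ?_
          · rw [Dbl.smul_fst]
            show (0 : C) • (d • (0 : V)) + (e * 1) • (d • r) = e • d • r
            rw [zero_smul, zero_add, mul_one]
          · rw [Dbl.smul_snd]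
            show (1 : C) • (d • (0 : V)) + (0 : C) • (d • r) = 0
            rw [zero_smul, smul_zero, smul_zero, add_zero]
        rwa [h5] at h4
      · intro v v' hv hv'
        rw [smul_add]; exact (plus N s').add_mem hv hv'
    have h4 : Nm ≤ D • plus N := by
      have h5 := SmonoR D h3
      have h6 : D • ln e • D • Nm = O • Nm := by
        rw [← mulS, ← mulS]
        congr 1
        rw [mul_assoc, mul_left_comm, hDD, ← mul_assoc, ← ln_mul, he, ln_one, one_mul]
      rw [h6] at h5
      refine le_trans ?_ h5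
      conv_lhs => rw [← oneS (C := C) Nm]
      exact SmonoL hO.one Nm
    exact h4 s h2
  · rw [covO_smul_jm hOp]
    have h1 : jm e (plus N) ≤ N := by
      intro s p hp
      obtain ⟨h1, h2⟩ := mem_jm.1 hp
      have := mem_plus.1 h1
      have e1 : p = (Dbl.mk e p.1 0) := Dbl.ext' rfl h2
      rw [e1]
      exact this
    apply sup_le h1
    refine le_trans ?_ hyN
    apply SmonoR
    rw [← iota_smul_jm, iota_smul]
    exact SmonoR D h1

/-- Pullbacks of semistable lattices to an étale double cover are semistable. -/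
theorem Sst.pullback [Module.Finite K V] [Module.Finite K C] {e' : C} (hO : IsRingLat O)
    (hD : IsLat D) (hDO : D * O = D) (he : e * e' = 1) (hDD : D * D = ln e' * O)
    (hM : IsLat M) (hOM : O • M = M) (h : Sst O M) :
    Sst (covO e O D) (covO e O D • jm e M) := by
  set O' := covO e O D with hO'
  set M' := O' • jm e M with hM'
  have hring : IsRingLat O' := isRingLat_covO hO hD hDO he hDD
  have hchiM : ∀ a b, chi M' a b = 2 * chi M a b :=
    chi_covO_smul_jm hO hD hDO he hDD hM hOM
  have hleadM : lead M' = 2 * lead M := by unfold lead; rw [hchiM, hchiM, hchiM, hchiM]; ring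
  have hlamM : lam M' = 2 * lam M := by rw [lam_eq, lam_eq, hchiM, hchiM, hchiM]; ring
  -- the invariant case
  have hinv : ∀ N : Chart → Submodule ℂ (Dbl V e), IsLat N → O' • N = N → N ≤ M' →
      mapL (tauD V e) N = N → lam N * lead M' ≤ lam M' * lead N := by
    intro N hN hON hNM hτ
    obtain ⟨hP, hOP, hNP⟩ := plus_props hO he hDD hN hON hτ
    have hPM : plus N ≤ M := by
      intro s v hv
      have h1 := hNM s (mem_plus.1 hv)
      exact ((mem_covO_smul_jm hOM).1 h1).1
    have h1 := h (plus N) hP hOP hPM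
    have hchiN : ∀ a b, chi N a b = 2 * chi (plus N) a b := by
      intro a b
      conv_lhs => rw [hNP]
      exact chi_covO_smul_jm hO hD hDO he hDD hP hOP a b
    have hleadN : lead N = 2 * lead (plus N) := by
      unfold lead; rw [hchiN, hchiN, hchiN, hchiN]; ring
    have hlamN : lam N = 2 * lam (plus N) := by rw [lam_eq, lam_eq, hchiN, hchiN, hchiN]; ring
    rw [hleadM, hlamM, hleadN, hlamN]
    linarith
  -- conjugation
  have hτsmul : ∀ N : Chart → Submodule ℂ (Dbl V e), O' • N = N →
      O' • mapL (tauD V e) N = mapL (tauD V e) N := by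
    intro N hON
    apply hring.smul_eq_of_le
    intro s
    show O' s • mapL (tauD V e) N s ≤ mapL (tauD V e) N s
    rw [Submodule.smul_le]
    rintro z hz _ ⟨p, hp, rfl⟩
    -- the conjugate of `z`
    obtain ⟨z1, ⟨a, ha, rfl⟩, z2, hz2, rfl⟩ := Submodule.mem_sup.1 hz
    obtain ⟨z3, ⟨d, hd, rfl⟩, rfl⟩ := mem_ln_smul.1 hz2
    have hz' : (⟨a, -d⟩ : QA C e) ∈ O' s := by
      refine Submodule.mem_sup.2 ⟨⟨a, 0⟩, ⟨a, ha, rfl⟩, ⟨0, -d⟩, ?_, ?_⟩
      · have h1 : (⟨0, d⟩ : QA C e) ∈ (ln (yy e) * iota e D) s := by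
          refine mem_ln_smul.2 ⟨⟨d, 0⟩, ⟨d, hd, rfl⟩, ?_⟩
          ext
          · simp [yy]
          · simp [yy]
        have h2 := ((ln (yy e) * iota e D) s).neg_mem h1
        have h3 : -(⟨0, d⟩ : QA C e) = ⟨0, -d⟩ := by ext <;> simp
        rwa [h3] at h2
      · ext <;> simp
    have h1 : (⟨a, -d⟩ : QA C e) • p ∈ N s := by
      have h0 : (⟨a, -d⟩ : QA C e) • p ∈ (O' • N) s := Submodule.smul_mem_smul hz' hp
      rwa [hON] at h0
    refine ⟨_, h1, ?_⟩
    refine Dbl.ext' ?_ ?_
    · show a • p.1 + (e * -d) • p.2 = _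
      rw [Dbl.smul_fst]
      simp [yy, IsScalarTower.toAlgHom, QuadraticAlgebra.algebraMap_eq]
    · show -((-d) • p.1 + a • p.2) = _
      rw [Dbl.smul_snd]
      simp [yy, IsScalarTower.toAlgHom, QuadraticAlgebra.algebraMap_eq]
      abel
  have hττ : ∀ N : Chart → Submodule ℂ (Dbl V e), mapL (tauD V e) (mapL (tauD V e) N) = N := by
    intro N
    funext s
    ext p
    constructor
    · rintro ⟨_, ⟨q, hq, rfl⟩, rfl⟩
      have : tauD V e (tauD V e q) = q := tauD_tauD q
      show tauD V e (tauD V e q) ∈ N s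
      rw [this]
      exact hq
    · intro hp
      exact ⟨tauD V e p, ⟨p, hp, rfl⟩, tauD_tauD p⟩
  have hτmono : ∀ N N' : Chart → Submodule ℂ (Dbl V e), N ≤ N' →
      mapL (tauD V e) N ≤ mapL (tauD V e) N' := fun N N' h s => Submodule.map_mono (h s)
  have hτM : mapL (tauD V e) M' ≤ M' := by
    rintro s _ ⟨p, hp, rfl⟩
    rw [SetLike.mem_coe, hM', mem_covO_smul_jm hOM] at hp
    show tauD V e p ∈ M' s
    rw [hM', mem_covO_smul_jm hOM]
    exact ⟨hp.1, (_ : Submodule ℂ V).neg_mem hp.2⟩
  intro E hE hOE hEM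
  set T := mapL (tauD V e) E with hT
  have hTlat : IsLat T := hE.map _
  have hOT : O' • T = T := hτsmul E hOE
  have hTM : T ≤ M' := (hτmono _ _ hEM).trans hτM
  have hsupτ : mapL (tauD V e) (E ⊔ T) = E ⊔ T := by
    apply le_antisymm
    · have : mapL (tauD V e) (E ⊔ T) = T ⊔ mapL (tauD V e) T := by
        funext s
        exact Submodule.map_sup _ _ _
      rw [this, hT, hττ, sup_comm]
    · conv_lhs => rw [← hττ (E ⊔ T)]
      apply hτmono
      have : mapL (tauD V e) (E ⊔ T) = T ⊔ mapL (tauD V e) T := by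
        funext s
        exact Submodule.map_sup _ _ _
      rw [this, hT, hττ, sup_comm]
  have hinfle : mapL (tauD V e) (E ⊓ T) ≤ E ⊓ T := by
    apply le_inf
    · refine (hτmono _ _ inf_le_right).trans ?_
      rw [hT, hττ]
    · exact hτmono _ _ inf_le_left
  have hinfτ : mapL (tauD V e) (E ⊓ T) = E ⊓ T := by
    apply le_antisymm hinfle
    conv_lhs => rw [← hττ (E ⊓ T)]
    exact hτmono _ _ hinfle
  have hOinf : O' • (E ⊓ T) = E ⊓ T := by
    apply hring.smul_eq_of_le
    apply le_inf
    · exact (SmonoR O' inf_le_left).trans hOE.le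
    · exact (SmonoR O' inf_le_right).trans hOT.le
  have h1 := hinv (E ⊔ T) (hE.sup hTlat) (by rw [Ssup, hOE, hOT]) (sup_le hEM hTM) hsupτ
  have h2 := hinv (E ⊓ T) (hE.inf hTlat) hOinf (inf_le_left.trans hEM) hinfτ
  have hinj : Function.Injective (tauD V e) := by
    intro p q hpq
    have := congrArg (tauD V e) hpq
    rwa [tauD_tauD, tauD_tauD] at this
  have hchi : ∀ a b, chi T a b = chi E a b := hE.chi_map_of_injective _ hinj
  have hsum := hE.chi_sup hTlat
  have e1 : lam (E ⊔ T) + lam (E ⊓ T) = 2 * lam E := by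
    rw [lam_eq, lam_eq, lam_eq]
    have a1 := hsum 1 0
    have a2 := hsum 0 1
    have a3 := hsum 0 0
    rw [hchi] at a1 a2 a3
    linarith
  have e2 : lead (E ⊔ T) + lead (E ⊓ T) = 2 * lead E := by
    unfold lead
    have a1 := hsum 1 0
    have a2 := hsum 0 1
    have a3 := hsum 0 0
    have a4 := hsum 1 1
    rw [hchi] at a1 a2 a3 a4
    linarith
  have h3 : (lam (E ⊔ T) + lam (E ⊓ T)) * lead M' ≤
      lam M' * (lead (E ⊔ T) + lead (E ⊓ T)) := by linarith
  rw [e1, e2] at h3
  linarith

end cover2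

end Pool.Agent.Lib.LP
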