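import Pool.Agent.Lib.MP_865fc0_ag.Closure

/-!
# Exactness of global sections in large degrees
-/

open scoped Pointwise
open Filter

namespace Pool.Agent.Lib.LP

section

variable {V : Type*} [AddCommGroup V] [Module ℂ V] [Module K V] [IsScalarTower ℂ K V]
variable {V' : Type*} [AddCommGroup V'] [Module ℂ V'] [Module K V'] [IsScalarTower ℂ K V']
variable {F G : Chart → Submodule ℂ V}

theorem IsLat.w_smul_Sec (hF : IsLat F) (n : ℕ) (s : Chart) {v : V} (hv : v ∈ Sec F n n) :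
    w s • v ∈ Sec F ((n + 1 : ℕ) : ℤ) ((n + 1 : ℕ) : ℤ) := by
  rw [mem_Sec_diag] at hv ⊢
  intro t
  have h1 : (w t ^ (n + 1))⁻¹ • w s • v = (w s / w t) • (w t ^ n)⁻¹ • v := by
    rw [smul_smul, smul_smul]
    congr 1
    have := w_ne_zero t
    field_simp
    ring
  rw [h1]
  exact hF.smul_mem (w_div_mem s t) (hv t)

theorem IsLat.exists_gen [Module.Finite K V] (hF : IsLat F) :
    ∃ n1 : ℕ, ∀ m : ℕ, Sec F ((n1 + m : ℕ) : ℤ) ((n1 + m : ℕ) : ℤ) = W m • Sec F n1 n1 := by
  obtain ⟨G0, hG0, hb⟩ := hF.exists_bound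
  exact eventually_generated (fun n => Sec F n n) (fun n s v hv => hF.w_smul_Sec n s hv) G0 hG0 hb

theorem IsLat.W_smul_Sec (hF : IsLat F) (m n : ℕ) :
    W m • Sec F n n ≤ Sec F ((n + m : ℕ) : ℤ) ((n + m : ℕ) : ℤ) := by
  induction m with
  | zero =>
    have h0 : (W ((0 : ℕ) : ℤ)) = 1 := W_zero
    rw [h0, Submodule.one_smul]; exact le_rfl
  | succ m ih =>
    rw [W_succ_smul, W_one_smul_le]
    intro s v hv
    exact hF.w_smul_Sec _ s (ih hv)

/-- A local section becomes global after multiplication by a power of `w_s`. -/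
theorem IsLat.exists_global (hF : IsLat F) {s : Chart} {v : V} (hv : v ∈ F s) :
    ∃ n : ℕ, ∀ m, n ≤ m → w s ^ m • v ∈ Sec F m m := by
  obtain ⟨n, hn⟩ := hF.glue_all hv
  refine ⟨n, fun m hm => ?_⟩
  rw [mem_Sec_diag]
  intro t
  rw [smul_smul]
  have : (w t ^ m)⁻¹ * w s ^ m = (w s / w t) ^ m := by
    rw [div_pow, div_eq_inv_mul]
  rw [this]
  exact hn m hm t

/-- Surjections of lattices are surjective on sections in large degrees. -/
theorem IsLat.Sec_map [Module.Finite K V'] (hF : IsLat F) (φ : V →ₗ[K] V') :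
    ∀ᶠ n : ℕ in atTop, Sec (mapL φ F) n n = (Sec F n n).map (φ.restrictScalars ℂ) := by
  have hH := hF.map φ
  obtain ⟨n1, hn1⟩ := hH.exists_gen
  -- local lifting
  have hloc : ∀ v ∈ Sec (mapL φ F) (n1 : ℤ) n1, ∃ N : ℕ, ∀ m, N ≤ m → ∀ s,
      w s ^ m • v ∈ (Sec F ((n1 + m : ℕ) : ℤ) ((n1 + m : ℕ) : ℤ)).map (φ.restrictScalars ℂ) := by
    intro v hv
    rw [mem_Sec_diag] at hv
    have h1 : ∀ s, ∃ N : ℕ, ∀ m, N ≤ m →
        w s ^ m • v ∈ (Sec F ((n1 + m : ℕ) : ℤ) ((n1 + m : ℕ) : ℤ)).map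
          (φ.restrictScalars ℂ) := by
      intro s
      obtain ⟨a, ha, hav⟩ := hv s
      obtain ⟨N, hN⟩ := hF.exists_global ha
      refine ⟨N, fun m hm => ⟨w s ^ (n1 + m) • a, hN _ (by omega), ?_⟩⟩
      rw [LinearMap.restrictScalars_apply] at hav ⊢
      rw [map_smul, hav, smul_smul]
      congr 1
      have := w_ne_zero s
      rw [pow_add]
      field_simp
    choose N hN using h1
    refine ⟨∑ s, N s, fun m hm s => hN s m (le_trans ?_ hm)⟩
    exact Finset.single_le_sum (f := N) (fun _ _ => Nat.zero_le _) (Finset.mem_univ s)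
  -- uniform bound
  obtain ⟨g, hg⟩ := hH.fg_Sec n1
  have huni : ∃ N : ℕ, ∀ s, ∀ v ∈ Sec (mapL φ F) (n1 : ℤ) n1,
      w s ^ N • v ∈ (Sec F ((n1 + N : ℕ) : ℤ) ((n1 + N : ℕ) : ℤ)).map (φ.restrictScalars ℂ) := by
    choose! N hN using hloc
    refine ⟨∑ v ∈ g, N v, fun s v hv => ?_⟩
    rw [← hg] at hv
    induction hv using Submodule.span_induction with
    | mem v hv =>
      refine hN v (by rw [← hg]; exact Submodule.subset_span hv) _ ?_ s
      exact Finset.single_le_sum (f := N) (fun _ _ => Nat.zero_le _) hv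
    | zero => rw [smul_zero]; exact Submodule.zero_mem _
    | add a b _ _ ha hb => rw [smul_add]; exact Submodule.add_mem _ ha hb
    | smul c a _ ha => rw [smul_comm]; exact Submodule.smul_mem _ _ ha
  obtain ⟨N, hN⟩ := huni
  filter_upwards [eventually_ge_atTop (n1 + 2 * N)] with n hn
  apply le_antisymm
  · obtain ⟨m, rfl⟩ := Nat.exists_eq_add_of_le (show n1 ≤ n by omega)
    rw [hn1 m]
    have h2 : W (m : ℤ) • Sec (mapL φ F) (n1 : ℤ) n1 ≤
        (⨆ s : Chart, line (w s ^ N) * W ((m : ℤ) - N)) • Sec (mapL φ F) (n1 : ℤ) n1 :=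
      Submodule.smul_mono_left (W_le_iSup N m (by omega))
    refine h2.trans ?_
    rw [Submodule.iSup_smul, iSup_le_iff]
    intro s
    have h3 : ((m : ℤ) - N) = ((m - N : ℕ) : ℤ) := by omega
    rw [h3, mul_comm, ← smul_smul_sub]
    have h4 : line (w s ^ N) • Sec (mapL φ F) (n1 : ℤ) n1 ≤
        (Sec F ((n1 + N : ℕ) : ℤ) ((n1 + N : ℕ) : ℤ)).map (φ.restrictScalars ℂ) := by
      intro v hv
      obtain ⟨a, ha, rfl⟩ := mem_line_smul.1 hv
      exact hN s a ha
    refine (Submodule.smul_mono le_rfl h4).trans ?_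
    rw [← map_smul_sub]
    apply Submodule.map_mono
    refine (hF.W_smul_Sec (m - N) (n1 + N)).trans ?_
    rw [show n1 + N + (m - N) = n1 + m by omega]
  · rintro _ ⟨v, hv, rfl⟩
    rw [SetLike.mem_coe, mem_Sec_diag] at hv
    rw [mem_Sec_diag]
    intro s
    refine ⟨_, hv s, ?_⟩
    rw [LinearMap.restrictScalars_apply, LinearMap.restrictScalars_apply, map_smul]

theorem Sec_inf_ker (φ : V →ₗ[K] V') (a b : ℤ) :
    Sec (fun s => F s ⊓ LinearMap.ker (φ.restrictScalars ℂ)) a b =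
      Sec F a b ⊓ LinearMap.ker (φ.restrictScalars ℂ) := by
  ext v
  rw [Submodule.mem_inf, mem_Sec, mem_Sec]
  constructor
  · intro h
    refine ⟨fun s => (h s).1, ?_⟩
    have h2 := (h (false, false)).2
    rw [SetLike.mem_coe] at h2
    rw [LinearMap.mem_ker, LinearMap.restrictScalars_apply] at h2 ⊢
    rw [map_smul] at h2
    exact (smul_eq_zero.1 h2).resolve_left (inv_ne_zero (wab_ne_zero _ _ _))
  · rintro ⟨h1, h2⟩ s
    refine ⟨h1 s, ?_⟩
    rw [LinearMap.mem_ker, LinearMap.restrictScalars_apply] at h2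
    simp only [SetLike.mem_coe, LinearMap.mem_ker, LinearMap.restrictScalars_apply]
    rw [map_smul, h2, smul_zero]

/-- The Hilbert function in the diagonal direction. -/
noncomputable def hf (F : Chart → Submodule ℂ V) (n : ℕ) : ℕ := Module.finrank ℂ (Sec F n n)

theorem IsLat.hf_map [Module.Finite K V] [Module.Finite K V'] (hF : IsLat F) (φ : V →ₗ[K] V') :
    ∀ᶠ n : ℕ in atTop, hf (mapL φ F) n +
      hf (fun s => F s ⊓ LinearMap.ker (φ.restrictScalars ℂ)) n = hf F n := by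
  filter_upwards [hF.Sec_map φ] with n hn
  unfold hf
  rw [hn, Sec_inf_ker]
  have hfg := hF.fg_Sec n
  have : Module.Finite ℂ (Sec F (n : ℤ) n) := Module.Finite.iff_fg.2 hfg
  have h := LinearMap.finrank_range_add_finrank_ker
    ((φ.restrictScalars ℂ).domRestrict (Sec F (n : ℤ) n))
  rw [LinearMap.range_domRestrict, LinearMap.ker_domRestrict] at h
  rw [← h]
  congr 1
  rw [← Submodule.map_comap_subtype, Submodule.finrank_map_subtype_eq]

/-- The product of two lattices. -/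
def prodL (F : Chart → Submodule ℂ V) (G : Chart → Submodule ℂ V') :
    Chart → Submodule ℂ (V × V') := fun s => (F s).prod (G s)

theorem IsLat.prod {G : Chart → Submodule ℂ V'} (hF : IsLat F) (hG : IsLat G) :
    IsLat (prodL F G) := by
  have h : prodL F G = mapL (LinearMap.inl K V V') F ⊔ mapL (LinearMap.inr K V V') G := by
    funext s
    ext ⟨a, b⟩
    rw [Pi.sup_apply, Submodule.mem_sup]
    constructor
    · rintro ⟨ha, hb⟩
      exact ⟨(a, 0), ⟨a, ha, rfl⟩, (0, b), ⟨b, hb, rfl⟩, by simp⟩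
    · rintro ⟨_, ⟨a', ha, rfl⟩, _, ⟨b', hb, rfl⟩, h⟩
      simp only [LinearMap.restrictScalars_apply, LinearMap.inl_apply, LinearMap.inr_apply,
        Prod.mk_add_mk, add_zero, zero_add, Prod.mk.injEq] at h
      obtain ⟨rfl, rfl⟩ := h
      exact ⟨ha, hb⟩
  rw [h]
  exact (hF.map _).sup (hG.map _)

theorem Sec_prod {G : Chart → Submodule ℂ V'} (a b : ℤ) :
    Sec (prodL F G) a b = (Sec F a b).prod (Sec G a b) := by
  ext ⟨p, q⟩
  rw [Submodule.mem_prod, mem_Sec, mem_Sec, mem_Sec]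
  constructor
  · intro h
    exact ⟨fun s => (h s).1, fun s => (h s).2⟩
  · rintro ⟨h1, h2⟩ s
    exact ⟨h1 s, h2 s⟩

theorem IsLat.Sec_sup [Module.Finite K V] (hF : IsLat F) (hG : IsLat G) :
    ∀ᶠ n : ℕ in atTop, Sec (F ⊔ G) n n = Sec F n n ⊔ Sec G n n := by
  have h1 := (hF.prod hG).Sec_map (LinearMap.coprod LinearMap.id LinearMap.id)
  have h2 : mapL (LinearMap.coprod LinearMap.id LinearMap.id) (prodL F G) = F ⊔ G := by
    funext s
    ext v
    rw [Pi.sup_apply, Submodule.mem_sup]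
    constructor
    · rintro ⟨⟨a, b⟩, ⟨ha, hb⟩, rfl⟩
      exact ⟨a, ha, b, hb, rfl⟩
    · rintro ⟨a, ha, b, hb, rfl⟩
      exact ⟨(a, b), ⟨ha, hb⟩, rfl⟩
  rw [h2] at h1
  filter_upwards [h1] with n hn
  rw [hn, Sec_prod]
  ext v
  rw [Submodule.mem_sup]
  constructor
  · rintro ⟨⟨a, b⟩, ⟨ha, hb⟩, rfl⟩
    exact ⟨a, ha, b, hb, rfl⟩
  · rintro ⟨a, ha, b, hb, rfl⟩
    exact ⟨(a, b), ⟨ha, hb⟩, rfl⟩

theorem Sec_inf (a b : ℤ) : Sec (F ⊓ G) a b = Sec F a b ⊓ Sec G a b := by
  ext v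
  rw [Submodule.mem_inf, mem_Sec, mem_Sec, mem_Sec]
  exact ⟨fun h => ⟨fun s => (h s).1, fun s => (h s).2⟩, fun h s => ⟨h.1 s, h.2 s⟩⟩

theorem IsLat.hf_sup [Module.Finite K V] (hF : IsLat F) (hG : IsLat G) :
    ∀ᶠ n : ℕ in atTop, hf (F ⊔ G) n + hf (F ⊓ G) n = hf F n + hf G n := by
  filter_upwards [hF.Sec_sup hG] with n hn
  unfold hf
  rw [hn, Sec_inf]
  have : Module.Finite ℂ (Sec F (n : ℤ) n) := Module.Finite.iff_fg.2 (hF.fg_Sec n)
  have : Module.Finite ℂ (Sec G (n : ℤ) n) := Module.Finite.iff_fg.2 (hG.fg_Sec n)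
  exact Submodule.finrank_sup_add_finrank_inf_eq _ _

theorem IsLat.tw (hF : IsLat F) (a b : ℤ) : IsLat (tw a b F) where
  fg := by
    intro s
    obtain ⟨T, hT, h⟩ := hF.fg s
    refine ⟨line (wx s ^ a * wu s ^ b) • T, fg_smul (fg_line _) hT, ?_⟩
    unfold LP.tw
    rw [h, smul_smul_sub, smul_smul_sub, mul_comm]
  glue := by
    intro s t v hv
    rw [mem_tw] at hv
    obtain ⟨n, hn⟩ := hF.glue s t _ hv
    -- the quotient of generators is bounded by a power of `w_s / w_t`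
    have key : ∃ m : ℕ, (wx s ^ a * wu s ^ b) * (wx t ^ a * wu t ^ b)⁻¹ * (w s / w t) ^ m ∈ R t := by
      refine ⟨a.natAbs + b.natAbs, ?_⟩
      have e : (wx s ^ a * wu s ^ b) * (wx t ^ a * wu t ^ b)⁻¹ *
          (w s / w t) ^ (a.natAbs + b.natAbs) =
          mon ((if s.1 then a else 0) - (if t.1 then a else 0) +
            ((if s.1 then (a.natAbs + b.natAbs : ℤ) else 0) -
              (if t.1 then (a.natAbs + b.natAbs : ℤ) else 0)),
            (if s.2 then b else 0) - (if t.2 then b else 0) +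
            ((if s.2 then (a.natAbs + b.natAbs : ℤ) else 0) -
              (if t.2 then (a.natAbs + b.natAbs : ℤ) else 0))) := by
        have hx : ∀ s : Chart, wx s ^ a = x ^ (if s.1 then a else 0) := by
          intro s; unfold wx; split_ifs <;> simp
        have hu : ∀ s : Chart, wu s ^ b = u ^ (if s.2 then b else 0) := by
          intro s; unfold wu; split_ifs <;> simp
        have hw : ∀ s : Chart, w s ^ (a.natAbs + b.natAbs) =
            x ^ (if s.1 then (a.natAbs + b.natAbs : ℤ) else 0) *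
            u ^ (if s.2 then (a.natAbs + b.natAbs : ℤ) else 0) := by
          intro s
          have := w_pow_eq_mon s ((a.natAbs + b.natAbs : ℕ) : ℤ)
          rw [zpow_natCast] at this
          rw [this]
          unfold mon
          push_cast
          rfl
        rw [div_pow, hw, hw, hx, hx, hu, hu]
        unfold mon
        simp only
        rw [zpow_add₀ x_ne_zero, zpow_sub₀ x_ne_zero, zpow_sub₀ x_ne_zero,
          zpow_add₀ u_ne_zero, zpow_sub₀ u_ne_zero, zpow_sub₀ u_ne_zero]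
        have := x_ne_zero; have := u_ne_zero
        field_simp
      rw [e, R_eq]
      apply mon_mem_MonS
      simp only [Quad, Set.mem_ofPred_eq]
      split_ifs <;> omega
    obtain ⟨m, hm⟩ := key
    refine ⟨m + n, ?_⟩
    rw [mem_tw]
    have e2 : (wx t ^ a * wu t ^ b)⁻¹ • (w s / w t) ^ (m + n) • v =
        ((wx s ^ a * wu s ^ b) * (wx t ^ a * wu t ^ b)⁻¹ * (w s / w t) ^ m) •
          (w s / w t) ^ n • (wx s ^ a * wu s ^ b)⁻¹ • v := by
      rw [smul_smul, smul_smul, smul_smul]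
      congr 1
      have h0 := wab_ne_zero s a b
      rw [pow_add]
      generalize wx s ^ a * wu s ^ b = c at h0 ⊢
      field_simp
    rw [e2]
    exact hF.smul_mem hm hn

end

end Pool.Agent.Lib.LP
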