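import Pool.Agent.Lib.MP_865fc0_ag.SurfRing
import Pool.Agent.Lib.MP_865fc0_ag.SurfRegular
import Pool.Agent.Lib.MP_865fc0_ag.SurfExists

/-!
# The canonical sheaf is a square root of `O(2,2)`
-/

set_option linter.unusedSectionVars false

open scoped Pointwise

namespace Pool.Agent.Lib.LP

theorem exists_char_both : ∀ β β' : Br, β.1 = false → β'.1 = true →
    ∃ χ : Lam, inert β χ = 1 ∧ inert β' χ = 1 := by decide +kernel

/-- The product of the equations of the lines unramified in `χ`. -/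
noncomputable def nS (s : Chart) (χ : Lam) : K := ∏ β : Br with ¬ inert β χ = 1, tS s β

/-- The product of the equations of the lines unramified in `χ` and `ψ`. -/
noncomputable def nnS (s : Chart) (χ ψ : Lam) : K :=
  ∏ β : Br with ¬ inert β χ = 1 ∧ ¬ inert β ψ = 1, tS s β

/-- The product of the equations of the lines ramified in `χ`. -/
noncomputable def pS (s : Chart) (χ : Lam) : K := ∏ β : Br with inert β χ = 1, tS s β

theorem nS_span (s : Chart) : ∃ c : Lam → K, (∀ χ, c χ ∈ Ralg s) ∧ ∑ χ, c χ * nS s χ = 1 := by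
  classical
  let t : Br → Ralg s := fun β => ⟨tS s β, tS_mem s β⟩
  let N : Lam → Ralg s := fun χ => ∏ β : Br with ¬ inert β χ = 1, t β
  have hN : ∀ χ, ((N χ : Ralg s) : K) = nS s χ := by
    intro χ
    change ((∏ β : Br with ¬ inert β χ = 1, t β : Ralg s) : K) = _
    unfold nS
    have := map_prod (Ralg s).val t (Finset.univ.filter (fun β : Br => ¬ inert β χ = 1))
    exact this
  have htop : Ideal.span (Set.range N) = ⊤ := by
    by_contra hne
    obtain ⟨p, hp, hle⟩ := Ideal.exists_le_maximal _ hne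
    have hpp : p.IsPrime := hp.isPrime
    have hNp : ∀ χ, N χ ∈ p := fun χ => hle (Ideal.subset_span ⟨χ, rfl⟩)
    have h1 : ∀ χ, ∃ β, ¬ inert β χ = 1 ∧ t β ∈ p := by
      intro χ
      have h2 : ∏ β : Br with ¬ inert β χ = 1, t β ∈ p := hNp χ
      rw [Ideal.IsPrime.prod_mem_iff] at h2
      obtain ⟨β, hβ, h3⟩ := h2
      exact ⟨β, (Finset.mem_filter.1 hβ).2, h3⟩
    have huniq : ∀ β β' : Br, β.1 = β'.1 → t β ∈ p → t β' ∈ p → β = β' := by
      intro β β' hb h2 h3
      by_contra hne'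
      have h4 := pq_ne (s := s) hb hne'
      have h5 : algebraMap ℂ (Ralg s) (pc s β' * qc s β - pc s β * qc s β') =
          algebraMap ℂ (Ralg s) (pc s β') * t β - algebraMap ℂ (Ralg s) (pc s β) * t β' := by
        apply Subtype.ext
        change algebraMap ℂ K (pc s β' * qc s β - pc s β * qc s β') =
          algebraMap ℂ K (pc s β') * tS s β - algebraMap ℂ K (pc s β) * tS s β'
        rw [tS_eq s β, tS_eq s β', hb, map_sub, map_mul, map_mul]
        ring
      have h6 : algebraMap ℂ (Ralg s) (pc s β' * qc s β - pc s β * qc s β') ∈ p := by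
        rw [h5]
        exact p.sub_mem (p.mul_mem_left _ h2) (p.mul_mem_left _ h3)
      have h7 : IsUnit (algebraMap ℂ (Ralg s) (pc s β' * qc s β - pc s β * qc s β')) :=
        (isUnit_iff_ne_zero.2 h4).map _
      exact hpp.ne_top (Ideal.eq_top_of_isUnit_mem _ h6 h7)
    have hex : ∀ b : Bool, ∃ β0 : Br, β0.1 = b ∧ ∀ β : Br, β.1 = b → t β ∈ p → β = β0 := by
      intro b
      by_cases h : ∃ β0 : Br, β0.1 = b ∧ t β0 ∈ p
      · obtain ⟨β0, h2, h3⟩ := h
        exact ⟨β0, h2, fun β hb hm => huniq β β0 (hb.trans h2.symm) hm h3⟩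
      · push Not at h
        exact ⟨(b, 0, false), rfl, fun β hb hm => absurd hm (h β hb)⟩
    obtain ⟨β1, hb1, hu1⟩ := hex false
    obtain ⟨β2, hb2, hu2⟩ := hex true
    obtain ⟨χ, hχ1, hχ2⟩ := exists_char_both β1 β2 hb1 hb2
    obtain ⟨β, h3, h4⟩ := h1 χ
    cases hb : β.1 with
    | false =>
      rw [hu1 β hb h4] at h3
      exact h3 hχ1
    | true =>
      rw [hu2 β hb h4] at h3
      exact h3 hχ2
  have h1 : (1 : Ralg s) ∈ Ideal.span (Set.range N) := by rw [htop]; trivial
  rw [Ideal.mem_span_range_iff_exists_fun] at h1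
  obtain ⟨c, hc⟩ := h1
  refine ⟨fun χ => c χ, fun χ => (c χ).2, ?_⟩
  have h2 : (Ralg s).val (∑ i, c i * N i) = 1 := congrArg (Ralg s).val hc
  rw [map_sum] at h2
  rw [← h2]
  apply Finset.sum_congr rfl
  intro χ _
  rw [← hN χ]
  rfl

theorem nS_eq (s : Chart) (χ ψ : Lam) : ∃ r ∈ Ralg s, nS s χ = r * nnS s χ ψ := by
  refine ⟨∏ β ∈ (Finset.univ.filter (fun β : Br => ¬ inert β χ = 1)).filter
    (fun β => ¬ ¬ inert β ψ = 1), tS s β, (Ralg s).prod_mem fun β _ => tS_mem s β, ?_⟩
  unfold nS nnS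
  rw [← Finset.prod_filter_mul_prod_filter_not _ (fun β : Br => ¬ inert β ψ = 1), mul_comm]
  simp only [Finset.filter_filter]

theorem tS_ne_zero (s : Chart) (β : Br) : tS s β ≠ 0 := by
  unfold tS
  apply div_ne_zero
  · intro h
    rw [← algebraMap_pB, FaithfulSMul.algebraMap_eq_zero_iff] at h
    have h4 := congrArg (MvPolynomial.eval (fun _ => rt β + 1)) h
    unfold pB at h4
    rw [map_sub] at h4
    split_ifs at h4 <;> simp at h4
  · split_ifs
    · exact wu_ne_zero s
    · exact wx_ne_zero s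

theorem pS_ne_zero (s : Chart) (χ : Lam) : pS s χ ≠ 0 :=
  Finset.prod_ne_zero_iff.2 fun β _ => tS_ne_zero s β

/-- The main identity between the products of lines. -/
theorem both_mul_all (s : Chart) (χ ψ : Lam) :
    (∏ β : Br with inert β χ = 1 ∧ inert β ψ = 1, tS s β) * ∏ β, tS s β =
      nnS s χ ψ * (pS s χ * pS s ψ) := by
  unfold nnS pS
  rw [Finset.prod_filter, Finset.prod_filter, Finset.prod_filter, Finset.prod_filter,
    ← Finset.prod_mul_distrib, ← Finset.prod_mul_distrib, ← Finset.prod_mul_distrib]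
  apply Finset.prod_congr rfl
  intro β _
  by_cases h1 : inert β χ = 1 <;> by_cases h2 : inert β ψ = 1 <;> simp [h1, h2]

theorem card_all_x : (Finset.univ.filter (fun β : Br => β.1 = true)).card = 6 := by decide

theorem card_all_u : (Finset.univ.filter (fun β : Br => ¬ β.1 = true)).card = 6 := by decide

theorem prod_all (s : Chart) : ∏ β, tB β = (∏ β, tS s β) * (wx s ^ 6 * wu s ^ 6) := by
  have h1 : (∏ β, tS s β) * ∏ β : Br, (if β.1 then wu s else wx s) = ∏ β, tB β := by
    rw [← Finset.prod_mul_distrib]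
    apply Finset.prod_congr rfl
    intro β _
    unfold tS
    apply div_mul_cancel₀
    split_ifs
    · exact wu_ne_zero s
    · exact wx_ne_zero s
  rw [← h1, Finset.prod_ite, Finset.prod_const, Finset.prod_const, card_all_x, card_all_u]
  ring

section

variable {L : Type} [Field L] [Algebra ℂ L] [Algebra K L] [IsScalarTower ℂ K L]

theorem repr_z_mul (D : SurfData L) (χ ψ θ : Lam) :
    D.basis.repr (D.z χ * D.z ψ) θ = if θ = χ + ψ then mB χ ψ else 0 := by
  rw [D.z_mul, ← Algebra.smul_def, map_smul, ← D.basis_apply, D.basis.repr_self,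
    Finsupp.smul_apply, Finsupp.single_apply, smul_eq_mul]
  split_ifs with h1 h2 h2
  · rw [mul_one]
  · exact absurd h1.symm h2
  · exact absurd h2.symm h1
  · rw [mul_zero]

theorem trace_eq (D : SurfData L) (v : L) :
    Algebra.trace K L v = 8 * D.basis.repr v 0 := by
  classical
  have h : Algebra.trace K L = (8 : K) • D.basis.coord 0 := by
    apply D.basis.ext
    intro χ
    rw [Algebra.trace_eq_matrix_trace D.basis, Matrix.trace]
    simp only [Matrix.diag_apply, Algebra.leftMulMatrix_eq_repr_mul]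
    have h1 : ∀ ψ, D.basis.repr (D.basis χ * D.basis ψ) ψ = if χ = 0 then 1 else 0 := by
      intro ψ
      rw [D.basis_apply, D.basis_apply, repr_z_mul]
      by_cases h : χ = 0
      · rw [h, zero_add, if_pos rfl, if_pos rfl]
        unfold mB
        simp [inert_zeroE]
      · rw [if_neg h, if_neg]
        intro h2
        exact h (left_eq_add.1 (by rwa [add_comm] at h2))
    rw [Finset.sum_congr rfl fun ψ _ => h1 ψ, LinearMap.smul_apply, Module.Basis.coord_apply,
      D.basis.repr_self, Finsupp.single_apply, Finset.sum_const, Finset.card_univ]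
    have h2 : Fintype.card Lam = 8 := by decide
    rw [h2]
    split_ifs <;> simp
  rw [h]
  rfl

/-- Multiplication by `zs s χ` and the coordinate at `0`. -/
theorem repr_zs_mul (D : SurfData L) (s : Chart) (χ : Lam) (v : L) :
    D.basis.repr (D.zs s χ * v) 0 =
      D.basis.repr v χ * (wx s ^ ax χ * wu s ^ bx χ) * pS s χ := by
  have h1 : ∀ v : L, D.basis.repr (D.z χ * v) 0 = D.basis.repr v χ * mB χ χ := by
    intro v
    have h : (D.basis.coord 0) ∘ₗ (LinearMap.mulLeft K (D.z χ)) = (mB χ χ) • D.basis.coord χ := by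
      apply D.basis.ext
      intro ψ
      change D.basis.repr (D.z χ * D.basis ψ) 0 = mB χ χ • D.basis.repr (D.basis ψ) χ
      rw [D.basis_apply, repr_z_mul, ← D.basis_apply, D.basis.repr_self, Finsupp.single_apply]
      by_cases h2 : ψ = χ
      · rw [if_pos h2, h2, if_pos (lam_add_self χ).symm, smul_eq_mul, mul_one]
      · rw [if_neg h2, smul_zero, if_neg]
        intro h3
        apply h2
        have h4 : χ + (χ + ψ) = χ := by rw [← h3, add_zero]
        rwa [← add_assoc, lam_add_self, zero_add] at h4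
    have h2 := LinearMap.congr_fun h v
    change D.basis.repr (D.z χ * v) 0 = mB χ χ • D.basis.repr v χ at h2
    rw [h2, smul_eq_mul, mul_comm]
  have h2 : D.zs s χ * v = (wx s ^ ax χ * wu s ^ bx χ)⁻¹ • (D.z χ * v) := by
    unfold SurfData.zs
    rw [Algebra.smul_def, mul_assoc]
  rw [h2, map_smul, Finsupp.smul_apply, h1]
  have h3 := prod_tS s χ χ
  rw [lam_add_self] at h3
  have h4 : wx s ^ ax 0 * wu s ^ bx 0 = 1 := by
    have h5 : ax 0 = 0 := by decide
    have h6 : bx 0 = 0 := by decide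
    rw [h5, h6, pow_zero, pow_zero, one_mul]
  rw [h4, mul_one] at h3
  have h5 : pS s χ = ∏ β : Br with inert β χ = 1 ∧ inert β χ = 1, tS s β := by
    unfold pS
    simp only [and_self]
  rw [h3, ← h5, smul_eq_mul]
  have hw : wx s ^ ax χ * wu s ^ bx χ ≠ 0 :=
    mul_ne_zero (pow_ne_zero _ (wx_ne_zero s)) (pow_ne_zero _ (wu_ne_zero s))
  field_simp

/-- The generators of the canonical sheaf. -/
noncomputable def SurfData.eo (D : SurfData L) (s : Chart) (χ : Lam) : L :=
  algebraMap K L ((wx s ^ 2 * wu s ^ 2)⁻¹ * (pS s χ)⁻¹) * D.zs s χ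

theorem mem_canonicalSheaf (hI : SurfIntegral L) (D : SurfData L) (s : Chart) (v : L) :
    v ∈ canonicalSheaf L s ↔ ∀ χ, wx s ^ 2 * wu s ^ 2 *
      (D.basis.repr v χ * (wx s ^ ax χ * wu s ^ bx χ) * pS s χ) ∈ Ralg s := by
  have h8 : ∀ k : K, 8 * k ∈ Ralg s ↔ k ∈ Ralg s := by
    intro k
    have h9 : ∀ k : K, 8 * k = (8 : ℂ) • k := by
      intro k
      rw [Algebra.smul_def, map_ofNat]
    constructor
    · intro h
      have h10 : k = (8⁻¹ : ℂ) • (8 * k) := by
        rw [h9, smul_smul]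
        norm_num
      rw [h10]
      exact (Ralg s).smul_mem h _
    · intro h
      rw [h9]
      exact (Ralg s).smul_mem h _
  have htr : ∀ χ, wx s ^ 2 * wu s ^ 2 * Algebra.trace K L (D.zs s χ * v) =
      8 * (wx s ^ 2 * wu s ^ 2 *
      (D.basis.repr v χ * (wx s ^ ax χ * wu s ^ bx χ) * pS s χ)) := by
    intro χ
    rw [trace_eq D, repr_zs_mul]
    ring
  constructor
  · intro h χ
    have h1 := h (D.zs s χ) (zs_memI D s χ)
    rw [htr, h8] at h1
    exact h1
  · intro h a ha
    have h1 := (mem_strSheaf hI D s a).1 ha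
    have h2 : a = ∑ χ, algebraMap K L (D.basis.repr a χ * (wx s ^ ax χ * wu s ^ bx χ)) *
        D.zs s χ := by
      conv_lhs => rw [← D.repr_sum a]
      apply Finset.sum_congr rfl
      intro χ _
      unfold SurfData.zs
      rw [← mul_assoc, ← map_mul, Algebra.smul_def, mul_assoc, mul_inv_cancel₀, mul_one]
      exact mul_ne_zero (pow_ne_zero _ (wx_ne_zero s)) (pow_ne_zero _ (wu_ne_zero s))
    rw [h2, Finset.sum_mul, map_sum, Finset.mul_sum]
    apply Subalgebra.sum_mem
    intro χ _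
    rw [mul_assoc (algebraMap K L _), ← Algebra.smul_def, map_smul, smul_eq_mul,
      mul_left_comm, htr]
    exact (Ralg s).mul_mem (h1 χ) ((h8 _).2 (h χ))

theorem W_ne_zero (s : Chart) (χ : Lam) : wx s ^ ax χ * wu s ^ bx χ ≠ 0 :=
  mul_ne_zero (pow_ne_zero _ (wx_ne_zero s)) (pow_ne_zero _ (wu_ne_zero s))

theorem w22_ne_zero (s : Chart) : wx s ^ 2 * wu s ^ 2 ≠ 0 :=
  mul_ne_zero (pow_ne_zero _ (wx_ne_zero s)) (pow_ne_zero _ (wu_ne_zero s))

theorem mB_self (s : Chart) (χ : Lam) : mB χ χ = pS s χ *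
    ((wx s ^ ax χ * wu s ^ bx χ) * (wx s ^ ax χ * wu s ^ bx χ)) := by
  have h3 := prod_tS s χ χ
  rw [lam_add_self] at h3
  have h4 : wx s ^ ax 0 * wu s ^ bx 0 = 1 := by
    have h5 : ax 0 = 0 := by decide
    have h6 : bx 0 = 0 := by decide
    rw [h5, h6, pow_zero, pow_zero, one_mul]
  rw [h4, mul_one] at h3
  have h5 : pS s χ = ∏ β : Br with inert β χ = 1 ∧ inert β χ = 1, tS s β := by
    unfold pS
    simp only [and_self]
  rw [h3, h5]

theorem canonicalSheaf_eq (hI : SurfIntegral L) (D : SurfData L) :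
    canonicalSheaf L = D.sumL (fun χ => sm (mB χ χ)⁻¹
      (tw ((ax χ : ℤ) - 2) ((bx χ : ℤ) - 2) R)) := by
  funext s
  ext v
  rw [mem_canonicalSheaf hI D, D.mem_sumL]
  apply forall_congr'
  intro χ
  have hm : mB χ χ ≠ 0 := by
    rw [mB_self s]
    exact mul_ne_zero (pS_ne_zero s χ) (mul_ne_zero (W_ne_zero s χ) (W_ne_zero s χ))
  rw [mem_sm (inv_ne_zero hm), mem_tw, inv_inv, smul_smul, smul_eq_mul]
  have hx := wx_ne_zero s
  have hu := wu_ne_zero s
  have h1 : wx s ^ 2 * wu s ^ 2 *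
      (D.basis.repr v χ * (wx s ^ ax χ * wu s ^ bx χ) * pS s χ) =
      (wx s ^ ((ax χ : ℤ) - 2) * wu s ^ ((bx χ : ℤ) - 2))⁻¹ * mB χ χ * D.basis.repr v χ := by
    rw [mB_self s, zpow_sub₀ hx, zpow_sub₀ hu, zpow_natCast, zpow_natCast]
    have e1 : wx s ^ (2 : ℤ) = wx s ^ 2 := by norm_cast
    have e2 : wu s ^ (2 : ℤ) = wu s ^ 2 := by norm_cast
    rw [e1, e2]
    field_simp
  rw [h1]
  exact Iff.rfl

theorem mem_canonical_iff (hI : SurfIntegral L) (D : SurfData L) (s : Chart) (v : L) :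
    v ∈ canonicalSheaf L s ↔ ∃ r : Lam → K, (∀ χ, r χ ∈ Ralg s) ∧
      v = ∑ χ, algebraMap K L (r χ) * D.eo s χ := by
  rw [mem_canonicalSheaf hI D]
  constructor
  · intro h
    refine ⟨_, h, ?_⟩
    conv_lhs => rw [← D.repr_sum v]
    apply Finset.sum_congr rfl
    intro χ _
    unfold SurfData.eo SurfData.zs
    rw [← mul_assoc, ← mul_assoc, ← map_mul, ← map_mul, Algebra.smul_def]
    congr 2
    have h1 := W_ne_zero s χ
    have h2 := pS_ne_zero s χ
    have h3 := w22_ne_zero s
    generalize wx s ^ 2 * wu s ^ 2 = a at *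
    generalize wx s ^ ax χ * wu s ^ bx χ = b at *
    field_simp
  · rintro ⟨r, hr, rfl⟩ χ
    have h4 : ∑ χ, algebraMap K L (r χ) * D.eo s χ = ∑ χ, (r χ * ((wx s ^ 2 * wu s ^ 2)⁻¹ *
        (pS s χ)⁻¹ * (wx s ^ ax χ * wu s ^ bx χ)⁻¹)) • D.z χ := by
      apply Finset.sum_congr rfl
      intro χ _
      unfold SurfData.eo SurfData.zs
      rw [← mul_assoc, ← mul_assoc, ← map_mul, ← map_mul, Algebra.smul_def]
      congr 2
      ring
    rw [h4, D.repr_eq]
    have h1 := W_ne_zero s χ
    have h2 := pS_ne_zero s χ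
    have h3 := w22_ne_zero s
    generalize wx s ^ 2 * wu s ^ 2 = a at *
    generalize wx s ^ ax χ * wu s ^ bx χ = b at *
    have h5 : a * (r χ * (a⁻¹ * (pS s χ)⁻¹ * b⁻¹) * b * pS s χ) = r χ := by field_simp
    rw [h5]
    exact hr χ

theorem eo_mem (hI : SurfIntegral L) (D : SurfData L) (s : Chart) {r : K} (hr : r ∈ Ralg s)
    (χ : Lam) : algebraMap K L r * D.eo s χ ∈ canonicalSheaf L s := by
  classical
  rw [mem_canonical_iff hI D]
  refine ⟨fun ψ => if ψ = χ then r else 0, fun ψ => ?_, ?_⟩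
  · simp only
    split_ifs
    · exact hr
    · exact (Ralg s).zero_mem
  · rw [Finset.sum_eq_single χ]
    · simp
    · intro ψ _ h
      simp [h]
    · intro h
      exact absurd (Finset.mem_univ _) h

theorem eo_mul (D : SurfData L) (s : Chart) (χ ψ : Lam) : D.eo s χ * D.eo s ψ =
    algebraMap K L (nnS s χ ψ) * (algebraMap K L ((∏ β : Br, tB β)⁻¹ *
      (wx s ^ 2 * wu s ^ 2)) * D.zs s (χ + ψ)) := by
  unfold SurfData.eo
  rw [mul_mul_mul_comm, zs_mul, ← mul_assoc, ← mul_assoc, ← map_mul, ← map_mul, ← map_mul,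
    prod_all s]
  congr 2
  have h := both_mul_all s χ ψ
  have h1 := pS_ne_zero s χ
  have h2 := pS_ne_zero s ψ
  have h3 := wx_ne_zero s
  have h4 := wu_ne_zero s
  have h5 : ∏ β, tS s β ≠ 0 := Finset.prod_ne_zero_iff.2 fun β _ => tS_ne_zero s β
  field_simp
  linear_combination h

end

theorem surfOmega (L : Type) [Field L] [Algebra ℂ L] [Algebra K L] [IsScalarTower ℂ K L] :
    SurfOmega L := by
  rintro hI ⟨D⟩
  have hmod : ∀ s, ∀ m ∈ canonicalSheaf L s, ∀ a ∈ Oalg L s, m * a ∈ canonicalSheaf L s := by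
    intro s m hm a ha b hb
    have h1 := hm (b * a) ((Oalg L s).mul_mem hb ha)
    have h2 : b * (m * a) = b * a * m := by ring
    rw [h2]
    exact h1
  refine ⟨?_, ?_, ?_⟩
  · rw [canonicalSheaf_eq hI D]
    exact D.isLat_sumL _ fun χ => (isLat_R.tw _ _).sm _
  · funext s
    apply le_antisymm
    · change canonicalSheaf L s * strSheaf L s ≤ canonicalSheaf L s
      rw [Submodule.mul_le]
      exact fun m hm a ha => hmod s m hm a ha
    · intro m hm
      change m ∈ canonicalSheaf L s * strSheaf L s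
      rw [← mul_one m]
      exact Submodule.mul_mem_mul hm (Oalg L s).one_mem
  · funext s
    have hR : ∀ v : L, v ∈ (ln (algebraMap K L (∏ β : Br, tB β)⁻¹) * tw 2 2 (strSheaf L)) s ↔
        ∃ n ∈ Oalg L s, algebraMap K L ((∏ β : Br, tB β)⁻¹ * (wx s ^ 2 * wu s ^ 2)) * n = v := by
      intro v
      have h1 : v ∈ (ln (algebraMap K L (∏ β : Br, tB β)⁻¹) • tw 2 2 (strSheaf L)) s ↔ _ :=
        mem_ln_smul
      have h2 : (ln (algebraMap K L (∏ β : Br, tB β)⁻¹) * tw 2 2 (strSheaf L)) =
        (ln (algebraMap K L (∏ β : Br, tB β)⁻¹) • tw 2 2 (strSheaf L)) := rfl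
      rw [h2, h1]
      have e1 : wx s ^ (2 : ℤ) = wx s ^ 2 := by norm_cast
      have e2 : wu s ^ (2 : ℤ) = wu s ^ 2 := by norm_cast
      constructor
      · rintro ⟨n, hn, rfl⟩
        rw [mem_tw] at hn
        refine ⟨_, hn, ?_⟩
        rw [e1, e2, Algebra.smul_def, ← mul_assoc, ← map_mul, mul_assoc, mul_inv_cancel₀
          (w22_ne_zero s), mul_one, smul_eq_mul]
      · rintro ⟨n, hn, rfl⟩
        refine ⟨algebraMap K L (wx s ^ 2 * wu s ^ 2) * n, ?_, ?_⟩
        · rw [mem_tw, e1, e2, Algebra.smul_def, ← mul_assoc, ← map_mul, inv_mul_cancel₀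
            (w22_ne_zero s), map_one, one_mul]
          exact hn
        · rw [smul_eq_mul, ← mul_assoc, ← map_mul]
    apply le_antisymm
    · change canonicalSheaf L s * canonicalSheaf L s ≤ _
      rw [Submodule.mul_le]
      intro m hm n hn
      rw [mem_canonical_iff hI D] at hm hn
      obtain ⟨r, hr, rfl⟩ := hm
      obtain ⟨r', hr', rfl⟩ := hn
      rw [Finset.sum_mul_sum]
      apply Submodule.sum_mem
      intro χ _
      apply Submodule.sum_mem
      intro ψ _
      rw [hR]
      refine ⟨algebraMap K L (r χ * r' ψ * nnS s χ ψ) * D.zs s (χ + ψ), ?_, ?_⟩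
      · apply (Oalg L s).mul_mem (algebraMap_mem_OalgI _) (zs_memI D s _)
        exact (Ralg s).mul_mem ((Ralg s).mul_mem (hr χ) (hr' ψ))
          ((Ralg s).prod_mem fun β _ => tS_mem s β)
      · rw [mul_mul_mul_comm, eo_mul]
        simp only [map_mul]
        ring
    · intro v hv
      rw [hR] at hv
      obtain ⟨n, hn, rfl⟩ := hv
      change _ ∈ canonicalSheaf L s * canonicalSheaf L s
      have h1 := (mem_strSheaf hI D s n).1 hn
      have h2 : n = ∑ χ, algebraMap K L (D.basis.repr n χ * (wx s ^ ax χ * wu s ^ bx χ)) *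
          D.zs s χ := by
        conv_lhs => rw [← D.repr_sum n]
        apply Finset.sum_congr rfl
        intro χ _
        unfold SurfData.zs
        rw [← mul_assoc, ← map_mul, Algebra.smul_def, mul_assoc, mul_inv_cancel₀, mul_one]
        exact mul_ne_zero (pow_ne_zero _ (wx_ne_zero s)) (pow_ne_zero _ (wu_ne_zero s))
      rw [h2, Finset.mul_sum]
      apply Submodule.sum_mem
      intro θ _
      obtain ⟨c, hc, hc1⟩ := nS_span s
      choose ρ hρ hρ1 using fun χ => nS_eq s χ (χ + θ)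
      set g := D.basis.repr n θ * (wx s ^ ax θ * wu s ^ bx θ) with hg
      set q := (∏ β : Br, tB β)⁻¹ * (wx s ^ 2 * wu s ^ 2) with hq
      have h3 : algebraMap K L q * (algebraMap K L g * D.zs s θ) =
          ∑ χ, (algebraMap K L (g * c χ * ρ χ) * D.eo s χ) *
            (algebraMap K L 1 * D.eo s (χ + θ)) := by
        have h4 : ∀ χ, (algebraMap K L (g * c χ * ρ χ) * D.eo s χ) *
            (algebraMap K L 1 * D.eo s (χ + θ)) =
            algebraMap K L (c χ * nS s χ) * (algebraMap K L q *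
              (algebraMap K L g * D.zs s θ)) := by
          intro χ
          rw [map_one, one_mul, mul_assoc, eo_mul, ← add_assoc, lam_add_self, zero_add, hρ1 χ]
          rw [hq]
          clear_value g
          simp only [map_mul]
          ring
        rw [Finset.sum_congr rfl fun χ _ => h4 χ, ← Finset.sum_mul, ← map_sum, hc1, map_one,
          one_mul]
      rw [h3]
      apply Submodule.sum_mem
      intro χ _
      apply Submodule.mul_mem_mul
      · exact eo_mem hI D s ((Ralg s).mul_mem ((Ralg s).mul_mem (h1 θ) (hc χ)) (hρ χ)) χ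
      · exact eo_mem hI D s (Ralg s).one_mem _

end Pool.Agent.Lib.LP
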