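import Pool.Agent.Lib.MP_865fc0_ag.Limit
import Pool.Agent.Lib.MP_865fc0_ag.SurfOmega

/-!
# Verification of the facts needed about the explicit surface
-/

open scoped Pointwise
open Filter

namespace Pool.Agent.Lib.LP

variable {L : Type} [Field L] [Algebra ℂ L] [Algebra K L] [IsScalarTower ℂ K L]

/-- The four branch lines used in the `x`-direction. -/
def bx4 : Fin 4 → Br := ![(false, 0, false), (false, 0, true), (false, 1, false), (false, 1, true)]

/-- The four branch lines used in the `u`-direction. -/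
def bu4 : Fin 4 → Br := ![(true, 0, false), (true, 0, true), (true, 1, false), (true, 1, true)]

theorem bx4_fst : ∀ i, (bx4 i).1 = false := by decide
theorem bu4_fst : ∀ i, (bu4 i).1 = true := by decide

/-- The four roots. -/
noncomputable def r4 : Fin 4 → ℂ := ![1, -1, 2, -2]

theorem r4_inj : Function.Injective r4 := by
  intro i j h
  fin_cases i <;> fin_cases j <;> first | rfl | (exfalso; norm_num [r4] at h) | (exfalso; simp [r4] at h <;> norm_num at h)

theorem rt_bx4 (i : Fin 4) : rt (bx4 i) = r4 i := by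
  fin_cases i <;> simp [bx4, rt, r4] <;> norm_num

theorem rt_bu4 (i : Fin 4) : rt (bu4 i) = r4 i := by
  fin_cases i <;> simp [bu4, rt, r4] <;> norm_num

theorem sm_eq_ln (k : K) (O : Chart → Submodule ℂ L) : sm k O = ln (algebraMap K L k) * O := by
  funext s
  ext v
  have h1 : v ∈ (ln (algebraMap K L k) * O) s ↔ ∃ n ∈ O s, algebraMap K L k • n = v :=
    mem_ln_smul
  rw [h1]
  unfold sm
  rw [mem_line_smul]
  simp only [algebraMap_smul]

theorem tB_ne_zero' (β : Br) : tB β ≠ 0 := by
  intro h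
  apply tS_ne_zero (false, false) β
  unfold tS
  rw [h, zero_div]

theorem exists_base_x (hO : IsRingLat (strSheaf L))
    (hD : ∀ β : Br, β.1 = false → ∃ D : Chart → Submodule ℂ L,
      IsLat D ∧ D * strSheaf L = D ∧ D ≤ strSheaf L ∧
      D * D = ln (algebraMap K L (tB β)) * tw (-1) 0 (strSheaf L)) :
    ∃ v : Lev L 1 0 0, v.O = strSheaf L := by
  choose D h1 h2 h3 h4 using fun i => hD (bx4 i) (bx4_fst i)
  have hσ : ∀ i, algebraMap K L (tB (bx4 i)) = algebraMap K L x - algebraMap ℂ L (r4 i) := by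
    intro i
    unfold tB
    rw [bx4_fst i, rt_bx4, map_sub, ← IsScalarTower.algebraMap_apply]
    rfl
  exact ⟨{
    O := strSheaf L
    L := tw 1 0 (strSheaf L)
    Li := tw (-1) 0 (strSheaf L)
    σ := algebraMap K L x
    c := r4
    D := D
    hO := hO
    hL := hO.lat.tw 1 0
    hLi := hO.lat.tw (-1) 0
    L_eq := by rw [← sm_eq_ln, hO.lat.tw_sup_x]
    L_mul_Li := by
      rw [tw_mul, mul_comm, tw_mul, tw_tw, hO.mul]
      norm_num
      exact tw_zero
    Li_mul_O := by rw [tw_mul, hO.mul]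
    inj := r4_inj
    unit := by
      intro i
      rw [← hσ]
      exact (IsUnit.mk0 _ (tB_ne_zero' _)).map _
    hD := h1
    D_mul_O := h2
    D_le := h3
    D_mul_D := by
      intro i
      rw [← hσ]
      exact h4 i
    y := 1
    hy := isUnit_one
    L_pow := by rw [pow_zero, pow_one, ln_one, one_mul] }, rfl⟩

theorem exists_base_u (hO : IsRingLat (strSheaf L))
    (hD : ∀ β : Br, β.1 = true → ∃ D : Chart → Submodule ℂ L,
      IsLat D ∧ D * strSheaf L = D ∧ D ≤ strSheaf L ∧
      D * D = ln (algebraMap K L (tB β)) * tw 0 (-1) (strSheaf L)) :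
    ∃ v : Lev L 0 1 0, v.O = strSheaf L := by
  choose D h1 h2 h3 h4 using fun i => hD (bu4 i) (bu4_fst i)
  have hσ : ∀ i, algebraMap K L (tB (bu4 i)) = algebraMap K L u - algebraMap ℂ L (r4 i) := by
    intro i
    unfold tB
    rw [bu4_fst i, rt_bu4, map_sub, ← IsScalarTower.algebraMap_apply]
    rfl
  exact ⟨{
    O := strSheaf L
    L := tw 0 1 (strSheaf L)
    Li := tw 0 (-1) (strSheaf L)
    σ := algebraMap K L u
    c := r4
    D := D
    hO := hO
    hL := hO.lat.tw 0 1
    hLi := hO.lat.tw 0 (-1)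
    L_eq := by rw [← sm_eq_ln, hO.lat.tw_sup_u]
    L_mul_Li := by
      rw [tw_mul, mul_comm, tw_mul, tw_tw, hO.mul]
      norm_num
      exact tw_zero
    Li_mul_O := by rw [tw_mul, hO.mul]
    inj := r4_inj
    unit := by
      intro i
      rw [← hσ]
      exact (IsUnit.mk0 _ (tB_ne_zero' _)).map _
    hD := h1
    D_mul_O := h2
    D_le := h3
    D_mul_D := by
      intro i
      rw [← hσ]
      exact h4 i
    y := 1
    hy := isUnit_one
    L_pow := by rw [pow_zero, pow_one, ln_one, one_mul] }, rfl⟩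

/-- The basis of `L` over `K`. -/
theorem SurfData.finite (D : SurfData L) : Module.Finite K L := by
  classical
  exact Module.Finite.of_basis (Module.Basis.mk D.li D.span)

theorem SurfData.finrank (D : SurfData L) : Module.finrank K L = 8 := by
  classical
  rw [Module.finrank_eq_card_basis (Module.Basis.mk D.li D.span)]
  decide

theorem surfFacts (D : SurfData L) (hI : SurfIntegral L) (h1 : SurfRing L) (h2 : SurfChi L)
    (h3 : SurfOmega L) (h4 : SurfD L) : SurfFacts L where
  ring := h1 hI ⟨D⟩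
  chi_O := h2 hI ⟨D⟩
  fin := D.finite
  finrank := D.finrank
  omega_lat := (h3 hI ⟨D⟩).1
  omega_mul_O := (h3 hI ⟨D⟩).2.1
  omega_sq := by
    refine ⟨_, ?_, (h3 hI ⟨D⟩).2.2⟩
    apply IsUnit.map
    apply IsUnit.mk0
    apply inv_ne_zero
    exact Finset.prod_ne_zero_iff.2 fun β _ => tB_ne_zero' β
  base_x := exists_base_x (h1 hI ⟨D⟩) (h4 hI ⟨D⟩).1
  base_u := exists_base_u (h1 hI ⟨D⟩) (h4 hI ⟨D⟩).2

end Pool.Agent.Lib.LP
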