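import Pool.Agent.Lib.MP_865fc0_ag.Exact

/-!
# Hilbert polynomials in two variables
-/

open scoped Pointwise
open Filter

namespace Pool.Agent.Lib.LP

theorem eventually_affine (D : ℕ → ℤ) (h : ∀ᶠ n : ℕ in atTop, D (n + 2) - 2 * D (n + 1) + D n = 0) :
    ∃ A α : ℤ, ∀ᶠ n : ℕ in atTop, D n = A * n + α := by
  obtain ⟨N, hN⟩ := eventually_atTop.1 h
  refine ⟨D (N + 1) - D N, D N - (D (N + 1) - D N) * N, ?_⟩
  have key : ∀ k : ℕ, D (N + k) = (D (N + 1) - D N) * (N + k) + (D N - (D (N + 1) - D N) * N) ∧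
      D (N + k + 1) = (D (N + 1) - D N) * (N + k + 1) + (D N - (D (N + 1) - D N) * N) := by
    intro k
    induction k with
    | zero => constructor <;> simp
              ring
    | succ k ih =>
      obtain ⟨ih1, ih2⟩ := ih
      refine ⟨?_, ?_⟩
      · rw [← add_assoc, ih2]; push_cast; ring
      · have := hN (N + k) (by omega)
        have e : D (N + (k + 1) + 1) = D (N + k + 2) := by congr 1
        rw [e]
        push_cast
        linarith
  filter_upwards [eventually_ge_atTop N] with n hn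
  obtain ⟨k, rfl⟩ := Nat.exists_eq_add_of_le hn
  rw [(key k).1]; push_cast; ring

section

variable {V : Type*} [AddCommGroup V] [Module ℂ V] [Module K V] [IsScalarTower ℂ K V]
variable {V' : Type*} [AddCommGroup V'] [Module ℂ V'] [Module K V'] [IsScalarTower ℂ K V']
variable {F G : Chart → Submodule ℂ V}

theorem IsLat.hf_map_of_injective [Module.Finite K V] [Module.Finite K V'] (hF : IsLat F)
    (φ : V →ₗ[K] V') (hφ : Function.Injective φ) :
    ∀ᶠ n : ℕ in atTop, hf (mapL φ F) n = hf F n := by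
  filter_upwards [hF.hf_map φ] with n hn
  rw [← hn]
  have h1 : (fun s => F s ⊓ LinearMap.ker (φ.restrictScalars ℂ)) = ⊥ := by
    funext s
    have : LinearMap.ker (φ.restrictScalars ℂ) = ⊥ := LinearMap.ker_eq_bot.2 hφ
    rw [this, inf_bot_eq]; rfl
  rw [h1]
  have h2 : Sec (⊥ : Chart → Submodule ℂ V) (n : ℤ) n = ⊥ := by
    rw [eq_bot_iff]
    intro v hv
    rw [mem_Sec_diag] at hv
    have h3 := hv (false, false)
    rw [Pi.bot_apply, Submodule.mem_bot] at h3
    rw [Submodule.mem_bot]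
    exact (smul_eq_zero.1 h3).resolve_left (inv_ne_zero (pow_ne_zero _ (w_ne_zero _)))
  unfold hf
  rw [h2, finrank_bot, add_zero]

/-- Multiplication of a lattice by a scalar of `K`. -/
noncomputable def sm (k : K) (F : Chart → Submodule ℂ V) : Chart → Submodule ℂ V :=
  fun s => line k • F s

theorem mem_sm {k : K} (hk : k ≠ 0) {s : Chart} {v : V} : v ∈ sm k F s ↔ k⁻¹ • v ∈ F s :=
  mem_line_smul_K hk

theorem sm_eq_mapL (k : K) (F : Chart → Submodule ℂ V) :
    sm k F = mapL (LinearMap.lsmul K V k) F := by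
  funext s
  ext v
  unfold sm
  rw [mem_line_smul]
  rfl

theorem IsLat.sm (hF : IsLat F) (k : K) : IsLat (sm k F) := by
  rw [sm_eq_mapL]; exact hF.map _

theorem IsLat.hf_sm [Module.Finite K V] (hF : IsLat F) {k : K} (hk : k ≠ 0) :
    ∀ᶠ n : ℕ in atTop, hf (LP.sm k F) n = hf F n := by
  rw [sm_eq_mapL]
  apply hF.hf_map_of_injective
  intro a b hab
  exact smul_right_injective V hk hab

theorem x_mem_R {s : Chart} (h : s.1 = false) : x ∈ R s := by
  have : x ∈ Ralg s := by
    apply Algebra.subset_adjoin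
    simp [h]
  exact this

theorem x_inv_mem_R {s : Chart} (h : s.1 = true) : x⁻¹ ∈ R s := by
  have : x⁻¹ ∈ Ralg s := by
    apply Algebra.subset_adjoin
    simp [h]
  exact this

theorem u_mem_R {s : Chart} (h : s.2 = false) : u ∈ R s := by
  have : u ∈ Ralg s := by
    apply Algebra.subset_adjoin
    simp [h]
  exact this

theorem u_inv_mem_R {s : Chart} (h : s.2 = true) : u⁻¹ ∈ R s := by
  have : u⁻¹ ∈ Ralg s := by
    apply Algebra.subset_adjoin
    simp [h]
  exact this

theorem IsLat.tw_sup_x (hF : IsLat F) : F ⊔ LP.sm x F = LP.tw 1 0 F := by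
  funext s
  ext v
  rw [Pi.sup_apply, mem_tw, Submodule.mem_sup]
  rcases h : s.1 with _ | _
  · have hw : wx s = 1 := by simp [wx, h]
    rw [hw]
    simp only [zpow_one, zpow_zero, mul_one, inv_one, one_smul]
    constructor
    · rintro ⟨a, ha, b, hb, rfl⟩
      rw [mem_sm x_ne_zero] at hb
      refine Submodule.add_mem _ ha ?_
      have := hF.smul_mem (x_mem_R h) hb
      rwa [smul_smul, mul_inv_cancel₀ x_ne_zero, one_smul] at this
    · intro hv
      exact ⟨v, hv, 0, Submodule.zero_mem _, add_zero _⟩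
  · have hw : wx s = x := by simp [wx, h]
    rw [hw]
    simp only [zpow_one, zpow_zero, mul_one]
    constructor
    · rintro ⟨a, ha, b, hb, rfl⟩
      rw [mem_sm x_ne_zero] at hb
      rw [smul_add]
      exact Submodule.add_mem _ (hF.smul_mem (x_inv_mem_R h) ha) hb
    · intro hv
      exact ⟨0, Submodule.zero_mem _, v, (mem_sm x_ne_zero).2 hv, zero_add _⟩

theorem IsLat.tw_inf_x (hF : IsLat F) : F ⊓ LP.sm x F = LP.sm x (LP.tw (-1) 0 F) := by
  funext s
  ext v
  rw [Pi.inf_apply, Submodule.mem_inf, mem_sm x_ne_zero, mem_sm x_ne_zero, mem_tw]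
  rcases h : s.1 with _ | _
  · have hw : wx s = 1 := by simp [wx, h]
    rw [hw]
    simp only [one_zpow, zpow_zero, mul_one, inv_one, one_smul]
    constructor
    · rintro ⟨_, h2⟩; exact h2
    · intro h2
      refine ⟨?_, h2⟩
      have := hF.smul_mem (x_mem_R h) h2
      rwa [smul_smul, mul_inv_cancel₀ x_ne_zero, one_smul] at this
  · have hw : wx s = x := by simp [wx, h]
    rw [hw]
    simp only [zpow_neg, zpow_one, zpow_zero, mul_one, inv_inv, smul_smul,
      mul_inv_cancel₀ x_ne_zero, one_smul]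
    constructor
    · rintro ⟨h1, _⟩; exact h1
    · intro h1
      exact ⟨h1, hF.smul_mem (x_inv_mem_R h) h1⟩

theorem IsLat.tw_sup_u (hF : IsLat F) : F ⊔ LP.sm u F = LP.tw 0 1 F := by
  funext s
  ext v
  rw [Pi.sup_apply, mem_tw, Submodule.mem_sup]
  rcases h : s.2 with _ | _
  · have hw : wu s = 1 := by simp [wu, h]
    rw [hw]
    simp only [zpow_one, zpow_zero, mul_one, inv_one, one_smul]
    constructor
    · rintro ⟨a, ha, b, hb, rfl⟩
      rw [mem_sm u_ne_zero] at hb
      refine Submodule.add_mem _ ha ?_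
      have := hF.smul_mem (u_mem_R h) hb
      rwa [smul_smul, mul_inv_cancel₀ u_ne_zero, one_smul] at this
    · intro hv
      exact ⟨v, hv, 0, Submodule.zero_mem _, add_zero _⟩
  · have hw : wu s = u := by simp [wu, h]
    rw [hw]
    simp only [zpow_one, zpow_zero, one_mul]
    constructor
    · rintro ⟨a, ha, b, hb, rfl⟩
      rw [mem_sm u_ne_zero] at hb
      rw [smul_add]
      exact Submodule.add_mem _ (hF.smul_mem (u_inv_mem_R h) ha) hb
    · intro hv
      exact ⟨0, Submodule.zero_mem _, v, (mem_sm u_ne_zero).2 hv, zero_add _⟩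

theorem IsLat.tw_inf_u (hF : IsLat F) : F ⊓ LP.sm u F = LP.sm u (LP.tw 0 (-1) F) := by
  funext s
  ext v
  rw [Pi.inf_apply, Submodule.mem_inf, mem_sm u_ne_zero, mem_sm u_ne_zero, mem_tw]
  rcases h : s.2 with _ | _
  · have hw : wu s = 1 := by simp [wu, h]
    rw [hw]
    simp only [one_zpow, zpow_zero, mul_one, inv_one, one_smul]
    constructor
    · rintro ⟨_, h2⟩; exact h2
    · intro h2
      refine ⟨?_, h2⟩
      have := hF.smul_mem (u_mem_R h) h2
      rwa [smul_smul, mul_inv_cancel₀ u_ne_zero, one_smul] at this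
  · have hw : wu s = u := by simp [wu, h]
    rw [hw]
    simp only [zpow_neg, zpow_one, zpow_zero, one_mul, inv_inv, smul_smul,
      mul_inv_cancel₀ u_ne_zero, one_smul]
    constructor
    · rintro ⟨h1, _⟩; exact h1
    · intro h1
      exact ⟨h1, hF.smul_mem (u_inv_mem_R h) h1⟩

/-- `(a,b) ↦ h^0(F(a,b))`. -/
noncomputable def h0 (F : Chart → Submodule ℂ V) (a b : ℤ) : ℤ := Module.finrank ℂ (Sec F a b)

theorem hf_tw (a b : ℤ) (n : ℕ) : (hf (tw a b F) n : ℤ) = h0 F (n + a) (n + b) := by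
  unfold hf h0; rw [Sec_tw]

theorem hf_eq (n : ℕ) : (hf F n : ℤ) = h0 F n n := rfl

theorem IsLat.second_diff_x [Module.Finite K V] (hF : IsLat F) (a b : ℤ) :
    ∀ᶠ n : ℕ in atTop, h0 F (n + a + 1) (n + b) + h0 F (n + a - 1) (n + b) =
      2 * h0 F (n + a) (n + b) := by
  have hN := hF.tw a b
  filter_upwards [hN.hf_sup (hN.sm x), hN.hf_sm x_ne_zero,
    (hN.tw (-1) 0).hf_sm x_ne_zero] with n h1 h2 h3
  rw [hN.tw_sup_x, hN.tw_inf_x, h2, h3, tw_tw, tw_tw] at h1
  have h4 : ((hf (LP.tw (1 + a) (0 + b) F) n + hf (LP.tw (-1 + a) (0 + b) F) n : ℕ) : ℤ) =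
      ((hf (LP.tw a b F) n + hf (LP.tw a b F) n : ℕ) : ℤ) := by rw [h1]
  push_cast at h4
  rw [hf_tw, hf_tw, hf_tw] at h4
  rw [show (n : ℤ) + a + 1 = n + (1 + a) by ring, show (n : ℤ) + a - 1 = n + (-1 + a) by ring,
    show (n : ℤ) + b = n + (0 + b) by ring, h4]
  rw [show (n : ℤ) + (0 + b) = n + b by ring]
  ring

theorem IsLat.second_diff_u [Module.Finite K V] (hF : IsLat F) (a b : ℤ) :
    ∀ᶠ n : ℕ in atTop, h0 F (n + a) (n + b + 1) + h0 F (n + a) (n + b - 1) =
      2 * h0 F (n + a) (n + b) := by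
  have hN := hF.tw a b
  filter_upwards [hN.hf_sup (hN.sm u), hN.hf_sm u_ne_zero,
    (hN.tw 0 (-1)).hf_sm u_ne_zero] with n h1 h2 h3
  rw [hN.tw_sup_u, hN.tw_inf_u, h2, h3, tw_tw, tw_tw] at h1
  have h4 : ((hf (LP.tw (0 + a) (1 + b) F) n + hf (LP.tw (0 + a) (-1 + b) F) n : ℕ) : ℤ) =
      ((hf (LP.tw a b F) n + hf (LP.tw a b F) n : ℕ) : ℤ) := by rw [h1]
  push_cast at h4
  rw [hf_tw, hf_tw, hf_tw] at h4
  rw [show (n : ℤ) + b + 1 = n + (1 + b) by ring, show (n : ℤ) + b - 1 = n + (-1 + b) by ring,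
    show (n : ℤ) + a = n + (0 + a) by ring, h4]
  rw [show (n : ℤ) + (0 + a) = n + a by ring]
  ring

/-- Bilinear polynomial functions. -/
def IsBil (p : ℤ → ℤ → ℤ) : Prop :=
  ∃ A α β γ : ℤ, ∀ a b, p a b = A * a * b + α * a + β * b + γ

/-- `p` is the Hilbert polynomial of `F`. -/
def HasP (F : Chart → Submodule ℂ V) (p : ℤ → ℤ → ℤ) : Prop :=
  ∀ a b : ℤ, ∀ᶠ n : ℕ in atTop, h0 F (n + a) (n + b) = p (n + a) (n + b)

theorem IsLat.exists_P [Module.Finite K V] (hF : IsLat F) : ∃ p, IsBil p ∧ HasP F p := by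
  set G : ℕ → ℤ := fun n => h0 F n n with hG
  set D : ℕ → ℤ := fun n => h0 F (n + 1) n - h0 F n n with hD
  -- linearity in the first variable
  have hlin : ∀ c : ℤ, ∀ᶠ n : ℕ in atTop, h0 F (n + c) n = G n + c * D n := by
    have hnat : ∀ k : ℕ, (∀ᶠ n : ℕ in atTop, h0 F (n + k) n = G n + k * D n) ∧
        (∀ᶠ n : ℕ in atTop, h0 F (n + (k + 1 : ℕ)) n = G n + (k + 1 : ℕ) * D n) := by
      intro k
      induction k with
      | zero =>
        constructor
        · filter_upwards with n; simp [hG]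
        · filter_upwards with n; simp [hG, hD]
      | succ k ih =>
        refine ⟨ih.2, ?_⟩
        filter_upwards [ih.1, ih.2, hF.second_diff_x (k + 1 : ℕ) 0] with n h1 h2 h3
        rw [add_zero] at h3
        have e1 : (n : ℤ) + (k + 1 : ℕ) + 1 = n + (k + 1 + 1 : ℕ) := by push_cast; ring
        have e2 : (n : ℤ) + (k + 1 : ℕ) - 1 = n + k := by push_cast; ring
        rw [e1, e2, h1, h2] at h3
        push_cast at h3 ⊢
        linarith
    have hneg : ∀ k : ℕ, (∀ᶠ n : ℕ in atTop, h0 F (n + -(k : ℤ)) n = G n + -(k : ℤ) * D n) ∧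
        (∀ᶠ n : ℕ in atTop, h0 F (n + (-(k : ℤ) + 1)) n = G n + (-(k : ℤ) + 1) * D n) := by
      intro k
      induction k with
      | zero =>
        constructor
        · filter_upwards with n; simp [hG]
        · filter_upwards with n; simp [hG, hD]
      | succ k ih =>
        refine ⟨?_, ?_⟩
        · filter_upwards [ih.1, ih.2, hF.second_diff_x (-(k : ℤ)) 0] with n h1 h2 h3
          rw [add_zero] at h3
          have e1 : (n : ℤ) + -(k : ℤ) + 1 = n + (-(k : ℤ) + 1) := by ring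
          have e2 : (n : ℤ) + -(k : ℤ) - 1 = n + -((k + 1 : ℕ) : ℤ) := by push_cast; ring
          rw [e1, e2, h1, h2] at h3
          push_cast at h3 ⊢
          linarith
        · filter_upwards [ih.1] with n h1
          have e1 : (-((k + 1 : ℕ) : ℤ) + 1) = -(k : ℤ) := by push_cast; ring
          rw [e1, h1]
    intro c
    rcases Int.eq_nat_or_neg c with ⟨k, rfl | rfl⟩
    · exact (hnat k).1
    · exact (hneg k).1
  -- shift invariance
  have hlin' : ∀ c d : ℤ, ∀ᶠ n : ℕ in atTop, ∀ m : ℕ, (m : ℤ) = n + d →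
      h0 F (n + c) (n + d) = G m + (c - d) * D m := by
    intro c d
    obtain ⟨N, hN⟩ := eventually_atTop.1 (hlin (c - d))
    filter_upwards [eventually_ge_atTop (N + d.natAbs)] with n hn m hm
    rw [← hm]
    have e : (n : ℤ) + c = m + (c - d) := by rw [hm]; ring
    rw [e]
    exact hN m (by omega)
  have hmain : ∀ᶠ n : ℕ in atTop, G (n + 2) - D (n + 2) + G n + D n = 2 * G (n + 1) ∧
      G (n + 2) + G n + 2 * D n = 2 * G (n + 1) + 2 * D (n + 1) := by
    have E1 := hF.second_diff_u 0 0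
    have E2 := hF.second_diff_u 1 0
    have E1' := (tendsto_add_atTop_nat 1).eventually E1
    have E2' := (tendsto_add_atTop_nat 1).eventually E2
    have L1 := (tendsto_add_atTop_nat 1).eventually (hlin' 0 1)
    have L2 := (tendsto_add_atTop_nat 1).eventually (hlin' 0 (-1))
    have L3 := (tendsto_add_atTop_nat 1).eventually (hlin' 1 (-1))
    filter_upwards [E1', E2', L1, L2, L3] with n e1 e2 l1 l2 l3
    have l1' := l1 (n + 2) (by push_cast; ring)
    have l2' := l2 n (by push_cast; ring)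
    have l3' := l3 n (by push_cast; ring)
    simp only [add_zero] at e1 e2 l1' l2'
    have g1 : h0 F ((n + 1 : ℕ) : ℤ) ((n + 1 : ℕ) : ℤ) = G (n + 1) := rfl
    have g2 : h0 F (((n + 1 : ℕ) : ℤ) + 1) ((n + 1 : ℕ) : ℤ) = G (n + 1) + D (n + 1) := by
      simp only [hG, hD]; push_cast; ring
    have g3 : h0 F (((n + 1 : ℕ) : ℤ) + 1) (((n + 1 : ℕ) : ℤ) + 1) = G (n + 2) := by
      simp only [hG]; push_cast; congr 1
    rw [sub_eq_add_neg, l1', l2', g1] at e1
    rw [sub_eq_add_neg, l3', g2, g3] at e2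
    constructor <;> linarith
  obtain ⟨A, α, hDα⟩ := eventually_affine D (by
    filter_upwards [hmain] with n hn; linarith [hn.1, hn.2])
  obtain ⟨κ, γ, hGκ⟩ := eventually_affine (fun n => G n - A * n ^ 2) (by
    have h1 := (tendsto_add_atTop_nat 2).eventually hDα
    filter_upwards [hmain, hDα, h1] with n hn hn2 hn3
    have := hn.1
    rw [hn2, hn3] at this
    push_cast at this ⊢
    linarith)
  refine ⟨fun a b => A * a * b + α * a + (κ - α) * b + γ, ⟨A, α, κ - α, γ, fun a b => rfl⟩, ?_⟩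
  intro a b
  obtain ⟨N1, hN1⟩ := eventually_atTop.1 hDα
  obtain ⟨N2, hN2⟩ := eventually_atTop.1 hGκ
  filter_upwards [hlin' a b, eventually_ge_atTop (N1 + N2 + b.natAbs)] with n hn hn2
  have hm : (((n : ℤ) + b).toNat : ℤ) = n + b := Int.toNat_of_nonneg (by omega)
  have h1 := hn _ hm
  rw [h1]
  have h2 := hN1 (((n : ℤ) + b).toNat) (by omega)
  have h3 := hN2 (((n : ℤ) + b).toNat) (by omega)
  rw [hm] at h2 h3
  have h4 : G (((n : ℤ) + b).toNat) = A * (n + b) ^ 2 + κ * (n + b) + γ := by linarith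
  rw [h2, h4]
  ring

end

end Pool.Agent.Lib.LP
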