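import Pool.Agent.Lib.MP_865fc0_ag.Mono

/-!
# Lattices: torsion-free coherent sheaves on `P^1 x P^1` inside a vector space
-/

open scoped Pointwise

namespace Pool.Agent.Lib.LP

section line

variable {A : Type*} [CommRing A] [Algebra ℂ A]
variable {M : Type*} [AddCommGroup M] [Module ℂ M] [Module A M] [IsScalarTower ℂ A M]

/-- The line spanned by an element. -/
def line (a : A) : Submodule ℂ A := Submodule.span ℂ {a}

theorem mem_line_self (a : A) : a ∈ line a := Submodule.mem_span_singleton_self _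

theorem line_mul_line (a b : A) : line a * line b = line (a * b) := by
  unfold line; rw [Submodule.span_mul_span, Set.singleton_mul_singleton]

theorem line_one : line (1 : A) = 1 := by
  unfold line; rw [← Submodule.one_eq_span]

theorem line_le_iff {a : A} {N : Submodule ℂ A} : line a ≤ N ↔ a ∈ N :=
  Submodule.span_singleton_le_iff_mem _ _

theorem smul_smul_sub (I J : Submodule ℂ A) (N : Submodule ℂ M) : I • J • N = (I * J) • N :=
  (Submodule.smul_assoc I J N).symm

theorem mem_line_smul {a : A} {N : Submodule ℂ M} {v : M} :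
    v ∈ line a • N ↔ ∃ n ∈ N, a • n = v := by
  constructor
  · intro h
    refine Submodule.smul_induction_on h ?_ ?_
    · intro r hr n hn
      obtain ⟨c, rfl⟩ := Submodule.mem_span_singleton.1 hr
      exact ⟨c • n, N.smul_mem c hn, by rw [smul_comm, smul_assoc]⟩
    · rintro _ _ ⟨n, hn, rfl⟩ ⟨m, hm, rfl⟩
      exact ⟨n + m, N.add_mem hn hm, smul_add _ _ _⟩
  · rintro ⟨n, hn, rfl⟩
    exact Submodule.smul_mem_smul (mem_line_self a) hn

theorem mem_line_smul_iff {a b : A} (hab : a * b = 1) {N : Submodule ℂ M} {v : M} :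
    v ∈ line a • N ↔ b • v ∈ N := by
  rw [mem_line_smul]
  constructor
  · rintro ⟨n, hn, rfl⟩
    rw [smul_smul, mul_comm, hab, one_smul]; exact hn
  · intro h
    exact ⟨b • v, h, by rw [smul_smul, hab, one_smul]⟩

end line

section mem

variable {V : Type*} [AddCommGroup V] [Module ℂ V] [Module K V] [IsScalarTower ℂ K V]

theorem mem_line_smul_K {k : K} (hk : k ≠ 0) {N : Submodule ℂ V} {v : V} :
    v ∈ line k • N ↔ k⁻¹ • v ∈ N :=
  mem_line_smul_iff (mul_inv_cancel₀ hk)

end mem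

section lat

variable {V : Type*} [AddCommGroup V] [Module ℂ V] [Module K V] [IsScalarTower ℂ K V]

/-- A lattice in the `K`-vector space `V`: a coherent sheaf on `P^1 x P^1` contained in the
constant sheaf `V`, given by its modules of sections over the four standard charts. -/
structure IsLat (F : Chart → Submodule ℂ V) : Prop where
  fg : ∀ s, ∃ T : Submodule ℂ V, T.FG ∧ F s = R s • T
  glue : ∀ s t, ∀ v ∈ F s, ∃ n : ℕ, (w s / w t) ^ n • v ∈ F t

variable {F G : Chart → Submodule ℂ V}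

theorem IsLat.smul_eq (hF : IsLat F) (s : Chart) : R s • F s = F s := by
  obtain ⟨T, -, hT⟩ := hF.fg s
  rw [hT, smul_smul_sub, R_mul_R]

theorem IsLat.smul_mem (hF : IsLat F) {s : Chart} {r : K} (hr : r ∈ R s) {v : V}
    (hv : v ∈ F s) : r • v ∈ F s := by
  rw [← hF.smul_eq s]
  exact Submodule.smul_mem_smul hr hv

theorem IsLat.glue_mono (hF : IsLat F) {s t : Chart} {v : V} {n m : ℕ} (hnm : n ≤ m)
    (h : (w s / w t) ^ n • v ∈ F t) : (w s / w t) ^ m • v ∈ F t := by
  obtain ⟨k, rfl⟩ := Nat.exists_eq_add_of_le hnm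
  rw [pow_add, mul_comm, mul_smul]
  exact hF.smul_mem (w_div_pow_mem s t k) h

/-- All gluings at once. -/
theorem IsLat.glue_all (hF : IsLat F) {s : Chart} {v : V} (hv : v ∈ F s) :
    ∃ n : ℕ, ∀ m, n ≤ m → ∀ t, (w s / w t) ^ m • v ∈ F t := by
  choose n hn using fun t => hF.glue s t v hv
  refine ⟨∑ t, n t, fun m hm t => hF.glue_mono (le_trans ?_ hm) (hn t)⟩
  exact Finset.single_le_sum (f := n) (fun _ _ => Nat.zero_le _) (Finset.mem_univ t)

/-- The twist `F(a,b)`. -/
noncomputable def tw (a b : ℤ) (F : Chart → Submodule ℂ V) : Chart → Submodule ℂ V :=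
  fun s => line (wx s ^ a * wu s ^ b) • F s

theorem wab_ne_zero (s : Chart) (a b : ℤ) : wx s ^ a * wu s ^ b ≠ 0 :=
  mul_ne_zero (zpow_ne_zero _ (wx_ne_zero s)) (zpow_ne_zero _ (wu_ne_zero s))

theorem mem_tw {a b : ℤ} {s : Chart} {v : V} :
    v ∈ tw a b F s ↔ (wx s ^ a * wu s ^ b)⁻¹ • v ∈ F s :=
  mem_line_smul_K (wab_ne_zero s a b)

theorem tw_tw (a b c d : ℤ) : tw a b (tw c d F) = tw (a + c) (b + d) F := by
  funext s
  unfold tw
  rw [smul_smul_sub, line_mul_line]
  congr 2
  rw [zpow_add₀ (wx_ne_zero s), zpow_add₀ (wu_ne_zero s)]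
  ring

theorem tw_zero : tw 0 0 F = F := by
  funext s
  unfold tw
  rw [zpow_zero, zpow_zero, one_mul, line_one, Submodule.one_smul]

/-- Global sections of the twist `F(a,b)`. -/
noncomputable def Sec (F : Chart → Submodule ℂ V) (a b : ℤ) : Submodule ℂ V := ⨅ s, tw a b F s

theorem mem_Sec {a b : ℤ} {v : V} :
    v ∈ Sec F a b ↔ ∀ s, (wx s ^ a * wu s ^ b)⁻¹ • v ∈ F s := by
  unfold Sec
  rw [Submodule.mem_iInf]
  exact forall_congr' fun s => mem_tw

theorem w_zpow (s : Chart) (n : ℤ) : wx s ^ n * wu s ^ n = w s ^ n := (mul_zpow _ _ _).symm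

theorem mem_Sec_diag {n : ℕ} {v : V} :
    v ∈ Sec F n n ↔ ∀ s, (w s ^ n)⁻¹ • v ∈ F s := by
  rw [mem_Sec]
  refine forall_congr' fun s => ?_
  rw [w_zpow, zpow_natCast]

theorem Sec_tw (a b c d : ℤ) : Sec (tw c d F) a b = Sec F (a + c) (b + d) := by
  unfold Sec; rw [tw_tw]

theorem Sec_mono (h : F ≤ G) (a b : ℤ) : Sec F a b ≤ Sec G a b :=
  iInf_mono fun s => Submodule.smul_mono le_rfl (h s)

end lat

end Pool.Agent.Lib.LP
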