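import Pool.Agent.Lib.MP_865fc0_ag.Double

/-!
# Levels of the tower of étale double covers
-/

open scoped Pointwise
open Filter

namespace Pool.Agent.Lib.LP

section

variable {C : Type} [CommRing C] [Algebra ℂ C]

theorem ln_const {c : ℂ} (hc : c ≠ 0) : ln (algebraMap ℂ C c) = 1 := by
  funext s
  show Submodule.span ℂ {algebraMap ℂ C c} = 1
  rw [Submodule.one_eq_span, Algebra.algebraMap_eq_smul_one,
    Submodule.span_singleton_smul_eq (IsUnit.mk0 c hc)]

theorem ln_smul_const {c : ℂ} (hc : c ≠ 0) (a : C) : ln (algebraMap ℂ C c * a) = ln a := by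
  rw [ln_mul, ln_const hc, one_mul]

theorem ln_le {a : C} {A : Chart → Submodule ℂ C} : ln a ≤ A ↔ ∀ s, a ∈ A s := by
  constructor
  · intro h s
    exact h s (mem_line_self a)
  · intro h s
    exact line_le_iff.2 (h s)

theorem mem_ln_sup_ln {a b x : C} (h : ∃ r t : ℂ, x = r • a + t • b) : ln x ≤ ln a ⊔ ln b := by
  obtain ⟨r, t, rfl⟩ := h
  rw [ln_le]
  intro s
  exact Submodule.add_mem _ (Submodule.smul_mem _ _ (Submodule.mem_sup_left (mem_line_self a)))
    (Submodule.smul_mem _ _ (Submodule.mem_sup_right (mem_line_self b)))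

/-- The pencil is spanned by any two of its members. -/
theorem ln_sub_sup (σ : C) {c c' : ℂ} (h : c ≠ c') :
    ln (σ - algebraMap ℂ C c) ⊔ ln (σ - algebraMap ℂ C c') = 1 ⊔ ln σ := by
  have hcc : c' - c ≠ 0 := sub_ne_zero.2 (Ne.symm h)
  rw [← ln_one]
  apply le_antisymm
  · apply sup_le
    · apply mem_ln_sup_ln
      exact ⟨-c, 1, by rw [Algebra.algebraMap_eq_smul_one, neg_smul, one_smul]; ring⟩
    · apply mem_ln_sup_ln
      exact ⟨-c', 1, by rw [Algebra.algebraMap_eq_smul_one, neg_smul, one_smul]; ring⟩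
  · apply sup_le
    · apply mem_ln_sup_ln
      refine ⟨(c' - c)⁻¹, -(c' - c)⁻¹, ?_⟩
      rw [neg_smul, ← sub_eq_add_neg, ← smul_sub, Algebra.algebraMap_eq_smul_one,
        Algebra.algebraMap_eq_smul_one]
      have : σ - c • (1 : C) - (σ - c' • (1 : C)) = (c' - c) • (1 : C) := by
        rw [sub_smul]; ring
      rw [this, smul_smul, inv_mul_cancel₀ hcc, one_smul]
    · apply mem_ln_sup_ln
      refine ⟨(c' - c)⁻¹ * c', -((c' - c)⁻¹ * c), ?_⟩
      rw [neg_smul, ← sub_eq_add_neg, mul_smul, mul_smul, ← smul_sub,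
        Algebra.algebraMap_eq_smul_one, Algebra.algebraMap_eq_smul_one]
      have : c' • (σ - c • (1 : C)) - c • (σ - c' • (1 : C)) = (c' - c) • σ := by
        rw [smul_sub, smul_sub, smul_smul, smul_smul, sub_smul, mul_comm c c']
        abel
      rw [this, smul_smul, inv_mul_cancel₀ hcc, one_smul]

theorem ln_sub_sup' (σ : C) {c c' : ℂ} (h : c ≠ c') (O : Chart → Submodule ℂ C) :
    ln (σ - algebraMap ℂ C c) * O ⊔ ln (σ - algebraMap ℂ C c') * O = O ⊔ ln σ * O := by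
  rw [← add_eq_sup, ← add_mul, add_eq_sup, ln_sub_sup σ h, ← add_eq_sup, add_mul, one_mul,
    add_eq_sup]

theorem ln_sub_sup_O (σ : C) (c : ℂ) (O : Chart → Submodule ℂ C) :
    O ⊔ ln (σ - algebraMap ℂ C c) * O = O ⊔ ln σ * O := by
  have h1 : (1 : Chart → Submodule ℂ C) ⊔ ln (σ - algebraMap ℂ C c) = 1 ⊔ ln σ := by
    rw [← ln_one]
    apply le_antisymm
    · apply sup_le le_sup_left
      apply mem_ln_sup_ln
      exact ⟨-c, 1, by rw [Algebra.algebraMap_eq_smul_one, neg_smul, one_smul]; ring⟩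
    · apply sup_le le_sup_left
      apply mem_ln_sup_ln
      exact ⟨c, 1, by rw [Algebra.algebraMap_eq_smul_one, one_smul]; ring⟩
  have h2 := congrArg (fun X => X * O) h1
  rw [← add_eq_sup, ← add_eq_sup, add_mul, add_mul, one_mul] at h2
  exact h2

end

/-- A level of the tower: a ring lattice `O` in `C` with a pencil `L = O + σ O` of which four
members are squares. -/
structure Lev (C : Type) [CommRing C] [Algebra ℂ C] [Algebra K C] [IsScalarTower ℂ K C]
    (p q : ℤ) (k : ℕ) where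
  O : Chart → Submodule ℂ C
  L : Chart → Submodule ℂ C
  Li : Chart → Submodule ℂ C
  σ : C
  c : Fin 4 → ℂ
  D : Fin 4 → Chart → Submodule ℂ C
  hO : IsRingLat O
  hL : IsLat L
  hLi : IsLat Li
  L_eq : L = O ⊔ ln σ * O
  L_mul_Li : L * Li = O
  Li_mul_O : Li * O = Li
  inj : Function.Injective c
  unit : ∀ i, IsUnit (σ - algebraMap ℂ C (c i))
  hD : ∀ i, IsLat (D i)
  D_mul_O : ∀ i, D i * O = D i
  D_le : ∀ i, D i ≤ O
  D_mul_D : ∀ i, D i * D i = ln (σ - algebraMap ℂ C (c i)) * Li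
  y : C
  hy : IsUnit y
  L_pow : L ^ (2 ^ k) = ln y * tw p q O

namespace Lev

variable {C : Type} [CommRing C] [Algebra ℂ C] [Algebra K C] [IsScalarTower ℂ K C]
variable {p q : ℤ} {k : ℕ} (v : Lev C p q k)

/-- The `i`-th member of the pencil. -/
noncomputable def l (i : Fin 4) : C := v.σ - algebraMap ℂ C (v.c i)

/-- Its inverse. -/
noncomputable def li (i : Fin 4) : C := (v.unit i).exists_right_inv.choose

theorem l_mul_li (i : Fin 4) : v.l i * v.li i = 1 := (v.unit i).exists_right_inv.choose_spec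

theorem ln_l_li (i : Fin 4) : ln (v.l i) * ln (v.li i) = (1 : Chart → Submodule ℂ C) := by
  rw [← ln_mul, v.l_mul_li, ln_one]

theorem L_mul_O : v.L * v.O = v.L := by
  rw [v.L_eq, ← add_eq_sup, add_mul, mul_assoc, v.hO.mul]

/-- The inverse of `D i`. -/
noncomputable def Di (i : Fin 4) : Chart → Submodule ℂ C := v.D i * (ln (v.li i) * v.L)

theorem DD (i : Fin 4) : v.D i * v.D i = ln (v.l i) * v.Li := v.D_mul_D i

theorem D_mul_Di (i : Fin 4) : v.D i * v.Di i = v.O := by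
  unfold Di
  rw [← mul_assoc, v.DD]
  calc ln (v.l i) * v.Li * (ln (v.li i) * v.L) = (ln (v.l i) * ln (v.li i)) * (v.L * v.Li) := by ring
    _ = v.O := by rw [v.ln_l_li, v.L_mul_Li, one_mul]

theorem Di_mul_O (i : Fin 4) : v.Di i * v.O = v.Di i := by
  unfold Di
  rw [mul_assoc, mul_assoc, v.L_mul_O]

theorem Di_mul_Di (i : Fin 4) : v.Di i * v.Di i = ln (v.li i) * v.L := by
  unfold Di
  calc v.D i * (ln (v.li i) * v.L) * (v.D i * (ln (v.li i) * v.L))
      = (v.D i * v.D i) * ln (v.li i) * ln (v.li i) * v.L * v.L := by ring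
    _ = (ln (v.l i) * ln (v.li i)) * ln (v.li i) * (v.L * v.Li) * v.L := by rw [v.DD]; ring
    _ = ln (v.li i) * (v.L * v.O) := by rw [v.ln_l_li, v.L_mul_Li, one_mul]; ring
    _ = ln (v.li i) * v.L := by rw [v.L_mul_O]

theorem D_sup_D {i j : Fin 4} (h : i ≠ j) : v.D i ⊔ v.D j = v.O := by
  apply le_antisymm (sup_le (v.D_le i) (v.D_le j))
  have hc : v.c i ≠ v.c j := fun h' => h (v.inj h')
  have h1 : ∀ i, v.D i * v.D i ≤ v.D i := by
    intro i
    conv_rhs => rw [← v.D_mul_O i]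
    exact mul_le_mul_right (v.D_le i) _
  calc v.O = v.L * v.Li := v.L_mul_Li.symm
    _ = (ln (v.l i) * v.O ⊔ ln (v.l j) * v.O) * v.Li := by
        unfold l
        rw [ln_sub_sup' v.σ hc, ← v.L_eq]
    _ = v.D i * v.D i ⊔ v.D j * v.D j := by
        rw [v.DD, v.DD, ← add_eq_sup, add_mul, mul_assoc, mul_assoc, mul_comm v.O, v.Li_mul_O,
          add_eq_sup]
    _ ≤ v.D i ⊔ v.D j := sup_le_sup (h1 i) (h1 j)

/-- The parameter `e` of the double cover. -/
noncomputable def e : C := v.l 0 * v.li 1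

/-- The inverse of `e`. -/
noncomputable def e' : C := v.l 1 * v.li 0

theorem e_mul_e' : v.e * v.e' = 1 := by
  unfold e e'
  calc v.l 0 * v.li 1 * (v.l 1 * v.li 0) = (v.l 0 * v.li 0) * (v.l 1 * v.li 1) := by ring
    _ = 1 := by rw [v.l_mul_li, v.l_mul_li, one_mul]

/-- The line bundle defining the double cover. -/
noncomputable def Dn : Chart → Submodule ℂ C := v.D 1 * v.Di 0

theorem Dn_mul_O : v.Dn * v.O = v.Dn := by
  unfold Dn
  rw [mul_assoc, v.Di_mul_O]

theorem Dn_mul_Dn : v.Dn * v.Dn = ln v.e' * v.O := by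
  unfold Dn e'
  calc v.D 1 * v.Di 0 * (v.D 1 * v.Di 0) = (v.D 1 * v.D 1) * (v.Di 0 * v.Di 0) := by ring
    _ = ln (v.l 1) * ln (v.li 0) * (v.L * v.Li) := by rw [v.DD, v.Di_mul_Di]; ring
    _ = _ := by rw [v.L_mul_Li, ln_mul]

theorem isLat_Di (i : Fin 4) : IsLat (v.Di i) := (v.hD i).fmul (v.hL.ln_smul _)

theorem isLat_Dn : IsLat v.Dn := (v.hD 1).fmul (v.isLat_Di 0)

theorem ln_e_mul_Dn : ln v.e * v.Dn = v.D 0 * v.Di 1 := by
  unfold Dn e Di
  rw [ln_mul]
  calc ln (v.l 0) * ln (v.li 1) * (v.D 1 * (v.D 0 * (ln (v.li 0) * v.L)))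
      = (ln (v.l 0) * ln (v.li 0)) * (v.D 0 * (v.D 1 * (ln (v.li 1) * v.L))) := by ring
    _ = _ := by rw [v.ln_l_li, one_mul]

theorem O_sup_ln_e_Dn : v.O ⊔ ln v.e * v.Dn = v.Di 1 := by
  rw [v.ln_e_mul_Dn, ← v.D_mul_Di 1, ← add_eq_sup, ← add_mul, add_eq_sup,
    v.D_sup_D (by decide), mul_comm, v.Di_mul_O]

theorem O_sup_Dn : v.O ⊔ v.Dn = v.Di 0 := by
  unfold Dn
  conv_lhs => rw [← v.D_mul_Di 0]
  rw [← add_eq_sup, ← add_mul, add_eq_sup, v.D_sup_D (by decide), mul_comm, v.Di_mul_O]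

/-- The ring lattice of the double cover. -/
noncomputable def O' : Chart → Submodule ℂ (QA C v.e) := covO v.e v.O v.Dn

theorem isRingLat_O' : IsRingLat v.O' :=
  isRingLat_covO v.hO v.isLat_Dn v.Dn_mul_O v.e_mul_e' v.Dn_mul_Dn

theorem O'_mul_iota (A : Chart → Submodule ℂ C) (hA : A * v.O = A) :
    v.O' * iota v.e A = iota v.e A ⊔ ln (yy v.e) * iota v.e (v.Dn * A) := by
  unfold O' covO
  rw [← add_eq_sup, add_mul, ← iota_mul, mul_comm v.O, hA, mul_assoc, ← iota_mul, add_eq_sup]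

theorem L'_eq : v.O' ⊔ ln (yy v.e) * v.O' = v.O' * iota v.e (v.Di 1) := by
  rw [v.O'_mul_iota _ (v.Di_mul_O 1)]
  have h1 : v.Dn * v.Di 1 = v.Di 0 := by
    unfold Dn
    calc v.D 1 * v.Di 0 * v.Di 1 = (v.D 1 * v.Di 1) * v.Di 0 := by ring
      _ = v.Di 0 := by rw [v.D_mul_Di, mul_comm, v.Di_mul_O]
  rw [h1]
  have h2 : ln (yy v.e) * v.O' = iota v.e (ln v.e * v.Dn) ⊔ ln (yy v.e) * iota v.e v.O := by
    unfold O' covO
    rw [← add_eq_sup, mul_add, ← mul_assoc, ← ln_mul, yy_mul_yy, ← iota_ln, ← iota_mul, add_comm,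
      add_eq_sup]
  rw [h2]
  have h3 : v.O' ⊔ (iota v.e (ln v.e * v.Dn) ⊔ ln (yy v.e) * iota v.e v.O) =
      iota v.e (v.O ⊔ ln v.e * v.Dn) ⊔ ln (yy v.e) * iota v.e (v.O ⊔ v.Dn) := by
    rw [iota_sup, iota_sup]
    unfold O' covO
    simp only [← add_eq_sup]
    rw [mul_add]
    abel
  rw [h3, v.O_sup_ln_e_Dn, v.O_sup_Dn]

theorem O'_mul_iota_O : v.O' * iota v.e v.O = v.O' := by
  rw [v.O'_mul_iota _ v.hO.mul, v.Dn_mul_O]
  rfl

/-- The constants `(c_i - c_0) / (c_i - c_1)`. -/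
noncomputable def dd (i : Fin 4) : ℂ := (v.c i - v.c 0) / (v.c i - v.c 1)

/-- The constants `(c_0 - c_1) / (c_i - c_1)`. -/
noncomputable def kk (i : Fin 4) : ℂ := (v.c 0 - v.c 1) / (v.c i - v.c 1)

theorem sub_ne {i j : Fin 4} (h : i ≠ j) : v.c i - v.c j ≠ 0 :=
  sub_ne_zero.2 fun h' => h (v.inj h')

theorem kk_ne_zero {i : Fin 4} (h1 : i ≠ 1) : v.kk i ≠ 0 :=
  div_ne_zero (v.sub_ne (by decide)) (v.sub_ne h1)

theorem dd_ne_zero {i : Fin 4} (h0 : i ≠ 0) (h1 : i ≠ 1) : v.dd i ≠ 0 :=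
  div_ne_zero (v.sub_ne h0) (v.sub_ne h1)

theorem dd_ne : v.dd 2 ≠ v.dd 3 := by
  unfold dd
  intro h
  have h2 := v.sub_ne (show (2 : Fin 4) ≠ 1 by decide)
  have h3 := v.sub_ne (show (3 : Fin 4) ≠ 1 by decide)
  rw [div_eq_div_iff h2 h3] at h
  have h4 : (v.c 2 - v.c 3) * (v.c 0 - v.c 1) = 0 := by linear_combination h
  rcases mul_eq_zero.1 h4 with h5 | h5
  · exact v.sub_ne (by decide) h5
  · exact v.sub_ne (by decide) h5

theorem e_sub {i : Fin 4} (h1 : i ≠ 1) :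
    v.e - algebraMap ℂ C (v.dd i) = algebraMap ℂ C (v.kk i) * (v.l i * v.li 1) := by
  have h3 : v.e - algebraMap ℂ C (v.dd i) =
      (v.l 0 - algebraMap ℂ C (v.dd i) * v.l 1) * v.li 1 := by
    unfold e
    rw [sub_mul, mul_assoc (algebraMap ℂ C (v.dd i)), v.l_mul_li, mul_one]
  rw [h3, ← mul_assoc]
  congr 1
  unfold l
  have h4 := v.sub_ne h1
  have hk : v.kk i = 1 - v.dd i := by
    unfold kk dd
    field_simp
    ring
  have hc : v.c 0 - v.dd i * v.c 1 = v.kk i * v.c i := by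
    unfold kk dd
    field_simp
    ring
  have hc' := congrArg (algebraMap ℂ C) hc
  rw [map_sub, map_mul, map_mul] at hc'
  rw [hk, map_sub, map_one] at hc' ⊢
  linear_combination -hc'

/-- Square roots. -/
noncomputable def rr (i : Fin 4) : ℂ := (IsAlgClosed.exists_pow_nat_eq (v.dd i) (n := 2) (by norm_num)).choose

theorem rr_sq (i : Fin 4) : v.rr i ^ 2 = v.dd i :=
  (IsAlgClosed.exists_pow_nat_eq (v.dd i) (n := 2) (by norm_num)).choose_spec

/-- The index of the old member under a new one. -/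
def idx : Fin 4 → Fin 4 := ![2, 2, 3, 3]

theorem idx_ne_zero : ∀ j, idx j ≠ 0 := by decide
theorem idx_ne_one : ∀ j, idx j ≠ 1 := by decide

/-- The new constants. -/
noncomputable def cn : Fin 4 → ℂ := ![v.rr 2, -v.rr 2, v.rr 3, -v.rr 3]

theorem cn_sq (j : Fin 4) : v.cn j ^ 2 = v.dd (idx j) := by
  fin_cases j <;> simp [cn, idx, v.rr_sq]

theorem rr_ne_zero {i : Fin 4} (h0 : i ≠ 0) (h1 : i ≠ 1) : v.rr i ≠ 0 := by
  intro h
  have := v.rr_sq i
  rw [h] at this
  exact v.dd_ne_zero h0 h1 (by rw [← this]; ring)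

theorem cn_ne_neg (j : Fin 4) : v.cn j ≠ -v.cn j := by
  intro h
  have h1 : v.cn j = 0 := by
    have : (2 : ℂ) * v.cn j = 0 := by linear_combination h
    simpa using this
  have := v.cn_sq j
  rw [h1] at this
  exact v.dd_ne_zero (idx_ne_zero j) (idx_ne_one j) (by rw [← this]; ring)

theorem cn_inj : Function.Injective v.cn := by
  have h2 : v.rr 2 ≠ 0 := v.rr_ne_zero (by decide) (by decide)
  have h3 : v.rr 3 ≠ 0 := v.rr_ne_zero (by decide) (by decide)
  have h22 : v.rr 2 ≠ -v.rr 2 := fun h => h2 (by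
    have : (2 : ℂ) * v.rr 2 = 0 := by linear_combination h
    simpa using this)
  have h33 : v.rr 3 ≠ -v.rr 3 := fun h => h3 (by
    have : (2 : ℂ) * v.rr 3 = 0 := by linear_combination h
    simpa using this)
  have h23 : v.rr 2 ^ 2 ≠ v.rr 3 ^ 2 := by rw [v.rr_sq, v.rr_sq]; exact v.dd_ne
  have a1 : v.rr 2 ≠ v.rr 3 := fun h => h23 (by rw [h])
  have a2 : v.rr 2 ≠ -v.rr 3 := fun h => h23 (by rw [h]; ring)
  have a3 : -v.rr 2 ≠ v.rr 3 := fun h => h23 (by rw [← h]; ring)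
  have a4 : -v.rr 2 ≠ -v.rr 3 := fun h => h23 (by rw [neg_inj.1 h])
  intro i j hij
  fin_cases i <;> fin_cases j <;> first | rfl | (exfalso; simp [cn] at hij; first | exact h22 hij | exact h22 hij.symm | exact h33 hij | exact h33 hij.symm | exact a1 hij | exact a1 hij.symm | exact a2 hij | exact a2 hij.symm | exact a3 hij | exact a3 hij.symm | exact a4 (by rw [hij]) | exact a4 (by rw [← hij]))

/-- The new members of the pencil. -/
noncomputable def ln' (j : Fin 4) : QA C v.e := yy v.e - algebraMap ℂ (QA C v.e) (v.cn j)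

/-- The conjugates of the new members. -/
noncomputable def lc' (j : Fin 4) : QA C v.e := yy v.e - algebraMap ℂ (QA C v.e) (-v.cn j)

theorem ln'_mul_lc' (j : Fin 4) : v.ln' j * v.lc' j =
    algebraMap C (QA C v.e) (algebraMap ℂ C (v.kk (idx j)) * (v.l (idx j) * v.li 1)) := by
  rw [← v.e_sub (idx_ne_one j), map_sub, ← yy_mul_yy, ← IsScalarTower.algebraMap_apply,
    ← v.cn_sq j]
  unfold ln' lc'
  rw [map_neg, map_pow]
  ring

theorem isUnit_li (i : Fin 4) : IsUnit (v.li i) :=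
  IsUnit.of_mul_eq_one (v.l i) (by rw [mul_comm]; exact v.l_mul_li i)

theorem isUnit_ln' (j : Fin 4) : IsUnit (v.ln' j) := by
  have h : IsUnit (v.ln' j * v.lc' j) := by
    rw [v.ln'_mul_lc']
    apply IsUnit.map
    apply IsUnit.mul
    · exact (IsUnit.mk0 _ (v.kk_ne_zero (idx_ne_one j))).map _
    · exact (v.unit _).mul (v.isUnit_li 1)
  exact isUnit_of_mul_isUnit_left h

/-- The inverse of the new pencil. -/
noncomputable def Li' : Chart → Submodule ℂ (QA C v.e) := v.O' * iota v.e (v.D 1)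

theorem O'_mul_O' : v.O' * v.O' = v.O' := v.isRingLat_O'.mul

theorem Li'_mul_Li' : v.Li' * v.Li' = v.O' * iota v.e (ln (v.l 1) * v.Li) := by
  unfold Li'
  rw [mul_mul_mul_comm, v.O'_mul_O', ← iota_mul, v.DD]

theorem L'_mul_Li' : (v.O' ⊔ ln (yy v.e) * v.O') * v.Li' = v.O' := by
  rw [v.L'_eq]
  unfold Li'
  rw [mul_mul_mul_comm, v.O'_mul_O', ← iota_mul, mul_comm (v.Di 1), v.D_mul_Di, v.O'_mul_iota_O]

theorem Li'_mul_O' : v.Li' * v.O' = v.Li' := by
  unfold Li'
  rw [mul_right_comm, v.O'_mul_O']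

theorem isLat_iota_mul {A : Chart → Submodule ℂ C} (hA : IsLat A) : IsLat (v.O' * iota v.e A) :=
  v.isRingLat_O'.lat.fmul (hA.iota v.e)

/-- The new square roots. -/
noncomputable def D' (j : Fin 4) : Chart → Submodule ℂ (QA C v.e) :=
  v.O' * iota v.e (v.D (idx j)) ⊔ ln (v.ln' j) * v.Li'

theorem ln_mul_Li'_le (c : ℂ) : ln (yy v.e - algebraMap ℂ (QA C v.e) c) * v.Li' ≤ v.O' := by
  conv_rhs => rw [← v.L'_mul_Li', ← ln_sub_sup_O (yy v.e) c v.O']
  rw [← add_eq_sup, add_mul, mul_assoc, mul_comm v.O', v.Li'_mul_O', add_eq_sup]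
  exact le_sup_right

theorem X_le (j : Fin 4) : v.O' * iota v.e (v.D (idx j)) ≤ v.O' := by
  conv_rhs => rw [← v.O'_mul_iota_O]
  exact mul_le_mul_right (iota_mono v.e (v.D_le _)) _

theorem D'_mul_D' (j : Fin 4) : v.D' j * v.D' j = ln (v.ln' j) * v.Li' := by
  set A := ln (v.ln' j) * v.Li' with hA
  set B := ln (v.lc' j) * v.Li' with hB
  set X := v.O' * iota v.e (v.D (idx j)) with hX
  have hAO : A * v.O' = A := by rw [hA, mul_assoc, v.Li'_mul_O']
  have hAB : A ⊔ B = v.O' := by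
    rw [hA, hB]
    conv_rhs => rw [← v.L'_mul_Li', ← ln_sub_sup' (yy v.e) (v.cn_ne_neg j) v.O']
    rw [← add_eq_sup, ← add_eq_sup, add_mul, mul_assoc, mul_assoc, mul_comm v.O', v.Li'_mul_O']
    rfl
  have hXX : X * X = A * B := by
    rw [hX, mul_mul_mul_comm, v.O'_mul_O', ← iota_mul, v.DD]
    have h1 : A * B = ln (v.ln' j * v.lc' j) * (v.Li' * v.Li') := by
      rw [hA, hB, ln_mul]; ring
    rw [h1, v.ln'_mul_lc', v.Li'_mul_Li', ← iota_ln, mul_left_comm, ← iota_mul,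
      ln_smul_const (v.kk_ne_zero (idx_ne_one j)), ln_mul]
    congr 2
    calc ln (v.l (idx j)) * v.Li = (ln (v.l 1) * ln (v.li 1)) * (ln (v.l (idx j)) * v.Li) := by
          rw [v.ln_l_li, one_mul]
      _ = _ := by ring
  have hXO : X ≤ v.O' := v.X_le j
  have hsum : X ⊔ (A ⊔ B) = v.O' := by rw [hAB]; exact sup_eq_right.2 hXO
  have : v.D' j = X ⊔ A := rfl
  rw [this, ← add_eq_sup, add_mul, mul_add, mul_add, hXX]
  calc A * B + X * A + (A * X + A * A) = A * (X + (A + B)) := by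
        have : A * X + A * X = A * X := by rw [add_eq_sup, sup_idem]
        rw [mul_add, mul_add, mul_comm X A]
        calc A * B + A * X + (A * X + A * A) = (A * X + A * X) + (A * A + A * B) := by abel
          _ = _ := by rw [this]
    _ = A := by rw [add_eq_sup, add_eq_sup, hsum, hAO]

/-- The next level. -/
noncomputable def next : Lev (QA C v.e) p q (k + 1) where
  O := v.O'
  L := v.O' ⊔ ln (yy v.e) * v.O'
  Li := v.Li'
  σ := yy v.e
  c := v.cn
  D := v.D'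
  hO := v.isRingLat_O'
  hL := by rw [v.L'_eq]; exact v.isLat_iota_mul (v.isLat_Di 1)
  hLi := v.isLat_iota_mul (v.hD 1)
  L_eq := rfl
  L_mul_Li := v.L'_mul_Li'
  Li_mul_O := v.Li'_mul_O'
  inj := v.cn_inj
  unit := v.isUnit_ln'
  hD := fun j => (v.isLat_iota_mul (v.hD _)).sup ((v.isLat_iota_mul (v.hD 1)).ln_smul _)
  D_mul_O := by
    intro j
    unfold D'
    rw [← add_eq_sup, add_mul, mul_right_comm, v.O'_mul_O', mul_assoc, v.Li'_mul_O']
  D_le := fun j => sup_le (v.X_le j) (v.ln_mul_Li'_le _)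
  D_mul_D := v.D'_mul_D'
  y := algebraMap C (QA C v.e) (v.li 1 ^ 2 ^ k * v.y)
  hy := (((v.isUnit_li 1).pow _).mul v.hy).map _
  L_pow := by
    have h1 : (v.O' ⊔ ln (yy v.e) * v.O') * (v.O' ⊔ ln (yy v.e) * v.O') =
        v.O' * iota v.e (ln (v.li 1) * v.L) := by
      rw [v.L'_eq, mul_mul_mul_comm, v.O'_mul_O', ← iota_mul, v.Di_mul_Di]
    have hpowO : ∀ n : ℕ, v.O' ^ (n + 1) = v.O' := by
      intro n
      induction n with
      | zero => rw [zero_add, pow_one]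
      | succ n ih => rw [pow_succ, ih, v.O'_mul_O']
    have hiota : ∀ (A : Chart → Submodule ℂ C) (n : ℕ), iota v.e A ^ n = iota v.e (A ^ n) := by
      intro A n
      induction n with
      | zero => rw [pow_zero, pow_zero, iota_one]
      | succ n ih => rw [pow_succ, pow_succ, iota_mul, ih]
    have hlnpow : ∀ (a : C) (n : ℕ), ln a ^ n = ln (a ^ n) := by
      intro a n
      induction n with
      | zero => rw [pow_zero, pow_zero, ln_one]
      | succ n ih => rw [pow_succ, pow_succ, ln_mul, ih]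
    obtain ⟨m, hm⟩ : ∃ m, 2 ^ k = m + 1 := ⟨2 ^ k - 1, (Nat.sub_add_cancel Nat.one_le_two_pow).symm⟩
    rw [pow_succ' 2 k, pow_mul, pow_two, h1, mul_pow, hiota, mul_pow, v.L_pow, hlnpow]
    have h2 : v.O' ^ 2 ^ k = v.O' := by rw [hm]; exact hpowO m
    rw [h2, ← mul_assoc, ← ln_mul, iota_mul, iota_ln, mul_left_comm]
    congr 1
    have h3 : iota v.e (tw p q v.O) = tw p q (iota v.e v.O) := by
      funext s
      show (tw p q v.O s).map (IsScalarTower.toAlgHom ℂ C (QA C v.e)).toLinearMap = _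
      have := tw_mapL (F := v.O) (IsScalarTower.toAlgHom K C (QA C v.e)).toLinearMap p q
      exact (congrFun this s).symm
    rw [h3, mul_comm, tw_mul, mul_comm, v.O'_mul_iota_O]

end Lev

end Pool.Agent.Lib.LP
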