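import Pool.Agent.Lib.MP_865fc0_ag.Numeric

/-!
# Continuity of the Le Potier function at zero
-/

open scoped Pointwise
open Filter Topology

namespace Pool.Agent.Lib.LP

variable {L : Type} [Field L] [Algebra ℂ L] [Algebra K L] [IsScalarTower ℂ K L]

/-- The supremum over the slopes at distance less than `ε` from `t`. -/
noncomputable def SupE (L : Type) [Field L] [Algebra ℂ L] [Algebra K L] [IsScalarTower ℂ K L]
    (t ε : ℝ) : EReal :=
  sSup {c : EReal | ∃ (r : ℕ) (F : Chart → Submodule ℂ (Fin r → L)),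
    0 < r ∧ IsSheaf L F ∧ rk L F = r ∧ IsSemistable L F ∧ |(slope L F : ℝ) - t| < ε ∧
    c = ((ch2 L F / (Hsq L * r) : ℚ) : ℝ)}

theorem Phi_eq (t : ℝ) : Phi L t = ⨅ ε : {ε : ℝ // 0 < ε}, SupE L t ε := rfl

theorem le_SupE {m y : ℚ} (h : Val L m y) {t ε : ℝ} (hm : |(m : ℝ) - t| < ε) :
    (((y : ℚ) : ℝ) : EReal) ≤ SupE L t ε := by
  obtain ⟨r, F, hr, hF, hrk, hS, rfl, rfl⟩ := h
  exact le_sSup ⟨r, F, hr, hF, hrk, hS, hm, rfl⟩

theorem exists_of_lt_SupE {t ε c : ℝ} (h : (c : EReal) < SupE L t ε) :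
    ∃ m y : ℚ, Val L m y ∧ |(m : ℝ) - t| < ε ∧ c < y := by
  obtain ⟨a, ⟨r, F, hr, hF, hrk, hS, hm, rfl⟩, ha⟩ := lt_sSup_iff.1 h
  exact ⟨slope L F, _, ⟨r, F, hr, hF, hrk, hS, rfl, rfl⟩, hm, EReal.coe_lt_coe_iff.1 ha⟩

theorem SupE_mono {t t' ε ε' : ℝ} (h : |t - t'| + ε ≤ ε') : SupE L t ε ≤ SupE L t' ε' := by
  apply sSup_le_sSup
  rintro c ⟨r, F, hr, hF, hrk, hS, hm, rfl⟩
  refine ⟨r, F, hr, hF, hrk, hS, ?_, rfl⟩
  calc |(slope L F : ℝ) - t'| = |((slope L F : ℝ) - t) + (t - t')| := by ring_nf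
    _ ≤ |(slope L F : ℝ) - t| + |t - t'| := abs_add_le _ _
    _ < ε + |t - t'| := by linarith
    _ ≤ ε' := by linarith

/-- The structure sheaf shows that `Φ(0) ≥ 0`. -/
theorem val_zero (H : SurfFacts L) : Val L 0 0 := by
  have hfinL := H.fin
  let g : L ≃ₗ[L] (Fin 1 → L) := (LinearEquiv.funUnique (Fin 1) L L).symm
  let ψ : L →ₗ[K] (Fin 1 → L) := (g : L →ₗ[L] (Fin 1 → L)).restrictScalars K
  have hinj : Function.Injective ψ := g.injective
  have hlat : IsLat (mapL ψ (strSheaf L)) := H.ring.lat.map ψ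
  have hO : strSheaf L • mapL ψ (strSheaf L) = mapL ψ (strSheaf L) := by
    funext s
    have h5 := map_smul_sub (g : L →ₗ[L] (Fin 1 → L)) (strSheaf L s) (strSheaf L s)
    have h6 : strSheaf L s • strSheaf L s = strSheaf L s := congrFun H.ring.mul s
    rw [h6] at h5
    exact h5.symm
  have hchi : ∀ a b, chi (mapL ψ (strSheaf L)) a b = 8 * a * b - 4 * a - 4 * b + 2 := by
    intro a b
    rw [H.ring.lat.chi_map_of_injective ψ hinj, H.chi_O]
  have hlead : lead (mapL ψ (strSheaf L)) = 8 := by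
    unfold lead; rw [hchi, hchi, hchi, hchi]; ring
  have hlam : lam (mapL ψ (strSheaf L)) = -8 := by
    rw [lam_eq, hchi, hchi, hchi]; ring
  have hrk : rk L (mapL ψ (strSheaf L)) = 1 := by
    have := H.lead_eq hlat hO
    rw [hlead] at this
    omega
  refine ⟨1, mapL ψ (strSheaf L), one_pos, IsSheaf.of_lat H hlat hO, hrk, ?_, ?_, ?_⟩
  · intro E _ _ h1 h2
    rw [hrk] at h2
    omega
  · unfold slope
    rw [H.deg_eq hlat, hlam, hrk]
    norm_num
  · rw [H.ch2_eq hlat hO, hlam, hrk, hchi]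
    norm_num

theorem Phi_zero_nonneg (H : SurfFacts L) : 0 ≤ Phi L 0 := by
  rw [Phi_eq]
  refine le_iInf fun ε => ?_
  have := le_SupE (val_zero H) (t := 0) (ε := ε) (by simpa using ε.2)
  simpa using this

/-- The main inequality. -/
theorem Phi_add_le (H : SurfFacts L) (s t : ℝ) (c1 : ℝ) (hc : (c1 : EReal) < Phi L s) :
    ((c1 + s * (t - s) : ℝ) : EReal) ≤ Phi L t := by
  rw [Phi_eq t]
  refine le_iInf fun ε => ?_
  obtain ⟨ε, hε⟩ := ε
  simp only
  refine le_of_forall_lt fun c hc' => ?_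
  obtain ⟨c0, hc0, hc0'⟩ := EReal.lt_iff_exists_real_btwn.1 hc'
  have hc01 : c0 < c1 + s * (t - s) := EReal.coe_lt_coe_iff.1 hc0'
  refine lt_of_lt_of_le hc0 ?_
  set κ : ℝ := c1 + s * (t - s) - c0 with hκ
  have hκpos : 0 < κ := by rw [hκ]; linarith
  -- choose `η`
  set B : ℝ := |t| + 2 * |s| + 1 with hB
  have hBpos : 0 < B := by positivity
  set η : ℝ := min 1 (κ / 2 / B) with hη
  have hηpos : 0 < η := lt_min one_pos (div_pos (by linarith) hBpos)
  have hη1 : η ≤ 1 := min_le_left _ _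
  have hηB : η * B ≤ κ / 2 := by
    have := min_le_right 1 (κ / 2 / B)
    calc η * B ≤ (κ / 2 / B) * B := mul_le_mul_of_nonneg_right this hBpos.le
      _ = κ / 2 := by field_simp
  have h1 : (c1 : EReal) < SupE L s η :=
    lt_of_lt_of_le hc (iInf_le (fun ε : {ε : ℝ // 0 < ε} => SupE L s ε) ⟨η, hηpos⟩)
  obtain ⟨m, y, hV, hm, hy⟩ := exists_of_lt_SupE h1
  -- choose a dyadic number
  set ε' : ℝ := min ε (κ / (|s| + 1)) with hε'
  have hε'pos : 0 < ε' := lt_min hε (div_pos hκpos (by positivity))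
  obtain ⟨n, hn⟩ := exists_nat_gt (1 / ε')
  have h2n : (1 : ℝ) / 2 ^ n < ε' := by
    have h3 : (n : ℝ) < 2 ^ n := by exact_mod_cast Nat.lt_two_pow_self
    have h4 : 1 / ε' < 2 ^ n := hn.trans h3
    rw [div_lt_iff₀ hε'pos] at h4
    rw [div_lt_iff₀ (by positivity)]
    linarith
  set j : ℤ := ⌊2 * (t - m) * 2 ^ n⌋ with hj
  have hj1 : (j : ℝ) ≤ 2 * (t - m) * 2 ^ n := Int.floor_le _
  have hj2 : 2 * (t - m) * 2 ^ n < j + 1 := Int.lt_floor_add_one _
  have h2pos : (0 : ℝ) < 2 ^ n := by positivity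
  have hj3 : |(j : ℝ) / 2 ^ n - 2 * (t - m)| ≤ 1 / 2 ^ n := by
    rw [abs_le]
    constructor
    · rw [neg_le_iff_add_nonneg]
      have : (j : ℝ) / 2 ^ n - 2 * (t - m) + 1 / 2 ^ n = (j + 1 - 2 * (t - m) * 2 ^ n) / 2 ^ n := by
        field_simp
        ring
      rw [this]
      apply div_nonneg _ h2pos.le
      linarith
    · rw [sub_le_iff_le_add, ← sub_nonneg]
      have : 1 / 2 ^ n + 2 * (t - m) - (j : ℝ) / 2 ^ n = (1 + 2 * (t - m) * 2 ^ n - j) / 2 ^ n := by
        field_simp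
      rw [this]
      apply div_nonneg _ h2pos.le
      linarith
  have hj4 : |(j : ℝ) / 2 ^ n - 2 * (t - m)| < ε' := lt_of_le_of_lt hj3 h2n
  obtain ⟨y', hV', hyy⟩ := key H hV n j
  have h5 : |((m + j / (2 * 2 ^ n) : ℚ) : ℝ) - t| < ε := by
    push_cast
    have : (m : ℝ) + j / (2 * 2 ^ n) - t = ((j : ℝ) / 2 ^ n - 2 * (t - m)) / 2 := by
      field_simp
      ring
    rw [this, abs_div, abs_two]
    have h0 := abs_nonneg ((j : ℝ) / 2 ^ n - 2 * (t - m))
    have := min_le_left ε (κ / (|s| + 1))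
    linarith
  refine le_trans ?_ (le_SupE hV' h5)
  rw [EReal.coe_le_coe_iff]
  have h6 : (y : ℝ) + (j / 2 ^ n) * m / 2 ≤ y' := by exact_mod_cast hyy
  have hms : |(m : ℝ)| ≤ |s| + 1 := by
    calc |(m : ℝ)| = |((m : ℝ) - s) + s| := by ring_nf
      _ ≤ |(m : ℝ) - s| + |s| := abs_add_le _ _
      _ ≤ |s| + 1 := by linarith
  have h7 : |((j : ℝ) / 2 ^ n - 2 * (t - m)) * m / 2| ≤ κ / 2 := by
    rw [abs_div, abs_mul, abs_two]
    have h8 : |(j : ℝ) / 2 ^ n - 2 * (t - m)| * |(m : ℝ)| ≤ ε' * (|s| + 1) :=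
      mul_le_mul hj4.le hms (abs_nonneg _) hε'pos.le
    have h9 : ε' * (|s| + 1) ≤ κ := by
      have := min_le_right ε (κ / (|s| + 1))
      calc ε' * (|s| + 1) ≤ κ / (|s| + 1) * (|s| + 1) :=
            mul_le_mul_of_nonneg_right this (by positivity)
        _ = κ := by field_simp
    linarith
  have h8 : |((m : ℝ) - s) * (t - m - s)| ≤ κ / 2 := by
    rw [abs_mul]
    have h9 : |t - m - s| ≤ B := by
      calc |t - m - s| ≤ |t - m| + |s| := abs_sub _ _
        _ ≤ |t| + |(m : ℝ)| + |s| := by linarith [abs_sub t (m : ℝ)]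
        _ ≤ B := by rw [hB]; linarith
    calc |(m : ℝ) - s| * |t - m - s| ≤ η * B := mul_le_mul hm.le h9 (abs_nonneg _) hηpos.le
      _ ≤ κ / 2 := hηB
  have h9 := neg_le_of_abs_le h7
  have h10 := neg_le_of_abs_le h8
  have h11 : (j : ℝ) / 2 ^ n * m / 2 = ((j : ℝ) / 2 ^ n - 2 * (t - m)) * m / 2 +
      ((m : ℝ) - s) * (t - m - s) + s * (t - s) := by ring
  rw [h11] at h6
  rw [hκ] at h9 h10
  linarith

theorem Phi_zero_le (H : SurfFacts L) (t : ℝ) : Phi L 0 ≤ Phi L t := by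
  refine le_of_forall_lt fun c hc => ?_
  obtain ⟨c0, hc0, hc0'⟩ := EReal.lt_iff_exists_real_btwn.1 hc
  have := Phi_add_le H 0 t c0 hc0'
  rw [zero_mul, add_zero] at this
  exact lt_of_lt_of_le hc0 this

/-- A function on the real line with the tangents of `t^2 / 2` is `t^2 / 2` up to a constant. -/
theorem parabola {φ : ℝ → ℝ} (h : ∀ s t, φ s + s * (t - s) ≤ φ t) (t : ℝ) :
    φ t = φ 0 + t ^ 2 / 2 := by
  have h1 : ∀ s t, φ s + (t ^ 2 - s ^ 2) / 2 ≤ φ t := by
    intro s t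
    have h2 : ∀ N : ℕ, φ s + (s * (t - s) + (t - s) ^ 2 / 2 - (t - s) ^ 2 / (2 * (N + 1))) ≤ φ t := by
      intro N
      have hN : (0 : ℝ) < N + 1 := by positivity
      set d : ℝ := (t - s) / (N + 1) with hd
      have h3 : ∀ k : ℕ, φ s + (k * s * d + k * (k - 1) / 2 * d ^ 2) ≤ φ (s + k * d) := by
        intro k
        induction k with
        | zero => simp
        | succ k ih =>
          have h4 := h (s + k * d) (s + (k + 1 : ℕ) * d)
          push_cast at h4 ⊢
          have h5 : (s + k * d) * (s + (k + 1) * d - (s + k * d)) = s * d + k * d ^ 2 := by ring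
          rw [h5] at h4
          nlinarith
      have h6 := h3 (N + 1)
      have h7 : s + ((N + 1 : ℕ) : ℝ) * d = t := by
        rw [hd]
        push_cast
        field_simp
        ring
      rw [h7] at h6
      refine le_trans (le_of_eq ?_) h6
      rw [hd]
      push_cast
      field_simp
      ring
    have h8 : Tendsto (fun N : ℕ => φ s + (s * (t - s) + (t - s) ^ 2 / 2 -
        (t - s) ^ 2 / (2 * ((N : ℝ) + 1)))) atTop
        (𝓝 (φ s + (s * (t - s) + (t - s) ^ 2 / 2 - 0))) := by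
      apply Tendsto.const_add
      apply Tendsto.const_sub
      have h9 : Tendsto (fun N : ℕ => (t - s) ^ 2 / 2 * (1 / ((N : ℝ) + 1))) atTop
          (𝓝 ((t - s) ^ 2 / 2 * 0)) := tendsto_one_div_add_atTop_nhds_zero_nat.const_mul _
      rw [mul_zero] at h9
      refine h9.congr fun N => ?_
      field_simp
    have h10 := le_of_tendsto' h8 h2
    have h11 : s * (t - s) + (t - s) ^ 2 / 2 - 0 = (t ^ 2 - s ^ 2) / 2 := by ring
    rwa [h11] at h10
  apply le_antisymm
  · have := h1 t 0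
    linarith
  · have := h1 0 t
    linarith

/-- The Le Potier function is a parabola. -/
theorem Phi_parabola (H : SurfFacts L) (t : ℝ) :
    Phi L t = Phi L 0 + ((t ^ 2 / 2 : ℝ) : EReal) := by
  have h0 := Phi_zero_nonneg H
  have hle := Phi_zero_le H
  by_cases htop : Phi L 0 = ⊤
  · have h1 : Phi L t = ⊤ := by
      have := hle t
      rw [htop] at this
      exact top_le_iff.1 this
    rw [h1, htop]
    exact (EReal.top_add_coe _).symm
  · have hbot : ∀ t, Phi L t ≠ ⊥ := fun t hb => by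
      have := h0.trans (hle t)
      rw [hb] at this
      exact absurd this (by simp)
    have hfin : ∀ t, Phi L t ≠ ⊤ := by
      intro t ht
      apply htop
      rw [EReal.eq_top_iff_forall_lt]
      intro c
      have h1 := Phi_add_le H t 0 (c + 1 + t * t) (by rw [ht]; exact EReal.coe_lt_top _)
      refine lt_of_lt_of_le ?_ h1
      rw [EReal.coe_lt_coe_iff]
      have : c + 1 + t * t + t * (0 - t) = c + 1 := by ring
      rw [this]
      linarith
    set φ : ℝ → ℝ := fun t => (Phi L t).toReal with hφ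
    have hφc : ∀ t, ((φ t : ℝ) : EReal) = Phi L t := fun t => EReal.coe_toReal (hfin t) (hbot t)
    have hpar := parabola (φ := φ) (by
      intro s t
      refine le_of_forall_lt fun c hc => ?_
      have hc1 : c - s * (t - s) < φ s := by linarith
      obtain ⟨c2, hc2, hc2'⟩ := exists_between hc1
      have h1 := Phi_add_le H s t c2 (by rw [← hφc]; exact EReal.coe_lt_coe_iff.2 hc2')
      rw [← hφc, EReal.coe_le_coe_iff] at h1
      linarith) t
    rw [← hφc t, ← hφc 0, hpar]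
    rfl

/-- The Le Potier function is continuous at zero. -/
theorem continuousAt_Phi (H : SurfFacts L) : ContinuousAt (Phi L) 0 := by
  rw [ContinuousAt, tendsto_order]
  constructor
  · intro a ha
    exact Eventually.of_forall fun t => lt_of_lt_of_le ha (Phi_zero_le H t)
  · intro a ha
    rw [Phi_eq] at ha
    obtain ⟨⟨ε, hε⟩, hlt⟩ := iInf_lt_iff.1 ha
    have hball : Metric.ball (0 : ℝ) (ε / 2) ∈ 𝓝 (0 : ℝ) := Metric.ball_mem_nhds _ (by linarith)
    filter_upwards [hball] with t ht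
    rw [Metric.mem_ball, dist_zero_right, Real.norm_eq_abs] at ht
    refine lt_of_le_of_lt ?_ hlt
    rw [Phi_eq]
    refine (iInf_le (fun ε : {ε : ℝ // 0 < ε} => SupE L t ε) ⟨ε / 2, by linarith⟩).trans ?_
    apply SupE_mono
    rw [sub_zero]
    linarith

end Pool.Agent.Lib.LP
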