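import Pool.Agent.Lib.MP_865fc0_ag.Basic

/-!
# Spans of Laurent monomials
-/

open scoped Pointwise

namespace Pool.Agent.Lib.LP

/-- The span of the Laurent monomials with exponents in `T`. -/
noncomputable def MonS (T : Set (ℤ × ℤ)) : Submodule ℂ K := Submodule.span ℂ (mon '' T)

theorem mon_mem_MonS {T : Set (ℤ × ℤ)} {p : ℤ × ℤ} (hp : p ∈ T) : mon p ∈ MonS T :=
  Submodule.subset_span ⟨p, hp, rfl⟩

theorem MonS_mono {S T : Set (ℤ × ℤ)} (h : S ⊆ T) : MonS S ≤ MonS T :=
  Submodule.span_mono (Set.image_mono h)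

theorem MonS_mul (S T : Set (ℤ × ℤ)) : MonS S * MonS T = MonS (S + T) := by
  unfold MonS
  rw [Submodule.span_mul_span]
  congr 1
  ext z
  simp only [Set.mem_mul, Set.mem_image, Set.mem_add]
  constructor
  · rintro ⟨_, ⟨p, hp, rfl⟩, _, ⟨q, hq, rfl⟩, rfl⟩
    exact ⟨p + q, ⟨p, hp, q, hq, rfl⟩, mon_add p q⟩
  · rintro ⟨_, ⟨p, hp, q, hq, rfl⟩, rfl⟩
    exact ⟨_, ⟨p, hp, rfl⟩, _, ⟨q, hq, rfl⟩, (mon_add p q).symm⟩

theorem iInf_MonS {ι : Type*} [Nonempty ι] (T : ι → Set (ℤ × ℤ)) :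
    ⨅ i, MonS (T i) = MonS (⋂ i, T i) := by
  have hinj : Function.Injective (Finsupp.linearCombination ℂ mon) := linearIndependent_mon
  apply le_antisymm
  · intro z hz
    rw [Submodule.mem_iInf] at hz
    have h : ∀ i, ∃ c ∈ Finsupp.supported ℂ ℂ (T i), Finsupp.linearCombination ℂ mon c = z := by
      intro i
      have := hz i
      unfold MonS at this
      rw [Finsupp.span_image_eq_map_linearCombination] at this
      exact this
    choose c hc hcz using h
    obtain ⟨i0⟩ := ‹Nonempty ι›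
    unfold MonS
    rw [Finsupp.span_image_eq_map_linearCombination]
    refine ⟨c i0, ?_, hcz i0⟩
    show c i0 ∈ Finsupp.supported ℂ ℂ (⋂ i, T i)
    rw [Finsupp.mem_supported]
    intro p hp
    rw [Set.mem_iInter]
    intro i
    have : c i0 = c i := hinj ((hcz i0).trans (hcz i).symm)
    rw [this] at hp
    exact (Finsupp.mem_supported ℂ _).1 (hc i) hp
  · refine le_iInf fun i => MonS_mono (Set.iInter_subset _ _)

/-- Exponents occurring in `w_s^m R_s`. -/
def Quad (s : Chart) (m : ℤ) : Set (ℤ × ℤ) :=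
  {p | (if s.1 then p.1 ≤ m else 0 ≤ p.1) ∧ (if s.2 then p.2 ≤ m else 0 ≤ p.2)}

/-- Exponents of sections of `O(m,m)`. -/
def Box (m : ℤ) : Set (ℤ × ℤ) := {p | (0 ≤ p.1 ∧ p.1 ≤ m) ∧ (0 ≤ p.2 ∧ p.2 ≤ m)}

theorem iInter_Quad (m : ℤ) : ⋂ s, Quad s m = Box m := by
  ext p
  simp only [Set.mem_iInter, Quad, Box, Set.mem_ofPred_eq]
  constructor
  · intro h
    have h1 := h (false, false)
    have h2 := h (true, true)
    simp at h1 h2
    omega
  · intro h s
    split_ifs <;> omega

theorem R_eq (s : Chart) : R s = MonS (Quad s 0) := by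
  unfold R Ralg MonS
  rw [Algebra.adjoin_eq_span]
  congr 1
  ext z
  simp only [SetLike.mem_coe, Submonoid.mem_closure_pair, Set.mem_image]
  constructor
  · rintro ⟨m, n, rfl⟩
    refine ⟨((if s.1 then -(m : ℤ) else m), (if s.2 then -(n : ℤ) else n)), ?_, ?_⟩
    · simp only [Quad, Set.mem_ofPred_eq]
      split_ifs <;> omega
    · unfold mon
      split_ifs <;> simp
  · rintro ⟨⟨i, j⟩, hp, rfl⟩
    simp only [Quad, Set.mem_ofPred_eq] at hp
    refine ⟨i.natAbs, j.natAbs, ?_⟩
    unfold mon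
    have h1 : (if s.1 = true then x⁻¹ else x) ^ i.natAbs = x ^ i := by
      split_ifs with h
      · rw [if_pos h] at hp
        obtain ⟨n, rfl⟩ : ∃ n : ℕ, i = -(n : ℤ) := ⟨i.natAbs, by omega⟩
        simp
      · rw [if_neg h] at hp
        obtain ⟨n, rfl⟩ : ∃ n : ℕ, i = (n : ℤ) := ⟨i.natAbs, by omega⟩
        simp
    have h2 : (if s.2 = true then u⁻¹ else u) ^ j.natAbs = u ^ j := by
      split_ifs with h
      · rw [if_pos h] at hp
        obtain ⟨n, rfl⟩ : ∃ n : ℕ, j = -(n : ℤ) := ⟨j.natAbs, by omega⟩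
        simp
      · rw [if_neg h] at hp
        obtain ⟨n, rfl⟩ : ∃ n : ℕ, j = (n : ℤ) := ⟨j.natAbs, by omega⟩
        simp
    rw [h1, h2]

theorem R_mul_R (s : Chart) : R s * R s = R s := by
  unfold R
  exact Subalgebra.isIdempotentElem_toSubmodule _

theorem one_le_R (s : Chart) : (1 : Submodule ℂ K) ≤ R s := by
  rw [Submodule.one_le]
  exact (Ralg s).one_mem

theorem one_mem_R (s : Chart) : (1 : K) ∈ R s := (Ralg s).one_mem

theorem w_eq_mon (s : Chart) :
    w s = mon ((if s.1 then 1 else 0), (if s.2 then 1 else 0)) := by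
  unfold w wx wu mon
  split_ifs <;> simp

theorem w_pow_eq_mon (s : Chart) (n : ℤ) :
    w s ^ n = mon ((if s.1 then n else 0), (if s.2 then n else 0)) := by
  unfold w wx wu mon
  split_ifs <;> simp [mul_zpow]

theorem w_div_mem (s t : Chart) : w s / w t ∈ R t := by
  rw [R_eq, div_eq_mul_inv, ← zpow_neg_one (w t), w_pow_eq_mon, w_eq_mon, ← mon_add]
  apply mon_mem_MonS
  simp only [Quad, Set.mem_ofPred_eq, Prod.fst_add, Prod.snd_add]
  split_ifs <;> omega

theorem w_div_pow_mem (s t : Chart) (n : ℕ) : (w s / w t) ^ n ∈ R t :=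
  (Ralg t).pow_mem (w_div_mem s t) n

/-- `mon p * MonS T`. -/
theorem mon_mul_MonS (p : ℤ × ℤ) (T : Set (ℤ × ℤ)) :
    Submodule.span ℂ {mon p} * MonS T = MonS ((fun q => p + q) '' T) := by
  have : Submodule.span ℂ {mon p} = MonS {p} := by
    unfold MonS; rw [Set.image_singleton]
  rw [this, MonS_mul]
  congr 1
  exact Set.singleton_add

theorem w_pow_mul_R (s : Chart) (m : ℤ) :
    Submodule.span ℂ {w s ^ m} * R s = MonS (Quad s m) := by
  rw [w_pow_eq_mon, R_eq, mon_mul_MonS]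
  congr 1
  ext q
  simp only [Set.mem_image, Quad, Set.mem_ofPred_eq]
  constructor
  · rintro ⟨⟨a, b⟩, h, rfl⟩
    simp only [Prod.fst_add, Prod.snd_add]
    split_ifs at h ⊢ <;> omega
  · intro h
    refine ⟨q - ((if s.1 then m else 0), (if s.2 then m else 0)), ?_, ?_⟩
    · simp only [Prod.fst_sub, Prod.snd_sub]
      split_ifs at h ⊢ <;> omega
    · abel

/-- Global sections of `O(n,n)`. -/
noncomputable def W (n : ℤ) : Submodule ℂ K := MonS (Box n)

theorem W_mul_W (m n : ℕ) : W m * W n = W (m + n) := by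
  unfold W
  rw [MonS_mul]
  congr 1
  ext ⟨a, b⟩
  simp only [Set.mem_add, Box, Set.mem_ofPred_eq]
  constructor
  · rintro ⟨p, hp, q, hq, h⟩
    have h1 := congrArg Prod.fst h
    have h2 := congrArg Prod.snd h
    simp only [Prod.fst_add, Prod.snd_add] at h1 h2
    omega
  · intro h
    refine ⟨(min a m, min b m), ?_, (a - min a m, b - min b m), ?_, ?_⟩
    · simp only; omega
    · simp only; omega
    · ext <;> simp

theorem W_zero : W 0 = 1 := by
  unfold W MonS
  have : Box 0 = {0} := by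
    ext ⟨a, b⟩
    simp only [Box, Set.mem_ofPred_eq, Set.mem_singleton_iff, Prod.mk_eq_zero]
    omega
  rw [this, Set.image_singleton, mon_zero, ← Submodule.one_eq_span]

theorem W_mono {m n : ℤ} (h : m ≤ n) : W m ≤ W n := by
  apply MonS_mono
  intro p hp
  simp only [Box, Set.mem_ofPred_eq] at hp ⊢
  omega

theorem w_pow_mem_W (s : Chart) (n : ℕ) : w s ^ n ∈ W n := by
  have : w s ^ n = w s ^ (n : ℤ) := (zpow_natCast _ _).symm
  rw [this, w_pow_eq_mon]
  apply mon_mem_MonS
  simp only [Box, Set.mem_ofPred_eq]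
  split_ifs <;> omega

theorem w_mem_W (s : Chart) : w s ∈ W 1 := by
  have := w_pow_mem_W s 1
  simpa using this

theorem one_mem_W (n : ℕ) : (1 : K) ∈ W n := by
  rw [← mon_zero]
  apply mon_mem_MonS
  simp [Box]

theorem W_one_eq : W 1 = Submodule.span ℂ (Set.range w) := by
  apply le_antisymm
  · unfold W MonS
    rw [Submodule.span_le]
    rintro _ ⟨⟨a, b⟩, hp, rfl⟩
    simp only [Box, Set.mem_ofPred_eq] at hp
    apply Submodule.subset_span
    refine ⟨(decide (a = 1), decide (b = 1)), ?_⟩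
    rw [w_eq_mon]
    congr 1
    ext
    · simp only [decide_eq_true_eq]; split_ifs <;> omega
    · simp only [decide_eq_true_eq]; split_ifs <;> omega
  · rw [Submodule.span_le]
    rintro _ ⟨s, rfl⟩
    exact w_mem_W s

/-- `W^n` is contained in `w_s^n R_s`. -/
theorem W_le (s : Chart) (n : ℤ) : W n ≤ Submodule.span ℂ {w s ^ n} * R s := by
  rw [w_pow_mul_R]
  apply MonS_mono
  intro p hp
  simp only [Box, Quad, Set.mem_ofPred_eq] at hp ⊢
  split_ifs <;> omega

theorem R_mul_W (s : Chart) (n : ℕ) : R s * W n = Submodule.span ℂ {w s ^ n} * R s := by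
  apply le_antisymm
  · calc R s * W n ≤ R s * (Submodule.span ℂ {w s ^ (n : ℤ)} * R s) :=
          mul_le_mul_right (W_le s n) _
      _ = Submodule.span ℂ {w s ^ n} * R s := by
          rw [zpow_natCast, mul_left_comm, R_mul_R]
  · rw [mul_comm (R s)]
    apply mul_le_mul_left
    rw [Submodule.span_singleton_le_iff_mem]
    exact w_pow_mem_W s n

theorem iInf_w_pow_R (m : ℤ) : ⨅ s, (Submodule.span ℂ {w s ^ m} * R s) = W m := by
  simp_rw [w_pow_mul_R]
  rw [iInf_MonS, iInter_Quad]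
  rfl

/-- A monomial of `W^m`, `m ≥ 2 N`, is divisible by some `w_s^N`. -/
theorem W_le_iSup (N m : ℕ) (h : 2 * N ≤ m) :
    W m ≤ ⨆ s : Chart, Submodule.span ℂ {w s ^ N} * W (m - N) := by
  unfold W MonS
  rw [Submodule.span_le]
  rintro _ ⟨⟨a, b⟩, hp, rfl⟩
  simp only [Box, Set.mem_ofPred_eq] at hp
  set s : Chart := (decide ((N : ℤ) ≤ a), decide ((N : ℤ) ≤ b)) with hs
  have hmem : mon (a, b) ∈ Submodule.span ℂ {w s ^ N} * W (m - N) := by
    have h1 : mon (a, b) = w s ^ N *
        mon ((if (N : ℤ) ≤ a then a - N else a), (if (N : ℤ) ≤ b then b - N else b)) := by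
      have : w s ^ N = w s ^ (N : ℤ) := (zpow_natCast _ _).symm
      rw [this, w_pow_eq_mon, ← mon_add]
      congr 1
      ext
      · simp only [hs, decide_eq_true_eq, Prod.fst_add]; split_ifs <;> omega
      · simp only [hs, decide_eq_true_eq, Prod.snd_add]; split_ifs <;> omega
    rw [h1]
    apply Submodule.mul_mem_mul (Submodule.mem_span_singleton_self _)
    apply mon_mem_MonS
    simp only [Box, Set.mem_ofPred_eq]
    split_ifs <;> omega
  exact (le_iSup (fun s : Chart => Submodule.span ℂ {w s ^ N} * W (m - N)) s) hmem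

end Pool.Agent.Lib.LP
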