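import Pool.Agent.Lib.MP_865fc0_ag.Bound

/-!
# Sections of a lattice are eventually generated by `W`
-/

open scoped Pointwise
open Polynomial

namespace Pool.Agent.Lib.LP

section

variable {V : Type*} [AddCommGroup V] [Module ℂ V] [Module K V] [IsScalarTower ℂ K V]

/-- The graded ring generated by `w_s T`. -/
noncomputable def SS : Subalgebra ℂ K[X] :=
  Algebra.adjoin ℂ (Set.range fun s : Chart => Polynomial.monomial 1 (w s))

instance : IsNoetherianRing SS := by
  have : Algebra.FiniteType ℂ SS := Algebra.FiniteType.adjoin_of_finite (Set.finite_range _)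
  exact Algebra.FiniteType.isNoetherianRing ℂ SS

theorem monomial_mem_SS (s : Chart) : (Polynomial.monomial 1 (w s) : K[X]) ∈ SS :=
  Algebra.subset_adjoin ⟨s, rfl⟩

/-- The graded module of a family of subspaces. -/
noncomputable def famSub (N : ℕ → Submodule ℂ V) (hN : ∀ n s, ∀ v ∈ N n, w s • v ∈ N (n + 1)) :
    Submodule SS (PolynomialModule K V) where
  carrier := {f | ∀ n, f.coeff n ∈ N n}
  add_mem' := by
    intro f g hf hg n
    rw [PolynomialModule.coeff_add]
    exact (N n).add_mem (hf n) (hg n)
  zero_mem' := by
    intro n
    simp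
  smul_mem' := by
    rintro ⟨c, hc⟩ f hf
    have key : ∀ f : PolynomialModule K V, (∀ n, f.coeff n ∈ N n) →
        ∀ n, (c • f).coeff n ∈ N n := by
      unfold SS at hc
      induction hc using Algebra.adjoin_induction with
      | mem c hc =>
        obtain ⟨s, rfl⟩ := hc
        intro f hf n
        simp only
        rw [PolynomialModule.monomial_smul_apply]
        split_ifs with h
        · obtain ⟨m, rfl⟩ := Nat.exists_eq_add_of_le' h
          simpa using hN m s _ (hf m)
        · exact (N n).zero_mem
      | algebraMap r =>
        intro f hf n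
        have : (algebraMap ℂ K[X] r) = Polynomial.monomial 0 (algebraMap ℂ K r) := rfl
        rw [this, PolynomialModule.monomial_smul_apply, if_pos (Nat.zero_le _), Nat.sub_zero,
          algebraMap_smul]
        exact (N n).smul_mem _ (hf n)
      | add a b _ _ ha hb =>
        intro f hf n
        rw [add_smul, PolynomialModule.coeff_add]
        exact (N n).add_mem (ha f hf n) (hb f hf n)
      | mul a b _ _ ha hb =>
        intro f hf n
        rw [mul_smul]
        exact ha _ (hb f hf) n
    exact key f hf

theorem mem_famSub {N : ℕ → Submodule ℂ V} {hN : ∀ n s, ∀ v ∈ N n, w s • v ∈ N (n + 1)}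
    {f : PolynomialModule K V} : f ∈ famSub N hN ↔ ∀ n, f.coeff n ∈ N n := Iff.rfl

theorem single_mem_famSub {N : ℕ → Submodule ℂ V} {hN : ∀ n s, ∀ v ∈ N n, w s • v ∈ N (n + 1)}
    {n : ℕ} {v : V} (hv : v ∈ N n) : PolynomialModule.single K n v ∈ famSub N hN := by
  intro m
  rw [PolynomialModule.coeff_single, Finsupp.single_apply]
  split_ifs with h
  · rw [← h]; exact hv
  · exact (N m).zero_mem

theorem W_succ_smul (n : ℕ) (N : Submodule ℂ V) : W (n + 1 : ℕ) • N = W 1 • W n • N := by
  rw [smul_smul_sub]
  congr 1
  have := W_mul_W 1 n
  push_cast at this ⊢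
  rw [this, add_comm]

theorem W_one_smul_le {N P : Submodule ℂ V} : W 1 • N ≤ P ↔ ∀ s, ∀ v ∈ N, w s • v ∈ P := by
  constructor
  · intro h s v hv
    exact h (Submodule.smul_mem_smul (w_mem_W s) hv)
  · intro h
    rw [Submodule.smul_le]
    intro r hr v hv
    rw [W_one_eq] at hr
    induction hr using Submodule.span_induction with
    | mem r hr => obtain ⟨s, rfl⟩ := hr; exact h s v hv
    | zero => rw [zero_smul]; exact P.zero_mem
    | add a b _ _ ha hb => rw [add_smul]; exact P.add_mem ha hb
    | smul a b _ hb => rw [smul_assoc]; exact P.smul_mem a hb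

/-- Families bounded by `W^n G0` are eventually generated. -/
theorem eventually_generated (N : ℕ → Submodule ℂ V)
    (hN : ∀ n s, ∀ v ∈ N n, w s • v ∈ N (n + 1)) (G0 : Submodule ℂ V) (hG0 : G0.FG)
    (hb : ∀ n : ℕ, N n ≤ W n • G0) :
    ∃ n1 : ℕ, ∀ m : ℕ, N (n1 + m) = W m • N n1 := by
  classical
  obtain ⟨t, ht⟩ := hG0
  -- the bounding finitely generated module
  let Q : Submodule SS (PolynomialModule K V) :=
    Submodule.span SS (PolynomialModule.single K 0 '' (t : Set V))
  have hQfg : Q.FG := Submodule.fg_span (t.finite_toSet.image _)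
  have hsingle : ∀ n : ℕ, ∀ v ∈ W n • G0, PolynomialModule.single K n v ∈ Q := by
    intro n
    induction n with
    | zero =>
      intro v hv
      have hv' : v ∈ G0 := by
        have h0 : (W ((0 : ℕ) : ℤ)) = 1 := W_zero
        rw [h0, Submodule.one_smul] at hv
        exact hv
      rw [← ht] at hv'
      induction hv' using Submodule.span_induction with
      | mem v hv' => exact Submodule.subset_span ⟨v, hv', rfl⟩
      | zero => simp
      | add a b _ _ ha hb =>
        rw [PolynomialModule.single_add]
        refine Q.add_mem (ha ?_) (hb ?_)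
        · have h0 : (W ((0 : ℕ) : ℤ)) = 1 := W_zero
          rw [h0, Submodule.one_smul, ← ht]; assumption
        · have h0 : (W ((0 : ℕ) : ℤ)) = 1 := W_zero
          rw [h0, Submodule.one_smul, ← ht]; assumption
      | smul a b hb' hb =>
        have h0 : (W ((0 : ℕ) : ℤ)) = 1 := W_zero
        have h1 := hb (by rw [h0, Submodule.one_smul, ← ht]; exact hb')
        have h2 : PolynomialModule.single K 0 (a • b) =
            (⟨algebraMap ℂ K[X] a, SS.algebraMap_mem a⟩ : SS) • PolynomialModule.single K 0 b := by
          change _ = (algebraMap ℂ K[X] a) • PolynomialModule.single K 0 b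
          have : (algebraMap ℂ K[X] a) = Polynomial.monomial 0 (algebraMap ℂ K a) := rfl
          rw [this, PolynomialModule.monomial_smul_single, algebraMap_smul]
        rw [h2]
        exact Q.smul_mem _ h1
    | succ n ih =>
      intro v hv
      rw [W_succ_smul] at hv
      have h1 : W 1 • W n • G0 ≤
          { carrier := {v | PolynomialModule.single K (n + 1) v ∈ Q}
            add_mem' := by
              intro a b ha hb
              simp only [Set.mem_ofPred_eq] at ha hb ⊢
              rw [PolynomialModule.single_add]
              exact Q.add_mem ha hb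
            zero_mem' := by simp
            smul_mem' := by
              intro c a ha
              simp only [Set.mem_ofPred_eq] at ha ⊢
              have h2 : PolynomialModule.single K (n + 1) (c • a) =
                  (⟨algebraMap ℂ K[X] c, SS.algebraMap_mem c⟩ : SS) •
                    PolynomialModule.single K (n + 1) a := by
                change _ = (algebraMap ℂ K[X] c) • PolynomialModule.single K (n + 1) a
                have : (algebraMap ℂ K[X] c) = Polynomial.monomial 0 (algebraMap ℂ K c) := rfl
                rw [this, PolynomialModule.monomial_smul_single, algebraMap_smul, zero_add]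
              rw [h2]
              exact Q.smul_mem _ ha : Submodule ℂ V } := by
        rw [W_one_smul_le]
        intro s v hv
        change PolynomialModule.single K (n + 1) (w s • v) ∈ Q
        have h2 : PolynomialModule.single K (n + 1) (w s • v) =
            (⟨Polynomial.monomial 1 (w s), monomial_mem_SS s⟩ : SS) •
              PolynomialModule.single K n v := by
          change _ = (Polynomial.monomial 1 (w s) : K[X]) • PolynomialModule.single K n v
          rw [PolynomialModule.monomial_smul_single, add_comm]
        rw [h2]
        exact Q.smul_mem _ (ih v hv)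
      exact h1 hv
  have hle : famSub N hN ≤ Q := by
    intro f hf
    have : f = ∑ n ∈ f.coeff.support, PolynomialModule.single K n (f.coeff n) := by
      apply PolynomialModule.coeff_injective
      rw [PolynomialModule.coeff_sum]
      simp only [PolynomialModule.coeff_single]
      exact (Finsupp.sum_single f.coeff).symm
    rw [this]
    exact Q.sum_mem fun n _ => hsingle n _ (hb n (hf n))
  have hfg : (famSub N hN).FG := by
    have := @Submodule.FG.of_le SS (PolynomialModule K V) _ _ _ _ _ _ hQfg hle
    exact this
  obtain ⟨g, hg⟩ := hfg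
  -- bound the degrees of generators
  obtain ⟨n1, hn1⟩ : ∃ n1 : ℕ, ∀ f ∈ g, ∀ n, n1 < n → f.coeff n = 0 := by
    refine ⟨∑ f ∈ g, f.coeff.support.sup id, fun f hf n hn => ?_⟩
    by_contra hne
    have h1 : n ∈ f.coeff.support := Finsupp.mem_support_iff.2 hne
    have h2 : n ≤ f.coeff.support.sup id := Finset.le_sup (f := id) h1
    have h3 : f.coeff.support.sup id ≤ ∑ f ∈ g, f.coeff.support.sup id :=
      Finset.single_le_sum (f := fun f : PolynomialModule K V => f.coeff.support.sup id)
        (fun _ _ => Nat.zero_le _) hf
    omega
  refine ⟨n1, fun m => ?_⟩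
  -- the family generated up to degree `n1`
  let N' : ℕ → Submodule ℂ V := fun n => W ((n - n1 : ℕ) : ℤ) • N (min n n1)
  have hN' : ∀ n s, ∀ v ∈ N' n, w s • v ∈ N' (n + 1) := by
    intro n
    rw [← W_one_smul_le]
    rcases lt_or_ge n n1 with h | h
    · have e1 : N' n = N n := by
        simp only [N']
        rw [Nat.sub_eq_zero_of_le h.le, min_eq_left h.le]
        have h0 : (W ((0 : ℕ) : ℤ)) = 1 := W_zero
        rw [h0, Submodule.one_smul]
      have e2 : N' (n + 1) = N (n + 1) := by
        simp only [N']
        rw [Nat.sub_eq_zero_of_le (by omega), min_eq_left (by omega)]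
        have h0 : (W ((0 : ℕ) : ℤ)) = 1 := W_zero
        rw [h0, Submodule.one_smul]
      rw [e1, e2, W_one_smul_le]
      exact hN n
    · have e1 : N' n = W ((n - n1 : ℕ) : ℤ) • N n1 := by
        simp only [N']; rw [min_eq_right h]
      have e2 : N' (n + 1) = W ((n - n1 + 1 : ℕ) : ℤ) • N n1 := by
        simp only [N']; rw [min_eq_right (by omega)]
        congr 3; omega
      rw [e1, e2, W_succ_smul]
  have hle2 : famSub N hN ≤ famSub N' hN' := by
    rw [← hg, Submodule.span_le]
    intro f hf n
    have hf2 : f ∈ famSub N hN := by rw [← hg]; exact Submodule.subset_span hf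
    rcases le_or_gt n n1 with h | h
    · have e1 : N' n = N n := by
        simp only [N']
        rw [Nat.sub_eq_zero_of_le h, min_eq_left h]
        have h0 : (W ((0 : ℕ) : ℤ)) = 1 := W_zero
        rw [h0, Submodule.one_smul]
      rw [e1]
      exact hf2 n
    · rw [hn1 f hf n h]
      exact (N' n).zero_mem
  apply le_antisymm
  · intro v hv
    have h1 := hle2 (single_mem_famSub (hN := hN) hv) (n1 + m)
    rw [PolynomialModule.coeff_single, Finsupp.single_eq_same] at h1
    have e1 : N' (n1 + m) = W m • N n1 := by
      simp only [N']
      rw [min_eq_right (by omega)]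
      congr 3; omega
    rw [e1] at h1
    exact h1
  · induction m with
    | zero =>
      have h0 : (W ((0 : ℕ) : ℤ)) = 1 := W_zero
      rw [h0, Submodule.one_smul]; exact le_rfl
    | succ m ih =>
      rw [W_succ_smul, W_one_smul_le]
      intro s v hv
      exact hN _ s v (ih hv)

end

end Pool.Agent.Lib.LP
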