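import Pool.Agent.Lib.MP_865fc0_ag.Translate

/-!
# Transport to `L^r`, and the main numerical statement
-/

open scoped Pointwise
open Filter

namespace Pool.Agent.Lib.LP

variable {L : Type} [Field L] [Algebra ℂ L] [Algebra K L] [IsScalarTower ℂ K L]

/-- Every semistable lattice can be moved to some `L^r`. -/
theorem transport (H : SurfFacts L) {f : ℤ → ℤ → ℤ} (h : HasSst L (strSheaf L) f) (r : ℕ)
    (hr : f 1 1 - f 1 0 - f 0 1 + f 0 0 = 8 * r) :
    ∃ F : Chart → Submodule ℂ (Fin r → L), IsSheaf L F ∧ rk L F = r ∧ IsSemistable L F ∧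
      ∀ a b, chi F a b = f a b := by
  have hfinL := H.fin
  obtain ⟨V, i1, i2, i3, i4, i5, i6, i7, i8, M, h1, h2, h3, h4⟩ := h
  have hlead : lead M = 8 * rk L M := H.lead_eq h1 h2
  have hrk : rk L M = r := by
    have : lead M = 8 * r := by
      unfold lead
      rw [h4, h4, h4, h4]
      exact hr
    rw [this] at hlead
    have : (8 : ℤ) * r = 8 * rk L M := hlead
    omega
  have hfinLV : Module.Finite L V := Module.Finite.of_restrictScalars_finite K L V
  set U : Submodule L V := Submodule.span L (⋃ s, (M s : Set V)) with hU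
  have hUr : Module.finrank L U = Module.finrank L (Fin r → L) := by
    rw [Module.finrank_fin_fun]
    exact hrk
  let g : U ≃ₗ[L] (Fin r → L) := LinearEquiv.ofFinrankEq _ _ hUr
  obtain ⟨φ, hφ⟩ := LinearMap.exists_extend (g : U →ₗ[L] (Fin r → L))
  have hφU : ∀ v ∈ U, φ v = 0 → v = 0 := by
    intro v hv h0
    have h5 : φ v = g ⟨v, hv⟩ := by
      have := LinearMap.congr_fun hφ ⟨v, hv⟩
      exact this
    rw [h5] at h0
    have := (LinearEquiv.map_eq_zero_iff g).1 h0
    exact congrArg Subtype.val this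
  have hMU : ∀ s, ∀ v ∈ M s, v ∈ U := fun s v hv =>
    Submodule.subset_span (Set.mem_iUnion.2 ⟨s, hv⟩)
  let ψ : V →ₗ[K] (Fin r → L) := φ.restrictScalars K
  have hψ : ∀ v, ψ v = φ v := fun v => rfl
  -- Euler characteristics
  have hchi : ∀ E : Chart → Submodule ℂ V, IsLat E → E ≤ M → ∀ a b,
      chi (mapL ψ E) a b = chi E a b := by
    intro E hE hEM a b
    have h5 := hE.chi_map ψ a b
    have h6 : (fun s => E s ⊓ LinearMap.ker (ψ.restrictScalars ℂ)) = ⊥ := by
      funext s
      rw [Pi.bot_apply, eq_bot_iff]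
      rintro v ⟨hv1, hv2⟩
      rw [Submodule.mem_bot]
      exact hφU v (hMU s v (hEM s hv1)) hv2
    rw [h6, IsLat.chi_bot, add_zero] at h5
    exact h5
  have hstab : ∀ E : Chart → Submodule ℂ V, strSheaf L • E = E →
      strSheaf L • mapL ψ E = mapL ψ E := by
    intro E hE
    funext s
    have h5 := map_smul_sub φ (strSheaf L s) (E s)
    have h6 : strSheaf L s • E s = E s := congrFun hE s
    rw [h6] at h5
    exact h5.symm
  have hlat : IsLat (mapL ψ M) := h1.map ψ
  have hO := hstab M h2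
  have hchiF : ∀ a b, chi (mapL ψ M) a b = chi M a b := hchi M h1 le_rfl
  have hleadF : lead (mapL ψ M) = lead M := lead_congr hchiF
  have hlamF : lam (mapL ψ M) = lam M := lam_congr hchiF
  have hS : Sst (strSheaf L) (mapL ψ M) := by
    intro E hE hOE hEM
    set E1 : Chart → Submodule ℂ V := fun s => M s ⊓ (E s).comap (ψ.restrictScalars ℂ) with hE1
    have hE1lat : IsLat E1 := h1.inf_comap hE ψ
    have hE1M : E1 ≤ M := fun s => inf_le_left
    have hmap : mapL ψ E1 = E := by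
      funext s
      apply le_antisymm
      · rintro _ ⟨v, ⟨_, hv2⟩, rfl⟩
        exact hv2
      · intro e he
        obtain ⟨v, hv, rfl⟩ := hEM s he
        exact ⟨v, ⟨hv, he⟩, rfl⟩
    have hOE1 : strSheaf L • E1 = E1 := by
      apply H.ring.smul_eq_of_le
      intro s
      show strSheaf L s • E1 s ≤ E1 s
      rw [Submodule.smul_le]
      rintro a ha v ⟨hv1, hv2⟩
      refine ⟨?_, ?_⟩
      · have : a • v ∈ (strSheaf L • M) s := Submodule.smul_mem_smul ha hv1
        rwa [h2] at this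
      · show φ (a • v) ∈ E s
        rw [map_smul]
        have : a • φ v ∈ (strSheaf L • E) s := Submodule.smul_mem_smul ha hv2
        rwa [hOE] at this
    have h5 := h3 E1 hE1lat hOE1 hE1M
    have h6 := hchi E1 hE1lat hE1M
    rw [hmap] at h6
    rw [lead_congr h6, lam_congr h6, hleadF, hlamF]
    exact h5
  refine ⟨mapL ψ M, IsSheaf.of_lat H hlat hO, ?_, H.isSemistable_of_sst hlat hO hS, ?_⟩
  · have h5 := H.lead_eq hlat hO
    rw [hleadF, hlead, hrk] at h5
    omega
  · intro a b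
    rw [hchiF, h4]

theorem key_aux (H : SurfFacts L) {r : ℕ} {F : Chart → Submodule ℂ (Fin r → L)}
    (hF : IsSheaf L F) (hrk : rk L F = r) (hS : IsSemistable L F) (n : ℕ) (j : ℤ) :
    (∃ F' : Chart → Submodule ℂ (Fin (2 ^ n * r) → L), IsSheaf L F' ∧ rk L F' = 2 ^ n * r ∧
      IsSemistable L F' ∧ lam F' = 2 ^ n * lam F + j * (8 * r) ∧
      chi F' 0 0 = 2 ^ n * chi F 0 0 + j * ca F) ∧
    (∃ F' : Chart → Submodule ℂ (Fin (2 ^ n * r) → L), IsSheaf L F' ∧ rk L F' = 2 ^ n * r ∧
      IsSemistable L F' ∧ lam F' = 2 ^ n * lam F + j * (8 * r) ∧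
      chi F' 0 0 = 2 ^ n * chi F 0 0 + j * cb F) := by
  have hfinL := H.fin
  have hlat := hF.isLat H
  have hO := hF.stable H
  have hSst := H.sst_of_isSemistable hlat hO hS
  have hlead : lead F = 8 * r := by rw [H.lead_eq hlat hO, hrk]
  have e := hlat.chi_eq
  rw [hlead] at e
  constructor
  · obtain ⟨v, hv⟩ := H.base_x
    have hO' : v.O • F = F := by rw [hv]; exact hO
    have h1 := tower 1 0 n L 0 v (Fin r → L) F hlat hO' (by rw [hv]; exact hSst) j
    rw [hv] at h1
    have h2 := fun a b => v.chi_L hlat hO' a b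
    have h3 : ∀ a b, chi (v.L • F) a b - chi F a b = 8 * r * b + ca F := by
      intro a b
      have := h2 a b
      rw [pow_zero, one_mul, e (a + 1), e a b] at this
      rw [e a b, this]; ring
    obtain ⟨F', f1, f2, f3, f4⟩ := transport H h1 (2 ^ n * r) (by
      beta_reduce
      rw [h3, h3, h3, h3, e 1 1, e 1 0, e 0 1, e 0 0]
      push_cast
      ring)
    refine ⟨F', f1, f2, f3, ?_, ?_⟩
    · rw [lam_eq, f4, f4, f4]
      beta_reduce
      rw [h3, h3, h3, lam_eq]
      ring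
    · rw [f4]
      beta_reduce
      rw [h3]
      ring
  · obtain ⟨v, hv⟩ := H.base_u
    have hO' : v.O • F = F := by rw [hv]; exact hO
    have h1 := tower 0 1 n L 0 v (Fin r → L) F hlat hO' (by rw [hv]; exact hSst) j
    rw [hv] at h1
    have h2 := fun a b => v.chi_L hlat hO' a b
    have h3 : ∀ a b, chi (v.L • F) a b - chi F a b = 8 * r * a + cb F := by
      intro a b
      have := h2 a b
      rw [pow_zero, one_mul, e (a + 0), e a b] at this
      rw [e a b, this]; ring
    obtain ⟨F', f1, f2, f3, f4⟩ := transport H h1 (2 ^ n * r) (by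
      beta_reduce
      rw [h3, h3, h3, h3, e 1 1, e 1 0, e 0 1, e 0 0]
      push_cast
      ring)
    refine ⟨F', f1, f2, f3, ?_, ?_⟩
    · rw [lam_eq, f4, f4, f4]
      beta_reduce
      rw [h3, h3, h3, lam_eq]
      ring
    · rw [f4]
      beta_reduce
      rw [h3]
      ring

/-- The set of values entering in the definition of the Le Potier function. -/
def Val (L : Type) [Field L] [Algebra ℂ L] [Algebra K L] [IsScalarTower ℂ K L] (m y : ℚ) : Prop :=
  ∃ (r : ℕ) (F : Chart → Submodule ℂ (Fin r → L)), 0 < r ∧ IsSheaf L F ∧ rk L F = r ∧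
    IsSemistable L F ∧ slope L F = m ∧ y = ch2 L F / (Hsq L * r)

theorem key (H : SurfFacts L) {m y : ℚ} (h : Val L m y) (n : ℕ) (j : ℤ) :
    ∃ y', Val L (m + j / (2 * 2 ^ n)) y' ∧ y + (j / 2 ^ n) * m / 2 ≤ y' := by
  have hfinL := H.fin
  obtain ⟨r, F, hr, hF, hrk, hS, rfl, rfl⟩ := h
  have hlat := hF.isLat H
  have hO := hF.stable H
  have hr' : (0 : ℚ) < r := by exact_mod_cast hr
  have h2n : (0 : ℚ) < 2 ^ n := by positivity
  have hpos : 0 < 2 ^ n * r := by positivity
  have hslope : ∀ {r : ℕ} {F : Chart → Submodule ℂ (Fin r → L)}, IsSheaf L F → rk L F = r →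
      slope L F = (lam F + 8 * r) / (16 * r) := by
    intro r F hF hrk
    unfold slope
    rw [H.deg_eq (hF.isLat H), H.Hsq_eq, hrk]
  have hch2 : ∀ {r : ℕ} {F : Chart → Submodule ℂ (Fin r → L)}, IsSheaf L F → rk L F = r →
      ch2 L F = chi F 0 0 + lam F / 2 + 2 * r := by
    intro r F hF hrk
    rw [H.ch2_eq (hF.isLat H) (hF.stable H), hrk]
  have hlam : (lam F : ℚ) = ca F + cb F := by unfold lam; push_cast; ring
  rw [hslope hF hrk, hch2 hF hrk, H.Hsq_eq]
  obtain ⟨⟨F1, a1, a2, a3, a4, a5⟩, ⟨F2, b1, b2, b3, b4, b5⟩⟩ := key_aux H hF hrk hS n j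
  have main : ∀ (z : ℤ) (F' : Chart → Submodule ℂ (Fin (2 ^ n * r) → L)), IsSheaf L F' →
      rk L F' = 2 ^ n * r → IsSemistable L F' → lam F' = 2 ^ n * lam F + j * (8 * r) →
      chi F' 0 0 = 2 ^ n * chi F 0 0 + j * z →
      (0 : ℚ) ≤ j * (2 * z - lam F) →
      ∃ y', Val L ((lam F + 8 * r) / (16 * r) + j / (2 * 2 ^ n)) y' ∧
        (chi F 0 0 + lam F / 2 + 2 * r) / (16 * r) +
          (j / 2 ^ n) * ((lam F + 8 * r) / (16 * r)) / 2 ≤ y' := by
    intro z F' c1 c2 c3 c4 c5 c6
    refine ⟨_, ⟨2 ^ n * r, F', hpos, c1, c2, c3, ?_, rfl⟩, ?_⟩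
    · rw [hslope c1 c2, c4]
      push_cast
      field_simp
      ring
    · rw [hch2 c1 c2, H.Hsq_eq, c4, c5]
      push_cast
      rw [← sub_nonneg]
      have : (2 ^ n * (chi F 0 0 : ℚ) + j * z + (2 ^ n * lam F + j * (8 * r)) / 2 + 2 * (2 ^ n * r)) /
          (16 * (2 ^ n * r)) - ((chi F 0 0 + lam F / 2 + 2 * r) / (16 * r) +
          (j / 2 ^ n) * ((lam F + 8 * r) / (16 * r)) / 2) =
          (j * (2 * z - lam F)) / (32 * (2 ^ n * r)) := by
        field_simp
        ring
      rw [this]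
      positivity
  rcases le_total 0 ((j : ℚ) * (ca F - cb F)) with hc | hc
  · exact main (ca F) F1 a1 a2 a3 a4 a5 (by rw [hlam]; linarith)
  · exact main (cb F) F2 b1 b2 b3 b4 b5 (by rw [hlam]; linarith)

end Pool.Agent.Lib.LP
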