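import Pool.Agent.Lib.MP_865fc0_ag.Bound

/-!
# The coordinate rings of the charts of `P^1 x P^1` are polynomial rings
-/

namespace Pool.Agent.Lib.LP

/-- The first coordinate of the chart `s`. -/
noncomputable def c0 (s : Chart) : K := if s.1 then x⁻¹ else x

/-- The second coordinate of the chart `s`. -/
noncomputable def c1 (s : Chart) : K := if s.2 then u⁻¹ else u

theorem Ralg_eq (s : Chart) : Ralg s = Algebra.adjoin ℂ {c0 s, c1 s} := rfl

theorem c0_mem (s : Chart) : c0 s ∈ Ralg s := Algebra.subset_adjoin (Or.inl rfl)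

theorem c1_mem (s : Chart) : c1 s ∈ Ralg s := Algebra.subset_adjoin (Or.inr rfl)

/-- The inclusion of the coordinate ring of the chart `s`. -/
noncomputable def polyHom (s : Chart) : MvPolynomial (Fin 2) ℂ →ₐ[ℂ] K :=
  MvPolynomial.aeval ![c0 s, c1 s]

theorem polyHom_monomial (s : Chart) (m : Fin 2 →₀ ℕ) : polyHom s (MvPolynomial.monomial m 1) =
    mon ((if s.1 then -(m 0 : ℤ) else m 0), (if s.2 then -(m 1 : ℤ) else m 1)) := by
  unfold polyHom
  rw [MvPolynomial.aeval_monomial, map_one, one_mul, Finsupp.prod_fintype _ _ (by simp),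
    Fin.prod_univ_two]
  unfold mon c0 c1
  simp only [Matrix.cons_val_zero, Matrix.cons_val_one]
  split_ifs <;> simp

theorem polyHom_injective (s : Chart) : Function.Injective (polyHom s) := by
  rw [injective_iff_map_eq_zero]
  intro p hp
  have hli := linearIndependent_mon.comp (fun m : Fin 2 →₀ ℕ =>
    ((if s.1 then -(m 0 : ℤ) else m 0), (if s.2 then -(m 1 : ℤ) else m 1))) (by
      intro m n hmn
      simp only [Prod.mk.injEq] at hmn
      ext i
      fin_cases i
      · have := hmn.1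
        split_ifs at this <;> simp_all
      · have := hmn.2
        split_ifs at this <;> simp_all)
  rw [linearIndependent_iff'] at hli
  have h1 : ∑ m ∈ p.support, MvPolynomial.coeff m p •
      (mon ∘ (fun m : Fin 2 →₀ ℕ =>
    ((if s.1 then -(m 0 : ℤ) else m 0), (if s.2 then -(m 1 : ℤ) else m 1)))) m = 0 := by
    have h2 : ∑ m ∈ p.support, MvPolynomial.coeff m p •
      (MvPolynomial.monomial m (1 : ℂ)) = p := by
      conv_rhs => rw [p.as_sum]
      apply Finset.sum_congr rfl
      intro m _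
      rw [MvPolynomial.smul_monomial, smul_eq_mul, mul_one]
    have h3 := congrArg (polyHom s) h2
    rw [hp, map_sum] at h3
    rw [← h3]
    apply Finset.sum_congr rfl
    intro m _
    rw [map_smul, polyHom_monomial]
    rfl
  ext m
  rw [MvPolynomial.coeff_zero]
  by_cases hm : m ∈ p.support
  · exact hli _ _ h1 m hm
  · exact MvPolynomial.notMem_support_iff.1 hm

theorem range_polyHom (s : Chart) : (polyHom s).range = Ralg s := by
  rw [Ralg_eq]
  unfold polyHom
  rw [← Algebra.adjoin_range_eq_range_aeval]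
  congr 1
  ext z
  simp
  tauto

/-- The coordinate ring of the chart `s` is a polynomial ring. -/
noncomputable def polyEquiv (s : Chart) : MvPolynomial (Fin 2) ℂ ≃ₐ[ℂ] Ralg s :=
  (AlgEquiv.ofInjective (polyHom s) (polyHom_injective s)).trans
    (Subalgebra.equivOfEq _ _ (range_polyHom s))

theorem coe_polyEquiv (s : Chart) (p : MvPolynomial (Fin 2) ℂ) :
    ((polyEquiv s p : Ralg s) : K) = polyHom s p := rfl

instance (s : Chart) : UniqueFactorizationMonoid (Ralg s) :=
  (polyEquiv s).toMulEquiv.uniqueFactorizationMonoid inferInstance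

theorem w_inv_mem (s : Chart) : (w s)⁻¹ ∈ Ralg s := by
  have h := w_div_mem (false, false) s
  have h1 : w (false, false) = 1 := by simp [w, wx, wu]
  rw [h1, one_div] at h
  exact h

theorem exists_frac (s : Chart) (z : K) : ∃ a ∈ Ralg s, ∃ b ∈ Ralg s, z = a / b := by
  have key : ∀ p : MvPolynomial (Fin 2) ℂ, ∃ N : ℕ, ∃ r ∈ Ralg s,
      algebraMap (MvPolynomial (Fin 2) ℂ) K p = w s ^ N * r := by
    intro p
    obtain ⟨N, hN⟩ := exists_poly_mem_W p
    have h := W_le s N hN
    rw [Submodule.mem_span_singleton_mul] at h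
    obtain ⟨r, hr, h⟩ := h
    refine ⟨N, r, hr, ?_⟩
    rw [← h, zpow_natCast]
  obtain ⟨p, q, -, hpq⟩ := IsFractionRing.div_surjective (A := MvPolynomial (Fin 2) ℂ) z
  obtain ⟨N, r, hr, hp⟩ := key p
  obtain ⟨M, r', hr', hq⟩ := key q
  refine ⟨r * (w s)⁻¹ ^ M, (Ralg s).mul_mem hr ((Ralg s).pow_mem (w_inv_mem s) _),
    r' * (w s)⁻¹ ^ N, (Ralg s).mul_mem hr' ((Ralg s).pow_mem (w_inv_mem s) _), ?_⟩
  rw [← hpq, hp, hq]
  have hw : w s ≠ 0 := w_ne_zero s
  by_cases h0 : r' = 0
  · simp [h0]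
  · have hN : w s ^ N * (w s)⁻¹ ^ N = 1 := by rw [← mul_pow, mul_inv_cancel₀ hw, one_pow]
    have hM : w s ^ M * (w s)⁻¹ ^ M = 1 := by rw [← mul_pow, mul_inv_cancel₀ hw, one_pow]
    rw [div_eq_div_iff (mul_ne_zero (pow_ne_zero _ hw) h0)
      (mul_ne_zero h0 (pow_ne_zero _ (inv_ne_zero hw)))]
    linear_combination r * r' * hN - r * r' * hM

instance (s : Chart) : IsFractionRing (Ralg s) K := by
  apply IsFractionRing.of_field
  intro z
  obtain ⟨a, ha, b, hb, h⟩ := exists_frac s z
  exact ⟨⟨a, ha⟩, ⟨b, hb⟩, h⟩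

instance (s : Chart) : IsIntegrallyClosed (Ralg s) :=
  UniqueFactorizationMonoid.instIsIntegrallyClosed

theorem mem_Ralg_of_isIntegral (s : Chart) {z : K} (hz : IsIntegral (Ralg s) z) : z ∈ Ralg s := by
  rw [IsIntegrallyClosed.isIntegral_iff] at hz
  obtain ⟨y, hy⟩ := hz
  rw [← hy]
  exact y.2

end Pool.Agent.Lib.LP
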