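import Pool.Agent.Lib.MP_865fc0_ag.Chi

/-!
# The structure lattice of `P^1 × P^1`, and the leading coefficient
-/

open scoped Pointwise
open Filter

namespace Pool.Agent.Lib.LP

/-- Exponents occurring in `wx_s^a wu_s^b R_s`. -/
def Quad2 (s : Chart) (a b : ℤ) : Set (ℤ × ℤ) :=
  {p | (if s.1 then p.1 ≤ a else 0 ≤ p.1) ∧ (if s.2 then p.2 ≤ b else 0 ≤ p.2)}

/-- Exponents of sections of `O(a,b)`. -/
def Box2 (a b : ℤ) : Set (ℤ × ℤ) := {p | (0 ≤ p.1 ∧ p.1 ≤ a) ∧ (0 ≤ p.2 ∧ p.2 ≤ b)}

theorem iInter_Quad2 (a b : ℤ) : ⋂ s, Quad2 s a b = Box2 a b := by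
  ext p
  simp only [Set.mem_iInter, Quad2, Box2, Set.mem_ofPred_eq]
  constructor
  · intro h
    have h1 := h (false, false)
    have h2 := h (true, true)
    simp at h1 h2
    omega
  · intro h s
    split_ifs <;> omega

theorem wab_eq_mon (s : Chart) (a b : ℤ) :
    wx s ^ a * wu s ^ b = mon ((if s.1 then a else 0), (if s.2 then b else 0)) := by
  unfold wx wu mon
  split_ifs <;> simp

theorem line_wab_smul_R (s : Chart) (a b : ℤ) :
    line (wx s ^ a * wu s ^ b) • R s = MonS (Quad2 s a b) := by
  rw [smul_eq_mul]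
  unfold line
  rw [wab_eq_mon, R_eq, mon_mul_MonS]
  congr 1
  ext q
  simp only [Set.mem_image, Quad, Quad2, Set.mem_ofPred_eq]
  constructor
  · rintro ⟨⟨a', b'⟩, h, rfl⟩
    simp only [Prod.fst_add, Prod.snd_add]
    split_ifs at h ⊢ <;> omega
  · intro h
    refine ⟨q - ((if s.1 then a else 0), (if s.2 then b else 0)), ?_, ?_⟩
    · simp only [Prod.fst_sub, Prod.snd_sub]
      split_ifs at h ⊢ <;> omega
    · abel

theorem isLat_R : IsLat R where
  fg := fun s => ⟨1, by rw [Submodule.one_eq_span]; exact Submodule.fg_span_singleton 1, by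
    rw [smul_eq_mul, mul_one]⟩
  glue := by
    intro s t v hv
    rw [R_eq] at hv
    unfold MonS at hv
    induction hv using Submodule.span_induction with
    | mem v hv =>
      obtain ⟨p, hp, rfl⟩ := hv
      refine ⟨p.1.natAbs + p.2.natAbs, ?_⟩
      rw [div_pow, smul_eq_mul]
      have e1 : ∀ s : Chart, w s ^ (p.1.natAbs + p.2.natAbs) =
          mon ((if s.1 then (p.1.natAbs + p.2.natAbs : ℤ) else 0),
            (if s.2 then (p.1.natAbs + p.2.natAbs : ℤ) else 0)) := by
        intro s
        have := w_pow_eq_mon s ((p.1.natAbs + p.2.natAbs : ℕ) : ℤ)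
        rw [zpow_natCast] at this
        rw [this]
        push_cast
        rfl
      have e2 : (w t ^ (p.1.natAbs + p.2.natAbs))⁻¹ =
          mon (-(if t.1 then (p.1.natAbs + p.2.natAbs : ℤ) else 0),
            -(if t.2 then (p.1.natAbs + p.2.natAbs : ℤ) else 0)) := by
        rw [e1]
        apply inv_eq_of_mul_eq_one_left
        rw [← mon_add, ← mon_zero]
        congr 1
        ext
        · simp
        · simp
      rw [div_eq_mul_inv, e1, e2, ← mon_add, ← mon_add, R_eq]
      apply mon_mem_MonS
      simp only [Quad, Set.mem_ofPred_eq, Prod.fst_add, Prod.snd_add] at hp ⊢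
      split_ifs at hp ⊢ <;> omega
    | zero => exact ⟨0, by rw [smul_zero]; exact (R t).zero_mem⟩
    | add a b _ _ ha hb =>
      obtain ⟨n, hn⟩ := ha
      obtain ⟨m, hm⟩ := hb
      refine ⟨n + m, ?_⟩
      rw [smul_add]
      refine (R t).add_mem ?_ ?_
      · rw [pow_add, mul_comm, mul_smul, smul_eq_mul]
        exact (Ralg t).mul_mem (w_div_pow_mem s t m) hn
      · rw [pow_add, mul_smul, smul_eq_mul]
        exact (Ralg t).mul_mem (w_div_pow_mem s t n) hm
    | smul c a _ ha =>
      obtain ⟨n, hn⟩ := ha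
      exact ⟨n, by rw [smul_comm]; exact (R t).smul_mem c hn⟩

theorem Sec_R (a b : ℤ) : Sec R a b = MonS (Box2 a b) := by
  unfold Sec tw
  simp_rw [line_wab_smul_R]
  rw [iInf_MonS, iInter_Quad2]

theorem finrank_MonS_Box2 (a b : ℕ) :
    Module.finrank ℂ (MonS (Box2 a b)) = (a + 1) * (b + 1) := by
  classical
  have h1 : Box2 a b = ((Finset.Icc (0 : ℤ) a ×ˢ Finset.Icc (0 : ℤ) b : Finset (ℤ × ℤ)) :
      Set (ℤ × ℤ)) := by
    ext p
    simp only [Box2, Set.mem_ofPred_eq, Finset.coe_product, Finset.coe_Icc, Set.mem_prod,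
      Set.mem_Icc]
  unfold MonS
  rw [h1]
  set T := (Finset.Icc (0 : ℤ) a ×ˢ Finset.Icc (0 : ℤ) b : Finset (ℤ × ℤ)) with hT
  have h2 : mon '' (T : Set (ℤ × ℤ)) = Set.range (fun p : T => mon p) := by
    ext z
    simp
  rw [h2, finrank_span_eq_card]
  · simp only [Fintype.card_coe]
    rw [hT, Finset.card_product, Int.card_Icc, Int.card_Icc]
    congr 1
  · exact linearIndependent_mon.comp _ Subtype.val_injective

theorem chi_R (a b : ℤ) : chi R a b = (a + 1) * (b + 1) := by
  refine isLat_R.chi_unique (p := fun a b => (a + 1) * (b + 1)) ⟨1, 1, 1, 1, fun a b => by ring⟩ ?_ a b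
  intro a b
  filter_upwards [eventually_ge_atTop (a.natAbs + b.natAbs)] with n hn
  unfold h0
  rw [Sec_R]
  obtain ⟨a', ha'⟩ : ∃ a' : ℕ, (n : ℤ) + a = a' := ⟨((n : ℤ) + a).toNat, by omega⟩
  obtain ⟨b', hb'⟩ : ∃ b' : ℕ, (n : ℤ) + b = b' := ⟨((n : ℤ) + b).toNat, by omega⟩
  rw [ha', hb', finrank_MonS_Box2]
  push_cast
  rfl

theorem finrank_W (n : ℕ) : Module.finrank ℂ (W n) = (n + 1) * (n + 1) := by
  have : W n = MonS (Box2 n n) := rfl
  rw [this, finrank_MonS_Box2]

theorem nonneg_of_eventually {a b c : ℤ}
    (h : ∀ᶠ n : ℕ in atTop, 0 ≤ a * (n : ℤ) ^ 2 + b * n + c) : 0 ≤ a := by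
  by_contra ha
  push Not at ha
  obtain ⟨N, hN⟩ := eventually_atTop.1 h
  have h1 := hN (N + b.natAbs + c.natAbs + 1) (by omega)
  set n : ℕ := N + b.natAbs + c.natAbs + 1 with hn
  have h2 : b ≤ b.natAbs := Int.le_natAbs
  have h3 : c ≤ c.natAbs := Int.le_natAbs
  have h4 : (n : ℤ) = N + b.natAbs + c.natAbs + 1 := by rw [hn]; push_cast; ring
  have h5 : (0 : ℤ) ≤ n := by positivity
  have h6 : (0 : ℤ) ≤ N := by positivity
  have h7 : a * (n : ℤ) ^ 2 ≤ - (n : ℤ) ^ 2 := by nlinarith [sq_nonneg (n : ℤ)]
  have h8 : b * (n : ℤ) ≤ b.natAbs * n := mul_le_mul_of_nonneg_right h2 h5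
  have h9 : (b.natAbs : ℤ) * n + c.natAbs < n ^ 2 := by
    have e : (n : ℤ) ^ 2 = (N + b.natAbs + c.natAbs + 1) * n := by rw [sq, ← h4]
    have h10 : (0 : ℤ) ≤ c.natAbs := by positivity
    have h11 : (0 : ℤ) ≤ b.natAbs := by positivity
    rw [e]
    nlinarith [mul_nonneg h6 h5, mul_nonneg h10 h5, mul_nonneg h11 h5]
  linarith

section

variable {V : Type*} [AddCommGroup V] [Module ℂ V] [Module K V] [IsScalarTower ℂ K V]
variable {V' : Type*} [AddCommGroup V'] [Module ℂ V'] [Module K V'] [IsScalarTower ℂ K V']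
variable {F G : Chart → Submodule ℂ V}

theorem IsLat.h0_diag [Module.Finite K V] (hF : IsLat F) : ∀ᶠ n : ℕ in atTop,
    (Module.finrank ℂ (Sec F n n) : ℤ) = lead F * (n : ℤ) ^ 2 + (ca F + cb F) * n + chi F 0 0 := by
  filter_upwards [hF.chi_spec 0 0] with n hn
  unfold h0 at hn
  rw [add_zero] at hn
  rw [hn, hF.chi_eq]
  ring

theorem IsLat.lead_of_full [Module.Finite K V] (hF : IsLat F)
    (hfull : Submodule.span K (F (false, false) : Set V) = ⊤) :
    lead F = Module.finrank K V := by
  classical
  apply le_antisymm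
  · -- upper bound
    obtain ⟨d, b, c, N, hc, hb⟩ := IsLat.exists_bound' (F := F)
      (fun s => by obtain ⟨T, hT, h⟩ := hF.fg s; exact ⟨T, hT, h.le⟩)
    have hd : Module.finrank K V = d := by simp [Module.finrank_eq_card_basis b]
    rw [hd]
    have h1 : ∀ n : ℕ, Module.finrank ℂ (Sec F n n) ≤ d * ((n + N + 1) * (n + N + 1)) := by
      intro n
      let f : Sec F n n →ₗ[ℂ] (Fin d → W ((n + N : ℕ) : ℤ)) :=
        { toFun := fun v i => ⟨c * b.repr v i, by push_cast; exact hb n v v.2 i⟩
          map_add' := by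
            intro v v'
            ext i
            simp [mul_add]
          map_smul' := by
            intro a v
            ext i
            have : b.repr (a • (v : V)) i = a • b.repr v i := by
              rw [← algebraMap_smul K a (v : V), map_smul, Finsupp.smul_apply, algebraMap_smul]
            simp [this] }
      have hf : Function.Injective f := by
        intro v v' h
        apply Subtype.ext
        apply b.repr.injective
        ext i
        have := congrArg (fun g => ((g i : W ((n + N : ℕ) : ℤ)) : K)) h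
        simp only [f, LinearMap.coe_mk, AddHom.coe_mk] at this
        exact mul_left_cancel₀ hc this
      have : Module.Finite ℂ (W ((n + N : ℕ) : ℤ)) := Module.Finite.iff_fg.2 (fg_W _)
      have := LinearMap.finrank_le_finrank_of_injective hf
      rw [Module.finrank_pi_fintype] at this
      simp only [finrank_W, Finset.sum_const, Finset.card_univ, Fintype.card_fin,
        smul_eq_mul] at this
      exact this
    have h2 : 0 ≤ (d : ℤ) - lead F := by
      apply nonneg_of_eventually (b := 2 * d * (N + 1) - (ca F + cb F))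
        (c := d * (N + 1) ^ 2 - chi F 0 0)
      filter_upwards [hF.h0_diag] with n hn
      have := h1 n
      zify at this
      rw [hn] at this
      nlinarith
    linarith
  · -- lower bound
    obtain ⟨ι, b, hb⟩ : ∃ (ι : Type _) (b : Module.Basis ι K V), ∀ i, b i ∈ F (false, false) :=
      ⟨_, Module.Basis.ofSpan hfull.ge, fun i =>
        Module.Basis.ofSpan_subset hfull.ge ⟨i, rfl⟩⟩
    have : Fintype ι := FiniteDimensional.fintypeBasisIndex b
    have hd := Module.finrank_eq_card_basis b
    have h1 : ∀ i, ∃ n : ℕ, ∀ m, n ≤ m → b i ∈ Sec F (m : ℤ) m := by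
      intro i
      obtain ⟨n, hn⟩ := hF.exists_global (hb i)
      refine ⟨n, fun m hm => ?_⟩
      have := hn m hm
      have hw : w (false, false) = 1 := by simp [w, wx, wu]
      rwa [hw, one_pow, one_smul] at this
    choose N hN using h1
    set N0 := ∑ i, N i with hN0
    have h2 : ∀ i, b i ∈ Sec F (N0 : ℤ) N0 := fun i => hN i N0
      (Finset.single_le_sum (f := N) (fun _ _ => Nat.zero_le _) (Finset.mem_univ i))
    have h3 : ∀ n : ℕ, Module.finrank K V * ((n + 1) * (n + 1)) ≤
        Module.finrank ℂ (Sec F ((N0 + n : ℕ) : ℤ) ((N0 + n : ℕ) : ℤ)) := by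
      intro n
      let f : (_ → W (n : ℤ)) →ₗ[ℂ] Sec F ((N0 + n : ℕ) : ℤ) ((N0 + n : ℕ) : ℤ) :=
        { toFun := fun g => ⟨∑ i, (g i : K) • b i, by
            refine Submodule.sum_mem _ fun i _ => ?_
            exact hF.W_smul_Sec n N0 (Submodule.smul_mem_smul (g i).2 (h2 i))⟩
          map_add' := by
            intro g g'
            ext
            simp [add_smul, Finset.sum_add_distrib]
          map_smul' := by
            intro a g
            ext
            simp [Finset.smul_sum] }
      have hf : Function.Injective f := by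
        rw [← LinearMap.ker_eq_bot, LinearMap.ker_eq_bot']
        intro g hg
        have h4 : ∑ i, (g i : K) • b i = 0 := congrArg Subtype.val hg
        have h5 := Fintype.linearIndependent_iff.1 b.linearIndependent _ h4
        ext i
        exact h5 i
      have : Module.Finite ℂ (Sec F ((N0 + n : ℕ) : ℤ) ((N0 + n : ℕ) : ℤ)) :=
        Module.Finite.iff_fg.2 (hF.fg_Sec _)
      have := LinearMap.finrank_le_finrank_of_injective hf
      have hfin : Module.Finite ℂ (W (n : ℤ)) := Module.Finite.iff_fg.2 (fg_W _)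
      rw [Module.finrank_pi_fintype] at this
      simp only [finrank_W, Finset.sum_const, Finset.card_univ, smul_eq_mul] at this
      rw [hd]
      exact this
    have h4 : 0 ≤ lead F - (Module.finrank K V : ℤ) := by
      apply nonneg_of_eventually
        (b := lead F * (2 * N0) + (ca F + cb F) - Module.finrank K V * 2)
        (c := lead F * N0 ^ 2 + (ca F + cb F) * N0 + chi F 0 0 - Module.finrank K V)
      have := (tendsto_add_atTop_nat N0).eventually hF.h0_diag
      filter_upwards [this] with n hn
      have h5 := h3 n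
      zify at h5
      rw [add_comm n N0] at hn
      push_cast at h5 hn
      rw [hn] at h5
      nlinarith
    linarith

theorem IsLat.mem_span (hF : IsLat F) {s : Chart} {v : V} (hv : v ∈ F s) :
    v ∈ Submodule.span K (F (false, false) : Set V) := by
  obtain ⟨n, hn⟩ := hF.glue s (false, false) v hv
  have h1 := (Submodule.span K (F (false, false) : Set V)).smul_mem
    (((w s / w (false, false)) ^ n)⁻¹) (Submodule.subset_span hn)
  rwa [smul_smul, inv_mul_cancel₀, one_smul] at h1
  exact pow_ne_zero _ (div_ne_zero (w_ne_zero _) (w_ne_zero _))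

theorem map_injective_of_injective' {φ : V →ₗ[K] V'} (hφ : Function.Injective φ) :
    Function.Injective (Submodule.map (φ.restrictScalars ℂ)) :=
  Submodule.map_injective_of_injective (f := φ.restrictScalars ℂ) hφ

/-- The leading coefficient of the Hilbert polynomial is the dimension of the `K`-span. -/
theorem IsLat.lead_eq [Module.Finite K V] (hF : IsLat F) :
    lead F = Module.finrank K (Submodule.span K (F (false, false) : Set V)) := by
  set U := Submodule.span K (F (false, false) : Set V) with hU
  let F' : Chart → Submodule ℂ U := fun s => (F s).comap (U.subtype.restrictScalars ℂ)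
  have hφ : Function.Injective U.subtype := Subtype.val_injective
  have hFF : ∀ s, (F' s).map (U.subtype.restrictScalars ℂ) = F s := by
    intro s
    apply le_antisymm
    · exact Submodule.map_comap_le _ _
    · intro v hv
      exact ⟨⟨v, hF.mem_span hv⟩, hv, rfl⟩
  have hmap : mapL U.subtype F' = F := funext hFF
  have hlat : IsLat F' := by
    constructor
    · intro s
      obtain ⟨T, hT, h⟩ := hF.fg s
      have hTF : T ≤ F s := by
        rw [h]
        intro v hv
        rw [← one_smul K v]
        exact Submodule.smul_mem_smul (one_mem_R s) hv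
      have hTT : (T.comap (U.subtype.restrictScalars ℂ)).map (U.subtype.restrictScalars ℂ) = T := by
        apply le_antisymm
        · exact Submodule.map_comap_le _ _
        · intro v hv
          exact ⟨⟨v, hF.mem_span (hTF hv)⟩, hv, rfl⟩
      refine ⟨T.comap (U.subtype.restrictScalars ℂ), ?_, ?_⟩
      · apply Submodule.fg_of_fg_map_injective (U.subtype.restrictScalars ℂ) hφ
        rw [hTT]; exact hT
      · apply map_injective_of_injective' hφ
        rw [map_smul_sub, hTT, hFF, h]
    · intro s t v hv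
      obtain ⟨n, hn⟩ := hF.glue s t v hv
      exact ⟨n, hn⟩
  have hfull : Submodule.span K (F' (false, false) : Set U) = ⊤ := by
    apply Submodule.map_injective_of_injective (f := U.subtype) hφ
    rw [Submodule.map_span, Submodule.map_top, Submodule.range_subtype]
    refine Eq.trans ?_ hU.symm
    congr 1
    ext v
    constructor
    · rintro ⟨v', hv', rfl⟩
      exact hv'
    · intro hv
      exact ⟨⟨v, Submodule.subset_span hv⟩, hv, rfl⟩
  have h1 := hlat.lead_of_full hfull
  rw [← h1]
  have h2 := hlat.chi_map_of_injective U.subtype hφ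
  rw [hmap] at h2
  unfold lead
  rw [h2, h2, h2, h2]

theorem IsLat.lead_nonneg [Module.Finite K V] (hF : IsLat F) : 0 ≤ lead F := by
  rw [hF.lead_eq]; positivity

end

end Pool.Agent.Lib.LP
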