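import Pool.Agent.Lib.MP_865fc0_ag.Rank

/-!
# Families of subspaces as a module over the idempotent semiring of families
-/

open scoped Pointwise
open Filter

namespace Pool.Agent.Lib.LP

section

variable {C : Type*} [CommRing C] [Algebra ℂ C]
variable {V : Type*} [AddCommGroup V] [Module ℂ V]
variable [Module C V] [IsScalarTower ℂ C V]
variable {A B O : Chart → Submodule ℂ C} {F G : Chart → Submodule ℂ V}

theorem mulS (A B : Chart → Submodule ℂ C) (F : Chart → Submodule ℂ V) :
    (A * B) • F = A • B • F := by
  funext s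
  exact Submodule.smul_assoc (A s) (B s) (F s)

theorem supS (A B : Chart → Submodule ℂ C) (F : Chart → Submodule ℂ V) :
    (A ⊔ B) • F = A • F ⊔ B • F := by
  funext s
  exact Submodule.sup_smul (A s) (B s) (F s)

theorem Ssup (A : Chart → Submodule ℂ C) (F G : Chart → Submodule ℂ V) :
    A • (F ⊔ G) = A • F ⊔ A • G := by
  funext s
  exact Submodule.smul_sup (A s) (F s) (G s)

theorem oneS (F : Chart → Submodule ℂ V) : (1 : Chart → Submodule ℂ C) • F = F := by
  funext s
  exact Submodule.one_smul (F s)

theorem SmonoL (h : A ≤ B) (F : Chart → Submodule ℂ V) : A • F ≤ B • F :=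
  fun s => Submodule.smul_mono_left (h s)

theorem SmonoR (A : Chart → Submodule ℂ C) (h : F ≤ G) : A • F ≤ A • G :=
  fun s => Submodule.smul_mono le_rfl (h s)

theorem Smono (h : A ≤ B) (h' : F ≤ G) : A • F ≤ B • G :=
  fun s => Submodule.smul_mono (h s) (h' s)

/-- The constant family spanned by an element. -/
noncomputable def ln (y : C) : Chart → Submodule ℂ C := fun _ => line y

theorem ln_mul (y z : C) : ln (y * z) = ln y * ln z := by
  funext s
  exact (line_mul_line y z).symm

theorem ln_one : (ln (1 : C)) = 1 := by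
  funext s
  exact line_one

theorem mem_ln_smul {y : C} {s : Chart} {v : V} :
    v ∈ (ln y • F) s ↔ ∃ n ∈ F s, y • n = v := mem_line_smul

end

/-- Multiplication by an element, as a `K`-linear map. -/
def mulE {C : Type*} [CommRing C] [Algebra K C] (V : Type*) [AddCommGroup V] [Module K V]
    [Module C V] [IsScalarTower K C V] (y : C) :
    V →ₗ[K] V where
  toFun v := y • v
  map_add' := smul_add y
  map_smul' k v := smul_comm y k v

section

variable {C : Type*} [CommRing C] [Algebra K C]
variable {V : Type*} [AddCommGroup V] [Module K V] [Module C V] [IsScalarTower K C V]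

@[simp] theorem mulE_apply (y : C) (v : V) : mulE V y v = y • v := rfl

theorem mulE_injective {y : C} (hy : IsUnit y) : Function.Injective (mulE V y) := by
  obtain ⟨y, rfl⟩ := hy
  intro a b h
  have h1 := congrArg (fun v => (↑y⁻¹ : C) • v) h
  simp only [mulE_apply] at h1
  rwa [smul_smul, smul_smul, Units.inv_mul, one_smul, one_smul] at h1

end

section

variable {C : Type*} [CommRing C] [Algebra ℂ C] [Algebra K C]
variable {V : Type*} [AddCommGroup V] [Module ℂ V] [Module K V] [IsScalarTower ℂ K V]
variable [Module C V] [IsScalarTower ℂ C V] [IsScalarTower K C V]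
variable {A B O : Chart → Submodule ℂ C} {F G : Chart → Submodule ℂ V}

theorem ln_smul_eq (y : C) (F : Chart → Submodule ℂ V) : ln y • F = mapL (mulE V y) F := by
  funext s
  ext v
  rw [mem_ln_smul]
  rfl

theorem IsLat.ln_smul (hF : IsLat F) (y : C) : IsLat (ln y • F) := by
  rw [ln_smul_eq]; exact hF.map _

variable [IsScalarTower ℂ K C]

theorem IsLat.fsmul (hA : IsLat A) (hF : IsLat F) : IsLat (A • F) := hA.smul hF

theorem IsLat.fmul (hA : IsLat A) (hB : IsLat B) : IsLat (A * B) := hA.smul hB

theorem IsLat.chi_ln [Module.Finite K V] (hF : IsLat F) {y : C} (hy : IsUnit y) (a b : ℤ) :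
    chi (ln y • F) a b = chi F a b := by
  rw [ln_smul_eq]
  exact hF.chi_map_of_injective _ (mulE_injective hy) a b

/-- The twist as multiplication by a family. -/
noncomputable def twf (C : Type*) [CommRing C] [Algebra ℂ C] [Algebra K C] (a b : ℤ) :
    Chart → Submodule ℂ C :=
  fun s => line (algebraMap K C (wx s ^ a * wu s ^ b))

theorem twf_smul (a b : ℤ) (F : Chart → Submodule ℂ V) : twf C a b • F = tw a b F := by
  funext s
  ext v
  have h1 : v ∈ (twf C a b • F) s ↔
      ∃ n ∈ F s, (algebraMap K C (wx s ^ a * wu s ^ b)) • n = v := mem_line_smul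
  rw [h1]
  unfold LP.tw
  rw [mem_line_smul]
  simp only [algebraMap_smul]

theorem twf_mul (a b c d : ℤ) : twf C a b * twf C c d = twf C (a + c) (b + d) := by
  funext s
  show line (algebraMap K C _) * line (algebraMap K C _) = line (algebraMap K C _)
  rw [line_mul_line, ← map_mul]
  congr 2
  rw [zpow_add₀ (wx_ne_zero s), zpow_add₀ (wu_ne_zero s)]
  ring

theorem twf_zero : twf C 0 0 = 1 := by
  funext s
  show line (algebraMap K C _) = 1
  rw [zpow_zero, zpow_zero, one_mul, map_one, line_one]

theorem tw_mul (a b : ℤ) (A B : Chart → Submodule ℂ C) : tw a b A * B = tw a b (A * B) := by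
  rw [← twf_smul (C := C), ← twf_smul (C := C)]
  show (twf C a b * A) * B = twf C a b * (A * B)
  rw [mul_assoc]

theorem tw_fsmul (a b : ℤ) (A : Chart → Submodule ℂ C) (F : Chart → Submodule ℂ V) :
    tw a b A • F = tw a b (A • F) := by
  rw [← twf_smul (C := C), ← twf_smul (C := C) a b (A • F), ← mulS]
  rfl

theorem smul_tw (a b : ℤ) (A : Chart → Submodule ℂ C) (F : Chart → Submodule ℂ V) :
    A • tw a b F = tw a b (A • F) := by
  rw [← twf_smul (C := C), ← twf_smul (C := C) a b (A • F), ← mulS, ← mulS, mul_comm]

/-- `O` is a sheaf of rings. -/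
structure IsRingLat (O : Chart → Submodule ℂ C) : Prop where
  lat : IsLat O
  mul : O * O = O
  one : 1 ≤ O

theorem IsRingLat.smul_eq_of_le (hO : IsRingLat O) (h : O • F ≤ F) : O • F = F := by
  apply le_antisymm h
  conv_lhs => rw [← oneS (C := C) F]
  exact SmonoL hO.one F

/-- Invertible families commute with intersections. -/
theorem Sinf (hO : IsRingLat O) (hAO : A * O = A) (hAB : A * B = O)
    (hF : O • F = F) (hG : O • G = G) : A • (F ⊓ G) = A • F ⊓ A • G := by
  apply le_antisymm
  · exact le_inf (SmonoR A inf_le_left) (SmonoR A inf_le_right)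
  · have hX : O • (A • F ⊓ A • G) = A • F ⊓ A • G := by
      apply hO.smul_eq_of_le
      apply le_inf
      · refine (SmonoR O inf_le_left).trans ?_
        rw [← mulS, mul_comm, hAO]
      · refine (SmonoR O inf_le_right).trans ?_
        rw [← mulS, mul_comm, hAO]
    rw [← hX, ← hAB, mulS]
    apply SmonoR
    apply le_inf
    · refine (SmonoR B inf_le_left).trans ?_
      rw [← mulS, mul_comm, hAB, hF]
    · refine (SmonoR B inf_le_right).trans ?_
      rw [← mulS, mul_comm, hAB, hG]

/-- Invertible families reflect inclusions. -/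
theorem Sle_of_le (hAB : A * B = O) (hF : O • F = F) (hG : O • G = G) (h : A • F ≤ A • G) :
    F ≤ G := by
  have := SmonoR B h
  rwa [← mulS, ← mulS, mul_comm, hAB, hF, hG] at this

end

end Pool.Agent.Lib.LP
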