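import Pool.Agent.Lib.MP_865fc0_ag.Dlem

/-!
# Pencils, semistability, and étale double covers
-/

open scoped Pointwise
open Filter

namespace Pool.Agent.Lib.LP

section

variable {C : Type*} [CommRing C] [Algebra ℂ C] [Algebra K C] [IsScalarTower ℂ K C]
variable {V : Type*} [AddCommGroup V] [Module ℂ V] [Module K V] [IsScalarTower ℂ K V]
variable [Module C V] [IsScalarTower ℂ C V] [IsScalarTower K C V]
variable {O L Li : Chart → Submodule ℂ C} {M E F : Chart → Submodule ℂ V}

/-- The pencil lemma. -/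
theorem pencil [Module.Finite K V] (hO : IsRingLat O) {ℓ : C} (hℓ : IsUnit ℓ)
    (hL : L = O ⊔ ln ℓ * O) (hLL : L * Li = O) (hLi : IsLat Li)
    (hM : IsLat M) (hOM : O • M = M) (a b : ℤ) :
    chi (L • M) a b + chi (Li • M) a b = 2 * chi M a b := by
  have hLM : L • M = M ⊔ ln ℓ • M := by rw [hL, supS, hOM, mulS, hOM]
  have h1L : 1 ≤ L := by rw [hL]; exact hO.one.trans le_sup_left
  have hLiO' : Li ≤ O := by
    rw [← hLL]
    conv_lhs => rw [← one_mul Li]
    exact mul_le_mul_left h1L Li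
  have hlnL : ln ℓ ≤ L := by
    rw [hL]
    refine le_trans ?_ le_sup_right
    conv_lhs => rw [← mul_one (ln ℓ)]
    exact mul_le_mul_right hO.one _
  obtain ⟨ℓ', hℓ'⟩ := hℓ.exists_right_inv
  have hln1 : ln ℓ * ln ℓ' = (1 : Chart → Submodule ℂ C) := by rw [← ln_mul, hℓ', ln_one]
  have hln2 : ln ℓ' * ln ℓ = (1 : Chart → Submodule ℂ C) := by rw [mul_comm, hln1]
  have hinf : M ⊓ ln ℓ • M = ln ℓ • Li • M := by
    apply le_antisymm
    · set Y := M ⊓ ln ℓ • M with hY
      have hOY : O • Y = Y := by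
        apply hO.smul_eq_of_le
        apply le_inf
        · exact (SmonoR O inf_le_left).trans hOM.le
        · refine (SmonoR O inf_le_right).trans ?_
          rw [← mulS, mul_comm, mulS, hOM]
      have h1 : ln ℓ' • Y ≤ M := by
        refine (SmonoR _ inf_le_right).trans ?_
        rw [← mulS, hln2, oneS]
      have h2 : L • ln ℓ' • Y ≤ M := by
        rw [hL, supS, ← mulS O, mul_comm O, mulS, hOY]
        apply sup_le h1
        rw [mulS, ← mulS O, mul_comm O, mulS, hOY, ← mulS, hln1, oneS]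
        exact inf_le_left
      have h3 := SmonoR Li h2
      rw [← mulS, mul_comm Li, hLL, ← mulS, mul_comm O, mulS, hOY] at h3
      have h4 := SmonoR (ln ℓ) h3
      rwa [← mulS (ln ℓ) (ln ℓ') Y, hln1, oneS] at h4
    · apply le_inf
      · rw [← mulS]
        calc (ln ℓ * Li) • M ≤ (L * Li) • M := SmonoL (mul_le_mul_left hlnL Li) M
          _ = M := by rw [hLL, hOM]
      · apply SmonoR
        calc Li • M ≤ O • M := SmonoL hLiO' M
          _ = M := hOM
  have h1 := hM.chi_sup (hM.ln_smul ℓ) a b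
  rw [hinf, ← hLM, hM.chi_ln hℓ, (hLi.fsmul hM).chi_ln hℓ] at h1
  linarith

/-- Twisting by powers of a pencil. -/
theorem pencil_pow [Module.Finite K V] (hO : IsRingLat O) {ℓ : C} (hℓ : IsUnit ℓ)
    (hL : L = O ⊔ ln ℓ * O) (hLL : L * Li = O) (hLlat : IsLat L)
    (hLi : IsLat Li) (hM : IsLat M) (hOM : O • M = M) (n : ℕ) :
    (IsLat (L ^ n • M) ∧ O • L ^ n • M = L ^ n • M ∧ ∀ a b,
      chi (L ^ n • M) a b = chi M a b + n * (chi (L • M) a b - chi M a b)) ∧
    (IsLat (L ^ (n + 1) • M) ∧ O • L ^ (n + 1) • M = L ^ (n + 1) • M ∧ ∀ a b,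
      chi (L ^ (n + 1) • M) a b = chi M a b + (n + 1) * (chi (L • M) a b - chi M a b)) := by
  have hLO : L * O = L := by
    rw [hL, ← add_eq_sup, add_mul, mul_assoc, hO.mul]
  induction n with
  | zero =>
    refine ⟨⟨?_, ?_, ?_⟩, ?_, ?_, ?_⟩
    · rw [pow_zero, oneS]; exact hM
    · rw [pow_zero, oneS]; exact hOM
    · intro a b; rw [pow_zero, oneS]; simp
    · rw [zero_add, pow_one]; exact hLlat.fsmul hM
    · rw [zero_add, pow_one, ← mulS, mul_comm, hLO]
    · intro a b; rw [zero_add, pow_one]; push_cast; ring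
  | succ n ih =>
    refine ⟨?_, ?_, ?_, ?_⟩
    · push_cast
      exact ih.2
    · rw [pow_succ', mulS]; exact hLlat.fsmul ih.2.1
    · rw [pow_succ' L (n + 1), mulS, ← mulS O, mul_comm O, hLO]
    · intro a b
      have h1 := pencil hO hℓ hL hLL hLi ih.2.1 ih.2.2.1 a b
      have e1 : L • L ^ (n + 1) • M = L ^ (n + 1 + 1) • M := by
        rw [pow_succ' L (n + 1), mulS]
      have e2 : Li • L ^ (n + 1) • M = L ^ n • M := by
        rw [pow_succ' L n, mulS, ← mulS, mul_comm Li, hLL, ih.1.2.1]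
      rw [e1, e2, ih.1.2.2, ih.2.2.2] at h1
      push_cast
      push_cast at h1
      linarith

/-- The coefficient of `n` in the diagonal Hilbert polynomial. -/
noncomputable def lam (F : Chart → Submodule ℂ V) : ℤ := ca F + cb F

omit [Module C V] [IsScalarTower ℂ C V] [IsScalarTower K C V] in
theorem lam_eq (F : Chart → Submodule ℂ V) : lam F = chi F 1 0 + chi F 0 1 - 2 * chi F 0 0 := by
  unfold lam ca cb; ring

omit [Module C V] [IsScalarTower ℂ C V] [IsScalarTower K C V] in
theorem lead_congr {W : Type*} [AddCommGroup W] [Module ℂ W] [Module K W] [IsScalarTower ℂ K W]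
    {F : Chart → Submodule ℂ V} {G : Chart → Submodule ℂ W} (h : ∀ a b, chi F a b = chi G a b) :
    lead F = lead G := by
  unfold lead; rw [h, h, h, h]

omit [Module C V] [IsScalarTower ℂ C V] [IsScalarTower K C V] in
theorem lam_congr {W : Type*} [AddCommGroup W] [Module ℂ W] [Module K W] [IsScalarTower ℂ K W]
    {F : Chart → Submodule ℂ V} {G : Chart → Submodule ℂ W} (h : ∀ a b, chi F a b = chi G a b) :
    lam F = lam G := by
  rw [lam_eq, lam_eq, h, h, h]

/-- Semistability of a lattice with respect to sublattices stable under `O`. -/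
def Sst (O : Chart → Submodule ℂ C) (F : Chart → Submodule ℂ V) : Prop :=
  ∀ E : Chart → Submodule ℂ V, IsLat E → O • E = E → E ≤ F →
    lam E * lead F ≤ lam F * lead E

/-- Étale double covers: semistability over the cover implies semistability below. -/
theorem Sst.descend [Module.Finite K V] [Module.Finite K C] {I : Chart → Submodule ℂ C}
    (hO : IsRingLat O) (hI : IsLat I) (hIO : I * O = I) (hII : I * I = O)
    (hF : (O ⊔ I) • F = F) (h : Sst (O ⊔ I) F) : Sst O F := by
  intro E hE hOE hEF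
  have hIE : IsLat (I • E) := hI.fsmul hE
  have hIF : I • F ≤ F := by
    conv_rhs => rw [← hF]
    exact SmonoL le_sup_right F
  have hIEF : I • E ≤ F := (SmonoR I hEF).trans hIF
  have hOIE : O • I • E = I • E := by rw [← mulS, mul_comm, hIO]
  have hIIE : I • I • E = E := by rw [← mulS, hII, hOE]
  have hchi : ∀ a b, chi (I • E) a b = chi E a b := by
    intro a b
    exact dlem hO hI hIO isUnit_one (by rw [hII, ln_one, one_mul]) hE hOE a b
  have hsum := hE.chi_sup hIE
  have h1 := h (E ⊔ I • E) (hE.sup hIE) (by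
    rw [supS, Ssup, Ssup, hOE, hOIE, hIIE, sup_comm (I • E) E, sup_idem]) (sup_le hEF hIEF)
  have hIinf : I • (E ⊓ I • E) = E ⊓ I • E := by
    rw [Sinf hO hIO hII hOE hOIE, hIIE, inf_comm]
  have hOinf : O • (E ⊓ I • E) = E ⊓ I • E := by
    apply hO.smul_eq_of_le
    apply le_inf
    · exact (SmonoR O inf_le_left).trans hOE.le
    · exact (SmonoR O inf_le_right).trans hOIE.le
  have h2 := h (E ⊓ I • E) (hE.inf hIE) (by
    rw [supS, hIinf, hOinf, sup_idem]) (inf_le_left.trans hEF)
  have e1 : lam (E ⊔ I • E) + lam (E ⊓ I • E) = 2 * lam E := by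
    rw [lam_eq, lam_eq, lam_eq]
    have a1 := hsum 1 0
    have a2 := hsum 0 1
    have a3 := hsum 0 0
    rw [hchi] at a1 a2 a3
    linarith
  have e2 : lead (E ⊔ I • E) + lead (E ⊓ I • E) = 2 * lead E := by
    unfold lead
    have a1 := hsum 1 0
    have a2 := hsum 0 1
    have a3 := hsum 0 0
    have a4 := hsum 1 1
    rw [hchi] at a1 a2 a3 a4
    linarith
  have h3 : (lam (E ⊔ I • E) + lam (E ⊓ I • E)) * lead F ≤
      lam F * (lead (E ⊔ I • E) + lead (E ⊓ I • E)) := by linarith
  rw [e1, e2] at h3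
  linarith

end

end Pool.Agent.Lib.LP
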