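import Pool.Agent.Lib.MP_865fc0_ag.Semi
import Pool.Agent.Lib.MP_865fc0_ag.SurfData

/-!
# Statements needed about the lattices on the explicit surface
-/

open scoped Pointwise

namespace Pool.Agent.Lib.LP

section

variable (L : Type) [Field L] [Algebra ℂ L] [Algebra K L] [IsScalarTower ℂ K L]

/-- Spec of module `SurfRing`: the structure sheaf is a lattice of rings. -/
def SurfRing : Prop := SurfIntegral L → Nonempty (SurfData L) → IsRingLat (strSheaf L)

/-- Spec of module `SurfChi`: the Hilbert polynomial of the structure sheaf. -/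
def SurfChi : Prop := SurfIntegral L → Nonempty (SurfData L) →
  ∀ a b, chi (strSheaf L) a b = 8 * a * b - 4 * a - 4 * b + 2

/-- Spec of module `SurfOmega`: the canonical sheaf is a square root of `O(2,2)`. -/
def SurfOmega : Prop := SurfIntegral L → Nonempty (SurfData L) →
  IsLat (canonicalSheaf L) ∧ canonicalSheaf L * strSheaf L = canonicalSheaf L ∧
  canonicalSheaf L * canonicalSheaf L =
    ln (algebraMap K L (∏ β : Br, tB β)⁻¹) * tw 2 2 (strSheaf L)

/-- Spec of module `SurfD`: the reduced ramification divisors. -/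
def SurfD : Prop := SurfIntegral L → Nonempty (SurfData L) →
  (∀ β : Br, β.1 = false → ∃ D : Chart → Submodule ℂ L,
    IsLat D ∧ D * strSheaf L = D ∧ D ≤ strSheaf L ∧
    D * D = ln (algebraMap K L (tB β)) * tw (-1) 0 (strSheaf L)) ∧
  (∀ β : Br, β.1 = true → ∃ D : Chart → Submodule ℂ L,
    IsLat D ∧ D * strSheaf L = D ∧ D ≤ strSheaf L ∧
    D * D = ln (algebraMap K L (tB β)) * tw 0 (-1) (strSheaf L))

end

end Pool.Agent.Lib.LP
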