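import Pool.Agent.Lib.MP_865fc0_ag.Level

/-!
# Twisting semistable lattices by fractional powers of a line bundle
-/

open scoped Pointwise
open Filter

namespace Pool.Agent.Lib.LP

/-- There is a semistable lattice with Hilbert polynomial `f`. -/
def HasSst (C : Type) [CommRing C] [Algebra ℂ C] [Algebra K C] [IsScalarTower ℂ K C]
    (O : Chart → Submodule ℂ C) (f : ℤ → ℤ → ℤ) : Prop :=
  ∃ (V : Type) (_ : AddCommGroup V) (_ : Module ℂ V) (_ : Module K V) (_ : IsScalarTower ℂ K V)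
    (_ : Module C V) (_ : IsScalarTower ℂ C V) (_ : IsScalarTower K C V) (_ : Module.Finite K V)
    (M : Chart → Submodule ℂ V), IsLat M ∧ O • M = M ∧ Sst O M ∧ ∀ a b, chi M a b = f a b

namespace Lev

variable {C : Type} [CommRing C] [Algebra ℂ C] [Algebra K C] [IsScalarTower ℂ K C]
variable {p q : ℤ} {k : ℕ} (v : Lev C p q k)
variable {V : Type} [AddCommGroup V] [Module ℂ V] [Module K V] [IsScalarTower ℂ K V]
variable [Module C V] [IsScalarTower ℂ C V] [IsScalarTower K C V] [Module.Finite K V]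
variable {M : Chart → Submodule ℂ V}

theorem L_eq_l : v.L = v.O ⊔ ln (v.l 0) * v.O := by
  unfold l
  rw [ln_sub_sup_O, v.L_eq]

theorem chi_L (hM : IsLat M) (hOM : v.O • M = M) (a b : ℤ) :
    2 ^ k * (chi (v.L • M) a b - chi M a b) = chi M (a + p) (b + q) - chi M a b := by
  have h1 := (pencil_pow v.hO (v.unit 0) v.L_eq_l v.L_mul_Li v.hL v.hLi hM hOM (2 ^ k)).1.2.2 a b
  have h2 : v.L ^ 2 ^ k • M = ln v.y • tw p q M := by
    rw [v.L_pow, mulS, tw_fsmul, hOM]
  rw [h2, (hM.tw p q).chi_ln v.hy, hM.chi_tw] at h1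
  push_cast at h1
  linarith

theorem lead_L (hM : IsLat M) (hOM : v.O • M = M) : lead (v.L • M) = lead M := by
  have h11 := v.chi_L hM hOM 1 1
  have h10 := v.chi_L hM hOM 1 0
  have h01 := v.chi_L hM hOM 0 1
  have h00 := v.chi_L hM hOM 0 0
  have e := hM.chi_eq
  have hk : (2 : ℤ) ^ k ≠ 0 := by positivity
  apply mul_left_cancel₀ hk
  have : lead (v.L • M) = chi (v.L • M) 1 1 - chi (v.L • M) 1 0 - chi (v.L • M) 0 1 +
    chi (v.L • M) 0 0 := rfl
  rw [this]
  have h2 : lead M = chi M 1 1 - chi M 1 0 - chi M 0 1 + chi M 0 0 := rfl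
  rw [e (1 + p), e 1 1] at h11
  rw [e (1 + p), e 1 0] at h10
  rw [e (0 + p), e 0 1] at h01
  rw [e (0 + p), e 0 0] at h00
  linear_combination h11 - h10 - h01 + h00

theorem lam_L (hM : IsLat M) (hOM : v.O • M = M) :
    2 ^ k * lam (v.L • M) = 2 ^ k * lam M + (p + q) * lead M := by
  have h10 := v.chi_L hM hOM 1 0
  have h01 := v.chi_L hM hOM 0 1
  have h00 := v.chi_L hM hOM 0 0
  have e := hM.chi_eq
  rw [lam_eq, lam_eq]
  rw [e (1 + p)] at h10
  rw [e (0 + p)] at h01
  rw [e (0 + p)] at h00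
  have e10 := e 1 0
  have e01 := e 0 1
  have e00 := e 0 0
  linear_combination h10 + h01 - 2 * h00 - e10 - e01 + 2 * e00

theorem O_smul_L : v.O • v.L • M = v.L • M := by
  rw [← mulS, mul_comm, v.L_mul_O]

theorem O_smul_Li : v.O • v.Li • M = v.Li • M := by
  rw [← mulS, mul_comm, v.Li_mul_O]

theorem sst_L (hM : IsLat M) (hOM : v.O • M = M) (h : Sst v.O M) : Sst v.O (v.L • M) := by
  intro E hE hOE hEM
  have hk : (0 : ℤ) < 2 ^ k := by positivity
  have hE' : IsLat (v.Li • E) := v.hLi.fsmul hE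
  have h1 := h (v.Li • E) hE' v.O_smul_Li (by
    have := SmonoR v.Li hEM
    rwa [← mulS v.Li v.L M, mul_comm v.Li, v.L_mul_Li, hOM] at this)
  have hLE : v.L • v.Li • E = E := by rw [← mulS, v.L_mul_Li, hOE]
  have e1 := v.lead_L hE' v.O_smul_Li
  have e2 := v.lam_L hE' v.O_smul_Li
  rw [hLE] at e1 e2
  have e3 := v.lead_L hM hOM
  have e4 := v.lam_L hM hOM
  rw [e3]
  have h2 : 2 ^ k * (lam E * lead M) ≤ 2 ^ k * (lam (v.L • M) * lead E) := by
    calc 2 ^ k * (lam E * lead M) = (2 ^ k * lam E) * lead M := by ring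
      _ = (2 ^ k * lam (v.Li • E) + (p + q) * lead (v.Li • E)) * lead M := by rw [e2]
      _ = 2 ^ k * (lam (v.Li • E) * lead M) + (p + q) * lead (v.Li • E) * lead M := by ring
      _ ≤ 2 ^ k * (lam M * lead (v.Li • E)) + (p + q) * lead (v.Li • E) * lead M := by
          have := mul_le_mul_of_nonneg_left h1 hk.le
          linarith
      _ = (2 ^ k * lam M + (p + q) * lead M) * lead (v.Li • E) := by ring
      _ = (2 ^ k * lam (v.L • M)) * lead E := by rw [e4, e1]
      _ = _ := by ring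
  exact le_of_mul_le_mul_left h2 hk

theorem sst_Li (hM : IsLat M) (hOM : v.O • M = M) (h : Sst v.O M) : Sst v.O (v.Li • M) := by
  intro E hE hOE hEM
  have hk : (0 : ℤ) < 2 ^ k := by positivity
  have h1 := h (v.L • E) (v.hL.fsmul hE) v.O_smul_L (by
    have := SmonoR v.L hEM
    rwa [← mulS v.L v.Li M, v.L_mul_Li, hOM] at this)
  have hLM : v.L • v.Li • M = M := by rw [← mulS, v.L_mul_Li, hOM]
  have e1 := v.lead_L hE hOE
  have e2 := v.lam_L hE hOE
  have e3 := v.lead_L (v.hLi.fsmul hM) v.O_smul_Li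
  have e4 := v.lam_L (v.hLi.fsmul hM) v.O_smul_Li
  rw [hLM] at e3 e4
  rw [← e3]
  have h2 : 2 ^ k * (lam E * lead M) ≤ 2 ^ k * (lam (v.Li • M) * lead E) := by
    calc 2 ^ k * (lam E * lead M) = (2 ^ k * lam E) * lead M := by ring
      _ = (2 ^ k * lam (v.L • E) - (p + q) * lead E) * lead M := by rw [e2]; ring
      _ = 2 ^ k * (lam (v.L • E) * lead M) - (p + q) * lead E * lead M := by ring
      _ ≤ 2 ^ k * (lam M * lead (v.L • E)) - (p + q) * lead E * lead M := by
          have := mul_le_mul_of_nonneg_left h1 hk.le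
          linarith
      _ = (2 ^ k * lam M - (p + q) * lead M) * lead E := by rw [e1]; ring
      _ = (2 ^ k * lam (v.Li • M)) * lead E := by rw [e4, e3]; ring
      _ = _ := by ring
  exact le_of_mul_le_mul_left h2 hk

theorem pow_L (hM : IsLat M) (hOM : v.O • M = M) (h : Sst v.O M) (n : ℕ) :
    IsLat (v.L ^ n • M) ∧ v.O • v.L ^ n • M = v.L ^ n • M ∧ Sst v.O (v.L ^ n • M) ∧
    ∀ a b, chi (v.L ^ n • M) a b = chi M a b + n * (chi (v.L • M) a b - chi M a b) := by
  have h1 := (pencil_pow v.hO (v.unit 0) v.L_eq_l v.L_mul_Li v.hL v.hLi hM hOM n).1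
  refine ⟨h1.1, h1.2.1, ?_, h1.2.2⟩
  clear h1
  induction n with
  | zero => rw [pow_zero, oneS]; exact h
  | succ n ih =>
    rw [pow_succ', mulS]
    have h1 := (pencil_pow v.hO (v.unit 0) v.L_eq_l v.L_mul_Li v.hL v.hLi hM hOM n).1
    exact v.sst_L h1.1 h1.2.1 ih

theorem pow_Li (hM : IsLat M) (hOM : v.O • M = M) (h : Sst v.O M) (n : ℕ) :
    IsLat (v.Li ^ n • M) ∧ v.O • v.Li ^ n • M = v.Li ^ n • M ∧ Sst v.O (v.Li ^ n • M) ∧
    (∀ a b, chi (v.Li ^ n • M) a b = chi M a b - n * (chi (v.L • M) a b - chi M a b)) ∧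
    (∀ a b, chi (v.Li ^ (n + 1) • M) a b = chi M a b - (n + 1) * (chi (v.L • M) a b - chi M a b)) := by
  induction n with
  | zero =>
    refine ⟨?_, ?_, ?_, ?_, ?_⟩
    · rw [pow_zero, oneS]; exact hM
    · rw [pow_zero, oneS]; exact hOM
    · rw [pow_zero, oneS]; exact h
    · intro a b; rw [pow_zero, oneS]; simp
    · intro a b
      have h1 := pencil v.hO (v.unit 0) v.L_eq_l v.L_mul_Li v.hLi hM hOM a b
      rw [zero_add, pow_one]
      push_cast
      linarith
  | succ n ih =>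
    obtain ⟨i1, i2, i3, i4, i5⟩ := ih
    have j1 : IsLat (v.Li ^ (n + 1) • M) := by rw [pow_succ', mulS]; exact v.hLi.fsmul i1
    have j2 : v.O • v.Li ^ (n + 1) • M = v.Li ^ (n + 1) • M := by
      rw [pow_succ' v.Li, mulS, v.O_smul_Li]
    refine ⟨j1, j2, ?_, ?_, ?_⟩
    · rw [pow_succ', mulS]; exact v.sst_Li i1 i2 i3
    · intro a b; rw [i5]; push_cast; ring
    · intro a b
      have h1 := pencil v.hO (v.unit 0) v.L_eq_l v.L_mul_Li v.hLi j1 j2 a b
      have e1 : v.L • v.Li ^ (n + 1) • M = v.Li ^ n • M := by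
        rw [pow_succ' v.Li n, mulS, ← mulS v.L, v.L_mul_Li, i2]
      have e2 : v.Li • v.Li ^ (n + 1) • M = v.Li ^ (n + 1 + 1) • M := by
        rw [pow_succ' v.Li (n + 1), mulS v.Li (v.Li ^ (n + 1))]
      rw [e1, e2, i4, i5] at h1
      push_cast at h1 ⊢
      linarith

end Lev

/-- The main induction: semistable lattices with Hilbert polynomial
`2^n P + j (P_L - P)`. -/
theorem tower (p q : ℤ) (n : ℕ) : ∀ (C : Type) [CommRing C] [Algebra ℂ C] [Algebra K C]
    [IsScalarTower ℂ K C] [Module.Finite K C] (k : ℕ) (v : Lev C p q k)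
    (V : Type) [AddCommGroup V] [Module ℂ V] [Module K V] [IsScalarTower ℂ K V]
    [Module C V] [IsScalarTower ℂ C V] [IsScalarTower K C V] [Module.Finite K V]
    (M : Chart → Submodule ℂ V), IsLat M → v.O • M = M → Sst v.O M → ∀ j : ℤ,
    HasSst C v.O (fun a b => 2 ^ n * chi M a b + j * (chi (v.L • M) a b - chi M a b)) := by
  induction n with
  | zero =>
    intro C _ _ _ _ _ k v V _ _ _ _ _ _ _ _ M hM hOM hS j
    rcases Int.eq_nat_or_neg j with ⟨m, rfl | rfl⟩
    · obtain ⟨h1, h2, h3, h4⟩ := v.pow_L hM hOM hS m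
      refine ⟨V, inferInstance, inferInstance, inferInstance, inferInstance, inferInstance,
        inferInstance, inferInstance, inferInstance, _, h1, h2, h3, fun a b => ?_⟩
      rw [h4]; push_cast; ring
    · obtain ⟨h1, h2, h3, h4, -⟩ := v.pow_Li hM hOM hS m
      refine ⟨V, inferInstance, inferInstance, inferInstance, inferInstance, inferInstance,
        inferInstance, inferInstance, inferInstance, _, h1, h2, h3, fun a b => ?_⟩
      rw [h4]; push_cast; ring
  | succ n ih =>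
    intro C _ _ _ _ _ k v V _ _ _ _ _ _ _ _ M hM hOM hS j
    have hMI : IsLat (v.O' • jm v.e M) := v.isRingLat_O'.lat.fsmul hM.jm
    have hOMI : v.O' • v.O' • jm v.e M = v.O' • jm v.e M := by rw [← mulS, v.O'_mul_O']
    have hSI : Sst v.O' (v.O' • jm v.e M) :=
      hS.pullback v.hO v.isLat_Dn v.Dn_mul_O v.e_mul_e' v.Dn_mul_Dn hM hOM
    have hfin : Module.Finite K (QA C v.e) := Module.Finite.trans C (QA C v.e)
    obtain ⟨V', i1, i2, i3, i4, i5, i6, i7, i8, M', h1, h2, h3, h4⟩ :=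
      ih (QA C v.e) (k + 1) v.next (Dbl V v.e) (v.O' • jm v.e M) hMI hOMI hSI j
    letI : Module C V' := Module.compHom V' (algebraMap C (QA C v.e))
    haveI t1 : IsScalarTower C (QA C v.e) V' :=
      ⟨fun c z w => by
        rw [Algebra.smul_def, mul_smul]; rfl⟩
    haveI t2 : IsScalarTower ℂ C V' :=
      ⟨fun c z w => by
        show algebraMap C (QA C v.e) (c • z) • w = c • algebraMap C (QA C v.e) z • w
        rw [← smul_assoc c]
        congr 1
        rw [Algebra.smul_def c z, map_mul, ← IsScalarTower.algebraMap_apply, ← Algebra.smul_def]⟩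
    haveI t3 : IsScalarTower K C V' :=
      ⟨fun c z w => by
        show algebraMap C (QA C v.e) (c • z) • w = c • algebraMap C (QA C v.e) z • w
        rw [← smul_assoc c]
        congr 1
        rw [Algebra.smul_def c z, map_mul, ← IsScalarTower.algebraMap_apply, ← Algebra.smul_def]⟩
    have hsub : v.O • M' ≤ M' := by
      rw [← iota_smul v.e]
      conv_rhs => rw [← h2]
      exact SmonoL (show iota v.e v.O ≤ v.O' from le_sup_left) M'
    refine ⟨V', i1, i2, i3, i4, inferInstance, t2, t3, i8, M', h1, v.hO.smul_eq_of_le hsub, ?_, ?_⟩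
    · have hd := Sst.descend (isRingLat_iota (e := v.e) v.hO) (isLat_cov_I v.isLat_Dn)
        (cov_I_mul_O v.Dn_mul_O) (cov_I_mul_I v.e_mul_e' v.Dn_mul_Dn) h2 h3
      intro E hE hOE hEM
      exact hd E hE (by rw [iota_smul]; exact hOE) hEM
    · intro a b
      rw [h4]
      have e1 : ∀ a b, chi (v.O' • jm v.e M) a b = 2 * chi M a b :=
        chi_covO_smul_jm v.hO v.isLat_Dn v.Dn_mul_O v.e_mul_e' v.Dn_mul_Dn hM hOM
      have e2 : ∀ a b, chi (v.O' • jm v.e (v.L • M)) a b = 2 * chi (v.L • M) a b :=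
        chi_covO_smul_jm v.hO v.isLat_Dn v.Dn_mul_O v.e_mul_e' v.Dn_mul_Dn (v.hL.fsmul hM)
          v.O_smul_L
      have e3 := v.next.chi_L hMI hOMI a b
      have e4 := v.chi_L hM hOM a b
      have e5 : chi (v.next.L • v.O' • jm v.e M) a b - chi (v.O' • jm v.e M) a b =
          chi (v.L • M) a b - chi M a b := by
        have hk : (2 : ℤ) ^ (k + 1) ≠ 0 := by positivity
        apply mul_left_cancel₀ hk
        rw [e3, e1, e1, pow_succ]
        linear_combination -2 * e4
      beta_reduce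
      rw [e5, e1, pow_succ]
      ring

end Pool.Agent.Lib.LP
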