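import Pool.Agent.Lib.MP_865fc0_ag.Tower

/-!
# Comparison of the official definitions with the internal ones
-/

open scoped Pointwise
open Filter

namespace Pool.Agent.Lib.LP

section

variable {V : Type*} [AddCommGroup V] [Module ℂ V] [Module K V] [IsScalarTower ℂ K V]
variable {F G E : Chart → Submodule ℂ V}

theorem sections_eq (F : Chart → Submodule ℂ V) (a b : ℤ) : sections F a b = Sec F a b := by
  ext v
  rw [mem_Sec]
  rfl

theorem finrank_sections (F : Chart → Submodule ℂ V) (a b : ℤ) :
    (Module.finrank ℂ (sections F a b) : ℤ) = h0 F a b := by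
  rw [sections_eq]; rfl

theorem isHilbertPolynomial_iff {p : ℤ → ℤ → ℤ} :
    IsHilbertPolynomial F p ↔ IsBil p ∧ HasP F p := by
  unfold IsHilbertPolynomial IsBil HasP
  simp only [finrank_sections]

theorem IsLat.eulerChar_eq [Module.Finite K V] (hF : IsLat F) (a b : ℤ) :
    eulerChar F a b = chi F a b := by
  have h : ∃ p, IsHilbertPolynomial F p := by
    obtain ⟨p, hp⟩ := hF.exists_P
    exact ⟨p, isHilbertPolynomial_iff.2 hp⟩
  unfold eulerChar
  rw [dif_pos h]
  obtain ⟨h1, h2⟩ := isHilbertPolynomial_iff.1 h.choose_spec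
  exact (hF.chi_unique h1 h2 a b).symm

theorem IsLat.linCoeff_eq [Module.Finite K V] (hF : IsLat F) : linCoeff F = lam F := by
  unfold linCoeff
  rw [hF.eulerChar_eq, hF.eulerChar_eq, hF.chi_eq 1 1, hF.chi_eq (-1) (-1)]
  unfold lam
  push_cast
  ring

theorem nonneg_of_eventually' {b c : ℤ}
    (h : ∀ᶠ n : ℕ in atTop, 0 ≤ b * (n : ℤ) + c) : 0 ≤ b := by
  apply nonneg_of_eventually (b := c) (c := 0)
  filter_upwards [h] with n hn
  have := mul_nonneg hn (Int.natCast_nonneg n)
  nlinarith

theorem IsLat.lam_le [Module.Finite K V] (hE : IsLat E) (hF : IsLat F) (hEF : E ≤ F)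
    (hl : lead E = lead F) : lam E ≤ lam F := by
  have h : 0 ≤ lam F - lam E := by
    apply nonneg_of_eventually' (c := chi F 0 0 - chi E 0 0)
    filter_upwards [hE.h0_diag, hF.h0_diag] with n h1 h2
    have : Module.Finite ℂ (Sec F (n : ℤ) n) := Module.Finite.iff_fg.2 (hF.fg_Sec n)
    have h3 : Module.finrank ℂ (Sec E (n : ℤ) n) ≤ Module.finrank ℂ (Sec F (n : ℤ) n) :=
      Submodule.finrank_mono (Sec_mono hEF _ _)
    zify at h3
    rw [h1, h2, hl] at h3
    unfold lam
    linarith
  linarith

theorem IsLat.eq_bot_of_lead [Module.Finite K V] (hE : IsLat E) (h : lead E = 0) : E = ⊥ := by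
  rw [hE.lead_eq] at h
  have h1 : Submodule.span K (E (false, false) : Set V) = ⊥ := by
    rw [← Submodule.finrank_eq_zero (R := K)]
    exact_mod_cast h
  funext s
  rw [Pi.bot_apply, eq_bot_iff]
  intro v hv
  have := hE.mem_span hv
  rw [h1, Submodule.mem_bot] at this
  rw [Submodule.mem_bot]
  exact this

theorem lam_bot [Module.Finite K V] : lam (⊥ : Chart → Submodule ℂ V) = 0 := by
  rw [lam_eq, IsLat.chi_bot, IsLat.chi_bot, IsLat.chi_bot]; ring

/-- Preimages of lattices inside a lattice. -/
theorem IsLat.inf_comap {V' : Type*} [AddCommGroup V'] [Module ℂ V'] [Module K V']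
    [IsScalarTower ℂ K V'] {N : Chart → Submodule ℂ V'} (hF : IsLat F) (hN : IsLat N)
    (φ : V →ₗ[K] V') : IsLat (fun s => F s ⊓ (N s).comap (φ.restrictScalars ℂ)) where
  fg := by
    intro s
    obtain ⟨T, hT, h'⟩ := hF.fg s
    refine exists_fg_of_le s ?_ hT (inf_le_left.trans h'.le)
    rw [Submodule.smul_le]
    rintro r hr v ⟨hv1, hv2⟩
    refine ⟨hF.smul_mem hr hv1, ?_⟩
    show φ (r • v) ∈ N s
    rw [map_smul]
    exact hN.smul_mem hr hv2
  glue := by
    rintro s t v ⟨hv1, hv2⟩
    obtain ⟨n, hn⟩ := hF.glue s t v hv1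
    obtain ⟨m, hm⟩ := hN.glue s t _ hv2
    refine ⟨max n m, hF.glue_mono (le_max_left _ _) hn, ?_⟩
    show φ ((w s / w t) ^ max n m • v) ∈ N t
    rw [map_smul]
    exact hN.glue_mono (le_max_right _ _) hm

end

section

variable {A : Type*} [CommRing A] [Algebra ℂ A]
variable {M : Type*} [AddCommGroup M] [Module ℂ M] [Module A M] [IsScalarTower ℂ A M]

theorem subalgebra_smul_span (B : Subalgebra ℂ A) (t : Set M) :
    (Subalgebra.toSubmodule B • Submodule.span ℂ t : Submodule ℂ M) =
      (Submodule.span B t).restrictScalars ℂ := by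
  apply le_antisymm
  · rw [Submodule.smul_le]
    intro r hr v hv
    have h1 : v ∈ Submodule.span B t :=
      (Submodule.span_le.2 (Submodule.subset_span (R := B)) :
        Submodule.span ℂ t ≤ (Submodule.span B t).restrictScalars ℂ) hv
    exact (Submodule.span B t).smul_mem (⟨r, hr⟩ : B) h1
  · intro v hv
    rw [Submodule.restrictScalars_mem] at hv
    induction hv using Submodule.span_induction with
    | mem v hv =>
      rw [← one_smul A v]
      exact Submodule.smul_mem_smul B.one_mem (Submodule.subset_span hv)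
    | zero => exact Submodule.zero_mem _
    | add a b _ _ ha hb => exact Submodule.add_mem _ ha hb
    | smul a b _ hb =>
      have h2 : (a : A) • b ∈ Subalgebra.toSubmodule B •
          (Subalgebra.toSubmodule B • Submodule.span ℂ t) := Submodule.smul_mem_smul a.2 hb
      rw [smul_smul_sub, Subalgebra.isIdempotentElem_toSubmodule B] at h2
      exact h2

end

/-- What is needed about the surface. -/
structure SurfFacts (L : Type) [Field L] [Algebra ℂ L] [Algebra K L] [IsScalarTower ℂ K L] :
    Prop where
  ring : IsRingLat (strSheaf L)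
  chi_O : ∀ a b, chi (strSheaf L) a b = 8 * a * b - 4 * a - 4 * b + 2
  fin : Module.Finite K L
  finrank : Module.finrank K L = 8
  omega_lat : IsLat (canonicalSheaf L)
  omega_mul_O : canonicalSheaf L * strSheaf L = canonicalSheaf L
  omega_sq : ∃ d : L, IsUnit d ∧
    canonicalSheaf L * canonicalSheaf L = ln d * tw 2 2 (strSheaf L)
  base_x : ∃ v : Lev L 1 0 0, v.O = strSheaf L
  base_u : ∃ v : Lev L 0 1 0, v.O = strSheaf L

section sheaf

variable {L : Type} [Field L] [Algebra ℂ L] [Algebra K L] [IsScalarTower ℂ K L]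
variable {V : Type*} [AddCommGroup V] [Module ℂ V] [Module K V] [IsScalarTower ℂ K V]
variable [Module L V] [IsScalarTower ℂ L V] [IsScalarTower K L V]
variable {F E : Chart → Submodule ℂ V}

theorem isSheaf_fg_iff {s : Chart} {T : Finset V} :
    (F s : Set V) = Submodule.span (Oalg L s) (T : Set V) ↔
      F s = strSheaf L s • Submodule.span ℂ (T : Set V) := by
  unfold strSheaf
  rw [subalgebra_smul_span]
  constructor
  · intro h
    apply SetLike.coe_injective
    rw [h]
    rfl
  · intro h
    rw [h]
    rfl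

theorem IsSheaf.isLat (H : SurfFacts L) (hF : IsSheaf L F) : IsLat F where
  fg := by
    intro s
    obtain ⟨T, hT⟩ := hF.fg s
    rw [isSheaf_fg_iff] at hT
    obtain ⟨T0, hT0, h0⟩ := H.ring.lat.fg s
    refine ⟨T0 • Submodule.span ℂ (T : Set V),
      fg_smul hT0 (Submodule.fg_span T.finite_toSet), ?_⟩
    rw [hT, h0]
    exact Submodule.smul_assoc (R s) T0 _
  glue := hF.glue

theorem IsSheaf.stable (H : SurfFacts L) (hF : IsSheaf L F) : strSheaf L • F = F := by
  funext s
  obtain ⟨T, hT⟩ := hF.fg s
  rw [isSheaf_fg_iff] at hT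
  show strSheaf L s • F s = F s
  conv_lhs => rw [hT]
  conv_rhs => rw [hT]
  rw [smul_smul_sub]
  congr 1
  exact congrFun H.ring.mul s

theorem IsSheaf.of_lat (H : SurfFacts L) (hF : IsLat F) (hO : strSheaf L • F = F) :
    IsSheaf L F where
  fg := by
    intro s
    obtain ⟨T, ⟨t, ht⟩, hT⟩ := hF.fg s
    refine ⟨t, ?_⟩
    rw [isSheaf_fg_iff, ht]
    apply le_antisymm
    · rw [hT, Submodule.smul_le]
      intro r hr v hv
      have h1 : algebraMap K L r ∈ strSheaf L s := by
        rw [Algebra.algebraMap_eq_smul_one]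
        exact H.ring.lat.smul_mem hr (Submodule.one_le.1 (H.ring.one s))
      rw [← algebraMap_smul L r v]
      exact Submodule.smul_mem_smul h1 hv
    · have h1 : T ≤ F s := by
        rw [hT]
        intro v hv
        rw [← one_smul K v]
        exact Submodule.smul_mem_smul (one_mem_R s) hv
      refine (Submodule.smul_mono le_rfl h1).trans ?_
      exact (congrFun hO s).le
  glue := hF.glue

theorem SurfFacts.span_O (H : SurfFacts L) :
    Submodule.span K (strSheaf L (false, false) : Set L) = ⊤ := by
  have := H.fin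
  apply Submodule.eq_top_of_finrank_eq
  have h1 := H.ring.lat.lead_eq
  have h2 : lead (strSheaf L) = 8 := by
    unfold lead
    rw [H.chi_O, H.chi_O, H.chi_O, H.chi_O]; ring
  rw [h2] at h1
  rw [H.finrank]
  exact_mod_cast h1.symm

/-- The `K`-span of a stable lattice is an `L`-subspace. -/
theorem SurfFacts.smul_mem_span (H : SurfFacts L) (hO : strSheaf L • F = F) (l : L) {v : V}
    (hv : v ∈ Submodule.span K (F (false, false) : Set V)) :
    l • v ∈ Submodule.span K (F (false, false) : Set V) := by
  have hl : l ∈ Submodule.span K (strSheaf L (false, false) : Set L) := by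
    rw [H.span_O]; trivial
  induction hv using Submodule.span_induction with
  | mem v hv =>
    induction hl using Submodule.span_induction with
    | mem l hl =>
      apply Submodule.subset_span
      have : l • v ∈ (strSheaf L • F) (false, false) := Submodule.smul_mem_smul hl hv
      rwa [hO] at this
    | zero => rw [zero_smul]; exact Submodule.zero_mem _
    | add a b _ _ ha hb => rw [add_smul]; exact Submodule.add_mem _ ha hb
    | smul a b _ hb => rw [smul_assoc]; exact Submodule.smul_mem _ _ hb
  | zero => rw [smul_zero]; exact Submodule.zero_mem _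
  | add a b _ _ ha hb => rw [smul_add]; exact Submodule.add_mem _ ha hb
  | smul a b _ hb => rw [smul_comm]; exact Submodule.smul_mem _ _ hb

theorem SurfFacts.lead_eq (H : SurfFacts L) [Module.Finite K V] (hF : IsLat F)
    (hO : strSheaf L • F = F) : lead F = 8 * rk L F := by
  rw [hF.lead_eq]
  unfold rk
  let U : Submodule L V :=
    { carrier := Submodule.span K (F (false, false) : Set V)
      add_mem' := fun h1 h2 => Submodule.add_mem _ h1 h2
      zero_mem' := Submodule.zero_mem _
      smul_mem' := fun l v hv => H.smul_mem_span hO l hv }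
  have hU : Submodule.span L (⋃ s, (F s : Set V)) = U := by
    apply le_antisymm
    · rw [Submodule.span_le]
      intro v hv
      obtain ⟨s, hs⟩ := Set.mem_iUnion.1 hv
      exact hF.mem_span hs
    · intro v hv
      have hv' : v ∈ Submodule.span K (F (false, false) : Set V) := hv
      have h1 : Submodule.span K (F (false, false) : Set V) ≤
          (Submodule.span L (⋃ s, (F s : Set V))).restrictScalars K := by
        rw [Submodule.span_le]
        intro v hv
        exact Submodule.subset_span (Set.mem_iUnion.2 ⟨_, hv⟩)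
      exact h1 hv'
  rw [hU]
  have h2 : Module.finrank K (Submodule.span K (F (false, false) : Set V)) =
      Module.finrank K U :=
    LinearEquiv.finrank_eq
      { toFun := fun v => ⟨v.1, v.2⟩
        map_add' := fun _ _ => rfl
        map_smul' := fun _ _ => rfl
        invFun := fun v => ⟨v.1, v.2⟩
        left_inv := fun _ => rfl
        right_inv := fun _ => rfl }
  have := H.fin
  rw [h2, ← Module.finrank_mul_finrank K L U, H.finrank]
  push_cast
  rfl

theorem SurfFacts.lam_O (H : SurfFacts L) : lam (strSheaf L) = -8 := by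
  rw [lam_eq, H.chi_O, H.chi_O, H.chi_O]; ring

theorem SurfFacts.deg_eq (H : SurfFacts L) [Module.Finite K V] (hF : IsLat F) :
    deg L F = lam F + 8 * rk L F := by
  have := H.fin
  unfold deg
  rw [hF.linCoeff_eq, H.ring.lat.linCoeff_eq, H.lam_O]
  push_cast
  ring

theorem SurfFacts.Hsq_eq (H : SurfFacts L) : Hsq L = 16 := by
  unfold Hsq; rw [H.finrank]; norm_num

theorem SurfFacts.chi_omega (H : SurfFacts L) [Module.Finite K V] (hF : IsLat F)
    (hO : strSheaf L • F = F) (a b : ℤ) :
    chi (canonicalSheaf L • F) a b = chi F (a + 1) (b + 1) := by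
  have := H.fin
  obtain ⟨d, hd, hsq⟩ := H.omega_sq
  set I := tw (-1) (-1) (canonicalSheaf L) with hI
  have hIlat : IsLat I := H.omega_lat.tw _ _
  have hIO : I * strSheaf L = I := by rw [hI, tw_mul, H.omega_mul_O]
  have hII : I * I = ln d * strSheaf L := by
    rw [hI, tw_mul, mul_comm, tw_mul, tw_tw, hsq, mul_comm, tw_mul, tw_tw]
    norm_num
    rw [tw_zero, mul_comm]
  have hω : canonicalSheaf L = tw 1 1 I := by
    rw [hI, tw_tw]
    norm_num
    rw [tw_zero]
  rw [hω, tw_fsmul, (hIlat.fsmul hF).chi_tw]
  exact dlem H.ring hIlat hIO hd hII hF hO _ _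

theorem SurfFacts.ch2_eq (H : SurfFacts L) [Module.Finite K V] (hF : IsLat F)
    (hO : strSheaf L • F = F) :
    ch2 L F = chi F 0 0 + lam F / 2 + 2 * rk L F := by
  have := H.fin
  have hωF : IsLat (canonicalSheaf L • F) := H.omega_lat.fsmul hF
  have h1 : twistCanonical L F = canonicalSheaf L • F := rfl
  unfold ch2
  rw [h1, hF.eulerChar_eq, hωF.eulerChar_eq, H.ring.lat.eulerChar_eq, H.chi_omega hF hO, H.chi_O,
    hF.chi_eq (0 + 1) (0 + 1), H.lead_eq hF hO]
  unfold lam
  push_cast
  ring

/-- Official semistability implies the internal one. -/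
theorem SurfFacts.sst_of_isSemistable (H : SurfFacts L) [Module.Finite K V] (hF : IsLat F)
    (hO : strSheaf L • F = F) (h : IsSemistable L F) : Sst (strSheaf L) F := by
  intro E hE hOE hEF
  have hlE := H.lead_eq hE hOE
  have hlF := H.lead_eq hF hO
  have hmono : lead E ≤ lead F := by
    rw [hE.lead_eq, hF.lead_eq]
    exact_mod_cast Submodule.finrank_mono (Submodule.span_mono (hEF _))
  rcases Nat.eq_zero_or_pos (rk L E) with h0 | h0
  · have hE0 : E = ⊥ := hE.eq_bot_of_lead (by rw [hlE, h0]; rfl)
    rw [hE0, lam_bot, hE0.symm, hlE, h0]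
    simp
  · have hle : rk L E ≤ rk L F := by
      rw [hlE, hlF] at hmono
      exact_mod_cast (mul_le_mul_iff_right₀ (show (0 : ℤ) < 8 by norm_num)).1 hmono
    rcases hle.lt_or_eq with hlt | heq
    · have h1 := h E (IsSheaf.of_lat H hE hOE) hEF h0 hlt
      rw [H.deg_eq hE, H.deg_eq hF] at h1
      have hE' : (0 : ℚ) < rk L E := by exact_mod_cast h0
      have hd : (0 : ℚ) < (rk L F : ℚ) - rk L E := by
        rw [sub_pos]; exact_mod_cast hlt
      rw [div_le_div_iff₀ hE' hd] at h1
      have h2 : (lam E : ℚ) * rk L F ≤ lam F * rk L E := by linarith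
      have h3 : (lam E * lead F : ℚ) ≤ lam F * lead E := by
        rw [hlE, hlF]
        push_cast
        linarith
      exact_mod_cast h3
    · have hl : lead E = lead F := by rw [hlE, hlF, heq]
      rw [← hl]
      exact mul_le_mul_of_nonneg_right (hE.lam_le hF hEF hl) hE.lead_nonneg

/-- Internal semistability implies the official one. -/
theorem SurfFacts.isSemistable_of_sst (H : SurfFacts L) [Module.Finite K V] (hF : IsLat F)
    (hO : strSheaf L • F = F) (h : Sst (strSheaf L) F) : IsSemistable L F := by
  intro E hE hEF h0 hlt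
  have hElat := hE.isLat H
  have hOE := hE.stable H
  have hlE := H.lead_eq hElat hOE
  have hlF := H.lead_eq hF hO
  have h1 := h E hElat hOE hEF
  rw [H.deg_eq hElat, H.deg_eq hF]
  have hE' : (0 : ℚ) < rk L E := by exact_mod_cast h0
  have hd : (0 : ℚ) < (rk L F : ℚ) - rk L E := by
    rw [sub_pos]; exact_mod_cast hlt
  rw [div_le_div_iff₀ hE' hd]
  rw [hlE, hlF] at h1
  have h2 : (lam E : ℚ) * (8 * rk L F) ≤ lam F * (8 * rk L E) := by exact_mod_cast h1
  linarith

end sheaf

end Pool.Agent.Lib.LP
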